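import Pool.Agent.H93.EF.Dom

set_option autoImplicit false

open Finset

namespace Pool.Agent.H93.EF

theorem p_zero {n k : ℕ} (hk : 0 < k) : p n k 0 ≤ 1 := by
  obtain ⟨F, hFn, hFK, hFc, hFD, hFS, -⟩ := exists_opt n k 0
  rw [← hFc, card_le_one]
  intro D hD E hE
  have h : ∀ D ∈ F, D = ∅ := by
    intro D hD
    have h1 := hFK (fun _ => D) (fun _ => hD)
    have h2 : D ⊆ univ.biUnion (fun _ : Fin k => D) := by
      intro x hx
      rw [mem_biUnion]
      exact ⟨⟨0, hk⟩, mem_univ _, hx⟩
    have h3 := card_le_card h2
    exact card_eq_zero.mp (by omega)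
  rw [h D hD, h E hE]

/-- `p(n,k,k) ≤ max(2^k, n+1)`. -/
theorem p_one {n k : ℕ} (hk : 2 ≤ k) : p n k k ≤ max (2 ^ k) (n + 1) := by
  classical
  obtain ⟨F, hFn, hFK, hFc, hFD, hFS, -⟩ := exists_opt n k k
  rw [← hFc]
  by_cases hne : F.Nonempty
  swap
  · rw [not_nonempty_iff_eq_empty] at hne
    rw [hne]; simp
  obtain ⟨D0, hD0⟩ := hne
  have h0 : ∅ ∈ F := hFD D0 hD0 ∅ (empty_subset _)
  by_cases hkF : {k} ∈ F
  · -- all members have at most one element
    have hone : ∀ D ∈ F, D.card ≤ 1 := by
      intro D hD
      by_contra hcon
      have h2 : range 2 ∈ F := range_mem hFD hFS hD (by omega)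
      refine no_cover hFK h0 (range k) (by rw [card_range])
        (fun a => if a = 0 then range 2 else {a + 1}) ?_ ?_
      · intro a ha
        rw [mem_range] at ha
        by_cases ha0 : a = 0
        · rw [if_pos ha0]; exact h2
        · rw [if_neg ha0]
          exact singleton_mem hFD hFS hkF (mem_singleton_self k) (by omega)
      · intro x hx
        by_cases hx2 : x < 2
        · exact ⟨0, by rw [mem_range]; omega, by simpa using hx2⟩
        · refine ⟨x - 1, by rw [mem_range]; omega, ?_⟩
          rw [if_neg (by omega), mem_singleton]
          omega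
    refine le_trans ?_ (le_max_right _ _)
    have hsub : F ⊆ (range n).powerset.filter (fun D => D.card ≤ 1) := by
      intro D hD
      rw [mem_filter]
      exact ⟨hFn hD, hone D hD⟩
    refine le_trans (card_le_card hsub) ?_
    rw [card_powerset_filter_card_le, card_range, sum_range_succ, sum_range_succ]
    simp [add_comm]
  · refine le_trans ?_ (le_max_left _ _)
    have hsub : F ⊆ (range k).powerset := by
      intro D hD
      rw [mem_powerset]
      intro x hx
      rw [mem_range]
      by_contra hxk
      exact hkF (singleton_mem hFD hFS hD hx (by omega))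
    refine le_trans (card_le_card hsub) ?_
    rw [card_powerset, card_range]

theorem num1 : ∀ k : ℕ, 3 ≤ k → k + 2 ≤ 2 ^ (k - 1) + 1 ∧ k + 5 ≤ 2 ^ k := by
  intro k hk
  induction k, hk using Nat.le_induction with
  | base => norm_num
  | succ m hm ih =>
    have h1 : 2 ^ (m + 1 - 1) = 2 * 2 ^ (m - 1) := by
      rw [← pow_succ']
      congr 1
      omega
    have h2 : 2 ^ (m + 1) = 2 * 2 ^ m := by rw [pow_succ']
    omega

theorem arithB {k : ℕ} (hk : 3 ≤ k) (t : ℕ) {a b : ℕ} (ha : 2 * a ≤ 2 ^ (k * 2))
    (hb : b ≤ t * (k + 2)) : a + b ≤ max (2 ^ (k * 2)) (2 ^ k * (t + k + 1)) := by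
  have hkpow : 2 ^ (k * 2) = 2 ^ k * 2 ^ k := by rw [mul_comm, two_mul, pow_add]
  have hnum := num1 k hk
  have h6 : 2 ^ k = 2 * 2 ^ (k - 1) := by
    rw [← pow_succ']; congr 1; omega
  rw [hkpow] at ha ⊢
  generalize 2 ^ (k - 1) = c at *
  generalize 2 ^ k = m at *
  subst h6
  have ha' : a ≤ 2 * c * c := by nlinarith
  by_cases htk : t + k + 1 ≤ 2 * c
  · refine le_trans ?_ (le_max_left _ _)
    obtain ⟨e, he⟩ : ∃ e, 2 * c = t + e + k + 1 := ⟨2 * c - t - k - 1, by omega⟩
    have h5 : t * (k + 2) ≤ t * (c + 1) := Nat.mul_le_mul_left _ hnum.1
    have h7 : t * (c + 1) ≤ 2 * c * c := by nlinarith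
    nlinarith
  · refine le_trans ?_ (le_max_right _ _)
    push Not at htk
    obtain ⟨e, he⟩ : ∃ e, t + k + 1 = 2 * c + e := ⟨t + k + 1 - 2 * c, by omega⟩
    rw [he]
    have h5 : t * (k + 2) ≤ t * (c + 1) := Nat.mul_le_mul_left _ hnum.1
    have h6 : t ≤ 2 * c + e := by omega
    have h7 : t * (c + 1) ≤ 2 * c * c + 2 * c * e := by nlinarith
    nlinarith

theorem arithA {k : ℕ} (hk : 3 ≤ k) (t : ℕ) {l a b e : ℕ} (hl : l ≤ 2 ^ k)
    (ha : a ≤ 2 ^ k * (k + 1)) (hb : b ≤ (2 ^ k - l) * (2 ^ k - (k + 1))) (he : e ≤ t * l) :
    a + b + e ≤ max (2 ^ (k * 2)) (2 ^ k * (t + k + 1)) := by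
  have hkpow : 2 ^ (k * 2) = 2 ^ k * 2 ^ k := by rw [mul_comm, two_mul, pow_add]
  have hnum := num1 k hk
  rw [hkpow]
  generalize 2 ^ k = c at *
  obtain ⟨u, hu⟩ : ∃ u, c = u + (k + 1) := ⟨c - (k + 1), by omega⟩
  obtain ⟨v, hv⟩ : ∃ v, c = v + l := ⟨c - l, by omega⟩
  have h1 : c - (k + 1) = u := by omega
  have h2 : c - l = v := by omega
  rw [h1, h2] at hb
  by_cases htk : t ≤ u
  · refine le_trans ?_ (le_max_left _ _)
    have h3 : t * l ≤ u * l := Nat.mul_le_mul_right _ htk
    have h4 : v * u + u * l = u * c := by rw [hv]; ring
    have h5 : c * (k + 1) + u * c = c * c := by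
      calc c * (k + 1) + u * c = c * (u + (k + 1)) := by ring
        _ = c * c := by rw [← hu]
    omega
  · refine le_trans ?_ (le_max_right _ _)
    have h3 : v * u ≤ v * t := Nat.mul_le_mul_left _ (by omega)
    have h4 : v * t + t * l = c * t := by
      calc v * t + t * l = (v + l) * t := by ring
        _ = c * t := by rw [← hv]
    have h5 : c * (t + k + 1) = c * t + c * (k + 1) := by ring
    omega

/-- Upper bound for `d = 2k`. -/
theorem p_two {n k : ℕ} (hk : 3 ≤ k) (_hn : 2 * k ≤ n) :
    p n k (k * 2) ≤ max (2 ^ (k * 2)) (max (2 ^ k * (n - k * 2 + k + 1))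
      (∑ j ∈ range 3, n.choose j)) := by
  classical
  obtain ⟨F, hFn, hFK, hFc, hFD, hFS, -⟩ := exists_opt n k (k * 2)
  rw [← hFc]
  by_cases hne : F.Nonempty
  swap
  · rw [not_nonempty_iff_eq_empty] at hne
    rw [hne]; simp
  obtain ⟨D0, hD0⟩ := hne
  have h0 : ∅ ∈ F := hFD D0 hD0 ∅ (empty_subset _)
  by_cases htwo : ∀ D ∈ F, D.card ≤ 2
  · refine le_trans ?_ (le_max_of_le_right (le_max_right _ _))
    have hsub : F ⊆ (range n).powerset.filter (fun D => D.card ≤ 2) := by
      intro D hD
      rw [mem_filter]
      exact ⟨hFn hD, htwo D hD⟩
    refine le_trans (card_le_card hsub) ?_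
    rw [card_powerset_filter_card_le, card_range]
  push Not at htwo
  obtain ⟨D3, hD3, hD3c⟩ := htwo
  have hr3 : range 3 ∈ F := range_mem hFD hFS hD3 (by omega)
  -- (a) the pair `{2k-1, 2k}` is not in `F`
  have ha : {k * 2 - 1, k * 2} ∉ F := by
    intro hp
    refine no_cover hFK h0 (range k) (by rw [card_range])
      (fun a => if a = 0 then range 3 else {a * 2 + 1, a * 2 + 2}) ?_ ?_
    · intro a ha
      rw [mem_range] at ha
      by_cases ha0 : a = 0
      · rw [if_pos ha0]; exact hr3
      · rw [if_neg ha0]
        exact pair_mem hFD hFS hp (x := k * 2 - 1) (y := k * 2) (by simp) (by simp)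
          (by omega) (by omega) (by omega) (by omega)
    · intro x hx
      by_cases hx3 : x < 3
      · exact ⟨0, by rw [mem_range]; omega, by simpa using hx3⟩
      · refine ⟨(x - 1) / 2, by rw [mem_range]; omega, ?_⟩
        rw [if_neg (by omega), mem_insert, mem_singleton]
        omega
  -- (b) two elements of a member cannot both be at least `2k-1`, one of them `≥ 2k`
  have hb : ∀ D ∈ F, ∀ x ∈ D, ∀ y ∈ D, x < y → k * 2 ≤ y → x < k * 2 - 1 := by
    intro D hD x hx y hy hxy hyk
    by_contra hcon
    exact ha (pair_mem hFD hFS hD hx hy hxy.ne (by omega) (by omega) hyk)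
  set L := (range (k * 2)).powerset.filter (fun U => insert (k * 2) U ∈ F) with hL
  have hLmem : ∀ U, U ∈ L ↔ U ⊆ range (k * 2) ∧ insert (k * 2) U ∈ F := by
    intro U; rw [hL, mem_filter, mem_powerset]
  set F1 := F.filter (fun D => D ⊆ range (k * 2)) with hF1
  set F2 := F.filter (fun D => ¬ D ⊆ range (k * 2)) with hF2
  have hsum : F1.card + F2.card = F.card := card_filter_add_card_filter_not _
  -- the part outside
  have hF2c : F2.card ≤ (n - k * 2) * L.card := by
    have : (n - k * 2) * L.card = (Ico (k * 2) n ×ˢ L).card := by
      rw [card_product, Nat.card_Ico]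
    rw [this]
    have hmax : ∀ D ∈ F2, ∃ x ∈ D, k * 2 ≤ x ∧ ∀ y ∈ D, y ≠ x → y < k * 2 - 1 := by
      intro D hD
      rw [hF2, mem_filter, not_subset] at hD
      obtain ⟨hDF, x, hx, hxr⟩ := hD
      rw [mem_range, not_lt] at hxr
      refine ⟨x, hx, hxr, ?_⟩
      intro y hy hyx
      rcases lt_or_gt_of_ne hyx with h | h
      · exact hb D hDF y hy x hx h hxr
      · have := hb D hDF x hx y hy h (by omega)
        omega
    choose! mx hmx1 hmx2 hmx3 using hmax
    refine card_le_card_of_injOn (fun D => (mx D, D.erase (mx D))) ?_ ?_
    · intro D hD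
      have hD' := mem_coe.mp hD
      have hDF : D ∈ F := by rw [hF2, mem_filter] at hD'; exact hD'.1
      rw [mem_coe, mem_product, mem_Ico, hLmem]
      refine ⟨⟨hmx2 D hD', mem_range.mp (mem_powerset.mp (hFn hDF) (hmx1 D hD'))⟩, ?_, ?_⟩
      · intro y hy
        rw [mem_erase] at hy
        have := hmx3 D hD' y hy.2 hy.1
        rw [mem_range]; omega
      · by_cases h : mx D = k * 2
        · change insert (k * 2) (D.erase (mx D)) ∈ F
          rw [← h, insert_erase (hmx1 D hD')]; exact hDF
        · refine hFS D hDF (k * 2) (mx D) ?_ (hmx1 D hD') ?_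
          · have := hmx2 D hD'; omega
          · intro hin
            have := hmx3 D hD' _ hin (fun h' => h h'.symm)
            omega
    · intro D hD E hE h
      have hD' := mem_coe.mp hD
      have hE' := mem_coe.mp hE
      simp only [Prod.mk.injEq] at h
      rw [← insert_erase (hmx1 D hD'), h.2, h.1, insert_erase (hmx1 E hE')]
  have hkpow : 2 ^ (k * 2) = 2 ^ k * 2 ^ k := by rw [mul_comm, two_mul, pow_add]
  have hnum := num1 k hk
  by_cases hc : {k, k * 2} ∈ F
  · -- Case B
    have hL1 : ∀ U ∈ L, U.card ≤ 1 := by
      intro U hU
      by_contra hcon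
      rw [hLmem] at hU
      have h2k : k * 2 ∉ U := by
        intro h
        have := mem_range.mp (hU.1 h)
        omega
      have hU' : ({0, 1, k * 2} : Finset ℕ) ∈ F := by
        refine dom hFD hFS _ _ _ rfl hU.2 (fun x => ?_)
        by_cases hx : k * 2 < x
        · have : ({0, 1, k * 2} : Finset ℕ).filter (fun b => x ≤ b) = ∅ := by
            rw [filter_eq_empty_iff]
            intro y hy
            simp only [mem_insert, mem_singleton] at hy
            omega
          rw [this]; simp
        · have h1 : (insert (k * 2) U).filter (fun b => x ≤ b) =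
              insert (k * 2) (U.filter (fun b => x ≤ b)) := by
            rw [filter_insert, if_pos (by omega)]
          rw [h1, card_insert_of_notMem (by rw [mem_filter]; exact fun h => h2k h.1)]
          have h3 : U.card ≤ (U.filter (fun b => x ≤ b)).card + x := by
            have h4 := card_filter_add_card_filter_not (s := U) (fun b => x ≤ b)
            have h5 : (U.filter (fun b => ¬ x ≤ b)).card ≤ x := by
              refine le_trans (card_le_card (t := range x) ?_) (by rw [card_range])
              intro y hy
              rw [mem_filter] at hy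
              rw [mem_range]
              omega
            omega
          have h6 : (({0, 1, k * 2} : Finset ℕ).filter (fun b => x ≤ b)).card ≤ (2 - x) + 1 := by
            have h7 : ({0, 1, k * 2} : Finset ℕ).filter (fun b => x ≤ b) ⊆
                insert (k * 2) (Ico x 2) := by
              intro y hy
              simp only [mem_filter, mem_insert, mem_singleton] at hy
              simp only [mem_insert, mem_Ico]
              omega
            refine le_trans (card_le_card h7) (le_trans (card_insert_le _ _) ?_)
            rw [Nat.card_Ico]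
          omega
      refine no_cover hFK h0 (range k) (by rw [card_range])
        (fun a => if a = 0 then {0, 1, k + 1} else {a + 1, k + a + 1}) ?_ ?_
      · intro a ha
        rw [mem_range] at ha
        by_cases ha0 : a = 0
        · rw [if_pos ha0]
          refine dom_of_inj hFD hFS hU' (fun z => if z = k + 1 then k * 2 else z) ?_ ?_ ?_
          · intro z hz
            simp only [mem_insert, mem_singleton] at hz ⊢
            split_ifs <;> omega
          · intro z hz w hw h
            have hz' := mem_coe.mp hz
            have hw' := mem_coe.mp hw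
            simp only [mem_insert, mem_singleton] at hz' hw' h
            split_ifs at h <;> omega
          · intro z hz
            rw [mem_insert, mem_insert, mem_singleton] at hz
            split_ifs <;> omega
        · rw [if_neg ha0]
          exact pair_mem hFD hFS hc (x := k) (y := k * 2) (by simp) (by simp)
            (by omega) (by omega) (by omega) (by omega)
      · intro x hx
        by_cases hx1 : x ≤ 1
        · refine ⟨0, by rw [mem_range]; omega, ?_⟩
          rw [if_pos rfl]
          simp only [mem_insert, mem_singleton]
          omega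
        · by_cases hxk : x ≤ k
          · refine ⟨x - 1, by rw [mem_range]; omega, ?_⟩
            rw [if_neg (by omega), mem_insert]
            left; omega
          · by_cases hxk1 : x = k + 1
            · refine ⟨0, by rw [mem_range]; omega, ?_⟩
              rw [if_pos rfl, hxk1]
              simp
            · refine ⟨x - k - 1, by rw [mem_range]; omega, ?_⟩
              rw [if_neg (by omega), mem_insert, mem_singleton]
              right; omega
    have hL2 : ∀ U ∈ L, ∀ u ∈ U, u ≤ k := by
      intro U hU u hu
      by_contra hcon
      rw [hLmem] at hU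
      have hu2 : u ≠ k * 2 := by
        have := mem_range.mp (hU.1 hu)
        omega
      have hp : {k + 1, k * 2} ∈ F :=
        pair_mem hFD hFS hU.2 (x := u) (y := k * 2) (mem_insert_of_mem hu) (mem_insert_self _ _)
          hu2 (by omega) (by omega) (le_refl _)
      refine no_cover hFK h0 (range k) (by rw [card_range])
        (fun a => if a = 0 then range 3 else {a + 2, k * 2 + 1 - a}) ?_ ?_
      · intro a ha
        rw [mem_range] at ha
        by_cases ha0 : a = 0
        · rw [if_pos ha0]; exact hr3
        · rw [if_neg ha0]
          exact pair_mem hFD hFS hp (x := k + 1) (y := k * 2) (by simp) (by simp)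
            (by omega) (by omega) (by omega) (by omega)
      · intro x hx
        by_cases hx3 : x < 3
        · exact ⟨0, by rw [mem_range]; omega, by simpa using hx3⟩
        · by_cases hxk : x ≤ k + 1
          · refine ⟨x - 2, by rw [mem_range]; omega, ?_⟩
            rw [if_neg (by omega), mem_insert]
            left; omega
          · refine ⟨k * 2 + 1 - x, by rw [mem_range]; omega, ?_⟩
            rw [if_neg (by omega), mem_insert, mem_singleton]
            right; omega
    have hLc : L.card ≤ k + 2 := by
      have hsub : L ⊆ (range (k + 1)).powerset.filter (fun D => D.card ≤ 1) := by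
        intro U hU
        rw [mem_filter, mem_powerset]
        refine ⟨fun u hu => ?_, hL1 U hU⟩
        have := hL2 U hU u hu
        rw [mem_range]; omega
      refine le_trans (card_le_card hsub) ?_
      rw [card_powerset_filter_card_le, card_range, sum_range_succ, sum_range_succ]
      simp
      omega
    -- complementary sets
    have hF1c : 2 * F1.card ≤ 2 ^ (k * 2) := by
      have h1 : (F1.image (fun D => range (k * 2) \ D)).card = F1.card := by
        refine card_image_of_injOn ?_
        intro D hD E hE h
        have hD' := mem_coe.mp hD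
        have hE' := mem_coe.mp hE
        rw [hF1, mem_filter] at hD' hE'
        have h' : range (k * 2) \ D = range (k * 2) \ E := h
        rw [← Finset.sdiff_sdiff_eq_self hD'.2, h', Finset.sdiff_sdiff_eq_self hE'.2]
      have hdis : Disjoint F1 (F1.image (fun D => range (k * 2) \ D)) := by
        rw [disjoint_left]
        intro D hD hD2
        rw [mem_image] at hD2
        obtain ⟨E, hE, hED⟩ := hD2
        rw [hF1, mem_filter] at hD hE
        have hs2k : {k * 2} ∈ F := singleton_mem hFD hFS hc (x := k * 2) (by simp) (le_refl _)
        refine no_cover hFK h0 ({D, E, {k * 2}} : Finset (Finset ℕ)) ?_ id ?_ ?_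
        · refine le_trans (card_insert_le _ _) ?_
          have := card_insert_le E ({{k * 2}} : Finset (Finset ℕ))
          rw [card_singleton] at this
          omega
        · intro S hS
          simp only [mem_insert, mem_singleton] at hS
          rcases hS with rfl | rfl | rfl
          · exact hD.1
          · exact hE.1
          · exact hs2k
        · intro x hx
          by_cases hx2 : x = k * 2
          · exact ⟨{k * 2}, by simp, by simp [hx2]⟩
          · by_cases hxE : x ∈ E
            · exact ⟨E, by simp, hxE⟩
            · refine ⟨D, by simp, ?_⟩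
              rw [← hED]
              simp only [id, mem_sdiff, mem_range]
              exact ⟨by omega, hxE⟩
      have h2 : F1 ∪ F1.image (fun D => range (k * 2) \ D) ⊆ (range (k * 2)).powerset := by
        intro D hD
        rw [mem_union, mem_image] at hD
        rw [mem_powerset]
        rcases hD with h | ⟨E, hE, rfl⟩
        · rw [hF1, mem_filter] at h; exact h.2
        · exact sdiff_subset
      have h3 := card_le_card h2
      rw [card_union_of_disjoint hdis, h1, card_powerset, card_range] at h3
      omega
    -- arithmetic
    have h4 : F2.card ≤ (n - k * 2) * (k + 2) := hF2c.trans (Nat.mul_le_mul_left _ hLc)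
    have h5 := arithB hk (n - k * 2) hF1c h4
    rw [hsum] at h5
    exact h5.trans (max_le_max le_rfl (le_max_left _ _))
  · -- Case A
    have hL1 : ∀ U ∈ L, U ⊆ range k := by
      intro U hU u hu
      rw [mem_range]
      by_contra hcon
      rw [hLmem] at hU
      have hu2 : u ≠ k * 2 := by
        have := mem_range.mp (hU.1 hu)
        omega
      exact hc (pair_mem hFD hFS hU.2 (x := u) (y := k * 2) (mem_insert_of_mem hu)
        (mem_insert_self _ _) hu2 (by omega) (by omega) (le_refl _))
    have hLsub : L ⊆ (range k).powerset := fun U hU => mem_powerset.mpr (hL1 U hU)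
    have hLc : L.card ≤ 2 ^ k := by
      have := card_le_card hLsub
      rwa [card_powerset, card_range] at this
    set Fl := F1.filter (fun D => (D \ range k).card ≤ 1) with hFl
    set Fh := F1.filter (fun D => ¬ (D \ range k).card ≤ 1) with hFh
    have hsum1 : Fl.card + Fh.card = F1.card := card_filter_add_card_filter_not _
    have hcardP : ((Ico k (k * 2)).powerset.filter (fun D => D.card ≤ 1)).card = k + 1 := by
      rw [card_powerset_filter_card_le, Nat.card_Ico, sum_range_succ, sum_range_succ]
      simp
      omega
    have hcardQ : ((Ico k (k * 2)).powerset.filter (fun D => ¬ D.card ≤ 1)).card =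
        2 ^ k - (k + 1) := by
      have h1 := card_filter_add_card_filter_not (s := (Ico k (k * 2)).powerset)
        (fun D => D.card ≤ 1)
      rw [hcardP, card_powerset, Nat.card_Ico] at h1
      have : k * 2 - k = k := by omega
      rw [this] at h1
      omega
    have hFlc : Fl.card ≤ 2 ^ k * (k + 1) := by
      have : 2 ^ k * (k + 1) = ((range k).powerset ×ˢ
          ((Ico k (k * 2)).powerset.filter (fun D => D.card ≤ 1))).card := by
        rw [card_product, hcardP, card_powerset, card_range]
      rw [this]
      refine card_le_card_of_injOn (fun D => (D ∩ range k, D \ range k)) ?_ ?_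
      · intro D hD
        have hD' := mem_coe.mp hD
        rw [hFl, mem_filter, hF1, mem_filter] at hD'
        rw [mem_coe, mem_product, mem_powerset, mem_filter, mem_powerset]
        refine ⟨inter_subset_right, ?_, hD'.2⟩
        intro x hx
        rw [mem_sdiff, mem_range] at hx
        have := mem_range.mp (hD'.1.2 hx.1)
        rw [mem_Ico]; omega
      · intro D _ E _ h
        simp only [Prod.mk.injEq] at h
        rw [← sdiff_union_inter D (range k), h.1, h.2, sdiff_union_inter]
    have hFhc : Fh.card ≤ (2 ^ k - L.card) * (2 ^ k - (k + 1)) := by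
      have : (2 ^ k - L.card) * (2 ^ k - (k + 1)) = (((range k).powerset \ L) ×ˢ
          ((Ico k (k * 2)).powerset.filter (fun D => ¬ D.card ≤ 1))).card := by
        rw [card_product, hcardQ, card_sdiff_of_subset hLsub, card_powerset, card_range]
      rw [this]
      refine card_le_card_of_injOn (fun D => (range k \ D, D \ range k)) ?_ ?_
      · intro D hD
        have hD' := mem_coe.mp hD
        rw [hFh, mem_filter, hF1, mem_filter] at hD'
        obtain ⟨⟨hDF, hDr⟩, hDc⟩ := hD'
        refine mem_coe.mpr (mem_product.mpr ⟨mem_sdiff.mpr ⟨mem_powerset.mpr sdiff_subset, ?_⟩,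
          mem_filter.mpr ⟨mem_powerset.mpr ?_, hDc⟩⟩)
        · intro hU'
          have hU := (hLmem (range k \ D)).mp hU'
          have hDk : (Ico k (k * 2) \ D).card + (D \ range k).card = k := by
            have h1 : Ico k (k * 2) ∩ D = D \ range k := by
              ext x
              simp only [mem_inter, mem_Ico, mem_sdiff, mem_range]
              constructor
              · rintro ⟨h1, h2⟩; exact ⟨h2, by omega⟩
              · rintro ⟨h1, h2⟩
                have := mem_range.mp (hDr h1)
                exact ⟨⟨by omega, by omega⟩, h1⟩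
            have h2 := card_sdiff_add_card_inter (Ico k (k * 2)) D
            rw [h1, Nat.card_Ico] at h2
            omega
          refine no_cover hFK h0 ({insert (k * 2) (range k \ D), D} ∪
            (Ico k (k * 2) \ D).image (fun x => ({x} : Finset ℕ))) ?_ id ?_ ?_
          · refine le_trans (card_union_le _ _) ?_
            have h1 := card_image_le (s := Ico k (k * 2) \ D) (f := fun x => ({x} : Finset ℕ))
            have h2 := card_insert_le (insert (k * 2) (range k \ D)) ({D} : Finset (Finset ℕ))
            rw [card_singleton] at h2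
            omega
          · intro S hS
            rw [mem_union, mem_insert, mem_singleton, mem_image] at hS
            rcases hS with (rfl | rfl) | ⟨x, hx, rfl⟩
            · exact hU.2
            · exact hDF
            · rw [mem_sdiff, mem_Ico] at hx
              exact singleton_mem hFD hFS hU.2 (mem_insert_self _ _) (by omega)
          · intro x hx
            by_cases hxD : x ∈ D
            · exact ⟨D, by simp, hxD⟩
            · by_cases hxk : x < k
              · refine ⟨insert (k * 2) (range k \ D), by simp, ?_⟩
                simp only [id, mem_insert, mem_sdiff, mem_range]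
                exact Or.inr ⟨hxk, hxD⟩
              · by_cases hx2 : x = k * 2
                · exact ⟨insert (k * 2) (range k \ D), by simp, by simp [hx2]⟩
                · refine ⟨{x}, ?_, by simp⟩
                  rw [mem_union, mem_image]
                  right
                  exact ⟨x, by rw [mem_sdiff, mem_Ico]; exact ⟨⟨by omega, by omega⟩, hxD⟩, rfl⟩
        · intro x hx
          rw [mem_sdiff, mem_range] at hx
          have := mem_range.mp (hDr hx.1)
          rw [mem_Ico]; omega
      · intro D _ E _ h
        simp only [Prod.mk.injEq] at h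
        have h1 : D ∩ range k = E ∩ range k := by
          have h2 := h.1
          ext x
          rw [mem_inter, mem_inter, mem_range]
          have h3 := congrArg (fun S => x ∈ S) h2
          simp only [mem_sdiff, mem_range, eq_iff_iff] at h3
          constructor
          · rintro ⟨h4, h5⟩
            refine ⟨?_, h5⟩
            by_contra h6
            exact (h3.mpr ⟨h5, h6⟩).2 h4
          · rintro ⟨h4, h5⟩
            refine ⟨?_, h5⟩
            by_contra h6
            exact (h3.mp ⟨h5, h6⟩).2 h4
        rw [← sdiff_union_inter D (range k), h1, h.2, sdiff_union_inter]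
    -- arithmetic
    have h5 := arithA hk (n - k * 2) hLc hFlc hFhc hF2c
    have h6 : Fl.card + Fh.card + F2.card = F.card := by omega
    rw [h6] at h5
    exact h5.trans (max_le_max le_rfl (le_max_left _ _))

end Pool.Agent.H93.EF
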