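import Pool.Agent.H93.EF.Bridge

set_option autoImplicit false

open Finset

namespace Pool.Agent.H93.EF

/-- If `B` is dominated by a member `D` of a shifted down-closed family then `B` is a member. -/
theorem dom {F : Finset (Finset ℕ)} (hD : Down F) (hS : Shifted F) :
    ∀ (m : ℕ) (B D : Finset ℕ), (B \ D).card = m → D ∈ F →
      (∀ x, (B.filter (fun b => x ≤ b)).card ≤ (D.filter (fun b => x ≤ b)).card) → B ∈ F := by
  intro m
  induction m with
  | zero =>
    intro B D hm hDF _
    rw [card_eq_zero, sdiff_eq_empty_iff_subset] at hm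
    exact hD D hDF B hm
  | succ m ih =>
    intro B D hm hDF hdom
    have hne : (B \ D).Nonempty := by rw [← card_pos]; omega
    -- the largest element of `B \ D`
    obtain ⟨b, hb, hbmax⟩ := exists_max_image (B \ D) id hne
    rw [mem_sdiff] at hb
    simp only [id] at hbmax
    -- there is an element of `D \ B` above `b`
    have hex : ∃ e ∈ D, b < e ∧ e ∉ B := by
      by_contra hno
      push Not at hno
      have h1 := hdom b
      have h2 : (D.filter (fun x => b ≤ x)) ⊆ (B.filter (fun x => b ≤ x)).erase b := by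
        intro x hx
        rw [mem_filter] at hx
        rw [mem_erase, mem_filter]
        have hxb : x ≠ b := by rintro rfl; exact hb.2 hx.1
        exact ⟨hxb, hno x hx.1 (lt_of_le_of_ne hx.2 hxb.symm), hx.2⟩
      have h3 := card_le_card h2
      have hbm : b ∈ B.filter (fun x => b ≤ x) := by rw [mem_filter]; exact ⟨hb.1, le_refl _⟩
      rw [card_erase_of_mem hbm] at h3
      have h4 : 0 < (B.filter (fun x => b ≤ x)).card := card_pos.mpr ⟨b, hbm⟩
      omega
    obtain ⟨e, heD, hbe, heB⟩ := hex
    have hD' : insert b (D.erase e) ∈ F := hS D hDF b e hbe heD hb.2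
    refine ih B (insert b (D.erase e)) ?_ hD' ?_
    · have h1 : B \ insert b (D.erase e) = (B \ D).erase b := by
        ext x
        simp only [mem_sdiff, mem_insert, mem_erase, not_or, not_and]
        constructor
        · rintro ⟨h1, h2, h3⟩
          refine ⟨h2, h1, fun hx => ?_⟩
          refine h3 ?_ hx
          rintro rfl
          exact heB h1
        · rintro ⟨h1, h2, h3⟩
          exact ⟨h2, h1, fun _ h => h3 h⟩
      rw [h1, card_erase_of_mem (mem_sdiff.mpr hb), hm]
      rfl
    · intro x
      by_cases hxe : e < x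
      · have h1 : (insert b (D.erase e)).filter (fun y => x ≤ y) = D.filter (fun y => x ≤ y) := by
          ext y
          simp only [mem_filter, mem_insert, mem_erase]
          constructor
          · rintro ⟨rfl | h, h2⟩
            · omega
            · exact ⟨h.2, h2⟩
          · rintro ⟨h, h2⟩
            exact ⟨Or.inr ⟨by omega, h⟩, h2⟩
        rw [h1]; exact hdom x
      · by_cases hxb : x ≤ b
        · have h1 : (insert b (D.erase e)).filter (fun y => x ≤ y) =
              insert b ((D.filter (fun y => x ≤ y)).erase e) := by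
            ext y
            simp only [mem_filter, mem_insert, mem_erase]
            constructor
            · rintro ⟨rfl | h, h2⟩
              · exact Or.inl rfl
              · exact Or.inr ⟨h.1, h.2, h2⟩
            · rintro (rfl | h)
              · exact ⟨Or.inl rfl, hxb⟩
              · exact ⟨Or.inr ⟨h.1, h.2.1⟩, h.2.2⟩
          have he : e ∈ D.filter (fun y => x ≤ y) := by
            rw [mem_filter]; exact ⟨heD, by omega⟩
          rw [h1, card_insert_of_notMem, card_erase_of_mem he]
          · have h2 : 0 < (D.filter (fun y => x ≤ y)).card := card_pos.mpr ⟨e, he⟩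
            have := hdom x
            omega
          · rw [mem_erase, mem_filter]
            rintro ⟨-, h, -⟩
            exact hb.2 h
        · -- here `b < x ≤ e`
          have h1 : B.filter (fun y => x ≤ y) ⊆
              (insert b (D.erase e)).filter (fun y => x ≤ y) := by
            intro y hy
            rw [mem_filter] at hy
            rw [mem_filter, mem_insert, mem_erase]
            refine ⟨Or.inr ⟨?_, ?_⟩, hy.2⟩
            · rintro rfl; exact heB hy.1
            · by_contra hyD
              have := hbmax y (mem_sdiff.mpr ⟨hy.1, hyD⟩)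
              omega
          exact card_le_card h1

/-- Domination through an injection. -/
theorem dom_of_inj {F : Finset (Finset ℕ)} (hD : Down F) (hS : Shifted F) {B D : Finset ℕ}
    (hDF : D ∈ F) (φ : ℕ → ℕ) (h1 : ∀ b ∈ B, φ b ∈ D) (h2 : Set.InjOn φ B)
    (h3 : ∀ b ∈ B, b ≤ φ b) : B ∈ F := by
  refine dom hD hS _ B D rfl hDF (fun x => ?_)
  refine card_le_card_of_injOn φ ?_ ?_
  · intro b hb
    have hb' := mem_coe.mp hb
    rw [mem_filter] at hb'
    rw [mem_coe, mem_filter]
    exact ⟨h1 b hb'.1, hb'.2.trans (h3 b hb'.1)⟩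
  · intro b hb c hc h
    have hb' := mem_coe.mp hb
    have hc' := mem_coe.mp hc
    rw [mem_filter] at hb' hc'
    exact h2 (mem_coe.mpr hb'.1) (mem_coe.mpr hc'.1) h

theorem singleton_mem {F : Finset (Finset ℕ)} (hD : Down F) (hS : Shifted F) {D : Finset ℕ}
    (hDF : D ∈ F) {x y : ℕ} (hx : x ∈ D) (hyx : y ≤ x) : {y} ∈ F := by
  refine dom_of_inj hD hS hDF (fun _ => x) (fun b _ => hx) ?_ ?_
  · intro a ha b hb _
    have ha' := mem_singleton.mp (mem_coe.mp ha)
    have hb' := mem_singleton.mp (mem_coe.mp hb)
    rw [ha', hb']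
  · intro b hb
    rw [mem_singleton] at hb
    rw [hb]; exact hyx

theorem pair_mem {F : Finset (Finset ℕ)} (hD : Down F) (hS : Shifted F) {D : Finset ℕ}
    (hDF : D ∈ F) {x y a b : ℕ} (hx : x ∈ D) (hy : y ∈ D) (hxy : x ≠ y) (hab : a ≠ b)
    (hax : a ≤ x) (hby : b ≤ y) : {a, b} ∈ F := by
  refine dom_of_inj hD hS hDF (fun z => if z = a then x else y) ?_ ?_ ?_
  · intro z hz
    rw [mem_insert, mem_singleton] at hz
    rcases hz with rfl | rfl
    · simpa using hx
    · simp only [if_neg hab.symm]; exact hy
  · intro z hz w hw h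
    have hz' := mem_coe.mp hz
    have hw' := mem_coe.mp hw
    rw [mem_insert, mem_singleton] at hz' hw'
    simp only at h
    rcases hz' with rfl | rfl <;> rcases hw' with rfl | rfl
    · rfl
    · rw [if_pos rfl, if_neg hab.symm] at h; exact absurd h hxy
    · rw [if_neg hab.symm, if_pos rfl] at h; exact absurd h.symm hxy
    · rfl
  · intro z hz
    rw [mem_insert, mem_singleton] at hz
    rcases hz with rfl | rfl
    · simpa using hax
    · simp only [if_neg hab.symm]; exact hby

theorem range_mem {F : Finset (Finset ℕ)} (hD : Down F) (hS : Shifted F) {D : Finset ℕ}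
    (hDF : D ∈ F) {m : ℕ} (hm : m ≤ D.card) : range m ∈ F := by
  refine dom hD hS _ (range m) D rfl hDF (fun x => ?_)
  have h1 : (range m).filter (fun b => x ≤ b) = Ico x m := by
    ext y
    rw [mem_filter, mem_range, mem_Ico]
    tauto
  rw [h1, Nat.card_Ico]
  have h2 : D.card ≤ (D.filter (fun b => x ≤ b)).card + x := by
    have h3 := card_filter_add_card_filter_not (s := D) (fun b => x ≤ b)
    have h4 : (D.filter (fun b => ¬ x ≤ b)).card ≤ x := by
      refine le_trans (card_le_card (t := range x) ?_) (by rw [card_range])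
      intro y hy
      rw [mem_filter] at hy
      rw [mem_range]
      omega
    omega
  omega

/-- The `k`-wise condition for families indexed by a finset of at most `k` indices. -/
theorem KU.card_biUnion_le {k d : ℕ} {F : Finset (Finset ℕ)} (hK : KU k d F) (h0 : ∅ ∈ F)
    {ι : Type*} [DecidableEq ι] (s : Finset ι) (hs : s.card ≤ k) (g : ι → Finset ℕ)
    (hg : ∀ i ∈ s, g i ∈ F) : (s.biUnion g).card ≤ d := by
  classical
  let f : Fin k → Finset ℕ := fun a =>
    if h : (a : ℕ) < s.card then g (s.equivFin.symm ⟨a, h⟩ : s) else ∅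
  have hf : ∀ a, f a ∈ F := by
    intro a
    simp only [f]
    split_ifs with h
    · exact hg _ (Subtype.property _)
    · exact h0
  refine le_trans (card_le_card ?_) (hK f hf)
  intro x hx
  rw [mem_biUnion] at hx ⊢
  obtain ⟨i, hi, hx⟩ := hx
  let b : Fin s.card := s.equivFin ⟨i, hi⟩
  refine ⟨⟨b, lt_of_lt_of_le b.2 hs⟩, mem_univ _, ?_⟩
  have hb : ((⟨b, lt_of_lt_of_le b.2 hs⟩ : Fin k) : ℕ) < s.card := b.2
  simp only [f, dif_pos hb]
  have : s.equivFin.symm ⟨(b : ℕ), hb⟩ = ⟨i, hi⟩ := by
    have h1 : (⟨(b : ℕ), hb⟩ : Fin s.card) = b := rfl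
    rw [h1, Equiv.symm_apply_apply]
  rw [this]
  exact hx

/-- Cover criterion: at most `k` members of `F` cannot cover `{0,...,d}`. -/
theorem no_cover {k d : ℕ} {F : Finset (Finset ℕ)} (hK : KU k d F) (h0 : ∅ ∈ F)
    {ι : Type*} [DecidableEq ι] (s : Finset ι) (hs : s.card ≤ k) (g : ι → Finset ℕ)
    (hg : ∀ i ∈ s, g i ∈ F) (hcov : ∀ x, x ≤ d → ∃ i ∈ s, x ∈ g i) : False := by
  have h1 := hK.card_biUnion_le h0 s hs g hg
  have h2 : range (d + 1) ⊆ s.biUnion g := by
    intro x hx
    rw [mem_range] at hx
    rw [mem_biUnion]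
    exact hcov x (by omega)
  have h3 := card_le_card h2
  rw [card_range] at h3
  omega

end Pool.Agent.H93.EF
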