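import Pool.Agent.H93.EF.Halving

set_option autoImplicit false

open Finset

namespace Pool.Agent.H93.EF

theorem biUnion_map_val {n k : ℕ} (f : Fin k → Finset (Fin n)) :
    (univ.biUnion (fun a => (f a).map Fin.valEmbedding)) =
      (univ.biUnion f).map Fin.valEmbedding := by
  ext x
  simp only [mem_biUnion, mem_map, mem_univ, true_and]
  constructor
  · rintro ⟨a, y, hy, hyx⟩
    exact ⟨y, ⟨a, hy⟩, hyx⟩
  · rintro ⟨y, ⟨a, hy⟩, hyx⟩
    exact ⟨a, y, hy, hyx⟩

/-- The extremal number in terms of families of subsets of `Fin n`. -/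
theorem isGreatest_p (n k d : ℕ) :
    IsGreatest {m : ℕ | ∃ A : Finset (Finset (Fin n)),
      (∀ f : Fin k → Finset (Fin n), (∀ j, f j ∈ A) →
        (Finset.univ.biUnion f).card ≤ d) ∧ A.card = m} (p n k d) := by
  classical
  constructor
  · obtain ⟨F, hFn, hFK, hFc⟩ := exists_card_eq_p n k d
    refine ⟨univ.filter (fun S : Finset (Fin n) => S.map Fin.valEmbedding ∈ F), ?_, ?_⟩
    · intro f hf
      have h1 := hFK (fun a => (f a).map Fin.valEmbedding) (fun a => by
        have := hf a
        rw [mem_filter] at this
        exact this.2)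
      rw [biUnion_map_val, card_map] at h1
      exact h1
    · rw [← hFc]
      have himg : (univ.filter (fun S : Finset (Fin n) => S.map Fin.valEmbedding ∈ F)).image
          (fun S => S.map Fin.valEmbedding) = F := by
        ext D
        rw [mem_image]
        constructor
        · rintro ⟨S, hS, rfl⟩
          rw [mem_filter] at hS
          exact hS.2
        · intro hD
          have hDn := mem_powerset.mp (hFn hD)
          have hD' : (univ.filter (fun x : Fin n => (x : ℕ) ∈ D)).map Fin.valEmbedding = D := by
            ext x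
            simp only [mem_map, mem_filter, mem_univ, true_and, Fin.valEmbedding_apply]
            constructor
            · rintro ⟨y, hy, rfl⟩; exact hy
            · intro hx
              exact ⟨⟨x, mem_range.mp (hDn hx)⟩, hx, rfl⟩
          refine ⟨univ.filter (fun x : Fin n => (x : ℕ) ∈ D), ?_, hD'⟩
          rw [mem_filter]
          exact ⟨mem_univ _, by rw [hD']; exact hD⟩
      conv_rhs => rw [← himg]
      rw [card_image_of_injective _ (Finset.map_injective Fin.valEmbedding)]
  · rintro m ⟨A, hA, rfl⟩
    rw [← card_image_of_injective A (Finset.map_injective (Fin.valEmbedding (n := n)))]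
    refine card_le_p ?_ ?_
    · intro D hD
      rw [mem_image] at hD
      obtain ⟨S, _, rfl⟩ := hD
      rw [mem_powerset]
      intro x hx
      rw [mem_map] at hx
      obtain ⟨y, _, rfl⟩ := hx
      rw [mem_range]
      exact y.2
    · intro f hf
      have hg : ∀ a, ∃ S ∈ A, S.map Fin.valEmbedding = f a := by
        intro a
        have := hf a
        rw [mem_image] at this
        exact this
      choose g hg1 hg2 using hg
      have h1 : univ.biUnion f = (univ.biUnion g).map Fin.valEmbedding := by
        rw [← biUnion_map_val]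
        exact biUnion_congr rfl (fun a _ => (hg2 a).symm)
      rw [h1, card_map]
      exact hA g hg1

/-- number of subsets of size at most `i` of a finite set -/
theorem card_powerset_filter_card_le (S : Finset ℕ) (i : ℕ) :
    (S.powerset.filter (fun D => D.card ≤ i)).card = ∑ j ∈ range (i + 1), S.card.choose j := by
  classical
  have h1 : S.powerset.filter (fun D => D.card ≤ i) =
      (range (i + 1)).biUnion (fun j => S.powersetCard j) := by
    ext D
    rw [mem_filter, mem_powerset, mem_biUnion]
    constructor
    · rintro ⟨h1, h2⟩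
      exact ⟨D.card, by rw [mem_range]; omega, by rw [mem_powersetCard]; exact ⟨h1, rfl⟩⟩
    · rintro ⟨j, hj, hD⟩
      rw [mem_range] at hj
      rw [mem_powersetCard] at hD
      exact ⟨hD.1, by omega⟩
  rw [h1, card_biUnion]
  · refine sum_congr rfl (fun j _ => ?_)
    rw [card_powersetCard]
  · intro a _ b _ hab
    change Disjoint (S.powersetCard a) (S.powersetCard b)
    rw [disjoint_left]
    intro D h1 h2
    rw [mem_powersetCard] at h1 h2
    exact hab (h1.2.symm.trans h2.2)

/-- The lower bound given by the family `{S ∪ T : S ⊆ [r,n), |S| ≤ i, T ⊆ [0,r)}`. -/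
theorem le_p {n k d i : ℕ} (hi : k * i ≤ d) (hdn : d ≤ n) :
    2 ^ (d - k * i) * ∑ j ∈ range (i + 1), (n - d + k * i).choose j ≤ p n k d := by
  classical
  set r := d - k * i with hr
  have hrn : n - d + k * i = n - r := by omega
  rw [hrn]
  set P := (range r).powerset ×ˢ ((Ico r n).powerset.filter (fun D => D.card ≤ i)) with hP
  have hPc : P.card = 2 ^ r * ∑ j ∈ range (i + 1), (n - r).choose j := by
    rw [hP, card_product, card_powerset, card_range, card_powerset_filter_card_le, Nat.card_Ico]
  have hinj : Set.InjOn (fun q : Finset ℕ × Finset ℕ => q.1 ∪ q.2) P := by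
    rintro ⟨A, B⟩ h1 ⟨A', B'⟩ h2 h
    have h1' := mem_coe.mp h1
    have h2' := mem_coe.mp h2
    rw [hP, mem_product, mem_filter, mem_powerset, mem_powerset] at h1' h2'
    obtain ⟨hA, hB, -⟩ := h1'
    obtain ⟨hA', hB', -⟩ := h2'
    have h' : A ∪ B = A' ∪ B' := h
    simp only at hA hB hA' hB'
    have key : ∀ x, (x ∈ A ↔ x ∈ A') ∧ (x ∈ B ↔ x ∈ B') := by
      intro x
      have hx : (x ∈ A ∨ x ∈ B) ↔ (x ∈ A' ∨ x ∈ B') := by
        rw [← mem_union, ← mem_union, h']
      have a1 : x ∈ A → x < r := fun h => mem_range.mp (hA h)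
      have a2 : x ∈ A' → x < r := fun h => mem_range.mp (hA' h)
      have b1 : x ∈ B → r ≤ x := fun h => (mem_Ico.mp (hB h)).1
      have b2 : x ∈ B' → r ≤ x := fun h => (mem_Ico.mp (hB' h)).1
      constructor
      · constructor
        · intro h
          rcases hx.mp (Or.inl h) with h3 | h3
          · exact h3
          · exact absurd (a1 h) (not_lt.mpr (b2 h3))
        · intro h
          rcases hx.mpr (Or.inl h) with h3 | h3
          · exact h3
          · exact absurd (a2 h) (not_lt.mpr (b1 h3))
      · constructor
        · intro h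
          rcases hx.mp (Or.inr h) with h3 | h3
          · exact absurd (a2 h3) (not_lt.mpr (b1 h))
          · exact h3
        · intro h
          rcases hx.mpr (Or.inr h) with h3 | h3
          · exact absurd (a1 h3) (not_lt.mpr (b2 h))
          · exact h3
    exact Prod.ext (Finset.ext (fun x => (key x).1)) (Finset.ext (fun x => (key x).2))
  rw [← hPc, ← card_image_of_injOn hinj]
  refine card_le_p ?_ ?_
  · intro D hD
    rw [mem_image] at hD
    obtain ⟨⟨A, B⟩, hq, rfl⟩ := hD
    rw [hP, mem_product, mem_filter, mem_powerset, mem_powerset] at hq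
    obtain ⟨hA, hB, -⟩ := hq
    rw [mem_powerset]
    intro x hx
    rw [mem_union] at hx
    rw [mem_range]
    rcases hx with h | h
    · have := mem_range.mp (hA h)
      omega
    · exact (mem_Ico.mp (hB h)).2
  · intro f hf
    have hg : ∀ a, ∃ q : Finset ℕ × Finset ℕ, q.1 ⊆ range r ∧ q.2.card ≤ i ∧ q.1 ∪ q.2 = f a := by
      intro a
      have := hf a
      rw [mem_image] at this
      obtain ⟨q, hq, h⟩ := this
      rw [hP, mem_product, mem_filter, mem_powerset, mem_powerset] at hq
      exact ⟨q, hq.1, hq.2.2, h⟩
    choose q hq1 hq2 hq3 using hg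
    have h1 : univ.biUnion f ⊆ range r ∪ univ.biUnion (fun a => (q a).2) := by
      intro x hx
      rw [mem_biUnion] at hx
      obtain ⟨a, -, ha⟩ := hx
      rw [← hq3 a, mem_union] at ha
      rw [mem_union]
      rcases ha with h | h
      · exact Or.inl (hq1 a h)
      · right
        rw [mem_biUnion]
        exact ⟨a, mem_univ _, h⟩
    have h2 := card_le_card h1
    have h3 := card_union_le (range r) (univ.biUnion (fun a => (q a).2))
    have h4 : (univ.biUnion (fun a => (q a).2)).card ≤ k * i := by
      refine le_trans card_biUnion_le ?_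
      calc ∑ a : Fin k, ((q a).2).card ≤ ∑ _a : Fin k, i := sum_le_sum (fun a _ => hq2 a)
        _ = k * i := by simp
    rw [card_range] at h3
    omega

/-- The conjectured value. -/
def conj (n k d : ℕ) : ℕ :=
  (Finset.range (d / k + 1)).sup
    (fun i => 2 ^ (d - k * i) * ∑ j ∈ Finset.range (i + 1), (n - d + k * i).choose j)

theorem conj_le_p {n k d : ℕ} (hdn : d ≤ n) : conj n k d ≤ p n k d := by
  unfold conj
  refine Finset.sup_le (fun i hi => ?_)
  rw [mem_range] at hi
  refine le_p ?_ hdn
  rcases Nat.eq_zero_or_pos k with hk | hk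
  · subst hk; simp
  · calc k * i ≤ k * (d / k) := Nat.mul_le_mul_left _ (by omega)
      _ ≤ d := Nat.mul_div_le d k

theorem le_conj {n k d i : ℕ} (hk : 0 < k) (hi : k * i ≤ d) :
    2 ^ (d - k * i) * ∑ j ∈ Finset.range (i + 1), (n - d + k * i).choose j ≤ conj n k d := by
  unfold conj
  refine le_sup (f := fun i => 2 ^ (d - k * i) *
    ∑ j ∈ Finset.range (i + 1), (n - d + k * i).choose j) ?_
  rw [mem_range]
  have := (Nat.le_div_iff_mul_le hk).mpr (by rw [mul_comm]; exact hi : i * k ≤ d)
  omega

/-- The conjectured equality follows from the upper bound. -/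
theorem isGreatest_conj {n k d : ℕ} (hdn : d ≤ n) (h : p n k d ≤ conj n k d) :
    IsGreatest {m : ℕ | ∃ A : Finset (Finset (Fin n)),
      (∀ f : Fin k → Finset (Fin n), (∀ j, f j ∈ A) →
        (Finset.univ.biUnion f).card ≤ d) ∧ A.card = m}
      ((Finset.range (d / k + 1)).sup
        (fun i => 2 ^ (d - k * i) *
          ∑ j ∈ Finset.range (i + 1), (n - d + k * i).choose j)) := by
  have h1 : p n k d = conj n k d := le_antisymm h (conj_le_p hdn)
  have h2 := isGreatest_p n k d
  rw [h1] at h2
  exact h2

end Pool.Agent.H93.EF
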