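import Mathlib
import Pool.Agent.H93.EF.Dom
import Pool.Agent.H93.EF.Bridge

set_option autoImplicit false

open Finset

namespace Pool.Agent.H93.EF

/-- Every member of a shifted family satisfying the `q`-wise condition crosses the line
(general `d`). -/
theorem hit' {q d : ℕ} (hq : 0 < q) {F : Finset (Finset ℕ)} (hD : Down F) (hS : Shifted F)
    (hK : KU q d F) (h0 : ∅ ∈ F) {D : Finset ℕ} (hDF : D ∈ F) :
    ∃ j ≤ d / q, (D.filter (fun x => d % q + q * j ≤ x)).card + j ≤ d / q := by
  by_contra hcon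
  push Not at hcon
  have hdm := Nat.div_add_mod d q
  have hmod := Nat.mod_lt d hq
  set s := d / q with hs
  set ρ := d % q with hρ
  refine no_cover hK h0 (range q) (by rw [card_range])
    (fun i => (range (d + 1)).filter (fun b => b % q = i)) ?_ ?_
  · intro i _
    refine dom hD hS _ _ D rfl hDF (fun x => ?_)
    by_cases hx : x ≤ d
    · set j := (x + (q - 1 - ρ)) / q with hj
      have hjs : j ≤ s := by
        rw [hj, Nat.div_le_iff_le_mul_add_pred hq]
        omega
      have hxj : x ≤ ρ + q * j := by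
        have h1 := Nat.lt_mul_div_succ (x + (q - 1 - ρ)) hq
        rw [← hj, Nat.mul_add, mul_one] at h1
        omega
      have h1 := hcon j hjs
      have h2 : (D.filter (fun x => ρ + q * j ≤ x)).card ≤ (D.filter (fun b => x ≤ b)).card := by
        refine card_le_card ?_
        intro y hy
        rw [mem_filter] at hy ⊢
        exact ⟨hy.1, hxj.trans hy.2⟩
      have h3 : (((range (d + 1)).filter (fun b => b % q = i)).filter
          (fun b => x ≤ b)).card ≤ (Icc j s).card := by
        refine card_le_card_of_injOn (fun b => (b + (q - 1 - ρ)) / q) ?_ ?_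
        · intro b hb
          have hb' := mem_coe.mp hb
          rw [mem_filter, mem_filter, mem_range] at hb'
          rw [mem_coe, mem_Icc]
          refine ⟨Nat.div_le_div_right (by omega), ?_⟩
          rw [Nat.div_le_iff_le_mul_add_pred hq]
          omega
        · intro b hb c hc h
          have hb' := mem_coe.mp hb
          have hc' := mem_coe.mp hc
          rw [mem_filter, mem_filter, mem_range] at hb' hc'
          have key : ∀ b, b % q = i → (b + (q - 1 - ρ)) / q = b / q + (i + (q - 1 - ρ)) / q := by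
            intro b hb
            have h4 := Nat.div_add_mod b q
            rw [hb] at h4
            have h5 : b + (q - 1 - ρ) = (i + (q - 1 - ρ)) + q * (b / q) := by omega
            rw [h5, Nat.add_mul_div_left _ _ hq]
            ring
          simp only at h
          rw [key b hb'.1.2, key c hc'.1.2] at h
          have h6 : b / q = c / q := by omega
          rw [← Nat.div_add_mod b q, ← Nat.div_add_mod c q, h6, hb'.1.2, hc'.1.2]
      rw [Nat.card_Icc] at h3
      omega
    · have : (((range (d + 1)).filter (fun b => b % q = i)).filter (fun b => x ≤ b)) = ∅ := by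
        rw [filter_eq_empty_iff]
        intro b hb
        rw [mem_filter, mem_range] at hb
        omega
      rw [this]; simp
  · intro x hx
    refine ⟨x % q, mem_range.mpr (Nat.mod_lt _ hq), ?_⟩
    rw [mem_filter, mem_range]
    exact ⟨by omega, rfl⟩

/-- splitting a subset of `range n` at `m` -/
theorem split_eq {n m : ℕ} {D : Finset ℕ} (hD : D ⊆ range n) :
    D = (D ∩ range m) ∪ (D ∩ Ico m n) := by
  ext x
  simp only [mem_union, mem_inter, mem_range, mem_Ico]
  constructor
  · intro hx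
    have := mem_range.mp (hD hx)
    by_cases h : x < m
    · exact Or.inl ⟨hx, h⟩
    · exact Or.inr ⟨hx, by omega, this⟩
  · rintro (⟨h, _⟩ | ⟨h, _⟩) <;> exact h

/-- the number of subsets of `range n` with at most `l` elements in `[m,n)` -/
theorem card_tail_le (n m l : ℕ) :
    ((range n).powerset.filter (fun D => (D ∩ Ico m n).card ≤ l)).card ≤
      2 ^ m * ∑ v ∈ range (l + 1), (n - m).choose v := by
  have h1 : 2 ^ m * ∑ v ∈ range (l + 1), (n - m).choose v =
      ((range m).powerset ×ˢ ((Ico m n).powerset.filter (fun D => D.card ≤ l))).card := by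
    rw [card_product, card_powerset, card_range, card_powerset_filter_card_le, Nat.card_Ico]
  rw [h1]
  refine card_le_card_of_injOn (fun D => (D ∩ range m, D ∩ Ico m n)) ?_ ?_
  · intro D hD
    have hD' := mem_coe.mp hD
    rw [mem_filter, mem_powerset] at hD'
    refine mem_coe.mpr (mem_product.mpr ⟨mem_powerset.mpr inter_subset_right,
      mem_filter.mpr ⟨mem_powerset.mpr inter_subset_right, hD'.2⟩⟩)
  · intro D hD E hE h
    have hD' := mem_coe.mp hD
    have hE' := mem_coe.mp hE
    rw [mem_filter, mem_powerset] at hD' hE'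
    simp only [Prod.mk.injEq] at h
    rw [split_eq (m := m) hD'.1, split_eq (m := m) hE'.1, h.1, h.2]

/-- The union bound for the walk. -/
theorem card_le_walk {q P r : ℕ} (hq : 0 < q) (hr : r ≤ P) {F : Finset (Finset ℕ)}
    (hFP : F ⊆ (range P).powerset) (hD : Down F) (hS : Shifted F) (hK : KU q (P - r) F) :
    F.card ≤ ∑ l ∈ range ((P - r) / q + 1),
      2 ^ (P - (r + q * l)) * ∑ v ∈ range (l + 1), (r + q * l).choose v := by
  classical
  by_cases hne : F.Nonempty
  swap
  · rw [not_nonempty_iff_eq_empty] at hne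
    rw [hne]; simp
  obtain ⟨D0, hD0⟩ := hne
  have h0 : ∅ ∈ F := hD D0 hD0 ∅ (empty_subset _)
  have hcov : F ⊆ (range ((P - r) / q + 1)).biUnion (fun l =>
      (range P).powerset.filter (fun D => (D ∩ Ico (P - (r + q * l)) P).card ≤ l)) := by
    intro D hDF
    obtain ⟨j, hj, hj'⟩ := hit' hq hD hS hK h0 hDF
    have hDP := mem_powerset.mp (hFP hDF)
    have hdm := Nat.div_add_mod (P - r) q
    rw [mem_biUnion]
    refine ⟨(P - r) / q - j, mem_range.mpr (by omega), ?_⟩
    rw [mem_filter]
    refine ⟨hFP hDF, ?_⟩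
    have e1 : q * ((P - r) / q - j) = q * ((P - r) / q) - q * j := Nat.mul_sub _ _ _
    have e2 : q * j ≤ q * ((P - r) / q) := Nat.mul_le_mul_left _ hj
    have e3 : P - (r + q * ((P - r) / q - j)) = (P - r) % q + q * j := by omega
    rw [e3]
    have e4 : D ∩ Ico ((P - r) % q + q * j) P ⊆
        D.filter (fun x => (P - r) % q + q * j ≤ x) := by
      intro x hx
      rw [mem_inter, mem_Ico] at hx
      rw [mem_filter]
      exact ⟨hx.1, hx.2.1⟩
    have := card_le_card e4
    omega
  refine (card_le_card hcov).trans (card_biUnion_le.trans (sum_le_sum (fun l hl => ?_)))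
  refine (card_tail_le P (P - (r + q * l)) l).trans ?_
  rw [mem_range] at hl
  have e1 : q * l ≤ P - r := by
    calc q * l ≤ q * ((P - r) / q) := Nat.mul_le_mul_left _ (by omega)
      _ ≤ P - r := Nat.mul_div_le _ _
  have e2 : P - (P - (r + q * l)) = r + q * l := by omega
  rw [e2]

/-- generating function bound -/
theorem sum_choose_mul_pow_le {x : ℝ} (hx0 : 0 ≤ x) (hx1 : x ≤ 1) (M l : ℕ) :
    (∑ v ∈ range (l + 1), (M.choose v : ℝ)) * x ^ l ≤ (1 + x) ^ M := by
  have h1 : (∑ v ∈ range (l + 1), (M.choose v : ℝ)) * x ^ l ≤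
      ∑ v ∈ range (l + 1), (M.choose v : ℝ) * x ^ v := by
    rw [sum_mul]
    refine sum_le_sum (fun v hv => ?_)
    rw [mem_range] at hv
    exact mul_le_mul_of_nonneg_left (pow_le_pow_of_le_one hx0 hx1 (by omega)) (Nat.cast_nonneg _)
  refine h1.trans ?_
  have h2 : (1 + x) ^ M = ∑ v ∈ range (M + 1), (M.choose v : ℝ) * x ^ v := by
    rw [add_comm, add_pow]
    refine sum_congr rfl (fun v _ => ?_)
    rw [one_pow]; ring
  rw [h2]
  rcases le_total l M with h | h
  · refine sum_le_sum_of_subset_of_nonneg (range_subset_range.mpr (by omega)) ?_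
    intro v _ _
    positivity
  · rw [← sum_subset (range_subset_range.mpr (show M + 1 ≤ l + 1 by omega))]
    intro v _ hv
    rw [mem_range] at hv
    rw [Nat.choose_eq_zero_of_lt (by omega)]
    simp

theorem one_add_inv_pow_le {k : ℕ} (hk : 0 < k) {m : ℕ} (hm : m ≤ k) :
    (1 + 1 / (k : ℝ)) ^ m ≤ 3 := by
  have hk' : (0 : ℝ) < k := by exact_mod_cast hk
  calc (1 + 1 / (k : ℝ)) ^ m ≤ (1 + 1 / (k : ℝ)) ^ k :=
        pow_le_pow_right₀ (by linarith [one_div_pos.mpr hk']) hm
    _ ≤ (Real.exp (1 / (k : ℝ))) ^ k := by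
        refine pow_le_pow_left₀ (by positivity) ?_ _
        rw [add_comm]
        exact Real.add_one_le_exp _
    _ = Real.exp 1 := by
        rw [← Real.exp_nat_mul]
        congr 1
        field_simp
    _ ≤ 3 := by linarith [Real.exp_one_lt_d9]

/-- exponential growth beats linear growth, with room -/
theorem k_small {k : ℕ} (hk : 60 ≤ k) : (k : ℝ) * 2 ^ 50 ≤ 2 ^ k := by
  obtain ⟨j, rfl⟩ : ∃ j, k = 60 + j := ⟨k - 60, by omega⟩
  clear hk
  induction j with
  | zero => norm_num
  | succ j ih =>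
    have e1 : (2 : ℝ) ^ (60 + (j + 1)) = 2 * 2 ^ (60 + j) := by
      rw [show 60 + (j + 1) = (60 + j) + 1 by ring, pow_succ]; ring
    rw [e1]
    have h2 : (0 : ℝ) ≤ (j : ℝ) := Nat.cast_nonneg _
    have e2 : (((60 + (j + 1) : ℕ)) : ℝ) ≤ 2 * ((60 + j : ℕ) : ℝ) := by
      push_cast; linarith
    calc (((60 + (j + 1) : ℕ)) : ℝ) * 2 ^ 50 ≤ (2 * ((60 + j : ℕ) : ℝ)) * 2 ^ 50 :=
          mul_le_mul_of_nonneg_right e2 (by positivity)
      _ = 2 * (((60 + j : ℕ) : ℝ) * 2 ^ 50) := by ring
      _ ≤ _ := by linarith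

/-- Density bound for shifted families whose `(k-1)`-wise unions miss `r` points. -/
theorem walk_density {k P r : ℕ} (hk : 60 ≤ k) (hrk : r ≤ k) (hr : r ≤ P)
    {F : Finset (Finset ℕ)}
    (hFP : F ⊆ (range P).powerset) (hD : Down F) (hS : Shifted F) (hK : KU (k - 1) (P - r) F) :
    (F.card : ℝ) ≤ 2 ^ P * ((9 / 8) * (1 / 2) ^ r) := by
  have h1 := card_le_walk (q := k - 1) (by omega) hr hFP hD hS hK
  set L := (P - r) / (k - 1) with hL
  have hk0 : (0 : ℝ) < k := by
    have : 0 < k := by omega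
    exact_mod_cast this
  -- term bound
  set θ : ℝ := 6 * k / 2 ^ k with hθ
  have hθ0 : 0 ≤ θ := by positivity
  have hθ1 : θ ≤ 1 / 100 := by
    rw [hθ, div_le_div_iff₀ (by positivity) (by norm_num)]
    have := k_small hk
    nlinarith
  have hterm : ∀ l ∈ range (L + 1), l ≠ 0 → ((2 ^ (P - (r + (k - 1) * l)) *
      ∑ v ∈ range (l + 1), (r + (k - 1) * l).choose v : ℕ) : ℝ) ≤
      2 ^ P * ((1 / 2) ^ r * 3 * θ ^ l) := by
    intro l hl _
    rw [mem_range] at hl
    set M := r + (k - 1) * l with hM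
    have hMP : M ≤ P := by
      have e1 : (k - 1) * l ≤ P - r := by
        calc (k - 1) * l ≤ (k - 1) * L := Nat.mul_le_mul_left _ (by omega)
          _ ≤ P - r := Nat.mul_div_le _ _
      omega
    have h2 := sum_choose_mul_pow_le (x := 1 / (k : ℝ)) (by positivity) (by
      rw [div_le_one hk0]
      have : 1 ≤ k := by omega
      exact_mod_cast this) M l
    have h3 : (2 : ℝ) ^ (P - M) = 2 ^ P * (1 / 2) ^ M := by
      rw [one_div, inv_pow, ← div_eq_mul_inv, pow_sub₀ _ (by norm_num) hMP, ← div_eq_mul_inv]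
    push_cast
    rw [h3]
    have h4 : (∑ v ∈ range (l + 1), (M.choose v : ℝ)) ≤ (1 + 1 / (k : ℝ)) ^ M * k ^ l := by
      have h5 : (0 : ℝ) < (1 / (k : ℝ)) ^ l := by positivity
      rw [← div_le_iff₀ (by positivity : (0 : ℝ) < (k : ℝ) ^ l)]
      rw [one_div, inv_pow] at h2
      rw [div_eq_mul_inv]
      rw [one_div]
      exact h2
    have h5 : (1 + 1 / (k : ℝ)) ^ M ≤ 3 * 3 ^ l := by
      rw [hM, pow_add, pow_mul]
      refine mul_le_mul (one_add_inv_pow_le (by omega) hrk) ?_ (by positivity) (by norm_num)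
      exact pow_le_pow_left₀ (by positivity) (one_add_inv_pow_le (by omega) (by omega)) _
    have h6 : ((1 : ℝ) / 2) ^ M = (1 / 2) ^ r * ((2 : ℝ) / 2 ^ k) ^ l := by
      rw [hM, pow_add, pow_mul]
      congr 2
      obtain ⟨j, rfl⟩ : ∃ j, k = j + 1 := ⟨k - 1, by omega⟩
      simp only [Nat.add_sub_cancel]
      rw [pow_succ, one_div, inv_pow]
      field_simp
    calc 2 ^ P * (1 / 2) ^ M * (∑ v ∈ range (l + 1), (M.choose v : ℝ))
        ≤ 2 ^ P * (1 / 2) ^ M * ((3 * 3 ^ l) * k ^ l) := by
          refine mul_le_mul_of_nonneg_left ?_ (by positivity)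
          exact h4.trans (mul_le_mul_of_nonneg_right h5 (by positivity))
      _ = 2 ^ P * ((1 / 2) ^ r * 3 * ((2 / 2 ^ k) ^ l * 3 ^ l * k ^ l)) := by
          rw [h6]; ring
      _ = _ := by
          rw [hθ, ← mul_pow, ← mul_pow]
          congr 3
          ring
  have h2 : (F.card : ℝ) ≤ ∑ l ∈ range (L + 1), ((2 ^ (P - (r + (k - 1) * l)) *
      ∑ v ∈ range (l + 1), (r + (k - 1) * l).choose v : ℕ) : ℝ) := by
    exact_mod_cast h1
  rw [sum_range_succ'] at h2
  have h3 : ∑ l ∈ range L, ((2 ^ (P - (r + (k - 1) * (l + 1))) *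
      ∑ v ∈ range (l + 1 + 1), (r + (k - 1) * (l + 1)).choose v : ℕ) : ℝ) ≤
      2 ^ P * ((1 / 2) ^ r * (3 * θ * (1 / (1 - θ)))) := by
    calc _ ≤ ∑ l ∈ range L, 2 ^ P * ((1 / 2) ^ r * 3 * θ ^ (l + 1)) := by
          refine sum_le_sum (fun l hl => ?_)
          rw [mem_range] at hl
          exact hterm (l + 1) (mem_range.mpr (by omega)) (Nat.succ_ne_zero l)
      _ = 2 ^ P * ((1 / 2) ^ r * (3 * θ * ∑ l ∈ range L, θ ^ l)) := by
          rw [mul_sum, mul_sum, mul_sum]
          refine sum_congr rfl (fun l _ => ?_)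
          rw [pow_succ]; ring
      _ ≤ _ := by
          have h4 : ∑ l ∈ range L, θ ^ l ≤ 1 / (1 - θ) := by
            rw [le_div_iff₀ (by linarith), geom_sum_mul_neg]
            have := pow_nonneg hθ0 L
            linarith
          gcongr
  have h4 : ((2 ^ (P - (r + (k - 1) * 0)) *
      ∑ v ∈ range (0 + 1), (r + (k - 1) * 0).choose v : ℕ) : ℝ) = 2 ^ P * (1 / 2) ^ r := by
    simp only [mul_zero, add_zero, zero_add, sum_range_one, Nat.choose_zero_right, mul_one]
    push_cast
    rw [one_div, inv_pow, ← div_eq_mul_inv, pow_sub₀ _ (by norm_num) hr, ← div_eq_mul_inv]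
  rw [h4] at h2
  have h5 : 3 * θ * (1 / (1 - θ)) ≤ 1 / 8 := by
    rw [mul_one_div, div_le_iff₀ (by linarith)]
    linarith
  calc (F.card : ℝ) ≤ _ := h2
    _ ≤ 2 ^ P * ((1 / 2) ^ r * (3 * θ * (1 / (1 - θ)))) + 2 ^ P * (1 / 2) ^ r := by linarith
    _ ≤ 2 ^ P * ((1 / 2) ^ r * (1 / 8)) + 2 ^ P * (1 / 2) ^ r := by gcongr
    _ = _ := by ring

end Pool.Agent.H93.EF
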