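import Mathlib

set_option autoImplicit false

open Finset

namespace Pool.Agent.H93.EF

/-- The block `a` of an arrangement. -/
def sblk {q : ℕ} {u : Fin q → ℕ} {Y : Finset ℕ} (e : (Σ a : Fin q, Fin (u a)) ≃ Y) (a : Fin q) :
    Finset ℕ :=
  univ.image (fun i : Fin (u a) => ((e ⟨a, i⟩ : Y) : ℕ))

theorem sblk_card {q : ℕ} {u : Fin q → ℕ} {Y : Finset ℕ} (e : (Σ a : Fin q, Fin (u a)) ≃ Y)
    (a : Fin q) : (sblk e a).card = u a := by
  unfold sblk
  rw [card_image_of_injective, card_univ, Fintype.card_fin]
  intro i j h
  have h1 := e.injective (Subtype.ext h)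
  simpa using h1

theorem sblk_subset {q : ℕ} {u : Fin q → ℕ} {Y : Finset ℕ} (e : (Σ a : Fin q, Fin (u a)) ≃ Y)
    (a : Fin q) : sblk e a ⊆ Y := by
  intro x hx
  unfold sblk at hx
  rw [mem_image] at hx
  obtain ⟨i, -, rfl⟩ := hx
  exact (e ⟨a, i⟩).2

theorem sblk_disjoint {q : ℕ} {u : Fin q → ℕ} {Y : Finset ℕ}
    (e : (Σ a : Fin q, Fin (u a)) ≃ Y) {a b : Fin q} (hab : a ≠ b) :
    Disjoint (sblk e a) (sblk e b) := by
  rw [disjoint_left]
  intro x hx hy
  unfold sblk at hx hy
  rw [mem_image] at hx hy
  obtain ⟨i, -, rfl⟩ := hx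
  obtain ⟨j, -, h⟩ := hy
  have h1 := e.injective (Subtype.ext h)
  simp only [Sigma.mk.injEq] at h1
  exact hab h1.1.symm

theorem card_sblk_eq_le {q : ℕ} {u : Fin q → ℕ} {Y : Finset ℕ} (a : Fin q) {T T' : Finset ℕ}
    (hT : T ⊆ Y) (hT' : T' ⊆ Y) (hc : T.card = T'.card) :
    (univ.filter (fun e : (Σ a : Fin q, Fin (u a)) ≃ Y => sblk e a = T)).card ≤
      (univ.filter (fun e : (Σ a : Fin q, Fin (u a)) ≃ Y => sblk e a = T')).card := by
  classical
  have e0 : {x : Y // (x : ℕ) ∈ T} ≃ {x : Y // (x : ℕ) ∈ T'} := by
    refine Fintype.equivOfCardEq ?_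
    rw [Fintype.card_subtype, Fintype.card_subtype]
    have h1 : ∀ U : Finset ℕ, U ⊆ Y → (univ.filter (fun x : Y => (x : ℕ) ∈ U)).card = U.card := by
      intro U hU
      refine card_bij (fun x _ => (x : ℕ)) ?_ ?_ ?_
      · intro x hx; exact (mem_filter.mp hx).2
      · intro x _ y _ h; exact Subtype.ext h
      · intro x hx; exact ⟨⟨x, hU hx⟩, by rw [mem_filter]; exact ⟨mem_univ _, hx⟩, rfl⟩
    rw [h1 T hT, h1 T' hT', hc]
  let π : Equiv.Perm Y := e0.extendSubtype
  refine card_le_card_of_injOn (fun e => e.trans π) ?_ ?_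
  · intro e he
    have he' := (mem_filter.mp (mem_coe.mp he)).2
    refine mem_coe.mpr (mem_filter.mpr ⟨mem_univ _, ?_⟩)
    have hsub : sblk (e.trans π) a ⊆ T' := by
      intro x hx
      unfold sblk at hx
      rw [mem_image] at hx
      obtain ⟨i, -, rfl⟩ := hx
      have h1 : ((e ⟨a, i⟩ : Y) : ℕ) ∈ T := by
        rw [← he']
        unfold sblk
        rw [mem_image]
        exact ⟨i, mem_univ _, rfl⟩
      exact e0.extendSubtype_mem (e ⟨a, i⟩) h1
    refine eq_of_subset_of_card_le hsub ?_
    rw [sblk_card, ← hc, ← he', sblk_card]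
  · intro e _ e' _ h
    have h' : e.trans π = e'.trans π := h
    ext x
    have := congrArg (fun f => (f x)) h'
    simp only [Equiv.trans_apply] at this
    rw [π.injective this]

/-- threshold -/
def thr (q N u : ℕ) : ℕ := if u = 0 then 0 else (q - 1) * (N - 1).choose (u - 1)

/-- averaging over arrangements, cross version -/
theorem avg_cross {q : ℕ} (hq : 1 ≤ q) {u : Fin q → ℕ} {Y : Finset ℕ}
    (hY : Y.card = ∑ a, u a) {S : Fin q → Finset (Finset ℕ)}
    (hS : ∀ a, S a ⊆ powersetCard (u a) Y) (hthr : ∀ a, thr q Y.card (u a) < (S a).card) :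
    ∃ f : Fin q → Finset ℕ, (∀ a, f a ∈ S a) ∧ Pairwise (fun a b => Disjoint (f a) (f b)) := by
  classical
  by_contra hcon
  push Not at hcon
  set E := (Σ a : Fin q, Fin (u a)) ≃ Y with hE
  have hne : Nonempty E := by
    refine ⟨Fintype.equivOfCardEq ?_⟩
    rw [Fintype.card_sigma, Fintype.card_coe, hY]
    simp
  have hpos : 0 < Fintype.card E := Fintype.card_pos
  set N := Y.card with hN
  have h1 : ∀ e : E, (univ.filter (fun a : Fin q => sblk e a ∈ S a)).card ≤ q - 1 := by
    intro e
    by_contra hc
    push Not at hc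
    have h2 : (univ.filter (fun a : Fin q => sblk e a ∈ S a)) = univ := by
      refine eq_of_subset_of_card_le (subset_univ _) ?_
      rw [card_univ, Fintype.card_fin]
      omega
    refine hcon (fun a => sblk e a) (fun a => ?_) (fun a b hab => sblk_disjoint e hab)
    have : a ∈ (univ.filter (fun a : Fin q => sblk e a ∈ S a)) := by rw [h2]; exact mem_univ _
    exact (mem_filter.mp this).2
  have h2 : ∀ a : Fin q, (univ.filter (fun e : E => sblk e a ∈ S a)).card * N.choose (u a) =
      (S a).card * Fintype.card E := by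
    intro a
    have hc : ∀ T ∈ powersetCard (u a) Y, ∀ T' ∈ powersetCard (u a) Y,
        (univ.filter (fun e : E => sblk e a = T)).card =
          (univ.filter (fun e : E => sblk e a = T')).card := by
      intro T hT T' hT'
      rw [mem_powersetCard] at hT hT'
      exact le_antisymm (card_sblk_eq_le a hT.1 hT'.1 (hT.2.trans hT'.2.symm))
        (card_sblk_eq_le a hT'.1 hT.1 (hT'.2.trans hT.2.symm))
    rcases (S a).eq_empty_or_nonempty with h0 | ⟨T0, hT0⟩
    · rw [h0]; simp
    have hT0' := hS a hT0
    have hA : (univ.filter (fun e : E => sblk e a ∈ S a)).card =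
        (S a).card * (univ.filter (fun e : E => sblk e a = T0)).card := by
      rw [card_eq_sum_card_fiberwise (f := fun e : E => sblk e a) (t := S a)]
      · rw [← smul_eq_mul, ← sum_const]
        refine sum_congr rfl (fun T hT => ?_)
        rw [← hc T (hS a hT) T0 hT0', filter_filter]
        congr 1
        ext e
        simp only [mem_filter, mem_univ, true_and]
        constructor
        · rintro ⟨_, h⟩; exact h
        · intro h; exact ⟨h ▸ hT, h⟩
      · intro e he
        exact mem_coe.mpr (mem_filter.mp (mem_coe.mp he)).2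
    have hB : Fintype.card E = N.choose (u a) *
        (univ.filter (fun e : E => sblk e a = T0)).card := by
      rw [← card_univ, card_eq_sum_card_fiberwise (f := fun e : E => sblk e a)
        (t := powersetCard (u a) Y)]
      · have : (powersetCard (u a) Y).card = N.choose (u a) := by rw [card_powersetCard]
        rw [← this, ← smul_eq_mul, ← sum_const]
        refine sum_congr rfl (fun T hT => ?_)
        rw [← hc T hT T0 hT0']
      · intro e _
        refine mem_coe.mpr (mem_powersetCard.mpr ⟨sblk_subset e a, sblk_card e a⟩)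
    rw [hA, hB]
    ring
  have h3 : ∑ a : Fin q, (univ.filter (fun e : E => sblk e a ∈ S a)).card ≤
      (q - 1) * Fintype.card E := by
    have h4 : ∑ a : Fin q, (univ.filter (fun e : E => sblk e a ∈ S a)).card =
        ∑ e : E, (univ.filter (fun a : Fin q => sblk e a ∈ S a)).card := by
      simp only [card_filter]
      exact sum_comm
    rw [h4]
    calc ∑ e : E, (univ.filter (fun a : Fin q => sblk e a ∈ S a)).card ≤ ∑ _e : E, (q - 1) :=
          sum_le_sum (fun e _ => h1 e)
      _ = (q - 1) * Fintype.card E := by rw [sum_const, card_univ, smul_eq_mul]; ring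
  -- each `a` has more than its share
  have hu : ∀ a, u a ≤ N := by
    intro a
    rw [hY]
    exact single_le_sum (f := u) (fun _ _ => Nat.zero_le _) (mem_univ a)
  have hNpos : 0 < N := by
    by_contra h0
    have hN0 : N = 0 := by omega
    have hua : ∀ a, u a = 0 := by
      intro a
      have := hu a
      omega
    refine hcon (fun _ => ∅) (fun a => ?_) (fun _ _ _ => disjoint_empty_left _)
    have h5 : 0 < (S a).card := lt_of_le_of_lt (Nat.zero_le _) (hthr a)
    obtain ⟨A, hA⟩ := card_pos.mp h5
    have h6 := (mem_powersetCard.mp (hS a hA)).2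
    rw [hua a, card_eq_zero] at h6
    rw [← h6]; exact hA
  have h4 : ∀ a : Fin q, (q - 1) * u a * Fintype.card E <
      N * (univ.filter (fun e : E => sblk e a ∈ S a)).card := by
    intro a
    have h5 : (q - 1) * u a * N.choose (u a) < N * (S a).card := by
      have h6 := hthr a
      unfold thr at h6
      split_ifs at h6 with h7
      · rw [h7]
        simp only [mul_zero, zero_mul]
        exact Nat.mul_pos hNpos h6
      · obtain ⟨M, hM⟩ : ∃ M, N = M + 1 := ⟨N - 1, by omega⟩
        obtain ⟨v, hv⟩ : ∃ v, u a = v + 1 := ⟨u a - 1, by omega⟩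
        rw [hM, hv] at h6 ⊢
        simp only [Nat.add_sub_cancel] at h6
        have h8 := Nat.add_one_mul_choose_eq M v
        calc (q - 1) * (v + 1) * (M + 1).choose (v + 1)
            = (q - 1) * ((M + 1).choose (v + 1) * (v + 1)) := by ring
          _ = (q - 1) * ((M + 1) * M.choose v) := by rw [h8]
          _ = (M + 1) * ((q - 1) * M.choose v) := by ring
          _ < (M + 1) * (S a).card := Nat.mul_lt_mul_of_pos_left h6 (Nat.succ_pos M)
    have hC : 0 < N.choose (u a) := Nat.choose_pos (hu a)
    have h6 : (q - 1) * u a * Fintype.card E * N.choose (u a) <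
        N * (univ.filter (fun e : E => sblk e a ∈ S a)).card * N.choose (u a) := by
      calc (q - 1) * u a * Fintype.card E * N.choose (u a)
          = ((q - 1) * u a * N.choose (u a)) * Fintype.card E := by ring
        _ < (N * (S a).card) * Fintype.card E := Nat.mul_lt_mul_of_pos_right h5 hpos
        _ = N * ((S a).card * Fintype.card E) := by ring
        _ = N * ((univ.filter (fun e : E => sblk e a ∈ S a)).card * N.choose (u a)) := by
            rw [h2 a]
        _ = _ := by ring
    exact lt_of_mul_lt_mul_right h6 (Nat.zero_le _)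
  have h5 : ∑ a : Fin q, (q - 1) * u a * Fintype.card E <
      ∑ a : Fin q, N * (univ.filter (fun e : E => sblk e a ∈ S a)).card :=
    sum_lt_sum_of_nonempty ⟨⟨0, hq⟩, mem_univ _⟩ (fun a _ => h4 a)
  rw [← mul_sum] at h5
  have h6 : ∑ a : Fin q, (q - 1) * u a * Fintype.card E = N * ((q - 1) * Fintype.card E) := by
    rw [hY, sum_mul]
    refine sum_congr rfl (fun a _ => ?_)
    ring
  rw [h6] at h5
  have h7 := lt_of_mul_lt_mul_left h5 (Nat.zero_le _)
  omega

/-- The cross version of Frankl's matching theorem for shifted families. -/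
theorem cross_matching {q : ℕ} (hq : 1 ≤ q) : ∀ (N : ℕ) (u : Fin q → ℕ), ∑ a, u a ≤ N →
    ∀ Y : Finset ℕ, Y.card = N → ∀ S : Fin q → Finset (Finset ℕ),
    (∀ a, S a ⊆ powersetCard (u a) Y) →
    (∀ a, ∀ A ∈ S a, ∀ x ∈ Y, ∀ y, x < y → y ∈ A → x ∉ A → insert x (A.erase y) ∈ S a) →
    (∀ a, thr q N (u a) < (S a).card) →
    ∃ f : Fin q → Finset ℕ, (∀ a, f a ∈ S a) ∧ Pairwise (fun a b => Disjoint (f a) (f b)) := by
  classical
  intro N
  induction N with
  | zero =>
    intro u hu Y hY S hS hSh hthr
    refine avg_cross hq (u := u) ?_ hS (by rw [hY]; exact hthr)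
    rw [hY]; omega
  | succ N ih =>
    intro u hu Y hY S hS hSh hthr
    rcases eq_or_lt_of_le hu with heq | hlt
    · refine avg_cross hq (u := u) ?_ hS (by rw [hY]; exact hthr)
      rw [hY, heq]
    have hYne : Y.Nonempty := by rw [← card_pos]; omega
    set y := Y.max' hYne with hy
    have hyY : y ∈ Y := max'_mem _ _
    have hmax : ∀ x ∈ Y, x ≤ y := fun x hx => le_max' _ _ hx
    set Y' := Y.erase y with hY'
    have hY'c : Y'.card = N := by rw [hY', card_erase_of_mem hyY, hY]; rfl
    set S0 : Fin q → Finset (Finset ℕ) := fun a => (S a).filter (fun A => y ∉ A) with hS0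
    set S1 : Fin q → Finset (Finset ℕ) :=
      fun a => ((S a).filter (fun A => ¬ y ∉ A)).image (fun A => A.erase y) with hS1
    have hcard : ∀ a, (S a).card = (S0 a).card + (S1 a).card := by
      intro a
      simp only [hS1, hS0]
      rw [card_image_of_injOn, card_filter_add_card_filter_not]
      intro A hA B hB h
      have hA' := (mem_filter.mp (mem_coe.mp hA)).2
      have hB' := (mem_filter.mp (mem_coe.mp hB)).2
      rw [not_not] at hA' hB'
      have h' : A.erase y = B.erase y := h
      rw [← insert_erase hA', h', insert_erase hB']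
    have hS1mem : ∀ a A, A ∈ S1 a → insert y A ∈ S a ∧ y ∉ A := by
      intro a A hA
      simp only [hS1] at hA
      rw [mem_image] at hA
      obtain ⟨B, hB, rfl⟩ := hA
      rw [mem_filter, not_not] at hB
      refine ⟨?_, notMem_erase _ _⟩
      rw [insert_erase hB.2]
      exact hB.1
    have hS1mem' : ∀ a A, insert y A ∈ S a → y ∉ A → A ∈ S1 a := by
      intro a A hA hyA
      simp only [hS1]
      rw [mem_image]
      refine ⟨insert y A, ?_, erase_insert hyA⟩
      rw [mem_filter, not_not]
      exact ⟨hA, mem_insert_self _ _⟩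
    -- the dichotomy
    have hdich : ∀ a, thr q N (u a) < (S0 a).card ∨
        (1 ≤ u a ∧ thr q N (u a - 1) < (S1 a).card) := by
      intro a
      by_contra hcon
      push Not at hcon
      obtain ⟨h1, h2⟩ := hcon
      rcases Nat.eq_zero_or_pos (u a) with h0 | h0
      · have h3 : (S1 a).card = 0 := by
          rw [card_eq_zero, eq_empty_iff_forall_notMem]
          intro A hA
          have h4 := (mem_powersetCard.mp (hS a (hS1mem a A hA).1)).2
          rw [h0, card_eq_zero] at h4
          exact (insert_nonempty y A).ne_empty h4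
        have h4 := hthr a
        rw [hcard a, h3] at h4
        unfold thr at h1 h4
        rw [if_pos h0] at h1 h4
        omega
      · have h3 := h2 h0
        have h4 := hthr a
        rw [hcard a] at h4
        have hNpos : 1 ≤ N := by
          have : u a ≤ ∑ a, u a :=
            single_le_sum (f := u) (fun _ _ => Nat.zero_le _) (mem_univ a)
          omega
        obtain ⟨M, rfl⟩ : ∃ M, N = M + 1 := ⟨N - 1, by omega⟩
        obtain ⟨v, hv⟩ : ∃ v, u a = v + 1 := ⟨u a - 1, by omega⟩
        rw [hv] at h1 h3 h4
        unfold thr at h1 h3 h4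
        rw [if_neg (Nat.succ_ne_zero v)] at h1 h4
        simp only [Nat.add_sub_cancel] at h1 h3 h4
        rcases Nat.eq_zero_or_pos v with hv0 | hv0
        · subst hv0
          simp at h1 h3 h4
          rw [h3] at h4
          simp at h4
          omega
        · rw [if_neg (by omega)] at h3
          obtain ⟨z, rfl⟩ : ∃ z, v = z + 1 := ⟨v - 1, by omega⟩
          simp only [Nat.add_sub_cancel] at h3
          rw [Nat.choose_succ_succ', Nat.mul_add] at h4
          omega
    set u' : Fin q → ℕ := fun a => if thr q N (u a) < (S0 a).card then u a else u a - 1 with hu'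
    set S' : Fin q → Finset (Finset ℕ) :=
      fun a => if thr q N (u a) < (S0 a).card then S0 a else S1 a with hS'
    have hS0mem : ∀ a A, A ∈ S0 a ↔ A ∈ S a ∧ y ∉ A := fun a A => by
      simp only [hS0]; exact mem_filter
    have hS'pos : ∀ a, thr q N (u a) < (S0 a).card → S' a = S0 a := fun a h => if_pos h
    have hS'neg : ∀ a, ¬ thr q N (u a) < (S0 a).card → S' a = S1 a := fun a h => if_neg h
    have hu'pos : ∀ a, thr q N (u a) < (S0 a).card → u' a = u a := fun a h => if_pos h
    have hu'neg : ∀ a, ¬ thr q N (u a) < (S0 a).card → u' a = u a - 1 := fun a h => if_neg h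
    clear_value S0 S1 u' S'
    set B : Finset (Fin q) := univ.filter (fun a => ¬ thr q N (u a) < (S0 a).card) with hB
    have hsumB : ∑ a, u' a + B.card = ∑ a, u a := by
      rw [hB, card_filter, ← sum_add_distrib]
      refine sum_congr rfl (fun a _ => ?_)
      by_cases h : thr q N (u a) < (S0 a).card
      · rw [hu'pos a h, if_neg (not_not.mpr h)]; rfl
      · rw [hu'neg a h, if_pos h]
        have := (hdich a).resolve_left h
        omega
    obtain ⟨f', hf', hpw⟩ : ∃ f' : Fin q → Finset ℕ, (∀ a, f' a ∈ S' a) ∧
        Pairwise (fun a b => Disjoint (f' a) (f' b)) := by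
      refine ih u' (by omega) Y' hY'c S' ?_ ?_ ?_
      · intro a A hA
        by_cases h : thr q N (u a) < (S0 a).card
        · rw [hS'pos a h, hS0mem] at hA
          have h1 := mem_powersetCard.mp (hS a hA.1)
          rw [mem_powersetCard, hu'pos a h]
          refine ⟨?_, h1.2⟩
          intro x hx
          rw [hY', mem_erase]
          exact ⟨fun h => hA.2 (h ▸ hx), h1.1 hx⟩
        · rw [hS'neg a h] at hA
          obtain ⟨h1, h2⟩ := hS1mem a A hA
          have h3 := mem_powersetCard.mp (hS a h1)
          rw [card_insert_of_notMem h2] at h3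
          rw [mem_powersetCard, hu'neg a h]
          refine ⟨?_, by omega⟩
          intro x hx
          rw [hY', mem_erase]
          exact ⟨fun h => h2 (h ▸ hx), h3.1 (mem_insert_of_mem hx)⟩
      · intro a A hA x hx z hxz hzA hxA
        rw [hY', mem_erase] at hx
        by_cases h : thr q N (u a) < (S0 a).card
        · rw [hS'pos a h, hS0mem] at hA ⊢
          refine ⟨hSh a A hA.1 x hx.2 z hxz hzA hxA, ?_⟩
          rw [mem_insert, mem_erase]
          rintro (h | h)
          · exact hx.1 h.symm
          · exact hA.2 h.2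
        · rw [hS'neg a h] at hA ⊢
          obtain ⟨h1, h2⟩ := hS1mem a A hA
          have hzy : z ≠ y := fun h => h2 (h ▸ hzA)
          have h3 := hSh a _ h1 x hx.2 z hxz (mem_insert_of_mem hzA) (by
            rw [mem_insert]; rintro (h | h)
            · exact hx.1 h
            · exact hxA h)
          refine hS1mem' a _ ?_ ?_
          · rw [erase_insert_of_ne hzy.symm, Finset.insert_comm] at h3
            exact h3
          · rw [mem_insert, mem_erase]
            rintro (h | h)
            · exact hx.1 h.symm
            · exact h2 h.2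
      · intro a
        by_cases h : thr q N (u a) < (S0 a).card
        · rw [hS'pos a h, hu'pos a h]; exact h
        · rw [hS'neg a h, hu'neg a h]
          exact ((hdich a).resolve_left h).2
    -- choose the extra elements
    have hf'card : ∀ a, (f' a).card = u' a ∧ f' a ⊆ Y := by
      intro a
      by_cases h : thr q N (u a) < (S0 a).card
      · have h1 := hf' a
        rw [hS'pos a h, hS0mem] at h1
        have h2 := mem_powersetCard.mp (hS a h1.1)
        rw [hu'pos a h]
        exact ⟨h2.2, h2.1⟩
      · have h1 := hf' a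
        rw [hS'neg a h] at h1
        obtain ⟨h2, h3⟩ := hS1mem a _ h1
        have h4 := mem_powersetCard.mp (hS a h2)
        rw [card_insert_of_notMem h3] at h4
        rw [hu'neg a h]
        exact ⟨by omega, (subset_insert _ _).trans h4.1⟩
    have hUc : (univ.biUnion f').card ≤ ∑ a, u' a :=
      card_biUnion_le.trans (sum_le_sum (fun a _ => (hf'card a).1.le))
    have hfree : B.card ≤ (Y \ univ.biUnion f').card := by
      have := le_card_sdiff (univ.biUnion f') Y
      omega
    have hemb : Nonempty (B ↪ (Y \ univ.biUnion f' : Finset ℕ)) :=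
      Function.Embedding.nonempty_of_card_le (by
        rw [Fintype.card_coe, Fintype.card_coe]; exact hfree)
    obtain ⟨g⟩ := hemb
    set z : Fin q → ℕ := fun a => if h : a ∈ B then (g ⟨a, h⟩ : ℕ) else 0 with hz
    have hz1 : ∀ a ∈ B, z a ∈ Y ∧ ∀ b, z a ∉ f' b := by
      intro a ha
      simp only [hz, dif_pos ha]
      have := (g ⟨a, ha⟩).2
      rw [mem_sdiff, mem_biUnion] at this
      exact ⟨this.1, fun b hb => this.2 ⟨b, mem_univ _, hb⟩⟩
    have hz2 : ∀ a ∈ B, ∀ b ∈ B, z a = z b → a = b := by
      intro a ha b hb h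
      simp only [hz, dif_pos ha, dif_pos hb] at h
      have := g.injective (Subtype.ext h)
      simpa using this
    refine ⟨fun a => if a ∈ B then insert (z a) (f' a) else f' a, ?_, ?_⟩
    · intro a
      simp only
      by_cases ha : a ∈ B
      · rw [if_pos ha]
        have h := (mem_filter.mp ha).2
        have h1 := hf' a
        rw [hS'neg a h] at h1
        obtain ⟨h2, h3⟩ := hS1mem a _ h1
        obtain ⟨h4, h5⟩ := hz1 a ha
        rcases eq_or_lt_of_le (hmax _ h4) with h6 | h6
        · rw [h6]; exact h2
        · have h7 := hSh a _ h2 _ h4 y h6 (mem_insert_self _ _) (by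
            rw [mem_insert]; rintro (h | h)
            · exact (ne_of_lt h6) h
            · exact h5 a h)
          rwa [erase_insert h3] at h7
      · rw [if_neg ha]
        have h : thr q N (u a) < (S0 a).card := by
          by_contra hc
          exact ha (mem_filter.mpr ⟨mem_univ _, hc⟩)
        have h1 := hf' a
        rw [hS'pos a h, hS0mem] at h1
        exact h1.1
    · intro a b hab
      simp only
      have h0 := hpw hab
      simp only at h0
      by_cases ha : a ∈ B <;> by_cases hb : b ∈ B
      · rw [if_pos ha, if_pos hb, disjoint_insert_left, mem_insert, disjoint_insert_right]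
        refine ⟨?_, (hz1 b hb).2 a, h0⟩
        rintro (h | h)
        · exact hab (hz2 a ha b hb h)
        · exact (hz1 a ha).2 b h
      · rw [if_pos ha, if_neg hb, disjoint_insert_left]
        exact ⟨(hz1 a ha).2 b, h0⟩
      · rw [if_neg ha, if_pos hb, disjoint_insert_right]
        exact ⟨(hz1 b hb).2 a, h0⟩
      · rw [if_neg ha, if_neg hb]
        exact h0

end Pool.Agent.H93.EF
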