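import Mathlib

set_option autoImplicit false

open Finset

namespace Pool.Agent.H93.EF

/-- No `q` pairwise disjoint members (as an indexed family). -/
def NoMatch (q : ℕ) (S : Finset (Finset ℕ)) : Prop :=
  ∀ f : Fin q → Finset ℕ, (∀ a, f a ∈ S) → ¬ Pairwise (fun a b => Disjoint (f a) (f b))

theorem NoMatch.mono {q : ℕ} {S T : Finset (Finset ℕ)} (h : NoMatch q S) (hT : T ⊆ S) :
    NoMatch q T := fun f hf => h f (fun a => hT (hf a))

/-- The block `a` of an arrangement. -/
def blk {q s : ℕ} {Y : Finset ℕ} (e : Fin q × Fin s ≃ Y) (a : Fin q) : Finset ℕ :=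
  univ.image (fun i : Fin s => ((e (a, i) : Y) : ℕ))

theorem blk_card {q s : ℕ} {Y : Finset ℕ} (e : Fin q × Fin s ≃ Y) (a : Fin q) :
    (blk e a).card = s := by
  unfold blk
  rw [card_image_of_injective, card_univ, Fintype.card_fin]
  intro i j h
  have h1 := e.injective (Subtype.ext h)
  simpa using h1

theorem blk_subset {q s : ℕ} {Y : Finset ℕ} (e : Fin q × Fin s ≃ Y) (a : Fin q) :
    blk e a ⊆ Y := by
  intro x hx
  unfold blk at hx
  rw [mem_image] at hx
  obtain ⟨i, -, rfl⟩ := hx
  exact (e (a, i)).2

theorem blk_disjoint {q s : ℕ} {Y : Finset ℕ} (e : Fin q × Fin s ≃ Y) {a b : Fin q}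
    (hab : a ≠ b) : Disjoint (blk e a) (blk e b) := by
  rw [disjoint_left]
  intro x hx hy
  unfold blk at hx hy
  rw [mem_image] at hx hy
  obtain ⟨i, -, rfl⟩ := hx
  obtain ⟨j, -, h⟩ := hy
  have h1 := e.injective (Subtype.ext h)
  simp only [Prod.mk.injEq] at h1
  exact hab h1.1.symm

/-- number of arrangements whose block `a` is `T`: independent of `T` -/
theorem card_blk_eq_le {q s : ℕ} {Y : Finset ℕ} (a : Fin q) {T T' : Finset ℕ}
    (hT : T ⊆ Y) (hT' : T' ⊆ Y) (hc : T.card = T'.card) :
    (univ.filter (fun e : Fin q × Fin s ≃ Y => blk e a = T)).card ≤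
      (univ.filter (fun e : Fin q × Fin s ≃ Y => blk e a = T')).card := by
  classical
  have e0 : {x : Y // (x : ℕ) ∈ T} ≃ {x : Y // (x : ℕ) ∈ T'} := by
    refine Fintype.equivOfCardEq ?_
    rw [Fintype.card_subtype, Fintype.card_subtype]
    have h1 : ∀ U : Finset ℕ, U ⊆ Y → (univ.filter (fun x : Y => (x : ℕ) ∈ U)).card = U.card := by
      intro U hU
      refine card_bij (fun x _ => (x : ℕ)) ?_ ?_ ?_
      · intro x hx; exact (mem_filter.mp hx).2
      · intro x _ y _ h; exact Subtype.ext h
      · intro x hx; exact ⟨⟨x, hU hx⟩, by rw [mem_filter]; exact ⟨mem_univ _, hx⟩, rfl⟩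
    rw [h1 T hT, h1 T' hT', hc]
  let π : Equiv.Perm Y := e0.extendSubtype
  refine card_le_card_of_injOn (fun e => e.trans π) ?_ ?_
  · intro e he
    have he' := (mem_filter.mp (mem_coe.mp he)).2
    refine mem_coe.mpr (mem_filter.mpr ⟨mem_univ _, ?_⟩)
    have hsub : blk (e.trans π) a ⊆ T' := by
      intro x hx
      unfold blk at hx
      rw [mem_image] at hx
      obtain ⟨i, -, rfl⟩ := hx
      have h1 : ((e (a, i) : Y) : ℕ) ∈ T := by
        rw [← he']
        unfold blk
        rw [mem_image]
        exact ⟨i, mem_univ _, rfl⟩
      exact e0.extendSubtype_mem (e (a, i)) h1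
    refine eq_of_subset_of_card_le hsub ?_
    rw [blk_card, ← hc, ← he', blk_card]
  · intro e _ e' _ h
    have h' : e.trans π = e'.trans π := h
    ext x
    have := congrArg (fun f => (f x)) h'
    simp only [Equiv.trans_apply] at this
    rw [π.injective this]

/-- averaging over arrangements -/
theorem avg_bound {q s : ℕ} {Y : Finset ℕ} (hY : Y.card = q * s) {S : Finset (Finset ℕ)}
    (hS : S ⊆ powersetCard s Y) (hM : NoMatch q S) (hq : 1 ≤ q) :
    q * S.card ≤ (q - 1) * (q * s).choose s := by
  classical
  set E := Fin q × Fin s ≃ Y with hE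
  have hne : Nonempty E := by
    refine ⟨Fintype.equivOfCardEq ?_⟩
    rw [Fintype.card_prod, Fintype.card_fin, Fintype.card_fin, Fintype.card_coe, hY]
  have hpos : 0 < Fintype.card E := Fintype.card_pos
  -- step 1
  have h1 : ∀ e : E, (univ.filter (fun a : Fin q => blk e a ∈ S)).card ≤ q - 1 := by
    intro e
    by_contra hcon
    push Not at hcon
    have h2 : (univ.filter (fun a : Fin q => blk e a ∈ S)) = univ := by
      refine eq_of_subset_of_card_le (subset_univ _) ?_
      rw [card_univ, Fintype.card_fin]
      omega
    refine hM (fun a => blk e a) (fun a => ?_) (fun a b hab => blk_disjoint e hab)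
    have : a ∈ (univ.filter (fun a : Fin q => blk e a ∈ S)) := by rw [h2]; exact mem_univ _
    exact (mem_filter.mp this).2
  -- step 2
  have h2 : ∀ a : Fin q, (univ.filter (fun e : E => blk e a ∈ S)).card * (q * s).choose s =
      S.card * Fintype.card E := by
    intro a
    have hc : ∀ T ∈ powersetCard s Y, ∀ T' ∈ powersetCard s Y,
        (univ.filter (fun e : E => blk e a = T)).card =
          (univ.filter (fun e : E => blk e a = T')).card := by
      intro T hT T' hT'
      rw [mem_powersetCard] at hT hT'
      exact le_antisymm (card_blk_eq_le a hT.1 hT'.1 (hT.2.trans hT'.2.symm))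
        (card_blk_eq_le a hT'.1 hT.1 (hT'.2.trans hT.2.symm))
    rcases S.eq_empty_or_nonempty with rfl | ⟨T0, hT0⟩
    · simp
    have hT0' := hS hT0
    have hA : (univ.filter (fun e : E => blk e a ∈ S)).card =
        S.card * (univ.filter (fun e : E => blk e a = T0)).card := by
      rw [card_eq_sum_card_fiberwise (f := fun e : E => blk e a) (t := S)]
      · rw [← smul_eq_mul, ← sum_const]
        refine sum_congr rfl (fun T hT => ?_)
        rw [← hc T (hS hT) T0 hT0', filter_filter]
        congr 1
        ext e
        simp only [mem_filter, mem_univ, true_and]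
        constructor
        · rintro ⟨_, h⟩; exact h
        · intro h; exact ⟨h ▸ hT, h⟩
      · intro e he
        exact mem_coe.mpr (mem_filter.mp (mem_coe.mp he)).2
    have hB : Fintype.card E = (q * s).choose s *
        (univ.filter (fun e : E => blk e a = T0)).card := by
      rw [← card_univ, card_eq_sum_card_fiberwise (f := fun e : E => blk e a)
        (t := powersetCard s Y)]
      · have : (powersetCard s Y).card = (q * s).choose s := by rw [card_powersetCard, hY]
        rw [← this, ← smul_eq_mul, ← sum_const]
        refine sum_congr rfl (fun T hT => ?_)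
        rw [← hc T hT T0 hT0']
      · intro e _
        refine mem_coe.mpr (mem_powersetCard.mpr ⟨blk_subset e a, blk_card e a⟩)
    rw [hA, hB]
    ring
  -- step 3: double count
  have h3 : ∑ a : Fin q, (univ.filter (fun e : E => blk e a ∈ S)).card ≤
      (q - 1) * Fintype.card E := by
    have h4 : ∑ a : Fin q, (univ.filter (fun e : E => blk e a ∈ S)).card =
        ∑ e : E, (univ.filter (fun a : Fin q => blk e a ∈ S)).card := by
      simp only [card_filter]
      exact sum_comm
    rw [h4]
    calc ∑ e : E, (univ.filter (fun a : Fin q => blk e a ∈ S)).card ≤ ∑ _e : E, (q - 1) :=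
          sum_le_sum (fun e _ => h1 e)
      _ = (q - 1) * Fintype.card E := by rw [sum_const, card_univ, smul_eq_mul]; ring
  have h5 : (∑ a : Fin q, (univ.filter (fun e : E => blk e a ∈ S)).card) * (q * s).choose s =
      q * (S.card * Fintype.card E) := by
    rw [sum_mul, sum_congr rfl (fun a _ => h2 a), sum_const, card_univ, Fintype.card_fin,
      smul_eq_mul]
  have h6 : q * (S.card * Fintype.card E) ≤ (q - 1) * Fintype.card E * (q * s).choose s := by
    rw [← h5]
    exact Nat.mul_le_mul_right _ h3
  have h7 : (q * S.card) * Fintype.card E ≤ ((q - 1) * (q * s).choose s) * Fintype.card E := by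
    calc (q * S.card) * Fintype.card E = q * (S.card * Fintype.card E) := by ring
      _ ≤ _ := h6
      _ = _ := by ring
  exact Nat.le_of_mul_le_mul_right h7 hpos

/-- Frankl's matching bound for shifted families. -/
theorem matching_bound {q : ℕ} (hq : 1 ≤ q) : ∀ (N s : ℕ), q * s ≤ N → ∀ Y : Finset ℕ,
    Y.card = N → ∀ S : Finset (Finset ℕ), S ⊆ powersetCard s Y →
    (∀ A ∈ S, ∀ x ∈ Y, ∀ y, x < y → y ∈ A → x ∉ A → insert x (A.erase y) ∈ S) →
    NoMatch q S → S.card ≤ if s = 0 then 0 else (q - 1) * (N - 1).choose (s - 1) := by
  intro N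
  induction N with
  | zero =>
    intro s hs Y hY S hS _ hM
    have hs0 : s = 0 := by
      rcases Nat.eq_zero_or_pos s with h | h
      · exact h
      · have := Nat.mul_pos (show 0 < q by omega) h
        omega
    subst hs0
    rw [if_pos rfl]
    by_contra hcon
    obtain ⟨A, hA⟩ : S.Nonempty := by rw [← card_pos]; omega
    have hA0 : A = ∅ := by
      have := (mem_powersetCard.mp (hS hA)).2
      exact card_eq_zero.mp this
    subst hA0
    exact hM (fun _ => ∅) (fun _ => hA) (fun _ _ _ => disjoint_empty_left _)
  | succ N ih =>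
    intro s hs Y hY S hS hSh hM
    rcases Nat.eq_zero_or_pos s with h0 | h0
    · subst h0
      rw [if_pos rfl]
      by_contra hcon
      obtain ⟨A, hA⟩ : S.Nonempty := by rw [← card_pos]; omega
      have hA0 : A = ∅ := by
        have := (mem_powersetCard.mp (hS hA)).2
        exact card_eq_zero.mp this
      subst hA0
      exact hM (fun _ => ∅) (fun _ => hA) (fun _ _ _ => disjoint_empty_left _)
    rw [if_neg (by omega)]
    rcases eq_or_lt_of_le hs with heq | hlt
    · -- base case
      have h1 := avg_bound (hY.trans heq.symm) hS hM hq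
      have h2 : (q * s).choose s = q * (q * s - 1).choose (s - 1) := by
        obtain ⟨t, rfl⟩ : ∃ t, s = t + 1 := ⟨s - 1, by omega⟩
        obtain ⟨u, hu⟩ : ∃ u, q * (t + 1) = u + 1 := ⟨N, heq⟩
        have h3 := Nat.add_one_mul_choose_eq u t
        rw [hu]
        simp only [Nat.add_sub_cancel]
        rw [← hu] at h3
        have h4 : (t + 1) * (q * u.choose t) = (t + 1) * ((u + 1).choose (t + 1)) := by
          rw [← hu]
          calc (t + 1) * (q * u.choose t) = q * (t + 1) * u.choose t := by ring
            _ = (q * (t + 1)).choose (t + 1) * (t + 1) := h3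
            _ = _ := by ring
        exact (Nat.eq_of_mul_eq_mul_left (Nat.succ_pos t) h4).symm
      rw [h2] at h1
      have h3 : q * S.card ≤ q * ((q - 1) * (q * s - 1).choose (s - 1)) := by
        calc q * S.card ≤ _ := h1
          _ = _ := by ring
      have h4 := Nat.le_of_mul_le_mul_left h3 (by omega)
      rw [heq] at h4
      exact h4
    · -- inductive step
      have hYne : Y.Nonempty := by rw [← card_pos]; omega
      set y := Y.max' hYne with hy
      have hyY : y ∈ Y := max'_mem _ _
      have hmax : ∀ x ∈ Y, x ≤ y := fun x hx => le_max' _ _ hx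
      set Y' := Y.erase y with hY'
      have hY'c : Y'.card = N := by rw [hY', card_erase_of_mem hyY, hY]; rfl
      set S0 := S.filter (fun A => y ∉ A) with hS0
      set S1 := (S.filter (fun A => ¬ y ∉ A)).image (fun A => A.erase y) with hS1
      have hcard : S.card = S0.card + S1.card := by
        rw [hS1, card_image_of_injOn, card_filter_add_card_filter_not]
        intro A hA B hB h
        have hA' := (mem_filter.mp (mem_coe.mp hA)).2
        have hB' := (mem_filter.mp (mem_coe.mp hB)).2
        rw [not_not] at hA' hB'
        have h' : A.erase y = B.erase y := h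
        rw [← insert_erase hA', h', insert_erase hB']
      have hS1mem : ∀ A, A ∈ S1 → insert y A ∈ S ∧ y ∉ A := by
        intro A hA
        rw [hS1, mem_image] at hA
        obtain ⟨B, hB, rfl⟩ := hA
        rw [mem_filter, not_not] at hB
        refine ⟨?_, notMem_erase _ _⟩
        rw [insert_erase hB.2]
        exact hB.1
      have hS1mem' : ∀ A, insert y A ∈ S → y ∉ A → A ∈ S1 := by
        intro A hA hyA
        rw [hS1, mem_image]
        refine ⟨insert y A, ?_, erase_insert hyA⟩
        rw [mem_filter, not_not]
        exact ⟨hA, mem_insert_self _ _⟩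
      -- S0
      have hb0 : S0.card ≤ (q - 1) * (N - 1).choose (s - 1) := by
        have := ih s (by omega) Y' hY'c S0 ?_ ?_ (hM.mono (filter_subset _ _))
        · rwa [if_neg (by omega)] at this
        · intro A hA
          rw [hS0, mem_filter] at hA
          have h1 := mem_powersetCard.mp (hS hA.1)
          rw [mem_powersetCard]
          refine ⟨?_, h1.2⟩
          intro x hx
          rw [hY', mem_erase]
          exact ⟨fun h => hA.2 (h ▸ hx), h1.1 hx⟩
        · intro A hA x hx z hxz hzA hxA
          rw [hS0, mem_filter] at hA ⊢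
          rw [hY', mem_erase] at hx
          refine ⟨hSh A hA.1 x hx.2 z hxz hzA hxA, ?_⟩
          rw [mem_insert, mem_erase]
          rintro (h | h)
          · exact hx.1 h.symm
          · exact hA.2 h.2
      -- S1
      have hb1 : S1.card ≤ if s - 1 = 0 then 0 else (q - 1) * (N - 1).choose (s - 1 - 1) := by
        have hqs : q * (s - 1) + q = q * s := by
          obtain ⟨t, rfl⟩ : ∃ t, s = t + 1 := ⟨s - 1, by omega⟩
          simp [Nat.mul_succ]
        refine ih (s - 1) (by omega) Y' hY'c S1 ?_ ?_ ?_
        · intro A hA
          obtain ⟨h1, h2⟩ := hS1mem A hA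
          have h3 := mem_powersetCard.mp (hS h1)
          rw [card_insert_of_notMem h2] at h3
          rw [mem_powersetCard]
          refine ⟨?_, by omega⟩
          intro x hx
          rw [hY', mem_erase]
          exact ⟨fun h => h2 (h ▸ hx), h3.1 (mem_insert_of_mem hx)⟩
        · intro A hA x hx z hxz hzA hxA
          obtain ⟨h1, h2⟩ := hS1mem A hA
          rw [hY', mem_erase] at hx
          have hzy : z ≠ y := fun h => h2 (h ▸ hzA)
          have h3 := hSh _ h1 x hx.2 z hxz (mem_insert_of_mem hzA) (by
            rw [mem_insert]; rintro (h | h)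
            · exact hx.1 h
            · exact hxA h)
          refine hS1mem' _ ?_ ?_
          · rw [erase_insert_of_ne hzy.symm, Finset.insert_comm] at h3
            exact h3
          · rw [mem_insert, mem_erase]
            rintro (h | h)
            · exact hx.1 h.symm
            · exact h2 h.2
        · intro f hf hpw
          -- choose q extra elements
          have hU : (univ.biUnion f).card ≤ q * (s - 1) := by
            refine le_trans card_biUnion_le ?_
            calc ∑ a : Fin q, (f a).card ≤ ∑ _a : Fin q, (s - 1) := by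
                  refine sum_le_sum (fun a _ => ?_)
                  obtain ⟨h1, h2⟩ := hS1mem _ (hf a)
                  have h3 := (mem_powersetCard.mp (hS h1)).2
                  rw [card_insert_of_notMem h2] at h3
                  omega
              _ = q * (s - 1) := by simp
          have hfree : q ≤ (Y' \ univ.biUnion f).card := by
            have := le_card_sdiff (univ.biUnion f) Y'
            omega
          obtain ⟨Z, hZ, hZc⟩ := exists_subset_card_eq hfree
          let g : Fin q ≃ Z := Fintype.equivOfCardEq (by rw [Fintype.card_fin, Fintype.card_coe, hZc])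
          have hg1 : ∀ a b, ((g a : Z) : ℕ) ∉ f b := by
            intro a b h
            have := hZ (g a).2
            rw [mem_sdiff, mem_biUnion] at this
            exact this.2 ⟨b, mem_univ _, h⟩
          have hg2 : ∀ a, ((g a : Z) : ℕ) ∈ Y ∧ ((g a : Z) : ℕ) < y := by
            intro a
            have := hZ (g a).2
            rw [mem_sdiff, hY', mem_erase] at this
            exact ⟨this.1.2, lt_of_le_of_ne (hmax _ this.1.2) this.1.1⟩
          refine hM (fun a => insert ((g a : Z) : ℕ) (f a)) (fun a => ?_) (fun a b hab => ?_)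
          · obtain ⟨h1, h2⟩ := hS1mem _ (hf a)
            have h3 := hSh _ h1 _ (hg2 a).1 y (hg2 a).2 (mem_insert_self _ _) (by
              rw [mem_insert]; rintro (h | h)
              · exact (ne_of_lt (hg2 a).2) h
              · exact hg1 a a h)
            rwa [erase_insert h2] at h3
          · have h1 := hpw hab
            simp only at h1 ⊢
            rw [disjoint_insert_left, mem_insert, disjoint_insert_right]
            refine ⟨?_, hg1 b a, h1⟩
            rintro (h | h)
            · exact hab (g.injective (Subtype.ext h))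
            · exact hg1 a b h
      rw [hcard]
      have hNN : N + 1 - 1 = N := rfl
      rw [hNN]
      rcases Nat.eq_zero_or_pos (s - 1) with h1 | h1
      · rw [if_pos h1] at hb1
        rw [h1] at hb0 ⊢
        simp only [Nat.choose_zero_right] at hb0 ⊢
        omega
      · rw [if_neg (by omega)] at hb1
        have hNpos : 1 ≤ N := by
          have := Nat.mul_le_mul_right s hq
          omega
        obtain ⟨M, rfl⟩ : ∃ M, N = M + 1 := ⟨N - 1, by omega⟩
        obtain ⟨t, ht⟩ : ∃ t, s - 1 = t + 1 := ⟨s - 2, by omega⟩
        rw [ht] at hb0 hb1 ⊢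
        simp only [Nat.add_sub_cancel] at hb0 hb1
        rw [Nat.choose_succ_succ', Nat.mul_add]
        omega

end Pool.Agent.H93.EF
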