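import Mathlib
import Pool.Agent.H93.EF.Dom
import Pool.Agent.H93.EF.Bridge
import Pool.Agent.H93.EF.Matching

set_option autoImplicit false

open Finset

namespace Pool.Agent.H93.EF

/-- Every member of a shifted family satisfying the `k`-wise condition crosses the line. -/
theorem hit {k s : ℕ} (hk : 0 < k) {F : Finset (Finset ℕ)} (hD : Down F) (hS : Shifted F)
    (hK : KU k (k * s) F) (h0 : ∅ ∈ F) {D : Finset ℕ} (hDF : D ∈ F) :
    ∃ j ≤ s, (D.filter (fun x => k * j ≤ x)).card + j ≤ s := by
  by_contra hcon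
  push Not at hcon
  refine no_cover hK h0 (range k) (by rw [card_range])
    (fun i => (range (k * s + 1)).filter (fun b => b % k = i)) ?_ ?_
  · intro i _
    refine dom hD hS _ _ D rfl hDF (fun x => ?_)
    by_cases hx : x ≤ k * s
    · set j := (x + k - 1) / k with hj
      have hjs : j ≤ s := by
        rw [hj, Nat.div_le_iff_le_mul_add_pred hk]
        omega
      have hxj : x ≤ k * j := by
        have h1 := Nat.lt_mul_div_succ (x + k - 1) hk
        rw [← hj, Nat.mul_add, mul_one] at h1
        omega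
      have h1 := hcon j hjs
      have h2 : (D.filter (fun x => k * j ≤ x)).card ≤ (D.filter (fun b => x ≤ b)).card := by
        refine card_le_card ?_
        intro y hy
        rw [mem_filter] at hy ⊢
        exact ⟨hy.1, hxj.trans hy.2⟩
      have h3 : (((range (k * s + 1)).filter (fun b => b % k = i)).filter
          (fun b => x ≤ b)).card ≤ (Icc j s).card := by
        refine card_le_card_of_injOn (fun b => (b + k - 1) / k) ?_ ?_
        · intro b hb
          have hb' := mem_coe.mp hb
          rw [mem_filter, mem_filter, mem_range] at hb'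
          rw [mem_coe, mem_Icc]
          refine ⟨Nat.div_le_div_right (by omega), ?_⟩
          rw [Nat.div_le_iff_le_mul_add_pred hk]
          omega
        · intro b hb c hc h
          have hb' := mem_coe.mp hb
          have hc' := mem_coe.mp hc
          rw [mem_filter, mem_filter, mem_range] at hb' hc'
          have key : ∀ b, b % k = i → (b + k - 1) / k = b / k + (i + k - 1) / k := by
            intro b hb
            have h4 := Nat.div_add_mod b k
            rw [hb] at h4
            have h5 : b + k - 1 = (i + k - 1) + k * (b / k) := by omega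
            rw [h5, Nat.add_mul_div_left _ _ hk]
            ring
          simp only at h
          rw [key b hb'.1.2, key c hc'.1.2] at h
          have h6 : b / k = c / k := by omega
          rw [← Nat.div_add_mod b k, ← Nat.div_add_mod c k, h6, hb'.1.2, hc'.1.2]
      rw [Nat.card_Icc] at h3
      omega
    · have : (((range (k * s + 1)).filter (fun b => b % k = i)).filter (fun b => x ≤ b)) = ∅ := by
        rw [filter_eq_empty_iff]
        intro b hb
        rw [mem_filter, mem_range] at hb
        omega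
      rw [this]; simp
  · intro x hx
    refine ⟨x % k, mem_range.mpr (Nat.mod_lt _ hk), ?_⟩
    rw [mem_filter, mem_range]
    exact ⟨by omega, rfl⟩

/-- the missing `s`-sets in a final segment -/
def bad (F : Finset (Finset ℕ)) (s : ℕ) (X : Finset ℕ) : Finset (Finset ℕ) :=
  (powersetCard s X).filter (fun S => S ∉ F)

/-- Each trace misses many bad sets. -/
theorem trace_one {n k s m l : ℕ} (hk : 2 ≤ k) (hs : 1 ≤ s) {F : Finset (Finset ℕ)}
    (hS : Shifted F) (hK : KU k (k * s) F) (h0 : ∅ ∈ F) {D : Finset ℕ} (hDF : D ∈ F)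
    (hDc : s + 1 ≤ D.card) (hl : (D ∩ Ico m n).card = l) (hbig : (k - 1) * s + l ≤ n - m) :
    (n - m - l).choose s ≤ ((bad F s (Ico m n)).filter (fun S => Disjoint S (D ∩ Ico m n))).card +
      (k - 2) * (n - m - l - 1).choose (s - 1) := by
  classical
  set R := D ∩ Ico m n with hR
  set Y := Ico m n \ R with hY
  have hRX : R ⊆ Ico m n := inter_subset_right
  have hYc : Y.card = n - m - l := by
    rw [hY, card_sdiff_of_subset hRX, Nat.card_Ico, hl]
  set G := (powersetCard s Y).filter (fun S => S ∈ F) with hG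
  have hDY : Disjoint D Y := by
    rw [disjoint_left]
    intro x hx hxY
    rw [hY, mem_sdiff, hR, mem_inter] at hxY
    exact hxY.2 ⟨hx, hxY.1⟩
  have hmb : G.card ≤ (k - 2) * (n - m - l - 1).choose (s - 1) := by
    have := matching_bound (q := k - 1) (by omega) (n - m - l) s (by omega) Y hYc G
      (filter_subset _ _) ?_ ?_
    · rw [if_neg (by omega)] at this
      exact this
    · intro A hA x hx y hxy hyA hxA
      rw [hG, mem_filter, mem_powersetCard] at hA ⊢
      refine ⟨⟨?_, ?_⟩, hS A hA.2 x y hxy hyA hxA⟩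
      · intro z hz
        rw [mem_insert, mem_erase] at hz
        rcases hz with rfl | hz
        · exact hx
        · exact hA.1.1 hz.2
      · rw [card_insert_of_notMem (by rw [mem_erase]; exact fun h => hxA h.2),
          card_erase_of_mem hyA, hA.1.2]
        omega
    · intro f hf hpw
      have hf' : ∀ a, f a ⊆ Y ∧ (f a).card = s ∧ f a ∈ F := by
        intro a
        have := hf a
        rw [hG, mem_filter, mem_powersetCard] at this
        exact ⟨this.1.1, this.1.2, this.2⟩
      let g : Option (Fin (k - 1)) → Finset ℕ := fun o => o.elim D f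
      have h1 := hK.card_biUnion_le h0 (univ : Finset (Option (Fin (k - 1))))
        (by rw [card_univ, Fintype.card_option, Fintype.card_fin]; omega) g (by
          intro o _
          cases o with
          | none => exact hDF
          | some a => exact (hf' a).2.2)
      have h2 : (univ : Finset (Option (Fin (k - 1)))).biUnion g = D ∪ univ.biUnion f := by
        ext x
        simp only [mem_biUnion, mem_univ, true_and, mem_union, g]
        constructor
        · rintro ⟨o, ho⟩
          cases o with
          | none => exact Or.inl ho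
          | some a => exact Or.inr ⟨a, ho⟩
        · rintro (h | ⟨a, ha⟩)
          · exact ⟨none, h⟩
          · exact ⟨some a, ha⟩
      have h3 : (univ.biUnion f).card = (k - 1) * s := by
        rw [card_biUnion (fun a _ b _ hab => hpw hab), sum_congr rfl (fun a _ => (hf' a).2.1)]
        simp
      have h4 : Disjoint D (univ.biUnion f) := by
        rw [disjoint_biUnion_right]
        intro a _
        exact disjoint_of_subset_right (hf' a).1 hDY
      rw [h2, card_union_of_disjoint h4, h3] at h1
      have h5 : k * s = (k - 1) * s + s := by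
        obtain ⟨q, rfl⟩ : ∃ q, k = q + 1 := ⟨k - 1, by omega⟩
        simp [Nat.succ_mul]
      omega
  have hsplit : (n - m - l).choose s =
      G.card + ((powersetCard s Y).filter (fun S => ¬ S ∈ F)).card := by
    rw [hG, card_filter_add_card_filter_not, card_powersetCard, hYc]
  have hsub : ((powersetCard s Y).filter (fun S => ¬ S ∈ F)).card ≤
      ((bad F s (Ico m n)).filter (fun S => Disjoint S R)).card := by
    refine card_le_card ?_
    intro S hSm
    rw [mem_filter, mem_powersetCard] at hSm
    rw [mem_filter, bad, mem_filter, mem_powersetCard]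
    refine ⟨⟨⟨hSm.1.1.trans sdiff_subset, hSm.1.2⟩, hSm.2⟩, ?_⟩
    exact disjoint_of_subset_left hSm.1.1 sdiff_disjoint
  omega

/-- Double counting. -/
theorem trace_bound {n k s m l : ℕ} (hk : 2 ≤ k) (hs : 1 ≤ s) {F : Finset (Finset ℕ)}
    (hS : Shifted F) (hK : KU k (k * s) F) (h0 : ∅ ∈ F) {RR : Finset (Finset ℕ)}
    (hRR : ∀ R ∈ RR, R.card = l ∧ ∃ D ∈ F, s + 1 ≤ D.card ∧ D ∩ Ico m n = R)
    (hbig : (k - 1) * s + l ≤ n - m) :
    RR.card * (n - m - l).choose s ≤ (bad F s (Ico m n)).card * (n - m - s).choose l +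
      RR.card * ((k - 2) * (n - m - l - 1).choose (s - 1)) := by
  classical
  have h1 : RR.card * (n - m - l).choose s ≤
      ∑ R ∈ RR, (((bad F s (Ico m n)).filter (fun S => Disjoint S R)).card +
      (k - 2) * (n - m - l - 1).choose (s - 1)) := by
    rw [← smul_eq_mul, ← sum_const]
    refine sum_le_sum (fun R hR => ?_)
    obtain ⟨hRc, D, hDF, hDc, hDR⟩ := hRR R hR
    have := trace_one hk hs hS hK h0 hDF hDc (by rw [hDR]; exact hRc) hbig
    rwa [hDR] at this
  rw [sum_add_distrib, sum_const, smul_eq_mul] at h1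
  have h2 : ∑ R ∈ RR, ((bad F s (Ico m n)).filter (fun S => Disjoint S R)).card ≤
      (bad F s (Ico m n)).card * (n - m - s).choose l := by
    have h3 : ∑ R ∈ RR, ((bad F s (Ico m n)).filter (fun S => Disjoint S R)).card =
        ∑ S ∈ bad F s (Ico m n), (RR.filter (fun R => Disjoint S R)).card := by
      simp only [card_filter]
      exact sum_comm
    rw [h3, ← smul_eq_mul, ← sum_const]
    refine sum_le_sum (fun S hSb => ?_)
    rw [bad, mem_filter, mem_powersetCard] at hSb
    have h4 : RR.filter (fun R => Disjoint S R) ⊆ powersetCard l (Ico m n \ S) := by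
      intro R hR
      rw [mem_filter] at hR
      obtain ⟨hRc, D, hDF, hDc, hDR⟩ := hRR R hR.1
      rw [mem_powersetCard]
      refine ⟨?_, hRc⟩
      intro x hx
      rw [mem_sdiff]
      refine ⟨?_, fun h => disjoint_left.mp hR.2 h hx⟩
      rw [← hDR, mem_inter] at hx
      exact hx.2
    have h5 := card_le_card h4
    rwa [card_powersetCard, card_sdiff_of_subset hSb.1.1, Nat.card_Ico, hSb.1.2] at h5
  omega

theorem choose_pow_le {N s t : ℕ} (hN : (t + 1) * s ≤ N) : ∀ i, ∀ l, l + i = s →
    N.choose l * t ^ i ≤ N.choose s := by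
  intro i
  induction i with
  | zero => intro l hl; rw [add_zero] at hl; subst hl; simp
  | succ i ih =>
    intro l hl
    have h1 := ih (l + 1) (by omega)
    have h2 : N.choose l * t ≤ N.choose (l + 1) := by
      have h3 := Nat.choose_succ_right_eq N l
      have h4 : (l + 1) * t ≤ N - l := by
        have h5 : (l + 1) * t ≤ s * t := Nat.mul_le_mul_right _ (by omega)
        have h6 : (t + 1) * s = s * t + s := by ring
        omega
      have h7 : (l + 1) * (N.choose l * t) ≤ (l + 1) * N.choose (l + 1) := by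
        calc (l + 1) * (N.choose l * t) = N.choose l * ((l + 1) * t) := by ring
          _ ≤ N.choose l * (N - l) := Nat.mul_le_mul_left _ h4
          _ = _ := by rw [← h3]; ring
      exact Nat.le_of_mul_le_mul_left h7 (Nat.succ_pos l)
    calc N.choose l * t ^ (i + 1) = (N.choose l * t) * t ^ i := by ring
      _ ≤ N.choose (l + 1) * t ^ i := Nat.mul_le_mul_right _ h2
      _ ≤ _ := h1

/-- The trace bound in closed form. -/
theorem trace_final {n k s m l t : ℕ} (hk : 2 ≤ k) (hs : 1 ≤ s) {F : Finset (Finset ℕ)}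
    (hS : Shifted F) (hK : KU k (k * s) F) (h0 : ∅ ∈ F) {RR : Finset (Finset ℕ)}
    (hRR : ∀ R ∈ RR, R.card = l ∧ ∃ D ∈ F, s + 1 ≤ D.card ∧ D ∩ Ico m n = R)
    (hl : l < s) (ht : k ≤ t) (hbig : (t + 1) * s ≤ n - m) :
    (t - (k - 2)) * RR.card * t ^ (s - l) ≤ t * (bad F s (Ico m n)).card := by
  set N := n - m with hN
  have e1 : (t + 1) * s = t * s + s := by ring
  have e2 : (k - 1) * s ≤ t * s := Nat.mul_le_mul_right _ (by omega)
  have h1 := trace_bound hk hs hS hK h0 hRR (by omega)
  rw [← hN] at h1
  have h2 : t * (N - l - 1).choose (s - 1) ≤ (N - l).choose s := by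
    obtain ⟨u, hu⟩ : ∃ u, N - l = u + 1 := ⟨N - l - 1, by
      have : 0 < t * s := Nat.mul_pos (by omega) hs
      omega⟩
    obtain ⟨v, rfl⟩ : ∃ v, s = v + 1 := ⟨s - 1, by omega⟩
    rw [hu]
    simp only [Nat.add_sub_cancel]
    have h3 := Nat.add_one_mul_choose_eq u v
    have h4 : t * (v + 1) ≤ u + 1 := by omega
    have h5 : (v + 1) * (t * u.choose v) ≤ (v + 1) * (u + 1).choose (v + 1) := by
      calc (v + 1) * (t * u.choose v) = (t * (v + 1)) * u.choose v := by ring
        _ ≤ (u + 1) * u.choose v := Nat.mul_le_mul_right _ h4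
        _ = _ := by rw [h3]; ring
    exact Nat.le_of_mul_le_mul_left h5 (Nat.succ_pos v)
  set A := (N - l).choose s with hA
  set B := (bad F s (Ico m n)).card with hB
  have hApos : 0 < A := Nat.choose_pos (by
    have : s ≤ t * s := Nat.le_mul_of_pos_left _ (by omega)
    omega)
  have h3 : t * (RR.card * A) ≤ t * (B * (N - s).choose l) + RR.card * ((k - 2) * A) := by
    calc t * (RR.card * A) ≤ t * (B * (N - s).choose l +
        RR.card * ((k - 2) * (N - l - 1).choose (s - 1))) := Nat.mul_le_mul_left _ h1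
      _ = t * (B * (N - s).choose l) +
          RR.card * ((k - 2) * (t * (N - l - 1).choose (s - 1))) := by ring
      _ ≤ _ := by
        refine Nat.add_le_add_left ?_ _
        exact Nat.mul_le_mul_left _ (Nat.mul_le_mul_left _ h2)
  have h4 : (t - (k - 2)) * RR.card * A ≤ t * (B * (N - s).choose l) := by
    obtain ⟨w, rfl⟩ : ∃ w, t = w + (k - 2) := ⟨t - (k - 2), by omega⟩
    rw [Nat.add_sub_cancel]
    have : (w + (k - 2)) * (RR.card * A) = w * RR.card * A + RR.card * ((k - 2) * A) := by ring
    omega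
  have h5 : N.choose l * A = N.choose s * (N - s).choose l := by
    have h6 := Nat.choose_mul (n := N) (Nat.le_add_right s l)
    have h7 := Nat.choose_mul (n := N) (Nat.le_add_left l s)
    rw [Nat.add_sub_cancel_left] at h6
    rw [Nat.add_sub_cancel] at h7
    have h8 : (s + l).choose s = (s + l).choose l := by
      rw [Nat.choose_symm_add]
    rw [h8] at h6
    rw [hA, ← h7, ← h6]
  have h6 := choose_pow_le (N := N) (s := s) (t := t) hbig (s - l) l (by omega)
  have hCpos : 0 < N.choose l := Nat.choose_pos (by omega)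
  have h7 : (N.choose l * A) * ((t - (k - 2)) * RR.card * t ^ (s - l)) ≤
      (N.choose l * A) * (t * B) := by
    calc (N.choose l * A) * ((t - (k - 2)) * RR.card * t ^ (s - l))
        = ((t - (k - 2)) * RR.card * A) * (N.choose l * t ^ (s - l)) := by ring
      _ ≤ ((t - (k - 2)) * RR.card * A) * N.choose s := Nat.mul_le_mul_left _ h6
      _ ≤ (t * (B * (N - s).choose l)) * N.choose s := Nat.mul_le_mul_right _ h4
      _ = (t * B) * (N.choose s * (N - s).choose l) := by ring
      _ = _ := by rw [← h5]; ring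
  exact Nat.le_of_mul_le_mul_left h7 (Nat.mul_pos hCpos hApos)

/-- number of missing sets of size at most `s` -/
def missing (F : Finset (Finset ℕ)) (n s : ℕ) : Finset (Finset ℕ) :=
  ((range n).powerset.filter (fun D => D.card ≤ s)) \ F

theorem geom_bound {y : ℝ} (hy0 : 0 ≤ y) (hy1 : y < 1) (m : ℕ) :
    ∑ i ∈ range m, y ^ i ≤ 1 / (1 - y) := by
  rw [le_div_iff₀ (by linarith), geom_sum_mul_neg]
  have := pow_nonneg hy0 m
  linarith

/-- numerics: total weight at most one -/
theorem weight_sum {k : ℕ} (hk : 2 ≤ k) (s : ℕ) (a t c : ℝ) (ha : a = 2 ^ k)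
    (ht : t = 2 * a + k - 1) (hc : c = 2 * a + 1) :
    ∑ j ∈ Icc 1 s, ∑ l ∈ range (s - j + 1), a ^ j * (t / c * (1 / t) ^ (s - l)) ≤ 1 := by
  have hk' : (2 : ℝ) ≤ k := by exact_mod_cast hk
  have hak : (k : ℝ) < a := by
    rw [ha]
    exact_mod_cast Nat.lt_two_pow_self
  have ha0 : 0 < a := by linarith
  have htpos : 0 < t := by linarith
  have hcpos : 0 < c := by linarith
  have hta : 0 < t - a := by linarith
  have ht1 : 0 < t - 1 := by linarith
  set y := 1 / t with hy
  have hy0 : 0 ≤ y := by positivity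
  have hy1 : y < 1 := by
    rw [hy, div_lt_one htpos]; linarith
  have hay0 : 0 ≤ a * y := by positivity
  have hay1 : a * y < 1 := by
    rw [hy, mul_one_div, div_lt_one htpos]; linarith
  have h1 : ∀ j ∈ Icc 1 s, ∑ l ∈ range (s - j + 1), a ^ j * (t / c * y ^ (s - l)) ≤
      (t / c * (1 / (1 - y))) * (a * y) ^ j := by
    intro j hj
    rw [mem_Icc] at hj
    have h2 : ∑ l ∈ range (s - j + 1), y ^ (s - l) = y ^ j * ∑ i ∈ range (s - j + 1), y ^ i := by
      rw [mul_sum, ← sum_range_reflect]
      refine sum_congr rfl (fun l hl => ?_)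
      rw [mem_range] at hl
      rw [← pow_add]
      congr 1
      omega
    calc ∑ l ∈ range (s - j + 1), a ^ j * (t / c * y ^ (s - l))
        = a ^ j * (t / c) * ∑ l ∈ range (s - j + 1), y ^ (s - l) := by
          rw [mul_sum]
          refine sum_congr rfl (fun l _ => ?_)
          ring
      _ = a ^ j * (t / c) * (y ^ j * ∑ i ∈ range (s - j + 1), y ^ i) := by rw [h2]
      _ ≤ a ^ j * (t / c) * (y ^ j * (1 / (1 - y))) := by
          refine mul_le_mul_of_nonneg_left ?_ (by positivity)
          exact mul_le_mul_of_nonneg_left (geom_bound hy0 hy1 _) (by positivity)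
      _ = _ := by rw [mul_pow]; ring
  have h3 : ∑ j ∈ Icc 1 s, (a * y) ^ j ≤ (a * y) * (1 / (1 - a * y)) := by
    have h4 : ∑ j ∈ Icc 1 s, (a * y) ^ j = (a * y) * ∑ i ∈ range s, (a * y) ^ i := by
      rw [mul_sum]
      have : Icc 1 s = (range s).image (· + 1) := by
        ext x
        rw [mem_Icc, mem_image]
        constructor
        · rintro ⟨h, h'⟩
          exact ⟨x - 1, by rw [mem_range]; omega, by omega⟩
        · rintro ⟨z, hz, rfl⟩
          rw [mem_range] at hz
          omega
      rw [this, sum_image (by intro x _ y _ h; simpa using h)]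
      refine sum_congr rfl (fun l _ => ?_)
      rw [pow_succ]; ring
    rw [h4]
    exact mul_le_mul_of_nonneg_left (geom_bound hay0 hay1 _) hay0
  have h1y : 0 < 1 - y := by linarith
  calc _ ≤ ∑ j ∈ Icc 1 s, (t / c * (1 / (1 - y))) * (a * y) ^ j := sum_le_sum h1
    _ = (t / c * (1 / (1 - y))) * ∑ j ∈ Icc 1 s, (a * y) ^ j := by rw [mul_sum]
    _ ≤ (t / c * (1 / (1 - y))) * ((a * y) * (1 / (1 - a * y))) := by
        refine mul_le_mul_of_nonneg_left h3 (by positivity)
    _ = a * t ^ 2 / (c * (t - 1) * (t - a)) := by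
        rw [hy]
        have e1 : 1 - 1 / t = (t - 1) / t := by field_simp
        have e2 : 1 - a * (1 / t) = (t - a) / t := by field_simp
        rw [e1, e2]
        field_simp
    _ ≤ 1 := by
        rw [div_le_one (by positivity)]
        have e3 : t - a = a + k - 1 := by linarith
        rw [e3, hc, ht]
        nlinarith [mul_nonneg ha0.le (sub_nonneg.mpr hk'), mul_nonneg ha0.le ha0.le,
          mul_nonneg (mul_nonneg ha0.le ha0.le) (sub_nonneg.mpr hk'),
          mul_nonneg (sub_nonneg.mpr hk') (sub_nonneg.mpr hk'),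
          mul_nonneg ha0.le (mul_nonneg (sub_nonneg.mpr hk') (sub_nonneg.mpr hk')), hak]

/-- The main upper bound for large `n`. -/
theorem p_large {n k s : ℕ} (hk : 2 ≤ k) (hn : (2 ^ (k + 1) + k) * s + k * s ≤ n) :
    p n k (k * s) ≤ ∑ i ∈ range (s + 1), n.choose i := by
  classical
  obtain ⟨F, hFn, hFK, hFc, hFD, hFS, -⟩ := exists_opt n k (k * s)
  rw [← hFc]
  by_cases hne : F.Nonempty
  swap
  · rw [not_nonempty_iff_eq_empty] at hne
    rw [hne]; simp
  obtain ⟨D0, hD0⟩ := hne
  have h0 : ∅ ∈ F := hFD D0 hD0 ∅ (empty_subset _)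
  set Gg := F.filter (fun D => ¬ D.card ≤ s) with hGg
  set M := (missing F n s).card with hM
  have hlow : (F.filter (fun D => D.card ≤ s)).card + M = ∑ i ∈ range (s + 1), n.choose i := by
    have h1 : F.filter (fun D => D.card ≤ s) =
        ((range n).powerset.filter (fun D => D.card ≤ s)) ∩ F := by
      ext D
      rw [mem_filter, mem_inter, mem_filter]
      constructor
      · rintro ⟨h, h'⟩; exact ⟨⟨hFn h, h'⟩, h⟩
      · rintro ⟨⟨_, h'⟩, h⟩; exact ⟨h, h'⟩
    rw [h1, hM, missing, add_comm, card_sdiff_add_card_inter, card_powerset_filter_card_le,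
      card_range]
  have hsum : (F.filter (fun D => D.card ≤ s)).card + Gg.card = F.card :=
    card_filter_add_card_filter_not _
  -- it suffices to bound the gain
  suffices h : Gg.card ≤ M by omega
  rcases Nat.eq_zero_or_pos s with hs0 | hs0
  · subst hs0
    have : Gg = ∅ := by
      rw [hGg, filter_eq_empty_iff]
      intro D hD
      obtain ⟨j, hj, hj'⟩ := hit (by omega) hFD hFS hFK h0 hD
      have hj0 : j = 0 := by omega
      subst hj0
      simp at hj'
      simp [hj']
    rw [this]; simp
  -- traces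
  set GG : ℕ → ℕ → Finset (Finset ℕ) := fun j l =>
    Gg.filter (fun D => (D ∩ Ico (k * j) n).card = l) with hGG
  set RR : ℕ → ℕ → Finset (Finset ℕ) := fun j l =>
    (GG j l).image (fun D => D ∩ Ico (k * j) n) with hRR
  have hcov : Gg ⊆ (Icc 1 s).biUnion (fun j => (range (s - j + 1)).biUnion (fun l => GG j l)) := by
    intro D hD
    have hD' := hD
    rw [hGg, mem_filter] at hD'
    obtain ⟨j, hj, hj'⟩ := hit (by omega) hFD hFS hFK h0 hD'.1
    have hDn : D ⊆ range n := mem_powerset.mp (hFn hD'.1)
    have hjeq : D.filter (fun x => k * j ≤ x) = D ∩ Ico (k * j) n := by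
      ext x
      rw [mem_filter, mem_inter, mem_Ico]
      constructor
      · rintro ⟨h1, h2⟩; exact ⟨h1, h2, mem_range.mp (hDn h1)⟩
      · rintro ⟨h1, h2, _⟩; exact ⟨h1, h2⟩
    rw [hjeq] at hj'
    have hj1 : 1 ≤ j := by
      by_contra hcon
      have hj0 : j = 0 := by omega
      subst hj0
      rw [mul_zero] at hj'
      have : D ∩ Ico 0 n = D := by
        rw [inter_eq_left]
        intro x hx
        rw [mem_Ico]
        exact ⟨Nat.zero_le _, mem_range.mp (hDn hx)⟩
      rw [this] at hj'
      omega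
    rw [mem_biUnion]
    refine ⟨j, mem_Icc.mpr ⟨hj1, hj⟩, ?_⟩
    rw [mem_biUnion]
    refine ⟨(D ∩ Ico (k * j) n).card, mem_range.mpr (by omega), ?_⟩
    simp only [hGG]
    rw [mem_filter]
    exact ⟨hD, rfl⟩
  have hGGc : ∀ j l, (GG j l).card ≤ 2 ^ (k * j) * (RR j l).card := by
    intro j l
    have : 2 ^ (k * j) * (RR j l).card = ((range (k * j)).powerset ×ˢ RR j l).card := by
      rw [card_product, card_powerset, card_range]
    rw [this]
    refine card_le_card_of_injOn (fun D => (D ∩ range (k * j), D ∩ Ico (k * j) n)) ?_ ?_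
    · intro D hD
      refine mem_coe.mpr (mem_product.mpr ⟨mem_powerset.mpr inter_subset_right, ?_⟩)
      exact mem_image_of_mem _ (mem_coe.mp hD)
    · intro D hD E hE h
      have hD' := mem_coe.mp hD
      have hE' := mem_coe.mp hE
      simp only [hGG] at hD' hE'
      rw [mem_filter, hGg, mem_filter] at hD' hE'
      have hDn : D ⊆ range n := mem_powerset.mp (hFn hD'.1.1)
      have hEn : E ⊆ range n := mem_powerset.mp (hFn hE'.1.1)
      simp only [Prod.mk.injEq] at h
      have key : ∀ D : Finset ℕ, D ⊆ range n →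
          D = (D ∩ range (k * j)) ∪ (D ∩ Ico (k * j) n) := by
        intro D hD
        ext x
        simp only [mem_union, mem_inter, mem_range, mem_Ico]
        constructor
        · intro hx
          have := mem_range.mp (hD hx)
          by_cases h : x < k * j
          · exact Or.inl ⟨hx, h⟩
          · exact Or.inr ⟨hx, by omega, this⟩
        · rintro (⟨h, _⟩ | ⟨h, _⟩) <;> exact h
      rw [key D hDn, key E hEn, h.1, h.2]
  set t := 2 ^ (k + 1) + k - 1 with ht
  have hpow : 1 ≤ 2 ^ (k + 1) := Nat.one_le_two_pow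
  have htk : k ≤ t := by omega
  have hRRc : ∀ j ∈ Icc 1 s, ∀ l ∈ range (s - j + 1),
      (t - (k - 2)) * (RR j l).card * t ^ (s - l) ≤ t * M := by
    intro j hj l hl
    rw [mem_Icc] at hj
    rw [mem_range] at hl
    have h1 : (t - (k - 2)) * (RR j l).card * t ^ (s - l) ≤
        t * (bad F s (Ico (k * j) n)).card := by
      refine trace_final hk hs0 hFS hFK h0 ?_ (by omega) htk ?_
      · intro R hR
        simp only [hRR, hGG] at hR
        rw [mem_image] at hR
        obtain ⟨D, hD, rfl⟩ := hR
        rw [mem_filter, hGg, mem_filter] at hD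
        exact ⟨hD.2, D, hD.1.1, by omega, rfl⟩
      · have h2 : t + 1 = 2 ^ (k + 1) + k := by omega
        rw [h2]
        have h3 : k * j ≤ k * s := Nat.mul_le_mul_left _ hj.2
        omega
    refine h1.trans (Nat.mul_le_mul_left _ ?_)
    rw [hM]
    refine card_le_card ?_
    intro S hS
    rw [bad, mem_filter, mem_powersetCard] at hS
    rw [missing, mem_sdiff, mem_filter, mem_powerset]
    refine ⟨⟨?_, by omega⟩, hS.2⟩
    intro x hx
    have := mem_Ico.mp (hS.1.1 hx)
    exact mem_range.mpr this.2
  -- assemble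
  have hreal : (Gg.card : ℝ) ≤ M := by
    have hk' : (2 : ℝ) ≤ k := by exact_mod_cast hk
    have hpk : (k : ℝ) < 2 ^ k := by exact_mod_cast Nat.lt_two_pow_self
    have htr : (t : ℝ) = 2 * 2 ^ k + k - 1 := by
      rw [ht, Nat.cast_sub (by omega)]
      push_cast
      ring
    have hcr : ((t - (k - 2) : ℕ) : ℝ) = 2 * 2 ^ k + 1 := by
      rw [Nat.cast_sub (by omega), htr, Nat.cast_sub (by omega)]
      push_cast
      ring
    have htpos : (0 : ℝ) < t := by rw [htr]; linarith
    have hcpos : (0 : ℝ) < 2 * 2 ^ k + 1 := by linarith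
    have h1 : (Gg.card : ℝ) ≤ ∑ j ∈ Icc 1 s, ∑ l ∈ range (s - j + 1),
        (2 : ℝ) ^ (k * j) * (RR j l).card := by
      have h2 : Gg.card ≤ ∑ j ∈ Icc 1 s, ∑ l ∈ range (s - j + 1),
          2 ^ (k * j) * (RR j l).card := by
        refine le_trans (card_le_card hcov) (le_trans card_biUnion_le ?_)
        refine sum_le_sum (fun j _ => le_trans card_biUnion_le ?_)
        exact sum_le_sum (fun l _ => hGGc j l)
      exact_mod_cast h2
    have h3 : ∀ j ∈ Icc 1 s, ∀ l ∈ range (s - j + 1), (2 : ℝ) ^ (k * j) * (RR j l).card ≤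
        (M : ℝ) * (((2 : ℝ) ^ k) ^ j * ((t : ℝ) / (2 * 2 ^ k + 1) * (1 / (t : ℝ)) ^ (s - l))) := by
      intro j hj l hl
      have h4 : (((t - (k - 2) : ℕ) : ℝ)) * ((RR j l).card : ℝ) * (t : ℝ) ^ (s - l) ≤ t * M := by
        exact_mod_cast hRRc j hj l hl
      rw [hcr] at h4
      have h5 : ((RR j l).card : ℝ) ≤
          (M : ℝ) * ((t : ℝ) / (2 * 2 ^ k + 1) * (1 / (t : ℝ)) ^ (s - l)) := by
        rw [one_div, inv_pow]
        have h6 : (0 : ℝ) < (t : ℝ) ^ (s - l) := pow_pos htpos _
        rw [div_mul_eq_mul_div, mul_div_assoc', le_div_iff₀ hcpos, ← mul_assoc,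
          ← div_eq_mul_inv, le_div_iff₀ h6]
        linarith
      rw [pow_mul]
      calc ((2 : ℝ) ^ k) ^ j * ((RR j l).card : ℝ) ≤ ((2 : ℝ) ^ k) ^ j *
            ((M : ℝ) * ((t : ℝ) / (2 * 2 ^ k + 1) * (1 / (t : ℝ)) ^ (s - l))) :=
            mul_le_mul_of_nonneg_left h5 (by positivity)
        _ = _ := by ring
    have h7 := weight_sum hk s ((2 : ℝ) ^ k) t (2 * 2 ^ k + 1) rfl htr rfl
    calc (Gg.card : ℝ) ≤ _ := h1
      _ ≤ ∑ j ∈ Icc 1 s, ∑ l ∈ range (s - j + 1),
          (M : ℝ) * (((2 : ℝ) ^ k) ^ j *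
            ((t : ℝ) / (2 * 2 ^ k + 1) * (1 / (t : ℝ)) ^ (s - l))) :=
          sum_le_sum (fun j hj => sum_le_sum (fun l hl => h3 j hj l hl))
      _ = (M : ℝ) * ∑ j ∈ Icc 1 s, ∑ l ∈ range (s - j + 1),
          (((2 : ℝ) ^ k) ^ j * ((t : ℝ) / (2 * 2 ^ k + 1) * (1 / (t : ℝ)) ^ (s - l))) := by
          rw [mul_sum]
          refine sum_congr rfl (fun j _ => ?_)
          rw [mul_sum]
      _ ≤ (M : ℝ) * 1 := mul_le_mul_of_nonneg_left h7 (Nat.cast_nonneg _)
      _ = M := mul_one _
  exact_mod_cast hreal

end Pool.Agent.H93.EF
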