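import Mathlib
import Pool.Agent.H93.EF.CrossMatch
import Pool.Agent.H93.EF.Walk
import Pool.Agent.H93.EF.LargeN

set_option autoImplicit false

open Finset

namespace Pool.Agent.H93.EF

/-- a shifted down-closed family containing a set with `c` elements in `[m,n)` contains the
interval `[m,m+c)` -/
theorem Ico_mem {F : Finset (Finset ℕ)} (hD : Down F) (hS : Shifted F) {D : Finset ℕ}
    (hDF : D ∈ F) {m n c : ℕ} (hc : c ≤ (D ∩ Ico m n).card) : Ico m (m + c) ∈ F := by
  refine dom hD hS _ (Ico m (m + c)) D rfl hDF (fun x => ?_)
  have h1 : (Ico m (m + c)).filter (fun b => x ≤ b) ⊆ Ico (max m x) (m + c) := by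
    intro y hy
    rw [mem_filter, mem_Ico] at hy
    rw [mem_Ico]
    omega
  have h2 := card_le_card h1
  rw [Nat.card_Ico] at h2
  have h3 : (D ∩ Ico m n).card ≤ (D.filter (fun b => x ≤ b)).card + (Ico m x).card := by
    rw [← card_filter_add_card_filter_not (s := D ∩ Ico m n) (fun b => x ≤ b)]
    refine Nat.add_le_add (card_le_card ?_) (card_le_card ?_)
    · intro y hy
      rw [mem_filter, mem_inter] at hy
      rw [mem_filter]
      exact ⟨hy.1.1, hy.2⟩
    · intro y hy
      rw [mem_filter, mem_inter, mem_Ico] at hy
      rw [mem_Ico]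
      omega
  rw [Nat.card_Ico] at h3
  omega

/-- number of `i`-subsets of `X` meeting `T` -/
theorem card_meet_le {X T : Finset ℕ} (i : ℕ) (_hi : 1 ≤ i) :
    ((powersetCard i X).filter (fun R => ¬ Disjoint R T)).card ≤
      T.card * (X.card - 1).choose (i - 1) := by
  classical
  have hcov : (powersetCard i X).filter (fun R => ¬ Disjoint R T) ⊆
      T.biUnion (fun x => (powersetCard i X).filter (fun R => x ∈ R)) := by
    intro R hR
    rw [mem_filter, not_disjoint_iff] at hR
    obtain ⟨hR1, x, hx1, hx2⟩ := hR
    rw [mem_biUnion]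
    exact ⟨x, hx2, mem_filter.mpr ⟨hR1, hx1⟩⟩
  refine (card_le_card hcov).trans (card_biUnion_le.trans ?_)
  rw [← smul_eq_mul, ← sum_const]
  refine sum_le_sum (fun x _ => ?_)
  by_cases hxX : x ∈ X
  · have h1 : (powersetCard (i - 1) (X.erase x)).card = (X.card - 1).choose (i - 1) := by
      rw [card_powersetCard, card_erase_of_mem hxX]
    rw [← h1]
    refine card_le_card_of_injOn (fun R => R.erase x) ?_ ?_
    · intro R hR
      have hR' := mem_coe.mp hR
      rw [mem_filter, mem_powersetCard] at hR'
      refine mem_coe.mpr (mem_powersetCard.mpr ⟨erase_subset_erase _ hR'.1.1, ?_⟩)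
      rw [card_erase_of_mem hR'.2, hR'.1.2]
    · intro R hR R' hR' h
      have h1 := (mem_filter.mp (mem_coe.mp hR)).2
      have h2 := (mem_filter.mp (mem_coe.mp hR')).2
      have h' : R.erase x = R'.erase x := h
      rw [← insert_erase h1, h', insert_erase h2]
  · have : (powersetCard i X).filter (fun R => x ∈ R) = ∅ := by
      rw [filter_eq_empty_iff]
      intro R hR hxR
      exact hxX ((mem_powersetCard.mp hR).1 hxR)
    rw [this]; simp

/-- counting a family by prefix and tail -/
theorem card_le_mul {n m : ℕ} {G : Finset (Finset ℕ)} (hG : G ⊆ (range n).powerset)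
    {C : Finset (Finset ℕ)} (hC : ∀ D ∈ G, D ∩ Ico m n ∈ C) : G.card ≤ 2 ^ m * C.card := by
  have h1 : 2 ^ m * C.card = ((range m).powerset ×ˢ C).card := by
    rw [card_product, card_powerset, card_range]
  rw [h1]
  refine card_le_card_of_injOn (fun D => (D ∩ range m, D ∩ Ico m n)) ?_ ?_
  · intro D hD
    have hD' := mem_coe.mp hD
    exact mem_coe.mpr (mem_product.mpr ⟨mem_powerset.mpr inter_subset_right, hC D hD'⟩)
  · intro D hD E hE h
    have hD' := mem_powerset.mp (hG (mem_coe.mp hD))
    have hE' := mem_powerset.mp (hG (mem_coe.mp hE))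
    simp only [Prod.mk.injEq] at h
    rw [split_eq (m := m) hD', split_eq (m := m) hE', h.1, h.2]

/-- the rich prefixes satisfy a `(k-1)`-wise condition -/
theorem level_count {n k s i r : ℕ} (hk : 60 ≤ k) (his : i ≤ s) {F : Finset (Finset ℕ)}
    (hFn : F ⊆ (range n).powerset) (hFK : KU k (k * s) F) (hFD : Down F) (hFS : Shifted F)
    (hr1 : 1 ≤ r) (hrk : r ≤ k) (hn : k * s + r ≤ n)
    (hbig : ∃ D ∈ F, i + r ≤ (D ∩ Ico (k * (s - i)) n).card) :
    ∃ RI : ℕ, (RI : ℝ) ≤ 2 ^ (k * (s - i)) * ((9 / 8) * (1 / 2) ^ r) ∧
      (F.filter (fun D => (D ∩ Ico (k * (s - i)) n).card ≤ i)).card ≤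
        RI * (n - k * (s - i)).choose i + 2 ^ (k * (s - i)) *
          ((k - 2 + (i + r)) * (if i = 0 then 0 else (n - k * (s - i) - 1).choose (i - 1)) +
            ∑ v ∈ range i, (n - k * (s - i)).choose v) := by
  classical
  obtain ⟨D0, hD0, hD0c⟩ := hbig
  have h0 : ∅ ∈ F := hFD D0 hD0 ∅ (empty_subset _)
  have hks : k * (s - i) + k * i = k * s := by rw [← Nat.mul_add, Nat.sub_add_cancel his]
  set m := k * (s - i) with hm
  have hT := Ico_mem hFD hFS hD0 hD0c
  set T := Ico m (m + (i + r)) with hTdef
  have hTc : T.card = i + r := by rw [hTdef, Nat.card_Ico]; omega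
  set Y := Ico (m + (i + r)) n with hY
  have hYc : Y.card = n - (m + (i + r)) := by rw [hY, Nat.card_Ico]
  have hk1 : (k - 1) * i + i = k * i := by
    obtain ⟨q, rfl⟩ : ∃ q, k = q + 1 := ⟨k - 1, by omega⟩
    simp [Nat.succ_mul]
  set SU : Finset ℕ → Finset (Finset ℕ) := fun U =>
    (powersetCard i Y).filter (fun R => U ∪ R ∈ F) with hSU
  have hSUmem : ∀ U R, R ∈ SU U ↔ (R ⊆ Y ∧ R.card = i) ∧ U ∪ R ∈ F := by
    intro U R
    simp only [hSU]
    rw [mem_filter, mem_powersetCard]
  clear_value SU
  set RI := (range m).powerset.filter (fun U => thr (k - 1) Y.card i < (SU U).card) with hRI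
  have hRImem : ∀ U, U ∈ RI ↔ U ⊆ range m ∧ thr (k - 1) Y.card i < (SU U).card := by
    intro U; rw [hRI, mem_filter, mem_powerset]
  -- matching among rich prefixes
  have hKU0 : ∀ f : Fin (k - 1) → Finset ℕ, (∀ a, f a ∈ RI) →
      (univ.biUnion f).card + r ≤ m := by
    intro f hf
    obtain ⟨R, hR, hpw⟩ := cross_matching (q := k - 1) (by omega) Y.card (fun _ => i)
      (by simp only [sum_const, card_univ, Fintype.card_fin, smul_eq_mul]; omega) Y rfl
      (fun a => SU (f a))
      (fun a A hA => by
        rw [hSUmem] at hA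
        exact mem_powersetCard.mpr hA.1)
      (fun a A hA x hx y hxy hyA hxA => by
        have hfa := (hRImem (f a)).mp (hf a)
        rw [hSUmem] at hA ⊢
        have hyY := hA.1.1 hyA
        refine ⟨⟨?_, ?_⟩, ?_⟩
        · intro z hz
          rw [mem_insert, mem_erase] at hz
          rcases hz with rfl | hz
          · exact hx
          · exact hA.1.1 hz.2
        · rw [card_insert_of_notMem (by rw [mem_erase]; exact fun h => hxA h.2),
            card_erase_of_mem hyA, hA.1.2]
          have : 0 < A.card := card_pos.mpr ⟨y, hyA⟩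
          omega
        · have hyf : y ∉ f a := by
            intro h
            have h1 := mem_range.mp (hfa.1 h)
            rw [hY, mem_Ico] at hyY
            omega
          have hxf : x ∉ f a := by
            intro h
            have h1 := mem_range.mp (hfa.1 h)
            rw [hY, mem_Ico] at hx
            omega
          have h1 := hFS _ hA.2 x y hxy (mem_union_right _ hyA) (by
            rw [mem_union]; rintro (h | h)
            · exact hxf h
            · exact hxA h)
          have h2 : insert x ((f a ∪ A).erase y) = f a ∪ insert x (A.erase y) := by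
            ext z
            simp only [mem_insert, mem_erase, mem_union]
            constructor
            · rintro (h | ⟨h, h' | h'⟩)
              · exact Or.inr (Or.inl h)
              · exact Or.inl h'
              · exact Or.inr (Or.inr ⟨h, h'⟩)
            · rintro (h | h | ⟨h, h'⟩)
              · exact Or.inr ⟨fun e => hyf (e ▸ h), Or.inl h⟩
              · exact Or.inl h
              · exact Or.inr ⟨h, Or.inr h'⟩
          rwa [h2] at h1)
      (fun a => ((hRImem (f a)).mp (hf a)).2)
    have hR' : ∀ a, (R a ⊆ Y ∧ (R a).card = i) ∧ f a ∪ R a ∈ F := fun a =>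
      (hSUmem _ _).mp (hR a)
    let g : Option (Fin (k - 1)) → Finset ℕ := fun o => o.elim T (fun a => f a ∪ R a)
    have h1 := hFK.card_biUnion_le h0 (univ : Finset (Option (Fin (k - 1))))
      (by rw [card_univ, Fintype.card_option, Fintype.card_fin]; omega) g (by
        intro o _
        cases o with
        | none => exact hT
        | some a => exact (hR' a).2)
    have h2 : T ∪ (univ.biUnion f ∪ univ.biUnion R) ⊆
        (univ : Finset (Option (Fin (k - 1)))).biUnion g := by
      intro x
      simp only [mem_biUnion, mem_univ, true_and, mem_union, g]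
      rintro (h | ⟨a, ha⟩ | ⟨a, ha⟩)
      · exact ⟨none, h⟩
      · exact ⟨some a, mem_union_left _ ha⟩
      · exact ⟨some a, mem_union_right _ ha⟩
    have h3 : (univ.biUnion R).card = (k - 1) * i := by
      rw [card_biUnion (fun a _ b _ hab => hpw hab), sum_congr rfl (fun a _ => (hR' a).1.2)]
      simp
    have hW : univ.biUnion f ⊆ range m := by
      intro x hx
      rw [mem_biUnion] at hx
      obtain ⟨a, -, hx⟩ := hx
      exact ((hRImem (f a)).mp (hf a)).1 hx
    have hV : univ.biUnion R ⊆ Y := by
      intro x hx
      rw [mem_biUnion] at hx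
      obtain ⟨a, -, hx⟩ := hx
      exact (hR' a).1.1 hx
    have hd1 : Disjoint (univ.biUnion f) (univ.biUnion R) := by
      rw [disjoint_left]
      intro x hx hx'
      have h4 := mem_range.mp (hW hx)
      have h5 := hV hx'
      rw [hY, mem_Ico] at h5
      omega
    have hd2 : Disjoint T (univ.biUnion f ∪ univ.biUnion R) := by
      rw [disjoint_left]
      intro x hx hx'
      rw [hTdef, mem_Ico] at hx
      rw [mem_union] at hx'
      rcases hx' with h | h
      · have h4 := mem_range.mp (hW h)
        omega
      · have h5 := hV h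
        rw [hY, mem_Ico] at h5
        omega
    have h4 := card_le_card h2
    rw [card_union_of_disjoint hd2, card_union_of_disjoint hd1, hTc, h3] at h4
    omega
  -- the bound on the number of rich prefixes
  have hRIbound : (RI.card : ℝ) ≤ 2 ^ m * ((9 / 8) * (1 / 2) ^ r) := by
    rcases RI.eq_empty_or_nonempty with he | ⟨U0, hU0⟩
    · rw [he]; simp only [card_empty, Nat.cast_zero]; positivity
    have hrm : r ≤ m := by
      have := hKU0 (fun _ => U0) (fun _ => hU0)
      omega
    refine walk_density hk hrk hrm (filter_subset _ _) ?_ ?_ ?_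
    · intro U hU U' hU'
      rw [hRImem] at hU ⊢
      refine ⟨hU'.trans hU.1, lt_of_lt_of_le hU.2 (card_le_card ?_)⟩
      intro R hR
      rw [hSUmem] at hR ⊢
      exact ⟨hR.1, hFD _ hR.2 _ (union_subset_union_left hU')⟩
    · intro U hU x y hxy hyU hxU
      rw [hRImem] at hU ⊢
      have hym := mem_range.mp (hU.1 hyU)
      refine ⟨?_, lt_of_lt_of_le hU.2 (card_le_card ?_)⟩
      · intro z hz
        rw [mem_insert, mem_erase] at hz
        rcases hz with rfl | hz
        · rw [mem_range]; omega
        · exact hU.1 hz.2
      · intro R hR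
        rw [hSUmem] at hR ⊢
        refine ⟨hR.1, ?_⟩
        have hyR : y ∉ R := by
          intro h
          have := hR.1.1 h
          rw [hY, mem_Ico] at this
          omega
        have hxR : x ∉ R := by
          intro h
          have := hR.1.1 h
          rw [hY, mem_Ico] at this
          omega
        have h1 := hFS _ hR.2 x y hxy (mem_union_left _ hyU) (by
          rw [mem_union]; rintro (h | h)
          · exact hxU h
          · exact hxR h)
        have h2 : insert x ((U ∪ R).erase y) = insert x (U.erase y) ∪ R := by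
          ext z
          simp only [mem_insert, mem_erase, mem_union]
          constructor
          · rintro (h | ⟨h, h' | h'⟩)
            · exact Or.inl (Or.inl h)
            · exact Or.inl (Or.inr ⟨h, h'⟩)
            · exact Or.inr h'
          · rintro ((h | ⟨h, h'⟩) | h)
            · exact Or.inl h
            · exact Or.inr ⟨h, Or.inl h'⟩
            · exact Or.inr ⟨fun e => hyR (e ▸ h), Or.inr h⟩
        rwa [h2] at h1
    · intro f hf
      have := hKU0 f hf
      omega
  refine ⟨RI.card, hRIbound, ?_⟩
  -- the counting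
  set N := n - m with hN
  set G := F.filter (fun D => (D ∩ Ico m n).card ≤ i) with hG
  set b := (if i = 0 then 0 else (N - 1).choose (i - 1)) with hb
  set Ga := G.filter (fun D => D ∩ Ico m n ⊆ Y ∧ (D ∩ Ico m n).card = i) with hGa
  set Gb := G.filter (fun D => ¬ D ∩ Ico m n ⊆ Y ∧ (D ∩ Ico m n).card = i) with hGb
  set Gc := G.filter (fun D => (D ∩ Ico m n).card < i) with hGc
  have hcov : G ⊆ Ga ∪ (Gb ∪ Gc) := by
    intro D hD
    have hD' := (mem_filter.mp hD).2
    rcases lt_or_eq_of_le hD' with h | h
    · exact mem_union_right _ (mem_union_right _ (mem_filter.mpr ⟨hD, h⟩))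
    · by_cases h' : D ∩ Ico m n ⊆ Y
      · exact mem_union_left _ (mem_filter.mpr ⟨hD, h', h⟩)
      · exact mem_union_right _ (mem_union_left _ (mem_filter.mpr ⟨hD, h', h⟩))
  have hGn : G ⊆ (range n).powerset := (filter_subset _ _).trans hFn
  have hthr : thr (k - 1) Y.card i ≤ (k - 2) * b := by
    rw [hb]
    unfold thr
    split_ifs with h
    · exact Nat.zero_le _
    · refine Nat.mul_le_mul (by omega) (Nat.choose_le_choose _ ?_)
      rw [hYc]; omega
  have hGac : Ga.card ≤ RI.card * N.choose i + 2 ^ m * ((k - 2) * b) := by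
    have h1 : Ga.card ≤ ∑ U ∈ (range m).powerset, (SU U).card := by
      have h2 : Ga ⊆ (range m).powerset.biUnion (fun U => (SU U).image (fun R => U ∪ R)) := by
        intro D hD
        rw [hGa, mem_filter] at hD
        have hDn := mem_powerset.mp (hGn hD.1)
        have hDF := (mem_filter.mp hD.1).1
        rw [mem_biUnion]
        refine ⟨D ∩ range m, mem_powerset.mpr inter_subset_right, ?_⟩
        rw [mem_image]
        refine ⟨D ∩ Ico m n, ?_, (split_eq hDn).symm⟩
        rw [hSUmem]
        refine ⟨hD.2, ?_⟩
        rw [← split_eq hDn]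
        exact hDF
      exact (card_le_card h2).trans (card_biUnion_le.trans
        (sum_le_sum (fun U _ => card_image_le)))
    have h2 : ∑ U ∈ (range m).powerset, (SU U).card ≤
        ∑ U ∈ (range m).powerset, ((if U ∈ RI then N.choose i else 0) + (k - 2) * b) := by
      refine sum_le_sum (fun U hU => ?_)
      by_cases h : U ∈ RI
      · rw [if_pos h]
        have h3 : (SU U).card ≤ (powersetCard i (Ico m n)).card := by
          refine card_le_card ?_
          intro R hR
          rw [hSUmem] at hR
          rw [mem_powersetCard]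
          refine ⟨hR.1.1.trans ?_, hR.1.2⟩
          intro x hx
          rw [hY, mem_Ico] at hx
          rw [mem_Ico]; omega
        rw [card_powersetCard, Nat.card_Ico, ← hN] at h3
        omega
      · rw [if_neg h]
        have h3 : ¬ thr (k - 1) Y.card i < (SU U).card :=
          fun hc => h ((hRImem U).mpr ⟨mem_powerset.mp hU, hc⟩)
        omega
    rw [sum_add_distrib, sum_const, card_powerset, card_range, smul_eq_mul, ← sum_filter,
      sum_const, smul_eq_mul] at h2
    have h3 : ((range m).powerset.filter (fun U => U ∈ RI)).card ≤ RI.card :=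
      card_le_card (fun U hU => (mem_filter.mp hU).2)
    have h4 := Nat.mul_le_mul_right (N.choose i) h3
    omega
  have hGbc : Gb.card ≤ 2 ^ m * ((i + r) * b) := by
    rcases Nat.eq_zero_or_pos i with hi0 | hi0
    · have : Gb = ∅ := by
        rw [hGb, filter_eq_empty_iff]
        rintro D hD ⟨h1, h2⟩
        rw [hi0, card_eq_zero] at h2
        exact h1 (by rw [h2]; exact empty_subset _)
      rw [this]; simp
    · rw [hb, if_neg (by omega)]
      have h1 := card_meet_le (X := Ico m n) (T := T) i hi0
      rw [hTc, Nat.card_Ico] at h1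
      refine (card_le_mul (m := m) ((filter_subset _ _).trans hGn)
        (C := (powersetCard i (Ico m n)).filter (fun R => ¬ Disjoint R T)) ?_).trans
        (Nat.mul_le_mul_left _ h1)
      intro D hD
      rw [mem_filter] at hD
      rw [mem_filter, mem_powersetCard]
      refine ⟨⟨inter_subset_right, hD.2.2⟩, ?_⟩
      intro hdis
      refine hD.2.1 (fun x hx => ?_)
      have hx' := mem_Ico.mp (mem_inter.mp hx).2
      rw [hY, mem_Ico]
      refine ⟨?_, hx'.2⟩
      by_contra hcon
      exact disjoint_left.mp hdis hx (by rw [hTdef, mem_Ico]; omega)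
  have hGcc : Gc.card ≤ 2 ^ m * ∑ v ∈ range i, N.choose v := by
    rcases Nat.eq_zero_or_pos i with hi0 | hi0
    · have : Gc = ∅ := by
        rw [hGc, filter_eq_empty_iff]
        intro D _
        omega
      rw [this]; simp
    · have h1 : Gc.card ≤ 2 ^ m *
          ((Ico m n).powerset.filter (fun R => R.card ≤ i - 1)).card := by
        refine card_le_mul ((filter_subset _ _).trans hGn) ?_
        intro D hD
        rw [mem_filter] at hD
        rw [mem_filter, mem_powerset]
        exact ⟨inter_subset_right, by omega⟩
      rw [card_powerset_filter_card_le, Nat.card_Ico, Nat.sub_add_cancel hi0] at h1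
      exact h1
  have hfin := (card_le_card hcov).trans ((card_union_le _ _).trans
    (Nat.add_le_add_left (card_union_le _ _) _))
  calc G.card ≤ Ga.card + (Gb.card + Gc.card) := hfin
    _ ≤ (RI.card * N.choose i + 2 ^ m * ((k - 2) * b)) + (2 ^ m * ((i + r) * b) +
        2 ^ m * ∑ v ∈ range i, N.choose v) :=
        Nat.add_le_add hGac (Nat.add_le_add hGbc hGcc)
    _ = _ := by ring

end Pool.Agent.H93.EF
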