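import Mathlib
import Pool.Agent.H93.EF.Level

set_option autoImplicit false

open Finset

namespace Pool.Agent.H93.EF

/-- the sizes of the model families, with `t = n - ks` -/
def aa (t k s i : ℕ) : ℕ := 2 ^ (k * (s - i)) * ∑ v ∈ range (i + 1), (t + k * i).choose v

theorem choose_geom {N i g : ℕ} (hg : 1 ≤ g) (hgi : (g + 1) * i ≤ N) {v : ℕ} (hv : v ≤ i) :
    (N.choose v : ℝ) ≤ N.choose i * (1 / (g : ℝ)) ^ (i - v) := by
  have h1 := choose_pow_le hgi (i - v) v (by omega)
  have hg' : (0 : ℝ) < g := by exact_mod_cast hg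
  have h2 : (N.choose v : ℝ) * (g : ℝ) ^ (i - v) ≤ N.choose i := by exact_mod_cast h1
  rw [one_div, inv_pow, ← div_eq_mul_inv, le_div_iff₀ (by positivity)]
  exact h2

theorem geom_le {y : ℝ} (hy0 : 0 ≤ y) (hy1 : y < 1) (m : ℕ) :
    ∑ i ∈ range m, y ^ i ≤ 1 / (1 - y) := by
  rw [le_div_iff₀ (by linarith), geom_sum_mul_neg]
  have := pow_nonneg hy0 m
  linarith

/-- density bound at level `i` -/
theorem levelY {n k s i r g t : ℕ} (hk : 60 ≤ k) (his : i ≤ s) {F : Finset (Finset ℕ)}
    (hFn : F ⊆ (range n).powerset) (hFK : KU k (k * s) F) (hFD : Down F) (hFS : Shifted F)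
    (hr1 : 1 ≤ r) (hrk : r ≤ k) (hn : n = k * s + t) (hrt : r ≤ t)
    (hbig : ∃ D ∈ F, i + r ≤ (D ∩ Ico (k * (s - i)) n).card) (hg : 2 ≤ g) (hgi : g * i ≤ t) :
    ((F.filter (fun D => (D ∩ Ico (k * (s - i)) n).card ≤ i)).card : ℝ) ≤
      (aa t k s i : ℝ) * ((9 / 8) * (1 / 2) ^ r + ((k : ℝ) + i + r) / g) := by
  obtain ⟨RI, hRI, hcount⟩ := level_count hk his hFn hFK hFD hFS hr1 hrk (by omega) hbig
  have hks : k * (s - i) + k * i = k * s := by rw [← Nat.mul_add, Nat.sub_add_cancel his]
  have hN : n - k * (s - i) = t + k * i := by omega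
  rw [hN] at hcount
  set m := k * (s - i) with hm
  set N := t + k * i with hNdef
  have hik : i ≤ k * i := Nat.le_mul_of_pos_left _ (by omega)
  have hgN : (g + 1) * i ≤ N := by
    have : (g + 1) * i = g * i + i := by ring
    omega
  have hg' : (0 : ℝ) < g := by
    have : 0 < g := by omega
    exact_mod_cast this
  have hg2 : (2 : ℝ) ≤ g := by exact_mod_cast hg
  set b := (if i = 0 then 0 else (N - 1).choose (i - 1)) with hb
  have hC : (0 : ℝ) ≤ N.choose i := Nat.cast_nonneg _
  have hbC : (b : ℝ) ≤ N.choose i / g := by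
    rw [le_div_iff₀ hg']
    rcases Nat.eq_zero_or_pos i with hi0 | hi0
    · rw [hb, if_pos hi0]; simp
    · rw [hb, if_neg (by omega)]
      have h1 : (N - 1).choose (i - 1) * g ≤ N.choose i := by
        obtain ⟨j, rfl⟩ : ∃ j, i = j + 1 := ⟨i - 1, by omega⟩
        obtain ⟨M, hM⟩ : ∃ M, N = M + 1 := ⟨N - 1, by
          have : (g + 1) * (j + 1) = g * j + j + g + 1 := by ring
          omega⟩
        rw [hM] at hgN ⊢
        simp only [Nat.add_sub_cancel]
        have h3 := Nat.add_one_mul_choose_eq M j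
        have h4 : (j + 1) * (M.choose j * g) ≤ (j + 1) * (M + 1).choose (j + 1) := by
          calc (j + 1) * (M.choose j * g) = (g * (j + 1)) * M.choose j := by ring
            _ ≤ (M + 1) * M.choose j := by
              refine Nat.mul_le_mul_right _ ?_
              have : (g + 1) * (j + 1) = g * (j + 1) + (j + 1) := by ring
              omega
            _ = _ := by rw [h3]; ring
        exact Nat.le_of_mul_le_mul_left h4 (Nat.succ_pos j)
      exact_mod_cast h1
  have hsum : ((∑ v ∈ range i, N.choose v : ℕ) : ℝ) ≤ N.choose i * (2 / g) := by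
    push_cast
    have hy0 : (0 : ℝ) ≤ 1 / g := by positivity
    have hy1 : (1 : ℝ) / g ≤ 1 / 2 := one_div_le_one_div_of_le (by norm_num) hg2
    calc ∑ v ∈ range i, (N.choose v : ℝ)
        ≤ ∑ v ∈ range i, (N.choose i : ℝ) * (1 / (g : ℝ)) ^ (i - v) := by
          refine sum_le_sum (fun v hv => ?_)
          rw [mem_range] at hv
          exact choose_geom (by omega) hgN hv.le
      _ = (N.choose i : ℝ) * ((1 / (g : ℝ)) * ∑ v ∈ range i, (1 / (g : ℝ)) ^ v) := by
          rw [← mul_sum, mul_sum _ _ (1 / (g : ℝ)), ← sum_range_reflect]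
          congr 1
          refine sum_congr rfl (fun v hv => ?_)
          rw [mem_range] at hv
          rw [← pow_succ']
          congr 1
          omega
      _ ≤ (N.choose i : ℝ) * ((1 / (g : ℝ)) * (1 / (1 - 1 / g))) := by
          gcongr
          exact geom_le hy0 (by linarith) _
      _ ≤ (N.choose i : ℝ) * ((1 / (g : ℝ)) * 2) := by
          gcongr
          rw [div_le_iff₀ (by linarith)]
          linarith
      _ = _ := by ring
  have h1 : ((F.filter (fun D => (D ∩ Ico m n).card ≤ i)).card : ℝ) ≤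
      RI * N.choose i + 2 ^ m * (((k : ℝ) - 2 + (i + r)) * b +
        ((∑ v ∈ range i, N.choose v : ℕ) : ℝ)) := by
    have h2 : (((F.filter (fun D => (D ∩ Ico m n).card ≤ i)).card : ℕ) : ℝ) ≤
        ((RI * N.choose i + 2 ^ m * ((k - 2 + (i + r)) * b + ∑ v ∈ range i, N.choose v) : ℕ) :
          ℝ) := by
      exact_mod_cast hcount
    refine h2.trans (le_of_eq ?_)
    push_cast [Nat.cast_sub (show 2 ≤ k by omega)]
    ring
  have hk2 : (0 : ℝ) ≤ (k : ℝ) - 2 + (i + r) := by
    have : (60 : ℝ) ≤ k := by exact_mod_cast hk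
    have h3 : (0 : ℝ) ≤ i := Nat.cast_nonneg _
    have h4 : (0 : ℝ) ≤ r := Nat.cast_nonneg _
    linarith
  have haa : (2 : ℝ) ^ m * N.choose i ≤ aa t k s i := by
    unfold aa
    rw [← hNdef, ← hm]
    push_cast
    refine mul_le_mul_of_nonneg_left ?_ (by positivity)
    exact single_le_sum (f := fun v => (N.choose v : ℝ)) (fun _ _ => Nat.cast_nonneg _)
      (mem_range.mpr (Nat.lt_succ_self i))
  have hbr : (0 : ℝ) ≤ (9 / 8) * (1 / 2) ^ r + ((k : ℝ) + i + r) / g := by positivity
  calc _ ≤ _ := h1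
    _ ≤ (2 ^ m * ((9 / 8) * (1 / 2) ^ r)) * N.choose i +
        2 ^ m * (((k : ℝ) - 2 + (i + r)) * (N.choose i / g) + N.choose i * (2 / g)) := by
        gcongr
    _ = (2 ^ m * N.choose i) * ((9 / 8) * (1 / 2) ^ r + ((k : ℝ) + i + r) / g) := by
        field_simp
        ring
    _ ≤ _ := mul_le_mul_of_nonneg_right haa hbr

/-- when the tails at level `i0` are bounded, the lower levels are tiny -/
theorem levelZ {n k s i i0 R g t : ℕ} (hii : i < i0) (hi0 : i0 ≤ s) {F : Finset (Finset ℕ)}
    (hFn : F ⊆ (range n).powerset) (hn : n = k * s + t) (hg : 32 ≤ g) (hgi : g * i ≤ t)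
    (hk : 1 ≤ k)
    (hQ : ∀ D ∈ F, (D ∩ Ico (k * (s - i0)) n).card ≤ i0 + R) :
    ((F.filter (fun D => (D ∩ Ico (k * (s - i)) n).card ≤ i)).card : ℝ) ≤
      (aa t k s i : ℝ) * ((11 / 10) * 2 ^ R * (2 * (3 / 4) ^ k) ^ (i0 - i)) := by
  classical
  have hks : k * (s - i) + k * i = k * s := by
    rw [← Nat.mul_add, Nat.sub_add_cancel (by omega)]
  have hks0 : k * (s - i0) + k * i0 = k * s := by rw [← Nat.mul_add, Nat.sub_add_cancel hi0]
  have hki : k * i0 = k * i + k * (i0 - i) := by
    rw [← Nat.mul_add]; congr 1; omega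
  set m := k * (s - i) with hm
  set m0 := k * (s - i0) with hm0
  have hmm : m = m0 + k * (i0 - i) := by omega
  have hmn : m ≤ n := by omega
  set N := t + k * i with hNdef
  have hN : n - m = N := by omega
  set G := F.filter (fun D => (D ∩ Ico m n).card ≤ i) with hG
  -- the injection
  set φ : Finset ℕ → Finset ℕ × (Finset ℕ × Finset ℕ) :=
    fun D => (D ∩ range m0, (D ∩ Ico m0 m, D ∩ Ico m n)) with hφ
  set C := (Ico m n).powerset.filter (fun D => D.card ≤ i) with hC
  set Pr := (range m0).powerset ×ˢ ((Ico m0 m).powerset ×ˢ C) with hPr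
  have hinj : Set.InjOn φ G := by
    intro D hD E hE h
    have hD' := mem_powerset.mp (hFn (mem_filter.mp (mem_coe.mp hD)).1)
    have hE' := mem_powerset.mp (hFn (mem_filter.mp (mem_coe.mp hE)).1)
    simp only [hφ, Prod.mk.injEq] at h
    have key : ∀ D : Finset ℕ, D ⊆ range n →
        D = (D ∩ range m0) ∪ ((D ∩ Ico m0 m) ∪ (D ∩ Ico m n)) := by
      intro D hD
      ext x
      simp only [mem_union, mem_inter, mem_range, mem_Ico]
      constructor
      · intro hx
        have := mem_range.mp (hD hx)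
        by_cases h1 : x < m0
        · exact Or.inl ⟨hx, h1⟩
        · by_cases h2 : x < m
          · exact Or.inr (Or.inl ⟨hx, by omega, h2⟩)
          · exact Or.inr (Or.inr ⟨hx, by omega, this⟩)
      · rintro (⟨h, _⟩ | ⟨h, _⟩ | ⟨h, _⟩) <;> exact h
    rw [key D hD', key E hE', h.1, h.2.1, h.2.2]
  have hmaps : G.image φ ⊆ Pr := by
    intro x hx
    rw [mem_image] at hx
    obtain ⟨D, hD, rfl⟩ := hx
    have hD' := (mem_filter.mp hD).2
    exact mem_product.mpr ⟨mem_powerset.mpr inter_subset_right,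
      mem_product.mpr ⟨mem_powerset.mpr inter_subset_right,
        mem_filter.mpr ⟨mem_powerset.mpr inter_subset_right, hD'⟩⟩⟩
  set wt : Finset ℕ × (Finset ℕ × Finset ℕ) → ℝ :=
    fun x => 2 ^ (i0 + R) * ((1 / 2) ^ x.2.1.card * (1 / 2) ^ x.2.2.card) with hwt
  have h1 : (G.card : ℝ) ≤ ∑ x ∈ Pr, wt x := by
    calc (G.card : ℝ) = ∑ D ∈ G, (1 : ℝ) := by simp
      _ ≤ ∑ D ∈ G, wt (φ D) := by
          refine sum_le_sum (fun D hD => ?_)
          have hDF := (mem_filter.mp hD).1
          have h2 := hQ D hDF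
          have h3 : (D ∩ Ico m0 m).card + (D ∩ Ico m n).card = (D ∩ Ico m0 n).card := by
            rw [← card_union_of_disjoint]
            · congr 1
              ext x
              simp only [mem_union, mem_inter, mem_Ico]
              constructor
              · rintro (⟨h, h'⟩ | ⟨h, h'⟩)
                · exact ⟨h, by omega⟩
                · exact ⟨h, by omega⟩
              · rintro ⟨h, h'⟩
                by_cases h2 : x < m
                · exact Or.inl ⟨h, by omega⟩
                · exact Or.inr ⟨h, by omega⟩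
            · rw [disjoint_left]
              intro x hx hx'
              rw [mem_inter, mem_Ico] at hx hx'
              omega
          simp only [hwt, hφ]
          rw [← pow_add, h3, one_div, inv_pow, ← div_eq_mul_inv, le_div_iff₀ (by positivity),
            one_mul]
          exact pow_le_pow_right₀ (by norm_num) h2
      _ = ∑ x ∈ G.image φ, wt x := by rw [sum_image hinj]
      _ ≤ ∑ x ∈ Pr, wt x := sum_le_sum_of_subset_of_nonneg hmaps (fun x _ _ => by
          simp only [hwt]; positivity)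
  have h2 : ∑ x ∈ Pr, wt x = 2 ^ (i0 + R) * (2 ^ m0 * ((3 / 2) ^ (k * (i0 - i)) *
      ∑ T ∈ C, (1 / 2 : ℝ) ^ T.card)) := by
    rw [hPr, sum_product]
    simp only [hwt]
    rw [sum_const, card_powerset, card_range, nsmul_eq_mul]
    rw [sum_product]
    have h3 : ∑ x ∈ (Ico m0 m).powerset, ∑ y ∈ C,
        (2 : ℝ) ^ (i0 + R) * ((1 / 2) ^ x.card * (1 / 2) ^ y.card) =
        2 ^ (i0 + R) * ((∑ x ∈ (Ico m0 m).powerset, (1 / 2 : ℝ) ^ x.card) *
          ∑ y ∈ C, (1 / 2 : ℝ) ^ y.card) := by
      rw [sum_mul_sum, mul_sum]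
      refine sum_congr rfl (fun x _ => ?_)
      rw [mul_sum]
    rw [h3]
    have h4 : ∑ x ∈ (Ico m0 m).powerset, (1 / 2 : ℝ) ^ x.card = (3 / 2) ^ (k * (i0 - i)) := by
      have h5 := Finset.sum_pow_mul_eq_add_pow (1 / 2 : ℝ) 1 (Ico m0 m)
      simp only [one_pow, mul_one] at h5
      rw [h5, Nat.card_Ico, hmm, Nat.add_sub_cancel_left]
      norm_num
    rw [h4]
    push_cast
    ring
  have h3 : ∑ T ∈ C, (1 / 2 : ℝ) ^ T.card ≤ N.choose i * (1 / 2) ^ i * (11 / 10) := by
    have h4 : ∑ T ∈ C, (1 / 2 : ℝ) ^ T.card =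
        ∑ l ∈ range (i + 1), ∑ T ∈ C.filter (fun T => T.card = l), (1 / 2 : ℝ) ^ T.card := by
      rw [sum_fiberwise_of_maps_to]
      intro T hT
      rw [mem_range]
      have := (mem_filter.mp hT).2
      omega
    rw [h4]
    have hg' : (0 : ℝ) < g := by
      have : 0 < g := by omega
      exact_mod_cast this
    have hg2 : (32 : ℝ) ≤ g := by exact_mod_cast hg
    have hik : i ≤ k * i := Nat.le_mul_of_pos_left _ (by omega)
    have hgN : (g + 1) * i ≤ N := by
      have : (g + 1) * i = g * i + i := by ring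
      omega
    have hy1 : (2 : ℝ) / g ≤ 1 / 16 := by
      rw [div_le_div_iff₀ hg' (by norm_num)]; linarith
    calc ∑ l ∈ range (i + 1), ∑ T ∈ C.filter (fun T => T.card = l), (1 / 2 : ℝ) ^ T.card
        ≤ ∑ l ∈ range (i + 1), (N.choose i : ℝ) * (1 / 2) ^ i * (2 / (g : ℝ)) ^ (i - l) := by
          refine sum_le_sum (fun l hl => ?_)
          rw [mem_range] at hl
          have h5 : ∑ T ∈ C.filter (fun T => T.card = l), (1 / 2 : ℝ) ^ T.card =
              ((C.filter (fun T => T.card = l)).card : ℝ) * (1 / 2) ^ l := by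
            rw [← nsmul_eq_mul, ← sum_const]
            refine sum_congr rfl (fun T hT => ?_)
            rw [(mem_filter.mp hT).2]
          have h6 : (C.filter (fun T => T.card = l)).card ≤ N.choose l := by
            have h7 : C.filter (fun T => T.card = l) ⊆ powersetCard l (Ico m n) := by
              intro T hT
              rw [mem_filter] at hT
              rw [mem_powersetCard]
              exact ⟨mem_powerset.mp (mem_filter.mp hT.1).1, hT.2⟩
            have h8 := card_le_card h7
            rwa [card_powersetCard, Nat.card_Ico, hN] at h8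
          have h7 : ((C.filter (fun T => T.card = l)).card : ℝ) ≤ N.choose l := by
            exact_mod_cast h6
          have h8 := choose_geom (g := g) (by omega) hgN (show l ≤ i by omega)
          rw [h5]
          calc ((C.filter (fun T => T.card = l)).card : ℝ) * (1 / 2) ^ l
              ≤ (N.choose i * (1 / (g : ℝ)) ^ (i - l)) * (1 / 2) ^ l := by
                gcongr
                exact h7.trans h8
            _ = (N.choose i : ℝ) * ((1 / 2) ^ l * (1 / (g : ℝ)) ^ (i - l)) := by ring
            _ = (N.choose i : ℝ) * ((1 / 2) ^ l * ((1 / 2) ^ (i - l) *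
                (2 / (g : ℝ)) ^ (i - l))) := by
                rw [← mul_pow (1 / 2 : ℝ) (2 / (g : ℝ))]
                congr 4
                field_simp
            _ = (N.choose i : ℝ) * ((1 / 2) ^ (l + (i - l)) * (2 / (g : ℝ)) ^ (i - l)) := by
                rw [pow_add]; ring
            _ = _ := by
                rw [show l + (i - l) = i by omega]; ring
      _ = (N.choose i : ℝ) * (1 / 2) ^ i * ∑ l ∈ range (i + 1), (2 / (g : ℝ)) ^ l := by
          rw [← mul_sum, ← sum_range_reflect]
          congr 1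
          refine sum_congr rfl (fun l hl => ?_)
          rw [mem_range] at hl
          congr 1
          omega
      _ ≤ (N.choose i : ℝ) * (1 / 2) ^ i * (1 / (1 - 2 / g)) := by
          gcongr
          exact geom_le (by positivity) (by linarith) _
      _ ≤ (N.choose i : ℝ) * (1 / 2) ^ i * (11 / 10) := by
          refine mul_le_mul_of_nonneg_left ?_ (by positivity)
          rw [div_le_iff₀ (by linarith)]
          linarith
  have haa : (2 : ℝ) ^ m * N.choose i ≤ aa t k s i := by
    unfold aa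
    rw [← hNdef, ← hm]
    push_cast
    refine mul_le_mul_of_nonneg_left ?_ (by positivity)
    exact single_le_sum (f := fun v => (N.choose v : ℝ)) (fun _ _ => Nat.cast_nonneg _)
      (mem_range.mpr (Nat.lt_succ_self i))
  calc (G.card : ℝ) ≤ _ := h1
    _ = _ := h2
    _ ≤ 2 ^ (i0 + R) * (2 ^ m0 * ((3 / 2) ^ (k * (i0 - i)) *
        (N.choose i * (1 / 2) ^ i * (11 / 10)))) := by gcongr
    _ = (2 ^ m * N.choose i) * ((11 / 10) * 2 ^ R * (2 * (3 / 4) ^ k) ^ (i0 - i)) := by
        rw [hmm, pow_add (2 : ℝ) m0, pow_mul (2 : ℝ) k, pow_mul (3 / 2 : ℝ) k, pow_add (2 : ℝ) i0,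
          mul_pow (2 : ℝ)]
        have e1 : (2 : ℝ) ^ i0 = 2 ^ i * 2 ^ (i0 - i) := by
          rw [← pow_add]; congr 1; omega
        have e2 : ((3 : ℝ) / 2) ^ k = 2 ^ k * (3 / 4) ^ k := by
          rw [← mul_pow]; norm_num
        have e3 : (2 : ℝ) ^ i * (1 / 2) ^ i = 1 := by
          rw [← mul_pow]; norm_num
        rw [e1, e2, mul_pow]
        linear_combination (2 ^ (i0 - i) * 2 ^ R * (2 ^ m0 * ((2 ^ k) ^ (i0 - i) *
          ((3 / 4) ^ k) ^ (i0 - i) * (N.choose i * (11 / 10))))) * e3
    _ ≤ _ := mul_le_mul_of_nonneg_right haa (by positivity)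

end Pool.Agent.H93.EF
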