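import Mathlib
import Pool.Agent.H93.EF.Exp1

set_option autoImplicit false

open Finset

namespace Pool.Agent.H93.EF

/-- partial sums of binomial coefficients -/
def Bs (N j : ℕ) : ℕ := ∑ v ∈ range (j + 1), N.choose v

theorem Bs_lower (N i : ℕ) : (N - i) * Bs N i ≤ (i + 1) * Bs N (i + 1) := by
  unfold Bs
  rw [mul_sum]
  calc ∑ v ∈ range (i + 1), (N - i) * N.choose v
      ≤ ∑ v ∈ range (i + 1), (i + 1) * N.choose (v + 1) := by
        refine sum_le_sum (fun v hv => ?_)
        rw [mem_range] at hv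
        have h1 := Nat.choose_succ_right_eq N v
        calc (N - i) * N.choose v ≤ (N - v) * N.choose v :=
              Nat.mul_le_mul_right _ (by omega)
          _ = N.choose (v + 1) * (v + 1) := by rw [h1]; ring
          _ ≤ N.choose (v + 1) * (i + 1) := Nat.mul_le_mul_left _ (by omega)
          _ = _ := by ring
    _ = (i + 1) * ∑ v ∈ range (i + 1), N.choose (v + 1) := by rw [mul_sum]
    _ ≤ _ := by
        refine Nat.mul_le_mul_left _ ?_
        rw [sum_range_succ' (fun v => N.choose v) (i + 1)]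
        exact Nat.le_add_right _ _

theorem Bs_mono {N M : ℕ} (h : N ≤ M) (j : ℕ) : Bs N j ≤ Bs M j :=
  sum_le_sum (fun v _ => Nat.choose_le_choose v h)

theorem Bs_upper {N i : ℕ} (h : i ≤ N) : (i + 1) * Bs N (i + 1) ≤ (N + 1) * Bs N i := by
  have h1 : Bs N (i + 1) = Bs N i + N.choose (i + 1) := by
    unfold Bs; rw [sum_range_succ _ (i + 1)]
  have h2 : (i + 1) * N.choose (i + 1) ≤ (N - i) * Bs N i := by
    have h3 := Nat.choose_succ_right_eq N i
    calc (i + 1) * N.choose (i + 1) = (N - i) * N.choose i := by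
          rw [mul_comm, h3]; ring
      _ ≤ _ := by
        refine Nat.mul_le_mul_left _ ?_
        unfold Bs
        exact single_le_sum (f := fun v => N.choose v) (fun _ _ => Nat.zero_le _)
          (mem_range.mpr (Nat.lt_succ_self i))
  rw [h1, Nat.mul_add]
  have h3 : (i + 1) * Bs N i + (N - i) * Bs N i = (N + 1) * Bs N i := by
    rw [← Nat.add_mul]
    congr 1
    omega
  omega

theorem Bs_succ (M j : ℕ) : Bs (M + 1) (j + 1) = Bs M (j + 1) + Bs M j := by
  unfold Bs
  rw [sum_range_succ' _ (j + 1), sum_range_succ' (fun v => M.choose v) (j + 1)]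
  simp only [Nat.choose_succ_succ', sum_add_distrib, Nat.choose_zero_right]
  ring

theorem Bs_step {N i : ℕ} (hiN : i < N) : ∀ c : ℕ,
    (Bs (N + c) (i + 1) : ℝ) ≤ Bs N (i + 1) * (1 + ((i : ℝ) + 1) / ((N : ℝ) - i)) ^ c := by
  intro c
  have hiN' : (0 : ℝ) < (N : ℝ) - i := by
    have : (i : ℝ) < N := by exact_mod_cast hiN
    linarith
  induction c with
  | zero => simp
  | succ c ih =>
    rw [← add_assoc, Bs_succ]
    push_cast
    have h1 := Bs_lower (N + c) i
    have h2 : ((N : ℝ) - i) * Bs (N + c) i ≤ ((i : ℝ) + 1) * Bs (N + c) (i + 1) := by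
      have h3 : (((N + c - i) * Bs (N + c) i : ℕ) : ℝ) ≤
          (((i + 1) * Bs (N + c) (i + 1) : ℕ) : ℝ) := by exact_mod_cast h1
      push_cast [Nat.cast_sub (show i ≤ N + c by omega)] at h3
      have h4 : (0 : ℝ) ≤ (c : ℝ) * Bs (N + c) i := by positivity
      nlinarith
    have h3 : (Bs (N + c) i : ℝ) ≤ Bs (N + c) (i + 1) * (((i : ℝ) + 1) / ((N : ℝ) - i)) := by
      rw [mul_div_assoc', le_div_iff₀ hiN']
      linarith
    calc (Bs (N + c) (i + 1) : ℝ) + Bs (N + c) i
        ≤ Bs (N + c) (i + 1) * (1 + ((i : ℝ) + 1) / ((N : ℝ) - i)) := by linarith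
      _ ≤ (Bs N (i + 1) * (1 + ((i : ℝ) + 1) / ((N : ℝ) - i)) ^ c) *
          (1 + ((i : ℝ) + 1) / ((N : ℝ) - i)) := by gcongr
      _ = _ := by rw [pow_succ]; ring

theorem one_add_pow_le {y : ℝ} (hy : 0 ≤ y) (c : ℕ) :
    (1 + y) ^ c ≤ 1 + c * y * (1 + y) ^ c := by
  induction c with
  | zero => simp
  | succ c ih =>
    have h1 : (1 : ℝ) ≤ (1 + y) ^ c := one_le_pow₀ (by linarith)
    rw [pow_succ]
    push_cast
    have h2 : (1 + y) ^ c * (1 + y) ≤ (1 + c * y * (1 + y) ^ c) * (1 + y) :=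
      mul_le_mul_of_nonneg_right ih (by linarith)
    have h3 : 0 ≤ y * ((1 + y) ^ c - 1) := mul_nonneg hy (by linarith)
    have h4 : 0 ≤ y * (y * (1 + y) ^ c) := by positivity
    nlinarith

theorem Bs_ratio {t k i : ℕ} (hk : 60 ≤ k) :
    ((i : ℝ) + 1) * Bs (t + k * i + k) (i + 1) ≤
      ((t : ℝ) + 10 * k * (i + 1)) * Bs (t + k * i) i := by
  have hk' : (60 : ℝ) ≤ k := by exact_mod_cast hk
  rcases Nat.eq_zero_or_pos i with rfl | hi
  · simp only [Bs, mul_zero, add_zero, zero_add, sum_range_succ, range_zero, sum_empty,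
      Nat.choose_zero_right, Nat.choose_one_right]
    push_cast
    linarith
  set N := t + k * i with hN
  have hki : k * i = (k - 1) * i + i := by
    obtain ⟨q, rfl⟩ : ∃ q, k = q + 1 := ⟨k - 1, by omega⟩
    simp [Nat.succ_mul]
  have hpos : 0 < (k - 1) * i := Nat.mul_pos (by omega) hi
  have hiN : i < N := by omega
  have h1 := Bs_step hiN k
  have hi' : (1 : ℝ) ≤ i := by exact_mod_cast hi
  have hNr : (N : ℝ) = t + k * i := by rw [hN]; push_cast; ring
  have ht0 : (0 : ℝ) ≤ t := Nat.cast_nonneg _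
  have hNi : (59 : ℝ) / 60 * (k * i) ≤ (N : ℝ) - i := by
    rw [hNr]
    nlinarith
  have hkipos : (0 : ℝ) < k * i := by positivity
  have hNipos : (0 : ℝ) < (N : ℝ) - i := by nlinarith
  set y := ((i : ℝ) + 1) / ((N : ℝ) - i) with hy
  have hy0 : 0 ≤ y := by positivity
  have hyk : k * y ≤ 120 / 59 := by
    rw [hy, mul_div_assoc', div_le_div_iff₀ hNipos (by norm_num)]
    nlinarith
  have hpow : (1 + y) ^ k ≤ 8 := by
    calc (1 + y) ^ k ≤ (Real.exp y) ^ k := by
          refine pow_le_pow_left₀ (by linarith) ?_ _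
          rw [add_comm]
          exact Real.add_one_le_exp _
      _ = Real.exp (k * y) := by rw [← Real.exp_nat_mul]
      _ ≤ Real.exp (1 + 1 + 2 / 59) := by
          refine Real.exp_le_exp.mpr ?_
          linarith
      _ = Real.exp 1 * Real.exp 1 * Real.exp (2 / 59) := by
          rw [Real.exp_add, Real.exp_add]
      _ ≤ 8 := by
          have h2 : Real.exp 1 ≤ 2.7182818286 := Real.exp_one_lt_d9.le
          have h3 : Real.exp (2 / 59) ≤ 1.04 := by
            have h4 : 1 - (2 / 59 : ℝ) ≤ Real.exp (-(2 / 59)) := by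
              have := Real.add_one_le_exp (-(2 / 59 : ℝ))
              linarith
            rw [Real.exp_neg] at h4
            have h5 : 0 < Real.exp (2 / 59) := Real.exp_pos _
            have h6 : Real.exp (2 / 59) * (1 - 2 / 59) ≤ 1 := by
              calc Real.exp (2 / 59) * (1 - 2 / 59) ≤
                  Real.exp (2 / 59) * (Real.exp (2 / 59))⁻¹ :=
                    mul_le_mul_of_nonneg_left h4 h5.le
                _ = 1 := mul_inv_cancel₀ h5.ne'
            linarith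
          have h4 : 0 < Real.exp 1 := Real.exp_pos _
          calc Real.exp 1 * Real.exp 1 * Real.exp (2 / 59)
              ≤ 2.7182818286 * 2.7182818286 * 1.04 := by gcongr
            _ ≤ 8 := by norm_num
  have hpow2 : (1 + y) ^ k ≤ 1 + 8 * (k * y) := by
    refine (one_add_pow_le hy0 k).trans ?_
    have : (k : ℝ) * y * (1 + y) ^ k ≤ k * y * 8 :=
      mul_le_mul_of_nonneg_left hpow (by positivity)
    linarith
  have hup : ((i : ℝ) + 1) * Bs N (i + 1) ≤ ((N : ℝ) + 1) * Bs N i := by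
    exact_mod_cast Bs_upper hiN.le
  have hfin : ((N : ℝ) + 1) * (1 + 8 * (k * y)) ≤ (t : ℝ) + 10 * k * (i + 1) := by
    have h2 : ((N : ℝ) + 1) * y = (i + 1) * (((N : ℝ) + 1) / ((N : ℝ) - i)) := by
      rw [hy]; ring
    have h3 : ((N : ℝ) + 1) / ((N : ℝ) - i) ≤ 61 / 59 := by
      rw [div_le_div_iff₀ hNipos (by norm_num)]
      rw [hNr]
      nlinarith
    have h4 : ((N : ℝ) + 1) * y ≤ (i + 1) * (61 / 59) := by
      rw [h2]; gcongr
    have h5 : ((N : ℝ) + 1) * (1 + 8 * (k * y)) = ((N : ℝ) + 1) + 8 * k * (((N : ℝ) + 1) * y) := by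
      ring
    rw [h5]
    have h6 : 8 * (k : ℝ) * (((N : ℝ) + 1) * y) ≤ 8 * k * ((i + 1) * (61 / 59)) := by gcongr
    rw [hNr] at h6 ⊢
    nlinarith
  have hB0 : (0 : ℝ) ≤ Bs N i := Nat.cast_nonneg _
  calc ((i : ℝ) + 1) * Bs (N + k) (i + 1)
      ≤ ((i : ℝ) + 1) * (Bs N (i + 1) * (1 + y) ^ k) := by gcongr
    _ = (((i : ℝ) + 1) * Bs N (i + 1)) * (1 + y) ^ k := by ring
    _ ≤ (((N : ℝ) + 1) * Bs N i) * (1 + 8 * (k * y)) := by gcongr
    _ = (((N : ℝ) + 1) * (1 + 8 * (k * y))) * Bs N i := by ring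
    _ ≤ _ := mul_le_mul_of_nonneg_right hfin hB0

theorem aa_eq (t k s i : ℕ) : aa t k s i = 2 ^ (k * (s - i)) * Bs (t + k * i) i := rfl

theorem aa_upper {t k s i : ℕ} (hk : 60 ≤ k) (hi : i < s) :
    ((i : ℝ) + 1) * 2 ^ k * aa t k s (i + 1) ≤ ((t : ℝ) + 10 * k * (i + 1)) * aa t k s i := by
  have h1 := Bs_ratio (t := t) (i := i) hk
  have e1 : k * (s - i) = k * (s - (i + 1)) + k := by
    have : s - i = (s - (i + 1)) + 1 := by omega
    rw [this]; ring
  have e2 : t + k * (i + 1) = t + k * i + k := by ring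
  rw [aa_eq, aa_eq, e1, e2]
  push_cast
  rw [pow_add]
  calc ((i : ℝ) + 1) * 2 ^ k * (2 ^ (k * (s - (i + 1))) * (Bs (t + k * i + k) (i + 1) : ℝ))
      = (2 ^ k * 2 ^ (k * (s - (i + 1)))) * (((i : ℝ) + 1) * Bs (t + k * i + k) (i + 1)) := by
        ring
    _ ≤ (2 ^ k * 2 ^ (k * (s - (i + 1)))) *
        (((t : ℝ) + 10 * k * (i + 1)) * Bs (t + k * i) i) := by gcongr
    _ = _ := by ring

theorem aa_lower {t k s i : ℕ} (hk : 1 ≤ k) (hi : i < s) :
    (t : ℝ) * aa t k s i ≤ ((i : ℝ) + 1) * 2 ^ k * aa t k s (i + 1) := by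
  have h1 := Bs_lower (t + k * i) i
  have h2 := Bs_mono (show t + k * i ≤ t + k * i + k by omega) (i + 1)
  have h3 : t * Bs (t + k * i) i ≤ (i + 1) * Bs (t + k * i + k) (i + 1) := by
    have h4 : i ≤ k * i := Nat.le_mul_of_pos_left _ (by omega)
    calc t * Bs (t + k * i) i ≤ (t + k * i - i) * Bs (t + k * i) i :=
          Nat.mul_le_mul_right _ (by omega)
      _ ≤ _ := h1
      _ ≤ _ := Nat.mul_le_mul_left _ h2
  have e1 : k * (s - i) = k * (s - (i + 1)) + k := by
    have : s - i = (s - (i + 1)) + 1 := by omega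
    rw [this]; ring
  have e2 : t + k * (i + 1) = t + k * i + k := by ring
  have h4 : t * aa t k s i ≤ (i + 1) * 2 ^ k * aa t k s (i + 1) := by
    rw [aa_eq, aa_eq, e1, e2, pow_add]
    calc t * (2 ^ (k * (s - (i + 1))) * 2 ^ k * Bs (t + k * i) i)
        = (2 ^ (k * (s - (i + 1))) * 2 ^ k) * (t * Bs (t + k * i) i) := by ring
      _ ≤ (2 ^ (k * (s - (i + 1))) * 2 ^ k) * ((i + 1) * Bs (t + k * i + k) (i + 1)) :=
          Nat.mul_le_mul_left _ h3
      _ = _ := by ring
  exact_mod_cast h4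

theorem sum_geom_down {a : ℕ → ℝ} {ρ : ℝ} (ha : ∀ i, 0 ≤ a i) (hρ0 : 0 ≤ ρ) :
    ∀ j : ℕ, (∀ i < j, a i ≤ ρ * a (i + 1)) → (1 - ρ) * ∑ i ∈ range (j + 1), a i ≤ a j := by
  intro j
  induction j with
  | zero =>
    intro _
    have := mul_nonneg hρ0 (ha 0)
    simp only [zero_add, sum_range_one]
    linarith
  | succ j ih =>
    intro h
    have h1 := ih (fun i hi => h i (by omega))
    have h2 := h j (Nat.lt_succ_self j)
    rw [sum_range_succ, mul_add]
    linarith

theorem sum_geom_up {a : ℕ → ℝ} {ρ : ℝ} (ha : ∀ i, 0 ≤ a i) (hρ0 : 0 ≤ ρ) (hρ1 : ρ < 1)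
    (j0 len : ℕ) (h : ∀ i, i + 1 < len → a (j0 + i + 1) ≤ ρ * a (j0 + i)) :
    ∑ i ∈ range len, a (j0 + i) ≤ a j0 * (1 / (1 - ρ)) := by
  have h1 : ∀ i, i < len → a (j0 + i) ≤ ρ ^ i * a j0 := by
    intro i
    induction i with
    | zero => intro _; simp
    | succ i ih =>
      intro hi
      have h2 := ih (by omega)
      have h3 := h i hi
      calc a (j0 + (i + 1)) = a (j0 + i + 1) := by rw [add_assoc]
        _ ≤ ρ * a (j0 + i) := h3
        _ ≤ ρ * (ρ ^ i * a j0) := mul_le_mul_of_nonneg_left h2 hρ0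
        _ = _ := by rw [pow_succ]; ring
  calc ∑ i ∈ range len, a (j0 + i) ≤ ∑ i ∈ range len, ρ ^ i * a j0 :=
        sum_le_sum (fun i hi => h1 i (mem_range.mp hi))
    _ = a j0 * ∑ i ∈ range len, ρ ^ i := by rw [← sum_mul]; ring
    _ ≤ _ := mul_le_mul_of_nonneg_left (geom_le hρ0 hρ1 _) (ha j0)

theorem sum_aa {t k s m : ℕ} {A : ℝ} (hk : 60 ≤ k) (hm : 1 ≤ m) (htm : t ≤ m ^ 2 * 2 ^ k)
    (hmk : 20 * k * (m + 1) ≤ 2 ^ k) (hA : ∀ i ≤ s, (aa t k s i : ℝ) ≤ A) :
    ∑ i ∈ range (s + 1), (aa t k s i : ℝ) ≤ 5 * (m + 1) * A := by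
  set a : ℕ → ℝ := fun i => (aa t k s i : ℝ) with ha
  have ha0 : ∀ i, 0 ≤ a i := fun i => Nat.cast_nonneg _
  have hA0 : 0 ≤ A := (ha0 0).trans (hA 0 (Nat.zero_le _))
  have hm' : (1 : ℝ) ≤ m := by exact_mod_cast hm
  have hk' : (60 : ℝ) ≤ k := by exact_mod_cast hk
  have htm' : (t : ℝ) ≤ m ^ 2 * 2 ^ k := by exact_mod_cast htm
  have hmk' : 20 * (k : ℝ) * (m + 1) ≤ 2 ^ k := by exact_mod_cast hmk
  set w := t / 2 ^ k with hw
  have hw1 : 2 ^ k * w ≤ t := Nat.mul_div_le _ _
  have hw2 : t < 2 ^ k * (w + 1) := Nat.lt_mul_div_succ _ (by positivity)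
  have hw1' : (2 : ℝ) ^ k * w ≤ t := by exact_mod_cast hw1
  have hw2' : (t : ℝ) < 2 ^ k * (w + 1) := by exact_mod_cast hw2
  have h2k : (0 : ℝ) < 2 ^ k := by positivity
  -- low part
  have hlow : ∑ i ∈ (range (s + 1)).filter (fun i => i + m < w), a i ≤ (m + 1) * A := by
    have h1 : (range (s + 1)).filter (fun i => i + m < w) = range (min (w - m) (s + 1)) := by
      ext i
      rw [mem_filter, mem_range, mem_range]
      omega
    rw [h1]
    rcases Nat.eq_zero_or_pos (min (w - m) (s + 1)) with h0 | h0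
    · rw [h0]; simp only [range_zero, sum_empty]; positivity
    obtain ⟨j, hj⟩ : ∃ j, min (w - m) (s + 1) = j + 1 := ⟨min (w - m) (s + 1) - 1, by omega⟩
    rw [hj]
    have h2 := sum_geom_down (a := a) (ρ := (m : ℝ) / (m + 1)) ha0 (by positivity) j (by
      intro i hi
      have h3 : (t : ℝ) * a i ≤ ((i : ℝ) + 1) * 2 ^ k * a (i + 1) :=
        aa_lower (by omega) (by omega)
      have h4 : i + 1 + m + 1 ≤ w := by omega
      have h5 : ((i : ℝ) + 1 + m + 1) ≤ w := by exact_mod_cast h4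
      have htpos : (0 : ℝ) < t := by
        refine lt_of_lt_of_le ?_ hw1'
        have : (0 : ℝ) < w := by
          have : (0 : ℝ) ≤ (i : ℝ) := Nat.cast_nonneg _
          linarith
        positivity
      have h6 : ((i : ℝ) + 1) * 2 ^ k ≤ t - m * 2 ^ k := by nlinarith
      have h7 : (t : ℝ) - m * 2 ^ k ≤ t * (m / (m + 1)) := by
        rw [mul_div_assoc', le_div_iff₀ (by positivity)]
        nlinarith
      have h8 : (t : ℝ) * a i ≤ t * ((m : ℝ) / (m + 1) * a (i + 1)) := by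
        calc (t : ℝ) * a i ≤ _ := h3
          _ ≤ (t * (m / (m + 1))) * a (i + 1) :=
            mul_le_mul_of_nonneg_right (h6.trans h7) (ha0 _)
          _ = _ := by ring
      exact le_of_mul_le_mul_left h8 htpos)
    have h3 : 1 - (m : ℝ) / (m + 1) = 1 / (m + 1) := by field_simp; ring
    rw [h3, one_div, inv_mul_le_iff₀ (by positivity)] at h2
    exact h2.trans (mul_le_mul_of_nonneg_left (hA j (by omega)) (by positivity))
  -- high part
  have hhigh : ∑ i ∈ (range (s + 1)).filter (fun i => w + m < i), a i ≤ 2 * (m + 1) * A := by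
    have h1 : (range (s + 1)).filter (fun i => w + m < i) = Ico (w + m + 1) (s + 1) := by
      ext i
      rw [mem_filter, mem_range, mem_Ico]
      omega
    rw [h1, sum_Ico_eq_sum_range]
    rcases Nat.eq_zero_or_pos (s + 1 - (w + m + 1)) with h0 | h0
    · rw [h0]; simp only [range_zero, sum_empty]; positivity
    set ρ : ℝ := 1 - 1 / (2 * (m + 1)) with hρ
    have hρ1 : ρ < 1 := by
      rw [hρ]
      have : (0 : ℝ) < 1 / (2 * (m + 1)) := by positivity
      linarith
    have hρ0 : 0 ≤ ρ := by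
      rw [hρ]
      have : (1 : ℝ) / (2 * (m + 1)) ≤ 1 := by
        rw [div_le_one (by positivity)]; linarith
      linarith
    have h2 := sum_geom_up (a := a) ha0 hρ0 hρ1 (w + m + 1) (s + 1 - (w + m + 1)) (by
      intro i hi
      have h3 : (((w + m + 1 + i : ℕ) : ℝ) + 1) * 2 ^ k * a (w + m + 1 + i + 1) ≤
          ((t : ℝ) + 10 * k * (((w + m + 1 + i : ℕ) : ℝ) + 1)) * a (w + m + 1 + i) :=
        aa_upper hk (by omega)
      set Q : ℝ := (((w + m + 1 + i : ℕ) : ℝ) + 1) with hQ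
      have hQw : (w : ℝ) + m + 1 ≤ Q := by
        rw [hQ]; push_cast
        have : (0 : ℝ) ≤ (i : ℝ) := Nat.cast_nonneg _
        linarith
      have hQpos : 0 < Q := by
        have : (0 : ℝ) ≤ (w : ℝ) := Nat.cast_nonneg _
        linarith
      have h4 : (t : ℝ) + m * 2 ^ k ≤ Q * 2 ^ k := by nlinarith
      have h5 : (t : ℝ) ≤ Q * 2 ^ k * (m / (m + 1)) := by
        rw [mul_div_assoc', le_div_iff₀ (by positivity)]
        nlinarith
      have h6 : 10 * k * Q ≤ Q * 2 ^ k * (1 / (2 * (m + 1))) := by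
        rw [mul_one_div, le_div_iff₀ (by positivity)]
        nlinarith
      have h7 : (t : ℝ) + 10 * k * Q ≤ Q * 2 ^ k * ρ := by
        have e1 : ρ = (m : ℝ) / (m + 1) + 1 / (2 * (m + 1)) := by
          rw [hρ]; field_simp; ring
        rw [e1, mul_add]
        linarith
      have h8 : (Q * 2 ^ k) * a (w + m + 1 + i + 1) ≤ (Q * 2 ^ k) * (ρ * a (w + m + 1 + i)) := by
        calc (Q * 2 ^ k) * a (w + m + 1 + i + 1) ≤ _ := h3
          _ ≤ (Q * 2 ^ k * ρ) * a (w + m + 1 + i) := mul_le_mul_of_nonneg_right h7 (ha0 _)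
          _ = _ := by ring
      exact le_of_mul_le_mul_left h8 (by positivity))
    have h3 : 1 / (1 - ρ) = 2 * (m + 1) := by
      rw [hρ]; field_simp; ring
    rw [h3] at h2
    refine h2.trans ?_
    rw [mul_comm]
    exact mul_le_mul_of_nonneg_left (hA _ (by omega)) (by positivity)
  -- middle part
  have hmid : ∑ i ∈ (range (s + 1)).filter (fun i => ¬ i + m < w ∧ ¬ w + m < i), a i ≤
      (2 * m + 1) * A := by
    have h1 : ((range (s + 1)).filter (fun i => ¬ i + m < w ∧ ¬ w + m < i)).card ≤ 2 * m + 1 := by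
      have h2 : (range (s + 1)).filter (fun i => ¬ i + m < w ∧ ¬ w + m < i) ⊆
          Icc (w - m) (w + m) := by
        intro i hi
        rw [mem_filter] at hi
        rw [mem_Icc]
        omega
      have h3 := card_le_card h2
      rw [Nat.card_Icc] at h3
      omega
    calc _ ≤ ∑ i ∈ (range (s + 1)).filter (fun i => ¬ i + m < w ∧ ¬ w + m < i), A := by
          refine sum_le_sum (fun i hi => hA i ?_)
          have := mem_range.mp (mem_filter.mp hi).1
          omega
      _ = (((range (s + 1)).filter (fun i => ¬ i + m < w ∧ ¬ w + m < i)).card : ℝ) * A := by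
          rw [sum_const, nsmul_eq_mul]
      _ ≤ _ := by
          refine mul_le_mul_of_nonneg_right ?_ hA0
          exact_mod_cast h1
  have hsplit : ∑ i ∈ range (s + 1), a i =
      ∑ i ∈ (range (s + 1)).filter (fun i => i + m < w), a i +
      (∑ i ∈ (range (s + 1)).filter (fun i => w + m < i), a i +
      ∑ i ∈ (range (s + 1)).filter (fun i => ¬ i + m < w ∧ ¬ w + m < i), a i) := by
    rw [← sum_filter_add_sum_filter_not (range (s + 1)) (fun i => i + m < w)]
    congr 1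
    rw [← sum_filter_add_sum_filter_not ((range (s + 1)).filter (fun i => ¬ i + m < w))
      (fun i => w + m < i), filter_filter, filter_filter]
    congr 1
    refine sum_congr ?_ (fun _ _ => rfl)
    ext i
    simp only [mem_filter, mem_range]
    constructor
    · rintro ⟨h, _, h2⟩; exact ⟨h, h2⟩
    · rintro ⟨h, h2⟩; exact ⟨h, by omega, h2⟩
  rw [hsplit]
  nlinarith

theorem tail_aa {t k s w : ℕ} {A : ℝ} (hk : 60 ≤ k) (hw2 : t < 2 ^ k * (w + 1))
    (hA : ∀ i ≤ s, (aa t k s i : ℝ) ≤ A) :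
    ∑ i ∈ Ico (3 * w + 8) (s + 1), (aa t k s i : ℝ) ≤ A / 100 := by
  set a : ℕ → ℝ := fun i => (aa t k s i : ℝ) with ha
  have ha0 : ∀ i, 0 ≤ a i := fun i => Nat.cast_nonneg _
  have hA0 : 0 ≤ A := (ha0 0).trans (hA 0 (Nat.zero_le _))
  have hk' : (60 : ℝ) ≤ k := by exact_mod_cast hk
  have hw2' : (t : ℝ) < 2 ^ k * (w + 1) := by exact_mod_cast hw2
  have h2k : (0 : ℝ) < 2 ^ k := by positivity
  have hksm := k_small hk
  have hratio : ∀ i, 3 * w + 3 ≤ i → i < s → a (i + 1) ≤ 17 / 50 * a i := by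
    intro i hi his
    have h3 : ((i : ℝ) + 1) * 2 ^ k * a (i + 1) ≤
        ((t : ℝ) + 10 * k * ((i : ℝ) + 1)) * a i := aa_upper hk his
    have hi' : 3 * (w : ℝ) + 3 ≤ i := by exact_mod_cast hi
    have hQpos : (0 : ℝ) < (i : ℝ) + 1 := by
      have : (0 : ℝ) ≤ (i : ℝ) := Nat.cast_nonneg _
      linarith
    have h4 : 3 * (t : ℝ) ≤ ((i : ℝ) + 1) * 2 ^ k := by nlinarith
    have h5 : 10 * (k : ℝ) * ((i : ℝ) + 1) ≤ (1 / 1000) * (((i : ℝ) + 1) * 2 ^ k) := by
      have h6 : 10 * (k : ℝ) ≤ (1 / 1000) * 2 ^ k := by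
        have : (k : ℝ) * 2 ^ 50 ≤ 2 ^ k := hksm
        norm_num at this
        linarith
      nlinarith
    have h8 : (((i : ℝ) + 1) * 2 ^ k) * a (i + 1) ≤
        (((i : ℝ) + 1) * 2 ^ k) * (17 / 50 * a i) := by
      calc (((i : ℝ) + 1) * 2 ^ k) * a (i + 1) ≤ _ := h3
        _ ≤ ((((i : ℝ) + 1) * 2 ^ k) * (17 / 50)) * a i := by
            refine mul_le_mul_of_nonneg_right ?_ (ha0 _)
            linarith
        _ = _ := by ring
    exact le_of_mul_le_mul_left h8 (by positivity)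
  rw [sum_Ico_eq_sum_range]
  rcases Nat.eq_zero_or_pos (s + 1 - (3 * w + 8)) with h0 | h0
  · rw [h0]; simp only [range_zero, sum_empty]; positivity
  have h2 := sum_geom_up (a := a) (ρ := 17 / 50) ha0 (by norm_num) (by norm_num) (3 * w + 8)
    (s + 1 - (3 * w + 8)) (fun i hi => hratio _ (by omega) (by omega))
  have h3 : a (3 * w + 8) ≤ (17 / 50) ^ 5 * A := by
    have e1 := hratio (3 * w + 3) le_rfl (by omega)
    have e2 := hratio (3 * w + 4) (by omega) (by omega)
    have e3 := hratio (3 * w + 5) (by omega) (by omega)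
    have e4 := hratio (3 * w + 6) (by omega) (by omega)
    have e5 := hratio (3 * w + 7) (by omega) (by omega)
    have e0 : a (3 * w + 3) ≤ A := hA _ (by omega)
    simp only [add_assoc, Nat.reduceAdd] at e1 e2 e3 e4 e5
    norm_num
    linarith
  refine h2.trans ?_
  norm_num
  norm_num at h3
  linarith

end Pool.Agent.H93.EF
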