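import Mathlib
import Pool.Agent.H93.EF.Exp2

set_option autoImplicit false

open Finset

namespace Pool.Agent.H93.EF

/-- counting a level by prefixes, with a separate treatment of tails meeting `[m,y)` -/
theorem count_split {n m y i : ℕ} (_hmy : m ≤ y) (_hyn : y ≤ n) {F : Finset (Finset ℕ)}
    (hFn : F ⊆ (range n).powerset) (B : Finset ℕ → ℕ)
    (hB : ∀ U ⊆ range m, ((powersetCard i (Ico y n)).filter (fun R => U ∪ R ∈ F)).card ≤ B U) :
    (F.filter (fun D => (D ∩ Ico m n).card ≤ i)).card ≤
      ∑ U ∈ (range m).powerset, B U + 2 ^ m *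
        ((y - m) * (if i = 0 then 0 else (n - m - 1).choose (i - 1)) +
          ∑ v ∈ range i, (n - m).choose v) := by
  classical
  set N := n - m with hN
  set T := Ico m y with hTdef
  set Y := Ico y n with hY
  have hTc : T.card = y - m := by rw [hTdef, Nat.card_Ico]
  set G := F.filter (fun D => (D ∩ Ico m n).card ≤ i) with hG
  set b := (if i = 0 then 0 else (N - 1).choose (i - 1)) with hb
  set Ga := G.filter (fun D => D ∩ Ico m n ⊆ Y ∧ (D ∩ Ico m n).card = i) with hGa
  set Gb := G.filter (fun D => ¬ D ∩ Ico m n ⊆ Y ∧ (D ∩ Ico m n).card = i) with hGb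
  set Gc := G.filter (fun D => (D ∩ Ico m n).card < i) with hGc
  have hcov : G ⊆ Ga ∪ (Gb ∪ Gc) := by
    intro D hD
    have hD' := (mem_filter.mp hD).2
    rcases lt_or_eq_of_le hD' with h | h
    · exact mem_union_right _ (mem_union_right _ (mem_filter.mpr ⟨hD, h⟩))
    · by_cases h' : D ∩ Ico m n ⊆ Y
      · exact mem_union_left _ (mem_filter.mpr ⟨hD, h', h⟩)
      · exact mem_union_right _ (mem_union_left _ (mem_filter.mpr ⟨hD, h', h⟩))
  have hGn : G ⊆ (range n).powerset := (filter_subset _ _).trans hFn
  have hGac : Ga.card ≤ ∑ U ∈ (range m).powerset, B U := by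
    have h2 : Ga ⊆ (range m).powerset.biUnion (fun U =>
        ((powersetCard i Y).filter (fun R => U ∪ R ∈ F)).image (fun R => U ∪ R)) := by
      intro D hD
      rw [hGa, mem_filter] at hD
      have hDn := mem_powerset.mp (hGn hD.1)
      have hDF := (mem_filter.mp hD.1).1
      rw [mem_biUnion]
      refine ⟨D ∩ range m, mem_powerset.mpr inter_subset_right, ?_⟩
      rw [mem_image]
      refine ⟨D ∩ Ico m n, ?_, (split_eq hDn).symm⟩
      rw [mem_filter, mem_powersetCard]
      refine ⟨hD.2, ?_⟩
      rw [← split_eq hDn]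
      exact hDF
    refine (card_le_card h2).trans (card_biUnion_le.trans (sum_le_sum (fun U hU => ?_)))
    exact card_image_le.trans (hB U (mem_powerset.mp hU))
  have hGbc : Gb.card ≤ 2 ^ m * ((y - m) * b) := by
    rcases Nat.eq_zero_or_pos i with hi0 | hi0
    · have : Gb = ∅ := by
        rw [hGb, filter_eq_empty_iff]
        rintro D hD ⟨h1, h2⟩
        rw [hi0, card_eq_zero] at h2
        exact h1 (by rw [h2]; exact empty_subset _)
      rw [this]; simp
    · rw [hb, if_neg (by omega)]
      have h1 := card_meet_le (X := Ico m n) (T := T) i hi0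
      rw [hTc, Nat.card_Ico] at h1
      refine (card_le_mul (m := m) ((filter_subset _ _).trans hGn)
        (C := (powersetCard i (Ico m n)).filter (fun R => ¬ Disjoint R T)) ?_).trans
        (Nat.mul_le_mul_left _ h1)
      intro D hD
      rw [mem_filter] at hD
      rw [mem_filter, mem_powersetCard]
      refine ⟨⟨inter_subset_right, hD.2.2⟩, ?_⟩
      intro hdis
      refine hD.2.1 (fun x hx => ?_)
      have hx' := mem_Ico.mp (mem_inter.mp hx).2
      rw [hY, mem_Ico]
      refine ⟨?_, hx'.2⟩
      by_contra hcon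
      exact disjoint_left.mp hdis hx (by rw [hTdef, mem_Ico]; omega)
  have hGcc : Gc.card ≤ 2 ^ m * ∑ v ∈ range i, N.choose v := by
    rcases Nat.eq_zero_or_pos i with hi0 | hi0
    · have : Gc = ∅ := by
        rw [hGc, filter_eq_empty_iff]
        intro D _
        omega
      rw [this]; simp
    · have h1 : Gc.card ≤ 2 ^ m *
          ((Ico m n).powerset.filter (fun R => R.card ≤ i - 1)).card := by
        refine card_le_mul ((filter_subset _ _).trans hGn) ?_
        intro D hD
        rw [mem_filter] at hD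
        rw [mem_filter, mem_powerset]
        exact ⟨inter_subset_right, by omega⟩
      rw [card_powerset_filter_card_le, Nat.card_Ico, Nat.sub_add_cancel hi0] at h1
      exact h1
  have hfin := (card_le_card hcov).trans ((card_union_le _ _).trans
    (Nat.add_le_add_left (card_union_le _ _) _))
  calc G.card ≤ Ga.card + (Gb.card + Gc.card) := hfin
    _ ≤ ∑ U ∈ (range m).powerset, B U + (2 ^ m * ((y - m) * b) +
        2 ^ m * ∑ v ∈ range i, N.choose v) :=
        Nat.add_le_add hGac (Nat.add_le_add hGbc hGcc)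
    _ = _ := by ring

/-- real estimates for the small terms -/
theorem small_terms {N i g : ℕ} (hg : 2 ≤ g) (hgN : (g + 1) * i ≤ N) :
    ((if i = 0 then 0 else (N - 1).choose (i - 1) : ℕ) : ℝ) ≤ N.choose i / g ∧
      ((∑ v ∈ range i, N.choose v : ℕ) : ℝ) ≤ N.choose i * (2 / g) := by
  have hg' : (0 : ℝ) < g := by
    have : 0 < g := by omega
    exact_mod_cast this
  have hg2 : (2 : ℝ) ≤ g := by exact_mod_cast hg
  have hC : (0 : ℝ) ≤ N.choose i := Nat.cast_nonneg _
  constructor
  · rw [le_div_iff₀ hg']
    rcases Nat.eq_zero_or_pos i with hi0 | hi0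
    · rw [if_pos hi0]; simp
    · rw [if_neg (by omega)]
      have h1 : (N - 1).choose (i - 1) * g ≤ N.choose i := by
        obtain ⟨j, rfl⟩ : ∃ j, i = j + 1 := ⟨i - 1, by omega⟩
        obtain ⟨M, hM⟩ : ∃ M, N = M + 1 := ⟨N - 1, by
          have : (g + 1) * (j + 1) = g * j + j + g + 1 := by ring
          omega⟩
        rw [hM] at hgN ⊢
        simp only [Nat.add_sub_cancel]
        have h3 := Nat.add_one_mul_choose_eq M j
        have h4 : (j + 1) * (M.choose j * g) ≤ (j + 1) * (M + 1).choose (j + 1) := by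
          calc (j + 1) * (M.choose j * g) = (g * (j + 1)) * M.choose j := by ring
            _ ≤ (M + 1) * M.choose j := by
              refine Nat.mul_le_mul_right _ ?_
              have : (g + 1) * (j + 1) = g * (j + 1) + (j + 1) := by ring
              omega
            _ = _ := by rw [h3]; ring
        exact Nat.le_of_mul_le_mul_left h4 (Nat.succ_pos j)
      exact_mod_cast h1
  · push_cast
    have hy0 : (0 : ℝ) ≤ 1 / g := by positivity
    have hy1 : (1 : ℝ) / g ≤ 1 / 2 := one_div_le_one_div_of_le (by norm_num) hg2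
    calc ∑ v ∈ range i, (N.choose v : ℝ)
        ≤ ∑ v ∈ range i, (N.choose i : ℝ) * (1 / (g : ℝ)) ^ (i - v) := by
          refine sum_le_sum (fun v hv => ?_)
          rw [mem_range] at hv
          exact choose_geom (by omega) hgN hv.le
      _ = (N.choose i : ℝ) * ((1 / (g : ℝ)) * ∑ v ∈ range i, (1 / (g : ℝ)) ^ v) := by
          rw [← mul_sum, mul_sum _ _ (1 / (g : ℝ)), ← sum_range_reflect]
          congr 1
          refine sum_congr rfl (fun v hv => ?_)
          rw [mem_range] at hv
          rw [← pow_succ']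
          congr 1
          omega
      _ ≤ (N.choose i : ℝ) * ((1 / (g : ℝ)) * (1 / (1 - 1 / g))) := by
          gcongr
          exact geom_le hy0 (by linarith) _
      _ ≤ (N.choose i : ℝ) * ((1 / (g : ℝ)) * 2) := by
          gcongr
          rw [div_le_iff₀ (by linarith)]
          linarith
      _ = _ := by ring

theorem choose_le_aa (t k s i : ℕ) : (2 : ℝ) ^ (k * (s - i)) * (t + k * i).choose i ≤
    aa t k s i := by
  unfold aa
  push_cast
  refine mul_le_mul_of_nonneg_left ?_ (by positivity)
  exact single_le_sum (f := fun v => ((t + k * i).choose v : ℝ)) (fun _ _ => Nat.cast_nonneg _)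
    (mem_range.mpr (Nat.lt_succ_self i))

/-- a level of non-negligible density has a rich prefix, even after restricting the tails -/
theorem rich_exists {n k s i i1 g t : ℕ} (hk : 60 ≤ k) (hii : i < i1) (hi1 : i1 ≤ s)
    {F : Finset (Finset ℕ)} (hFn : F ⊆ (range n).powerset) (hn : n = k * s + t)
    (hg : 2 ≤ g) (hgi : g * i1 ≤ t)
    (hbig : (aa t k s i1 : ℝ) * (((k : ℝ) * (i1 - i) + k + 1) / g) <
      ((F.filter (fun D => (D ∩ Ico (k * (s - i1)) n).card ≤ i1)).card : ℝ)) :
    ∃ U' ⊆ range (k * (s - i1)), thr k (t + k * i) i1 <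
      ((powersetCard i1 (Ico (k * (s - i)) n)).filter (fun R => U' ∪ R ∈ F)).card := by
  by_contra hcon
  push Not at hcon
  have hks1 : k * (s - i1) + k * i1 = k * s := by rw [← Nat.mul_add, Nat.sub_add_cancel hi1]
  have hks : k * (s - i) + k * i = k * s := by
    rw [← Nat.mul_add, Nat.sub_add_cancel (by omega)]
  have hki : k * i1 = k * i + k * (i1 - i) := by
    rw [← Nat.mul_add]; congr 1; omega
  have hcount := count_split (m := k * (s - i1)) (y := k * (s - i)) (n := n) (i := i1)
    (by omega) (by omega) hFn (fun _ => thr k (t + k * i) i1) hcon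
  rw [sum_const, card_powerset, card_range, smul_eq_mul] at hcount
  have hN : n - k * (s - i1) = t + k * i1 := by omega
  rw [hN] at hcount
  have hym : k * (s - i) - k * (s - i1) = k * (i1 - i) := by omega
  rw [hym] at hcount
  set m := k * (s - i1) with hm
  set N := t + k * i1 with hNdef
  have hik : i1 ≤ k * i1 := Nat.le_mul_of_pos_left _ (by omega)
  have hgN : (g + 1) * i1 ≤ N := by
    have : (g + 1) * i1 = g * i1 + i1 := by ring
    omega
  obtain ⟨h1, h2⟩ := small_terms hg hgN
  have hg' : (0 : ℝ) < g := by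
    have : 0 < g := by omega
    exact_mod_cast this
  set b := (if i1 = 0 then 0 else (N - 1).choose (i1 - 1)) with hb
  have hthr : thr k (t + k * i) i1 ≤ (k - 1) * b := by
    rw [hb]
    unfold thr
    split_ifs with h
    · exact Nat.zero_le _
    · exact Nat.mul_le_mul_left _ (Nat.choose_le_choose _ (by omega))
  have h3 : ((F.filter (fun D => (D ∩ Ico m n).card ≤ i1)).card : ℝ) ≤
      2 ^ m * (((k : ℝ) - 1) * b) + 2 ^ m * ((k : ℝ) * (i1 - i) * b +
        ((∑ v ∈ range i1, N.choose v : ℕ) : ℝ)) := by
    have h4 : (F.filter (fun D => (D ∩ Ico m n).card ≤ i1)).card ≤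
        2 ^ m * ((k - 1) * b) + 2 ^ m * (k * (i1 - i) * b + ∑ v ∈ range i1, N.choose v) :=
      hcount.trans (Nat.add_le_add_right (Nat.mul_le_mul_left _ hthr) _)
    have h5 : ((F.filter (fun D => (D ∩ Ico m n).card ≤ i1)).card : ℝ) ≤
        ((2 ^ m * ((k - 1) * b) + 2 ^ m * (k * (i1 - i) * b + ∑ v ∈ range i1, N.choose v) : ℕ) :
          ℝ) := by exact_mod_cast h4
    refine h5.trans (le_of_eq ?_)
    push_cast [Nat.cast_sub (show 1 ≤ k by omega), Nat.cast_sub hii.le]
    ring
  have hk' : (60 : ℝ) ≤ k := by exact_mod_cast hk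
  have hii' : (0 : ℝ) ≤ (i1 : ℝ) - i := by
    have : (i : ℝ) ≤ i1 := by exact_mod_cast hii.le
    linarith
  have hc1 : 0 ≤ (k : ℝ) - 1 := by linarith
  have haa := choose_le_aa t k s i1
  rw [← hm, ← hNdef] at haa
  have h6 : ((F.filter (fun D => (D ∩ Ico m n).card ≤ i1)).card : ℝ) ≤
      (aa t k s i1 : ℝ) * (((k : ℝ) * (i1 - i) + k + 1) / g) := by
    calc _ ≤ _ := h3
      _ ≤ 2 ^ m * (((k : ℝ) - 1) * (N.choose i1 / g)) + 2 ^ m * ((k : ℝ) * (i1 - i) *
          (N.choose i1 / g) + N.choose i1 * (2 / g)) := by gcongr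
      _ = (2 ^ m * N.choose i1) * (((k : ℝ) * (i1 - i) + k + 1) / g) := by
          field_simp
          ring
      _ ≤ _ := mul_le_mul_of_nonneg_right haa (by positivity)
  linarith

/-- the level `i` is small when a higher level `i1` has a rich prefix -/
theorem pair_bound {n k s i i1 r g t : ℕ} (hk : 60 ≤ k) (hii : i < i1) (hi1 : i1 ≤ s)
    {F : Finset (Finset ℕ)}
    (hFn : F ⊆ (range n).powerset) (hFK : KU k (k * s) F) (hFD : Down F) (hFS : Shifted F)
    (hn : n = k * s + t) (hrk : r ≤ k) (hri : r ≤ i1 - i) (hit : i1 - i ≤ t)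
    (hg : 2 ≤ g) (hgi : g * i ≤ t)
    (hrich : ∃ U' ⊆ range (k * (s - i1)), thr k (t + k * i) i1 <
      ((powersetCard i1 (Ico (k * (s - i)) n)).filter (fun R => U' ∪ R ∈ F)).card) :
    ((F.filter (fun D => (D ∩ Ico (k * (s - i)) n).card ≤ i)).card : ℝ) ≤
      (aa t k s i : ℝ) * ((9 / 8) * (1 / 2) ^ r + ((k : ℝ) + 1) / g) := by
  classical
  obtain ⟨U', hU'm, hU'⟩ := hrich
  have hks : k * (s - i) + k * i = k * s := by
    rw [← Nat.mul_add, Nat.sub_add_cancel (by omega)]
  have hks1 : k * (s - i1) + k * i1 = k * s := by rw [← Nat.mul_add, Nat.sub_add_cancel hi1]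
  have hki : k * i1 = k * i + k * (i1 - i) := by
    rw [← Nat.mul_add]; congr 1; omega
  set m := k * (s - i) with hm
  set m1 := k * (s - i1) with hm1
  have hN : n - m = t + k * i := by omega
  set N := t + k * i with hNdef
  set Y := Ico m n with hY
  have hYc : Y.card = N := by rw [hY, Nat.card_Ico, hN]
  set S' := (powersetCard i1 Y).filter (fun R => U' ∪ R ∈ F) with hS'
  have hS'mem : ∀ R, R ∈ S' ↔ (R ⊆ Y ∧ R.card = i1) ∧ U' ∪ R ∈ F := by
    intro R; rw [hS', mem_filter, mem_powersetCard]
  set SU : Finset ℕ → Finset (Finset ℕ) := fun U =>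
    (powersetCard i Y).filter (fun R => U ∪ R ∈ F) with hSU
  have hSUmem : ∀ U R, R ∈ SU U ↔ (R ⊆ Y ∧ R.card = i) ∧ U ∪ R ∈ F := by
    intro U R
    simp only [hSU]
    rw [mem_filter, mem_powersetCard]
  have hSUdef : ∀ U, SU U = (powersetCard i Y).filter (fun R => U ∪ R ∈ F) := fun U => rfl
  clear_value SU
  set RI := (range m).powerset.filter (fun U => thr k N i < (SU U).card) with hRI
  have hRImem : ∀ U, U ∈ RI ↔ U ⊆ range m ∧ thr k N i < (SU U).card := by
    intro U; rw [hRI, mem_filter, mem_powerset]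
  -- shiftedness of the families of tails
  have hshift : ∀ (U : Finset ℕ), U ⊆ range m → ∀ A, A ⊆ Y → U ∪ A ∈ F →
      ∀ x ∈ Y, ∀ y, x < y → y ∈ A → x ∉ A → U ∪ insert x (A.erase y) ∈ F := by
    intro U hU A hAY hA x hx y hxy hyA hxA
    have hyf : y ∉ U := by
      intro h
      have h1 := mem_range.mp (hU h)
      rw [hY, mem_Ico] at hx
      omega
    have hxf : x ∉ U := by
      intro h
      have h1 := mem_range.mp (hU h)
      rw [hY, mem_Ico] at hx
      omega
    have h1 := hFS _ hA x y hxy (mem_union_right _ hyA) (by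
      rw [mem_union]; rintro (h | h)
      · exact hxf h
      · exact hxA h)
    have h2 : insert x ((U ∪ A).erase y) = U ∪ insert x (A.erase y) := by
      ext z
      simp only [mem_insert, mem_erase, mem_union]
      constructor
      · rintro (h | ⟨h, h' | h'⟩)
        · exact Or.inr (Or.inl h)
        · exact Or.inl h'
        · exact Or.inr (Or.inr ⟨h, h'⟩)
      · rintro (h | h | ⟨h, h'⟩)
        · exact Or.inr ⟨fun e => hyf (e ▸ h), Or.inl h⟩
        · exact Or.inl h
        · exact Or.inr ⟨h, Or.inr h'⟩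
    rwa [h2] at h1
  have hcards : ∀ (A : Finset ℕ) (x y : ℕ), y ∈ A → x ∉ A →
      (insert x (A.erase y)).card = A.card := by
    intro A x y hy hx
    rw [card_insert_of_notMem (by rw [mem_erase]; exact fun h => hx h.2), card_erase_of_mem hy]
    have : 0 < A.card := card_pos.mpr ⟨y, hy⟩
    omega
  have hsubs : ∀ (A : Finset ℕ) (x y : ℕ), x ∈ Y → A ⊆ Y → insert x (A.erase y) ⊆ Y := by
    intro A x y hx hA z hz
    rw [mem_insert, mem_erase] at hz
    rcases hz with rfl | hz
    · exact hx
    · exact hA hz.2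
  -- matching
  have hKU0 : ∀ f : Fin (k - 1) → Finset ℕ, (∀ a, f a ∈ RI) →
      (univ.biUnion f).card + (i1 - i) ≤ m := by
    intro f hf
    let u : Fin k → ℕ := fun a => i + (if (a : ℕ) = 0 then i1 - i else 0)
    let pr : Fin k → Finset ℕ := fun a =>
      if h : (a : ℕ) = 0 then U' else f ⟨(a : ℕ) - 1, by have := a.2; omega⟩
    have hpr : ∀ a, pr a ⊆ range m := by
      intro a
      simp only [pr]
      split_ifs with h
      · exact hU'm.trans (range_subset_range.mpr (by omega))
      · exact ((hRImem _).mp (hf _)).1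
    have husum : ∑ a, u a = k * i + (i1 - i) := by
      simp only [u]
      rw [sum_add_distrib, sum_const, card_univ, Fintype.card_fin, smul_eq_mul]
      congr 1
      rw [sum_eq_single (⟨0, by omega⟩ : Fin k)]
      · simp
      · intro a _ ha
        rw [if_neg]
        intro h
        exact ha (Fin.ext h)
      · intro h
        exact absurd (mem_univ _) h
    obtain ⟨R, hR, hpw⟩ := cross_matching (q := k) (by omega) N u (by rw [husum]; omega) Y hYc
      (fun a => (powersetCard (u a) Y).filter (fun R => pr a ∪ R ∈ F))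
      (fun a => filter_subset _ _)
      (fun a A hA x hx y hxy hyA hxA => by
        rw [mem_filter, mem_powersetCard] at hA ⊢
        exact ⟨⟨hsubs A x y hx hA.1.1, (hcards A x y hyA hxA).trans hA.1.2⟩,
          hshift _ (hpr a) A hA.1.1 hA.2 x hx y hxy hyA hxA⟩)
      (fun a => by
        simp only [u, pr]
        by_cases h : (a : ℕ) = 0
        · rw [if_pos h, dif_pos h, show i + (i1 - i) = i1 by omega]
          exact hU'
        · rw [if_neg h, dif_neg h, add_zero, ← hSUdef]
          exact ((hRImem _).mp (hf _)).2)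
    have hR' : ∀ a, (R a ⊆ Y ∧ (R a).card = u a) ∧ pr a ∪ R a ∈ F := by
      intro a
      have := hR a
      rw [mem_filter, mem_powersetCard] at this
      exact this
    have h1 := hFK (fun a => pr a ∪ R a) (fun a => (hR' a).2)
    have h2 : univ.biUnion f ∪ univ.biUnion R ⊆ univ.biUnion (fun a => pr a ∪ R a) := by
      intro x
      simp only [mem_biUnion, mem_univ, true_and, mem_union]
      rintro (⟨a, ha⟩ | ⟨a, ha⟩)
      · refine ⟨⟨(a : ℕ) + 1, by have := a.2; omega⟩, Or.inl ?_⟩
        simp only [pr]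
        rw [dif_neg (Nat.succ_ne_zero _)]
        simpa using ha
      · exact ⟨a, Or.inr ha⟩
    have h3 : (univ.biUnion R).card = k * i + (i1 - i) := by
      rw [card_biUnion (fun a _ b _ hab => hpw hab), sum_congr rfl (fun a _ => (hR' a).1.2),
        husum]
    have hW : univ.biUnion f ⊆ range m := by
      intro x hx
      rw [mem_biUnion] at hx
      obtain ⟨a, -, hx⟩ := hx
      exact ((hRImem (f a)).mp (hf a)).1 hx
    have hV : univ.biUnion R ⊆ Y := by
      intro x hx
      rw [mem_biUnion] at hx
      obtain ⟨a, -, hx⟩ := hx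
      exact (hR' a).1.1 hx
    have hd1 : Disjoint (univ.biUnion f) (univ.biUnion R) := by
      rw [disjoint_left]
      intro x hx hx'
      have h4 := mem_range.mp (hW hx)
      have h5 := hV hx'
      rw [hY, mem_Ico] at h5
      omega
    have h4 := card_le_card h2
    rw [card_union_of_disjoint hd1, h3] at h4
    omega
  have hRIbound : (RI.card : ℝ) ≤ 2 ^ m * ((9 / 8) * (1 / 2) ^ r) := by
    rcases RI.eq_empty_or_nonempty with he | ⟨U0, hU0⟩
    · rw [he]; simp only [card_empty, Nat.cast_zero]; positivity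
    have hrm : r ≤ m := by
      have := hKU0 (fun _ => U0) (fun _ => hU0)
      omega
    refine walk_density hk hrk hrm (filter_subset _ _) ?_ ?_ ?_
    · intro U hU V hV
      rw [hRImem] at hU ⊢
      refine ⟨hV.trans hU.1, lt_of_lt_of_le hU.2 (card_le_card ?_)⟩
      intro R hR
      rw [hSUmem] at hR ⊢
      exact ⟨hR.1, hFD _ hR.2 _ (union_subset_union_left hV)⟩
    · intro U hU x y hxy hyU hxU
      rw [hRImem] at hU ⊢
      have hym := mem_range.mp (hU.1 hyU)
      refine ⟨?_, lt_of_lt_of_le hU.2 (card_le_card ?_)⟩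
      · intro z hz
        rw [mem_insert, mem_erase] at hz
        rcases hz with rfl | hz
        · rw [mem_range]; omega
        · exact hU.1 hz.2
      · intro R hR
        rw [hSUmem] at hR ⊢
        refine ⟨hR.1, ?_⟩
        have hyR : y ∉ R := by
          intro h
          have := hR.1.1 h
          rw [hY, mem_Ico] at this
          omega
        have hxR : x ∉ R := by
          intro h
          have := hR.1.1 h
          rw [hY, mem_Ico] at this
          omega
        have h1 := hFS _ hR.2 x y hxy (mem_union_left _ hyU) (by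
          rw [mem_union]; rintro (h | h)
          · exact hxU h
          · exact hxR h)
        have h2 : insert x ((U ∪ R).erase y) = insert x (U.erase y) ∪ R := by
          ext z
          simp only [mem_insert, mem_erase, mem_union]
          constructor
          · rintro (h | ⟨h, h' | h'⟩)
            · exact Or.inl (Or.inl h)
            · exact Or.inl (Or.inr ⟨h, h'⟩)
            · exact Or.inr h'
          · rintro ((h | ⟨h, h'⟩) | h)
            · exact Or.inl h
            · exact Or.inr ⟨h, Or.inl h'⟩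
            · exact Or.inr ⟨fun e => hyR (e ▸ h), Or.inr h⟩
        rwa [h2] at h1
    · intro f hf
      have := hKU0 f hf
      omega
  -- counting
  have hcount := count_split (m := m) (y := m) (n := n) (i := i) le_rfl (by omega) hFn
    (fun U => (if U ∈ RI then N.choose i else 0) + thr k N i) (by
      intro U hU
      rw [← hY, ← hSUdef]
      by_cases h : U ∈ RI
      · simp only [if_pos h]
        have h3 : (SU U).card ≤ (powersetCard i Y).card := by
          rw [hSUdef]
          exact card_le_card (filter_subset _ _)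
        rw [card_powersetCard, hYc] at h3
        omega
      · simp only [if_neg h]
        have h3 : ¬ thr k N i < (SU U).card := fun hc => h ((hRImem U).mpr ⟨hU, hc⟩)
        omega)
  rw [sum_add_distrib, sum_const, card_powerset, card_range, smul_eq_mul, ← sum_filter,
    sum_const, smul_eq_mul, Nat.sub_self, zero_mul, zero_add, hN] at hcount
  have h3 : ((range m).powerset.filter (fun U => U ∈ RI)).card ≤ RI.card :=
    card_le_card (fun U hU => (mem_filter.mp hU).2)
  have h4 := Nat.mul_le_mul_right (N.choose i) h3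
  have hik : i ≤ k * i := Nat.le_mul_of_pos_left _ (by omega)
  have hgN : (g + 1) * i ≤ N := by
    have : (g + 1) * i = g * i + i := by ring
    omega
  obtain ⟨hs1, hs2⟩ := small_terms hg hgN
  have hg' : (0 : ℝ) < g := by
    have : 0 < g := by omega
    exact_mod_cast this
  set b := (if i = 0 then 0 else (N - 1).choose (i - 1)) with hb
  have hthr : thr k N i ≤ (k - 1) * b := by
    rw [hb]
    unfold thr
    split_ifs with h
    · exact Nat.zero_le _
    · exact le_rfl
  have h5 : (F.filter (fun D => (D ∩ Ico m n).card ≤ i)).card ≤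
      RI.card * N.choose i + 2 ^ m * ((k - 1) * b) + 2 ^ m * ∑ v ∈ range i, N.choose v := by
    have := Nat.mul_le_mul_left (2 ^ m) hthr
    omega
  have h6 : ((F.filter (fun D => (D ∩ Ico m n).card ≤ i)).card : ℝ) ≤
      RI.card * N.choose i + 2 ^ m * (((k : ℝ) - 1) * b) +
        2 ^ m * ((∑ v ∈ range i, N.choose v : ℕ) : ℝ) := by
    have h7 : ((F.filter (fun D => (D ∩ Ico m n).card ≤ i)).card : ℝ) ≤
      ((RI.card * N.choose i + 2 ^ m * ((k - 1) * b) + 2 ^ m * ∑ v ∈ range i, N.choose v : ℕ) :
        ℝ) := by exact_mod_cast h5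
    refine h7.trans (le_of_eq ?_)
    push_cast [Nat.cast_sub (show 1 ≤ k by omega)]
    ring
  have hk' : (60 : ℝ) ≤ k := by exact_mod_cast hk
  have hc1 : 0 ≤ (k : ℝ) - 1 := by linarith
  have haa := choose_le_aa t k s i
  rw [← hm, ← hNdef] at haa
  calc _ ≤ _ := h6
    _ ≤ (2 ^ m * ((9 / 8) * (1 / 2) ^ r)) * N.choose i +
        2 ^ m * (((k : ℝ) - 1) * (N.choose i / g)) + 2 ^ m * (N.choose i * (2 / g)) := by
        gcongr
    _ = (2 ^ m * N.choose i) * ((9 / 8) * (1 / 2) ^ r + ((k : ℝ) + 1) / g) := by
        field_simp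
        ring
    _ ≤ _ := mul_le_mul_of_nonneg_right haa (by positivity)

end Pool.Agent.H93.EF
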