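import Mathlib
import Pool.Agent.H93.EF.Pair

set_option autoImplicit false

open Finset

namespace Pool.Agent.H93.EF

theorem one_sub_pow_le {x : ℝ} (_hx0 : 0 ≤ x) (hx1 : x ≤ 1) (n : ℕ) :
    (1 - x) ^ n ≤ Real.exp (-(n * x)) := by
  calc (1 - x) ^ n ≤ (Real.exp (-x)) ^ n := by
        refine pow_le_pow_left₀ (by linarith) ?_ _
        have := Real.add_one_le_exp (-x)
        linarith
    _ = _ := by rw [← Real.exp_nat_mul]; congr 1; ring

theorem exp_neg_le_half (n : ℕ) : Real.exp (-(n : ℝ)) ≤ (1 / 2) ^ n := by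
  have h1 : Real.exp (-1) ≤ 1 / 2 := by
    rw [Real.exp_neg, one_div]
    refine inv_anti₀ (by norm_num) ?_
    have := Real.add_one_le_exp (1 : ℝ)
    linarith
  calc Real.exp (-(n : ℝ)) = (Real.exp (-1)) ^ n := by
        rw [← Real.exp_nat_mul]; congr 1; ring
    _ ≤ _ := pow_le_pow_left₀ (Real.exp_pos _).le h1 _

/-- levels far below the peak -/
theorem window_low {t k s m w v J : ℕ} {A : ℝ} (hk : 60 ≤ k) (hkm : k ≤ m)
    (htm : t ≤ m ^ 2 * 2 ^ k) (hm2 : m ^ 2 ≤ 2 ^ k) (hw1 : 2 ^ k * w ≤ t) (hvw : v ≤ w)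
    (hvs : v ≤ s) (hA : ∀ i ≤ s, (aa t k s i : ℝ) ≤ A) :
    ∑ i ∈ (range (J + 1)).filter (fun i => i + 2 * (k * m) < v), (aa t k s i : ℝ) ≤ A / 1000 := by
  set a : ℕ → ℝ := fun i => (aa t k s i : ℝ) with ha
  have ha0 : ∀ i, 0 ≤ a i := fun i => Nat.cast_nonneg _
  have hA0 : 0 ≤ A := (ha0 0).trans (hA 0 (Nat.zero_le _))
  have hk' : (60 : ℝ) ≤ k := by exact_mod_cast hk
  have hkm' : (k : ℝ) ≤ m := by exact_mod_cast hkm
  have hmpos : (0 : ℝ) < m := by linarith
  have htm' : (t : ℝ) ≤ m ^ 2 * 2 ^ k := by exact_mod_cast htm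
  have hw1' : (2 : ℝ) ^ k * w ≤ t := by exact_mod_cast hw1
  have h2k : (0 : ℝ) < 2 ^ k := by positivity
  have hwm : w ≤ 2 ^ k := by
    have h1 : 2 ^ k * w ≤ 2 ^ k * m ^ 2 := by
      calc 2 ^ k * w ≤ t := hw1
        _ ≤ m ^ 2 * 2 ^ k := htm
        _ = _ := by ring
    exact (Nat.le_of_mul_le_mul_left h1 (by positivity)).trans hm2
  set x : ℝ := (k : ℝ) / m with hx
  have hx0 : 0 ≤ x := by positivity
  have hx1 : x ≤ 1 := by rw [hx, div_le_one hmpos]; exact hkm'
  have hstep : ∀ i, i + 1 + k * m ≤ w → i < s → a i ≤ (1 - x) * a (i + 1) := by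
    intro i hi his
    have h3 : (t : ℝ) * a i ≤ ((i : ℝ) + 1) * 2 ^ k * a (i + 1) := aa_lower (by omega) his
    have h5 : ((i : ℝ) + 1 + k * m) ≤ w := by exact_mod_cast hi
    have hi0 : (0 : ℝ) ≤ (i : ℝ) := Nat.cast_nonneg _
    have hkmpos : (0 : ℝ) ≤ (k : ℝ) * m := by positivity
    have htpos : (0 : ℝ) < t := by
      refine lt_of_lt_of_le ?_ hw1'
      have : (0 : ℝ) < w := by linarith
      positivity
    have h6 : ((i : ℝ) + 1) * 2 ^ k ≤ t - k * m * 2 ^ k := by nlinarith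
    have h7 : (t : ℝ) - k * m * 2 ^ k ≤ t * (1 - x) := by
      have h8 : (t : ℝ) * x ≤ k * m * 2 ^ k := by
        rw [hx, mul_div_assoc', div_le_iff₀ hmpos]
        calc (t : ℝ) * k ≤ (m ^ 2 * 2 ^ k) * k := mul_le_mul_of_nonneg_right htm' (by linarith)
          _ = _ := by ring
      linarith
    have h8 : (t : ℝ) * a i ≤ t * ((1 - x) * a (i + 1)) := by
      calc (t : ℝ) * a i ≤ _ := h3
        _ ≤ (t * (1 - x)) * a (i + 1) := mul_le_mul_of_nonneg_right (h6.trans h7) (ha0 _)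
        _ = _ := by ring
    exact le_of_mul_le_mul_left h8 htpos
  have hchain : ∀ i, i + 2 * (k * m) < v → ∀ n, n ≤ k * m → a i ≤ (1 - x) ^ n * a (i + n) := by
    intro i hi n
    induction n with
    | zero => intro _; simp
    | succ n ih =>
      intro hn
      have h1 := ih (by omega)
      have h2 := hstep (i + n) (by omega) (by omega)
      calc a i ≤ (1 - x) ^ n * a (i + n) := h1
        _ ≤ (1 - x) ^ n * ((1 - x) * a (i + n + 1)) :=
          mul_le_mul_of_nonneg_left h2 (pow_nonneg (by linarith) _)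
        _ = _ := by rw [pow_succ, ← add_assoc]; ring
  have hsmall : (1 - x) ^ (k * m) ≤ (1 / 2 : ℝ) ^ (2 * k) := by
    refine (one_sub_pow_le hx0 hx1 _).trans ?_
    have e1 : (((k * m : ℕ) : ℝ) * x) = (k : ℝ) * k := by
      rw [hx]; push_cast; field_simp
    rw [e1]
    refine le_trans ?_ (exp_neg_le_half (2 * k))
    refine Real.exp_le_exp.mpr ?_
    push_cast
    nlinarith
  have hpt : ∀ i ∈ (range (J + 1)).filter (fun i => i + 2 * (k * m) < v),
      a i ≤ (1 / 2 : ℝ) ^ (2 * k) * A := by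
    intro i hi
    have hi' := (mem_filter.mp hi).2
    have h1 := hchain i hi' (k * m) le_rfl
    refine h1.trans (mul_le_mul hsmall (hA _ (by omega)) (ha0 _) (by positivity))
  have hcard : ((range (J + 1)).filter (fun i => i + 2 * (k * m) < v)).card ≤ 2 ^ k := by
    have h1 : (range (J + 1)).filter (fun i => i + 2 * (k * m) < v) ⊆ range w := by
      intro i hi
      have := (mem_filter.mp hi).2
      rw [mem_range]; omega
    have h2 := card_le_card h1
    rw [card_range] at h2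
    exact h2.trans hwm
  have hcard' : (((range (J + 1)).filter (fun i => i + 2 * (k * m) < v)).card : ℝ) ≤ 2 ^ k := by
    exact_mod_cast hcard
  calc _ ≤ ∑ i ∈ (range (J + 1)).filter (fun i => i + 2 * (k * m) < v),
        (1 / 2 : ℝ) ^ (2 * k) * A := sum_le_sum hpt
    _ = (((range (J + 1)).filter (fun i => i + 2 * (k * m) < v)).card : ℝ) *
        ((1 / 2 : ℝ) ^ (2 * k) * A) := by rw [sum_const, nsmul_eq_mul]
    _ ≤ 2 ^ k * ((1 / 2 : ℝ) ^ (2 * k) * A) :=
        mul_le_mul_of_nonneg_right hcard' (by positivity)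
    _ = (1 / 2 : ℝ) ^ k * A := by
        have e1 : (2 : ℝ) ^ k * (1 / 2) ^ k = 1 := by rw [← mul_pow]; norm_num
        have e2 : (1 / 2 : ℝ) ^ (2 * k) = (1 / 2) ^ k * (1 / 2) ^ k := by
          rw [← pow_add]; congr 1; ring
        rw [e2]
        linear_combination ((1 / 2 : ℝ) ^ k * A) * e1
    _ ≤ (1 / 1000) * A := by
        refine mul_le_mul_of_nonneg_right ?_ hA0
        calc (1 / 2 : ℝ) ^ k ≤ (1 / 2) ^ 60 :=
              pow_le_pow_of_le_one (by norm_num) (by norm_num) hk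
          _ ≤ 1 / 1000 := by norm_num
    _ = _ := by ring

/-- levels far above the peak -/
theorem window_high {t k s m w J : ℕ} {A : ℝ} (hk : 60 ≤ k) (hkm : k ≤ m)
    (htm : t ≤ m ^ 2 * 2 ^ k) (hm2 : m ^ 2 ≤ 2 ^ k) (hw1 : 2 ^ k * w ≤ t)
    (hw2 : t < 2 ^ k * (w + 1)) (hJs : J ≤ s) (hJw : J ≤ 3 * w + 7)
    (hA : ∀ i ≤ s, (aa t k s i : ℝ) ≤ A) :
    ∑ i ∈ (range (J + 1)).filter (fun i => w + 2 * (k * m) < i), (aa t k s i : ℝ) ≤
      A / 1000 := by
  set a : ℕ → ℝ := fun i => (aa t k s i : ℝ) with ha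
  have ha0 : ∀ i, 0 ≤ a i := fun i => Nat.cast_nonneg _
  have hA0 : 0 ≤ A := (ha0 0).trans (hA 0 (Nat.zero_le _))
  have hk' : (60 : ℝ) ≤ k := by exact_mod_cast hk
  have hkm' : (k : ℝ) ≤ m := by exact_mod_cast hkm
  have hmpos : (0 : ℝ) < m := by linarith
  have htm' : (t : ℝ) ≤ m ^ 2 * 2 ^ k := by exact_mod_cast htm
  have hm2' : (m : ℝ) ^ 2 ≤ 2 ^ k := by exact_mod_cast hm2
  have hw2' : (t : ℝ) < 2 ^ k * (w + 1) := by exact_mod_cast hw2
  have h2k : (0 : ℝ) < 2 ^ k := by positivity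
  have hwm : w ≤ 2 ^ k := by
    have h1 : 2 ^ k * w ≤ 2 ^ k * m ^ 2 := by
      calc 2 ^ k * w ≤ t := hw1
        _ ≤ m ^ 2 * 2 ^ k := htm
        _ = _ := by ring
    exact (Nat.le_of_mul_le_mul_left h1 (by positivity)).trans hm2
  set x : ℝ := (k : ℝ) / (3 * m) with hx
  have hx0 : 0 ≤ x := by positivity
  have hx1 : x ≤ 1 := by rw [hx, div_le_one (by positivity)]; linarith
  have hstep : ∀ i, w + k * m ≤ i → i < s → a (i + 1) ≤ (1 - x) * a i := by
    intro i hi his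
    have h3 : ((i : ℝ) + 1) * 2 ^ k * a (i + 1) ≤
        ((t : ℝ) + 10 * k * ((i : ℝ) + 1)) * a i := aa_upper hk his
    have hi' : (w : ℝ) + k * m ≤ i := by exact_mod_cast hi
    set Q : ℝ := ((i : ℝ) + 1) * 2 ^ k with hQ
    have hi0 : (0 : ℝ) ≤ (i : ℝ) := Nat.cast_nonneg _
    have hQpos : 0 < Q := by positivity
    have h4 : (t : ℝ) + k * m * 2 ^ k ≤ Q := by
      rw [hQ]; nlinarith
    have h5 : (t : ℝ) * (m + k) ≤ Q * m := by
      have h6 : (t : ℝ) * k ≤ m ^ 2 * 2 ^ k * k := mul_le_mul_of_nonneg_right htm' (by linarith)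
      nlinarith
    have h6 : (t : ℝ) ≤ Q * (1 - k / (2 * m)) := by
      have h7 : Q * (1 - k / (2 * m)) = Q * (2 * m - k) / (2 * m) := by field_simp
      rw [h7, le_div_iff₀ (by positivity)]
      have h8 : (t : ℝ) ≤ Q := by
        have : (0 : ℝ) ≤ k * m * 2 ^ k := by positivity
        linarith
      -- t * 2m ≤ Q (2m - k): use t (m + k) ≤ Q m and (2m-k)(m+k) ≥ 2m^2
      have h9 : 2 * (m : ℝ) * m ≤ (2 * m - k) * (m + k) := by nlinarith
      have h10 : ((t : ℝ) * (2 * m)) * (m + k) ≤ (Q * (2 * m - k)) * (m + k) := by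
        calc ((t : ℝ) * (2 * m)) * (m + k) = (t * (m + k)) * (2 * m) := by ring
          _ ≤ (Q * m) * (2 * m) := mul_le_mul_of_nonneg_right h5 (by positivity)
          _ = Q * (2 * m * m) := by ring
          _ ≤ Q * ((2 * m - k) * (m + k)) := mul_le_mul_of_nonneg_left h9 hQpos.le
          _ = _ := by ring
      exact le_of_mul_le_mul_right h10 (by positivity)
    have h7 : 10 * (k : ℝ) * ((i : ℝ) + 1) ≤ Q * (k / (6 * m)) := by
      have h8 : Q * (k / (6 * m)) = Q * k / (6 * m) := by ring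
      rw [h8, le_div_iff₀ (by positivity), hQ]
      have h9 : 60 * (m : ℝ) ≤ 2 ^ k := by nlinarith
      have h10 : (0 : ℝ) ≤ k * ((i : ℝ) + 1) := by positivity
      nlinarith
    have h8 : (t : ℝ) + 10 * k * ((i : ℝ) + 1) ≤ Q * (1 - x) := by
      have e1 : 1 - x = (1 - (k : ℝ) / (2 * m)) + k / (6 * m) := by
        rw [hx]; field_simp; ring
      rw [e1, mul_add]
      linarith
    have h9 : Q * a (i + 1) ≤ Q * ((1 - x) * a i) := by
      calc Q * a (i + 1) ≤ _ := h3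
        _ ≤ (Q * (1 - x)) * a i := mul_le_mul_of_nonneg_right h8 (ha0 _)
        _ = _ := by ring
    exact le_of_mul_le_mul_left h9 hQpos
  have hchain : ∀ i, w + 2 * (k * m) < i → i ≤ s → ∀ n, n ≤ k * m →
      a i ≤ (1 - x) ^ n * a (i - n) := by
    intro i hi his n
    induction n with
    | zero => intro _; simp
    | succ n ih =>
      intro hn
      have h1 := ih (by omega)
      have h2 := hstep (i - (n + 1)) (by omega) (by omega)
      have e1 : i - (n + 1) + 1 = i - n := by omega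
      rw [e1] at h2
      calc a i ≤ (1 - x) ^ n * a (i - n) := h1
        _ ≤ (1 - x) ^ n * ((1 - x) * a (i - (n + 1))) :=
          mul_le_mul_of_nonneg_left h2 (pow_nonneg (by linarith) _)
        _ = _ := by rw [pow_succ]; ring
  have hsmall : (1 - x) ^ (k * m) ≤ (1 / 2 : ℝ) ^ (4 * k) := by
    refine (one_sub_pow_le hx0 hx1 _).trans ?_
    have e1 : (((k * m : ℕ) : ℝ) * x) = (k : ℝ) * k / 3 := by
      rw [hx]; push_cast; field_simp
    rw [e1]
    refine le_trans ?_ (exp_neg_le_half (4 * k))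
    refine Real.exp_le_exp.mpr ?_
    push_cast
    nlinarith
  have hpt : ∀ i ∈ (range (J + 1)).filter (fun i => w + 2 * (k * m) < i),
      a i ≤ (1 / 2 : ℝ) ^ (4 * k) * A := by
    intro i hi
    rw [mem_filter, mem_range] at hi
    have h1 := hchain i hi.2 (by omega) (k * m) le_rfl
    refine h1.trans (mul_le_mul hsmall (hA _ (by omega)) (ha0 _) (by positivity))
  have hcard : ((range (J + 1)).filter (fun i => w + 2 * (k * m) < i)).card ≤ 4 * 2 ^ k := by
    have h2 := card_filter_le (range (J + 1)) (fun i => w + 2 * (k * m) < i)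
    rw [card_range] at h2
    have h3 : 8 ≤ 2 ^ k := by
      calc 8 = 2 ^ 3 := by norm_num
        _ ≤ 2 ^ k := Nat.pow_le_pow_right (by norm_num) (by omega)
    omega
  have hcard' : (((range (J + 1)).filter (fun i => w + 2 * (k * m) < i)).card : ℝ) ≤
      4 * 2 ^ k := by exact_mod_cast hcard
  calc _ ≤ ∑ i ∈ (range (J + 1)).filter (fun i => w + 2 * (k * m) < i),
        (1 / 2 : ℝ) ^ (4 * k) * A := sum_le_sum hpt
    _ = (((range (J + 1)).filter (fun i => w + 2 * (k * m) < i)).card : ℝ) *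
        ((1 / 2 : ℝ) ^ (4 * k) * A) := by rw [sum_const, nsmul_eq_mul]
    _ ≤ (4 * 2 ^ k) * ((1 / 2 : ℝ) ^ (4 * k) * A) :=
        mul_le_mul_of_nonneg_right hcard' (by positivity)
    _ = 4 * (1 / 2 : ℝ) ^ (3 * k) * A := by
        have e1 : (2 : ℝ) ^ k * (1 / 2) ^ k = 1 := by rw [← mul_pow]; norm_num
        have e2 : (1 / 2 : ℝ) ^ (4 * k) = (1 / 2) ^ k * (1 / 2) ^ (3 * k) := by
          rw [← pow_add]; congr 1; ring
        rw [e2]
        linear_combination (4 * (1 / 2 : ℝ) ^ (3 * k) * A) * e1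
    _ ≤ (1 / 1000) * A := by
        refine mul_le_mul_of_nonneg_right ?_ hA0
        have : (1 / 2 : ℝ) ^ (3 * k) ≤ (1 / 2) ^ 60 :=
          pow_le_pow_of_le_one (by norm_num) (by norm_num) (by omega)
        norm_num at this ⊢
        linarith
    _ = _ := by ring

end Pool.Agent.H93.EF
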