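import Mathlib
import Pool.Agent.H93.EF.Exp4

set_option autoImplicit false

open Finset

namespace Pool.Agent.H93.EF

theorem c_small' : ∀ c : ℕ, 16 ≤ c → c * 2048 ≤ 2 ^ c := by
  intro c hc
  induction c, hc using Nat.le_induction with
  | base => norm_num
  | succ c hc ih =>
    have h : 2 ^ (c + 1) = 2 * 2 ^ c := by ring
    rw [h]
    linarith

theorem k4_small : ∀ k : ℕ, 60 ≤ k → (k : ℝ) ^ 4 * 2 ^ 36 ≤ 2 ^ k := by
  intro k hk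
  induction k, hk using Nat.le_induction with
  | base => norm_num
  | succ k hk ih =>
    have hk' : (60 : ℝ) ≤ k := by exact_mod_cast hk
    have h1 : ((k + 1 : ℕ) : ℝ) ≤ 61 / 60 * k := by push_cast; linarith
    have h2 : ((k + 1 : ℕ) : ℝ) ^ 4 ≤ (61 / 60 * k) ^ 4 :=
      pow_le_pow_left₀ (Nat.cast_nonneg _) h1 4
    have h3 : (61 / 60 * (k : ℝ)) ^ 4 ≤ 2 * (k : ℝ) ^ 4 := by
      rw [mul_pow]
      have : (0 : ℝ) ≤ (k : ℝ) ^ 4 := by positivity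
      have h4 : (61 / 60 : ℝ) ^ 4 ≤ 2 := by norm_num
      exact mul_le_mul_of_nonneg_right h4 this
    have e1 : (2 : ℝ) ^ (k + 1) = 2 * 2 ^ k := by rw [pow_succ]; ring
    rw [e1]
    calc ((k + 1 : ℕ) : ℝ) ^ 4 * 2 ^ 36 ≤ (2 * (k : ℝ) ^ 4) * 2 ^ 36 :=
          mul_le_mul_of_nonneg_right (h2.trans h3) (by positivity)
      _ = 2 * ((k : ℝ) ^ 4 * 2 ^ 36) := by ring
      _ ≤ _ := by linarith

/-- numerical inequality -/
theorem numeric2 {k R0 : ℕ} (hk : 60 ≤ k) (hR1 : 4 * R0 ≤ k) (hR2 : k ≤ 4 * R0 + 3)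
    {M G W : ℝ} (hKM : (k : ℝ) + 1 ≤ M) (hX : ((k : ℝ) * M) ^ 2 ≤ 1728 / 100000 * G)
    (hG : 32 * G = 2 ^ k) (hW : W ≤ M ^ 2) :
    ((4 * (k : ℝ) ^ 2 * M + k + 1) / G + (9 / 8) * (1 / 2) ^ k + ((k : ℝ) + 1) / G) *
        (5 * (M + 1)) +
      (9 / 16 + ((k : ℝ) + (3 * W + 7) + (R0 + 1)) / G) +
      (11 / 10) * 2 ^ R0 * ((2 * (3 / 4) ^ k) * (1 / (1 - 2 * (3 / 4) ^ k))) +
      k * ((9 / 8) * (1 / 2) ^ (R0 + 1) + ((k : ℝ) + (3 * W + 7) + (R0 + 1)) / G) +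
      1 / 100 + 2 / 1000 ≤ 1 := by
  have hk' : (60 : ℝ) ≤ k := by exact_mod_cast hk
  have hG0 : 0 < G := by
    have : (0 : ℝ) < 2 ^ k := by positivity
    linarith
  have hM61 : 61 ≤ M := by linarith
  have hM0 : 0 < M := by linarith
  have hKM0 : 3660 ≤ (k : ℝ) * M := by nlinarith
  have hXle : (k : ℝ) * M ≤ 1728 / 100000 * G / 3660 := by
    rw [le_div_iff₀ (by norm_num)]
    nlinarith
  have hK2M : (k : ℝ) ^ 2 * M ≤ 1728 / 100000 * G / 61 := by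
    rw [le_div_iff₀ (by norm_num)]
    have : (k : ℝ) ^ 2 * M * 61 ≤ (k : ℝ) ^ 2 * M * M :=
      mul_le_mul_of_nonneg_left hM61 (by positivity)
    calc (k : ℝ) ^ 2 * M * 61 ≤ (k : ℝ) ^ 2 * M * M := this
      _ = ((k : ℝ) * M) ^ 2 := by ring
      _ ≤ _ := hX
  have hKM2 : (k : ℝ) * M ^ 2 ≤ 1728 / 100000 * G / 60 := by
    rw [le_div_iff₀ (by norm_num)]
    have : (k : ℝ) * M ^ 2 * 60 ≤ (k : ℝ) * M ^ 2 * k :=
      mul_le_mul_of_nonneg_left hk' (by positivity)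
    calc (k : ℝ) * M ^ 2 * 60 ≤ (k : ℝ) * M ^ 2 * k := this
      _ = ((k : ℝ) * M) ^ 2 := by ring
      _ ≤ _ := hX
  have hM2 : M ^ 2 ≤ 1728 / 100000 * G / 3600 := by
    rw [le_div_iff₀ (by norm_num)]
    have : 60 * M ^ 2 ≤ (k : ℝ) * M ^ 2 := mul_le_mul_of_nonneg_right hk' (by positivity)
    linarith
  have hMG : M ≤ 1728 / 100000 * G / 3600 / 61 := by
    rw [le_div_iff₀ (by norm_num)]
    nlinarith
  -- T1
  have h1 : ((4 * (k : ℝ) ^ 2 * M + k + 1) / G + ((k : ℝ) + 1) / G) * (5 * (M + 1)) ≤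
      36 / 100 := by
    rw [← add_div, div_mul_eq_mul_div, div_le_iff₀ hG0]
    have e1 : (4 * (k : ℝ) ^ 2 * M + k + 1 + (k + 1)) * (5 * (M + 1)) =
        20 * ((k : ℝ) * M) ^ 2 + 20 * ((k : ℝ) ^ 2 * M) + 10 * ((k : ℝ) * M) + 10 * k + 10 * M
          + 10 := by ring
    rw [e1]
    have h2 : (k : ℝ) ≤ (k : ℝ) * M := le_mul_of_one_le_right (by linarith) (by linarith)
    have h3 : M ≤ (k : ℝ) * M := le_mul_of_one_le_left hM0.le (by linarith)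
    linarith
  have h2 : (9 / 8 : ℝ) * (1 / 2) ^ k * (5 * (M + 1)) ≤ 1 / 1000 := by
    have e1 : ((1 : ℝ) / 2) ^ k = 1 / (32 * G) := by
      rw [hG, one_div, inv_pow, one_div]
    rw [e1]
    have e2 : 9 / 8 * (1 / (32 * G)) * (5 * (M + 1)) = (45 * (M + 1)) / (256 * G) := by
      field_simp
      ring
    rw [e2, div_le_iff₀ (by positivity)]
    linarith
  -- ε
  have hR0 : (R0 : ℝ) ≤ k / 4 := by
    have : (4 : ℝ) * R0 ≤ k := by exact_mod_cast hR1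
    linarith
  set ε : ℝ := ((k : ℝ) + (3 * W + 7) + (R0 + 1)) / G with hε
  have h3 : ε ≤ 1 / 1000 := by
    rw [hε, div_le_iff₀ hG0]
    have : (k : ℝ) ≤ M := by linarith
    linarith
  have h4 : (k : ℝ) * ε ≤ 1 / 1000 := by
    rw [hε, mul_div_assoc', div_le_iff₀ hG0]
    have e1 : (k : ℝ) * (k + (3 * W + 7) + (R0 + 1)) =
        (k : ℝ) * k + 3 * ((k : ℝ) * W) + 8 * k + k * R0 := by ring
    rw [e1]
    have h5 : (k : ℝ) * W ≤ k * M ^ 2 := mul_le_mul_of_nonneg_left hW (by linarith)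
    have h6 : (k : ℝ) * R0 ≤ k * (k / 4) := mul_le_mul_of_nonneg_left hR0 (by linarith)
    have h7 : (k : ℝ) * k ≤ k * M := mul_le_mul_of_nonneg_left (by linarith) (by linarith)
    have h8 : (k : ℝ) ≤ (k : ℝ) * M := le_mul_of_one_le_right (by linarith) (by linarith)
    nlinarith
  -- T3
  have hq : (2 : ℝ) * (3 / 4) ^ k ≤ 1 / 1000 := by
    have : ((3 : ℝ) / 4) ^ k ≤ (3 / 4) ^ 60 :=
      pow_le_pow_of_le_one (by norm_num) (by norm_num) (by omega)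
    have h3 : (2 : ℝ) * (3 / 4) ^ 60 ≤ 1 / 1000 := by norm_num
    linarith
  have hq0 : (0 : ℝ) < 2 * (3 / 4) ^ k := by positivity
  have h5 : (11 / 10) * 2 ^ R0 * ((2 * (3 / 4) ^ k) * (1 / (1 - 2 * (3 / 4) ^ k))) ≤
      (3 / 1000 : ℝ) := by
    have h5 : (3 / 4 : ℝ) ^ k ≤ (81 / 256) ^ R0 := by
      calc (3 / 4 : ℝ) ^ k ≤ (3 / 4) ^ (4 * R0) :=
            pow_le_pow_of_le_one (by norm_num) (by norm_num) hR1
        _ = _ := by rw [pow_mul]; norm_num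
    have h6 : (2 : ℝ) ^ R0 * (81 / 256) ^ R0 ≤ (81 / 128) ^ 15 := by
      rw [← mul_pow, show (2 * (81 / 256) : ℝ) = 81 / 128 by norm_num]
      exact pow_le_pow_of_le_one (by norm_num) (by norm_num) (by omega)
    have h7 : 1 / (1 - 2 * (3 / 4 : ℝ) ^ k) ≤ 1000 / 999 := by
      rw [div_le_div_iff₀ (by linarith) (by norm_num)]
      linarith
    have h8 : (0 : ℝ) ≤ 1 / (1 - 2 * (3 / 4) ^ k) := one_div_nonneg.mpr (by linarith)
    calc (11 / 10) * 2 ^ R0 * ((2 * (3 / 4) ^ k) * (1 / (1 - 2 * (3 / 4) ^ k)))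
        ≤ (11 / 10) * 2 ^ R0 * ((2 * (81 / 256) ^ R0) * (1000 / 999)) := by
          gcongr
      _ = (11 / 10) * 2 * (1000 / 999) * ((2 : ℝ) ^ R0 * (81 / 256) ^ R0) := by ring
      _ ≤ (11 / 10) * 2 * (1000 / 999) * (81 / 128) ^ 15 := by gcongr
      _ ≤ 3 / 1000 := by norm_num
  -- T4
  have h6 : (k : ℝ) * ((9 / 8) * (1 / 2) ^ (R0 + 1)) ≤ 3 / 1000 := by
    have h7 := c_small' (R0 + 1) (by omega)
    have h8 : ((R0 + 1 : ℕ) : ℝ) * 2048 ≤ 2 ^ (R0 + 1) := by exact_mod_cast h7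
    have h9 : (k : ℝ) ≤ 4 * ((R0 + 1 : ℕ) : ℝ) := by
      have : k ≤ 4 * (R0 + 1) := by omega
      exact_mod_cast this
    have e1 : ((1 : ℝ) / 2) ^ (R0 + 1) = 1 / 2 ^ (R0 + 1) := by
      rw [one_div, inv_pow, one_div]
    rw [e1]
    have e2 : (k : ℝ) * (9 / 8 * (1 / 2 ^ (R0 + 1))) = (9 * k) / (8 * 2 ^ (R0 + 1)) := by
      field_simp
    rw [e2, div_le_iff₀ (by positivity)]
    linarith
  have e1 : ((4 * (k : ℝ) ^ 2 * M + k + 1) / G + (9 / 8) * (1 / 2) ^ k + ((k : ℝ) + 1) / G) *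
      (5 * (M + 1)) = ((4 * (k : ℝ) ^ 2 * M + k + 1) / G + ((k : ℝ) + 1) / G) * (5 * (M + 1)) +
      (9 / 8 : ℝ) * (1 / 2) ^ k * (5 * (M + 1)) := by ring
  have e2 : (k : ℝ) * ((9 / 8) * (1 / 2) ^ (R0 + 1) + ε) =
      (k : ℝ) * ((9 / 8) * (1 / 2) ^ (R0 + 1)) + k * ε := by ring
  rw [e1, e2]
  linarith

end Pool.Agent.H93.EF
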