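import Mathlib
import Pool.Agent.H93.EF.Exp5

set_option autoImplicit false

open Finset

namespace Pool.Agent.H93.EF

/-- choice of the window parameter -/
theorem window_param {t k : ℕ} (hk : 60 ≤ k) (ht : 2 ^ 11 * k ^ 2 * t ≤ 4 ^ k) :
    ∃ m : ℕ, k + 1 ≤ m ∧ t ≤ m ^ 2 * 2 ^ k ∧ t / 2 ^ k ≤ m ^ 2 ∧
      ((k : ℝ) * m) ^ 2 ≤ 54 / 100000 * 2 ^ k := by
  set w := t / 2 ^ k with hw
  have hw1 : 2 ^ k * w ≤ t := Nat.mul_div_le _ _
  have hw2 : t < 2 ^ k * (w + 1) := Nat.lt_mul_div_succ _ (by positivity)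
  set z := Nat.sqrt w with hz
  have hz1 : z * z ≤ w := Nat.sqrt_le w
  have hz2 : w < (z + 1) * (z + 1) := Nat.lt_succ_sqrt w
  have hm2 : (z + 1) * (z + 1) ≤ (z + k + 1) ^ 2 := by
    rw [pow_two]
    exact Nat.mul_le_mul (by omega) (by omega)
  refine ⟨z + k + 1, by omega, ?_, by omega, ?_⟩
  · calc t ≤ 2 ^ k * (w + 1) := hw2.le
      _ ≤ 2 ^ k * (z + k + 1) ^ 2 := Nat.mul_le_mul_left _ (by omega)
      _ = _ := by ring
  · have hk' : (60 : ℝ) ≤ k := by exact_mod_cast hk
    have h1 : 2048 * ((k : ℝ) * z) ^ 2 ≤ 2 ^ k := by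
      have h2 : 2 ^ k * (2048 * (k * z) ^ 2) ≤ 2 ^ k * 2 ^ k := by
        calc 2 ^ k * (2048 * (k * z) ^ 2) = 2 ^ 11 * k ^ 2 * (2 ^ k * (z * z)) := by ring
          _ ≤ 2 ^ 11 * k ^ 2 * (2 ^ k * w) := by gcongr
          _ ≤ 2 ^ 11 * k ^ 2 * t := Nat.mul_le_mul_left _ hw1
          _ ≤ 4 ^ k := ht
          _ = 2 ^ k * 2 ^ k := by rw [← mul_pow]; norm_num
      have h3 : 2048 * (k * z) ^ 2 ≤ 2 ^ k := Nat.le_of_mul_le_mul_left h2 (by positivity)
      exact_mod_cast h3
    have h2 := k4_small k hk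
    have h3 : ((k : ℝ) * (k + 1)) ^ 2 ≤ 11 / 10 * (k : ℝ) ^ 4 := by
      have h4 : (k : ℝ) + 1 ≤ 61 / 60 * k := by linarith
      have h5 : ((k : ℝ) + 1) ^ 2 ≤ (61 / 60 * k) ^ 2 := pow_le_pow_left₀ (by linarith) h4 2
      have h6 : (0 : ℝ) ≤ (k : ℝ) ^ 2 := by positivity
      calc ((k : ℝ) * (k + 1)) ^ 2 = (k : ℝ) ^ 2 * ((k : ℝ) + 1) ^ 2 := by ring
        _ ≤ (k : ℝ) ^ 2 * (61 / 60 * k) ^ 2 := mul_le_mul_of_nonneg_left h5 h6
        _ = (61 / 60) ^ 2 * (k : ℝ) ^ 4 := by ring
        _ ≤ 11 / 10 * (k : ℝ) ^ 4 := by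
            refine mul_le_mul_of_nonneg_right (by norm_num) (by positivity)
    have h4 : ((k : ℝ) * ((z + k + 1 : ℕ) : ℝ)) ^ 2 ≤
        11 / 10 * ((k : ℝ) * z) ^ 2 + 11 * ((k : ℝ) * (k + 1)) ^ 2 := by
      push_cast
      have : 0 ≤ ((k : ℝ) * z - 10 * ((k : ℝ) * (k + 1))) ^ 2 := sq_nonneg _
      nlinarith
    refine h4.trans ?_
    have h5 : ((k : ℝ) * z) ^ 2 ≤ 2 ^ k / 2048 := by
      rw [le_div_iff₀ (by norm_num)]; linarith
    have h6 : (k : ℝ) ^ 4 ≤ 2 ^ k / 2 ^ 36 := by
      rw [le_div_iff₀ (by positivity)]; exact h2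
    have h7 : ((k : ℝ) * (k + 1)) ^ 2 ≤ 11 / 10 * (2 ^ k / 2 ^ 36) := by linarith
    have h8 : (0 : ℝ) < 2 ^ k := by positivity
    calc 11 / 10 * ((k : ℝ) * z) ^ 2 + 11 * ((k : ℝ) * (k + 1)) ^ 2
        ≤ 11 / 10 * (2 ^ k / 2048) + 11 * (11 / 10 * (2 ^ k / 2 ^ 36)) := by linarith
      _ = (11 / 20480 + 121 / 10 / 2 ^ 36) * 2 ^ k := by ring
      _ ≤ 54 / 100000 * 2 ^ k := mul_le_mul_of_nonneg_right (by norm_num) h8.le

/-- The main upper bound in the exponential range. -/
theorem p_exp2 {t k s : ℕ} (hk : 60 ≤ k) (ht : 2 ^ 11 * k ^ 2 * t ≤ 4 ^ k) :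
    p (k * s + t) k (k * s) ≤ conj (k * s + t) k (k * s) := by
  classical
  obtain ⟨m, hkm1, htm, hwm, hX⟩ := window_param hk ht
  set n := k * s + t with hn
  obtain ⟨F, hFn, hFK, hFc, hFD, hFS, -⟩ := exists_opt n k (k * s)
  rw [← hFc]
  by_cases hne : F.Nonempty
  swap
  · rw [not_nonempty_iff_eq_empty] at hne
    rw [hne]; simp
  obtain ⟨D0, hD0⟩ := hne
  have h0 : ∅ ∈ F := hFD D0 hD0 ∅ (empty_subset _)
  set A := conj n k (k * s) with hA
  have haA : ∀ i ≤ s, aa t k s i ≤ A := by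
    intro i hi
    have h1 := le_conj (n := n) (d := k * s) (i := i) (by omega) (Nat.mul_le_mul_left _ hi)
    have e1 : k * s - k * i = k * (s - i) := (Nat.mul_sub _ _ _).symm
    have e2 : n - k * s + k * i = t + k * i := by omega
    rw [e1, e2] at h1
    exact h1
  have hks : ∀ i ≤ s, k * (s - i) + k * i = k * s := fun i hi => by
    rw [← Nat.mul_add, Nat.sub_add_cancel hi]
  -- trivial bound at each level
  have hfi : ∀ i ≤ s, (F.filter (fun D => (D ∩ Ico (k * (s - i)) n).card ≤ i)).card ≤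
      aa t k s i := by
    intro i hi
    have h1 := card_tail_le n (k * (s - i)) i
    have e1 : n - k * (s - i) = t + k * i := by have := hks i hi; omega
    rw [e1] at h1
    refine (card_le_card ?_).trans h1
    intro D hD
    rw [mem_filter] at hD ⊢
    exact ⟨hFn hD.1, hD.2⟩
  by_cases hex : ∃ i ≤ s, ∀ D ∈ F, (D ∩ Ico (k * (s - i)) n).card ≤ i
  · obtain ⟨i, hi, h⟩ := hex
    refine le_trans ?_ ((hfi i hi).trans (haA i hi))
    refine card_le_card (fun D hD => mem_filter.mpr ⟨hD, h D hD⟩)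
  push Not at hex
  -- union bound over the levels
  have hcov : F.card ≤ ∑ i ∈ range (s + 1),
      (F.filter (fun D => (D ∩ Ico (k * (s - i)) n).card ≤ i)).card := by
    have h1 : F ⊆ (range (s + 1)).biUnion (fun i =>
        F.filter (fun D => (D ∩ Ico (k * (s - i)) n).card ≤ i)) := by
      intro D hD
      obtain ⟨j, hj, hj'⟩ := hit (by omega) hFD hFS hFK h0 hD
      rw [mem_biUnion]
      refine ⟨s - j, mem_range.mpr (by omega), mem_filter.mpr ⟨hD, ?_⟩⟩
      have e1 : s - (s - j) = j := by omega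
      rw [e1]
      have h2 : D ∩ Ico (k * j) n ⊆ D.filter (fun x => k * j ≤ x) := by
        intro x hx
        rw [mem_inter, mem_Ico] at hx
        rw [mem_filter]
        exact ⟨hx.1, hx.2.1⟩
      have := card_le_card h2
      omega
    exact (card_le_card h1).trans card_biUnion_le
  have htpos : 1 ≤ t := by
    obtain ⟨D, hD, hDc⟩ := hex 0 (Nat.zero_le _)
    have h1 : (D ∩ Ico (k * (s - 0)) n).card ≤ (Ico (k * (s - 0)) n).card :=
      card_le_card inter_subset_right
    rw [Nat.card_Ico, Nat.sub_zero] at h1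
    rw [Nat.sub_zero] at hDc
    omega
  set f : ℕ → ℝ := fun i =>
    ((F.filter (fun D => (D ∩ Ico (k * (s - i)) n).card ≤ i)).card : ℝ) with hf
  set a : ℕ → ℝ := fun i => (aa t k s i : ℝ) with ha
  have ha0 : ∀ i, 0 ≤ a i := fun i => Nat.cast_nonneg _
  have hfa : ∀ i ≤ s, f i ≤ a i := fun i hi => by
    simp only [hf, ha]; exact_mod_cast hfi i hi
  have haA' : ∀ i ≤ s, a i ≤ (A : ℝ) := fun i hi => by
    simp only [ha]; exact_mod_cast haA i hi
  have hcov' : (F.card : ℝ) ≤ ∑ i ∈ range (s + 1), f i := by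
    simp only [hf]; exact_mod_cast hcov
  have hA0 : (0 : ℝ) ≤ A := Nat.cast_nonneg _
  have hk' : (60 : ℝ) ≤ k := by exact_mod_cast hk
  have hksm := k_small (show 60 ≤ k by omega)
  norm_num at hksm
  suffices hgoal : (F.card : ℝ) ≤ A by exact_mod_cast hgoal
  have hfi_def : ∀ i, f i =
    ((F.filter (fun D => (D ∩ Ico (k * (s - i)) n).card ≤ i)).card : ℝ) := fun i => rfl
  have hai_def : ∀ i, a i = (aa t k s i : ℝ) := fun i => rfl
  clear_value f a
  rcases Nat.lt_or_ge (4 * t) (2 ^ k) with hsmall | hbig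
  · -- small t
    have hsmall' : 4 * (t : ℝ) < 2 ^ k := by exact_mod_cast hsmall
    have h1 : f 0 ≤ a 0 * ((9 / 8) * (1 / 2) ^ 1 + ((k : ℝ) + (0 : ℕ) + (1 : ℕ)) /
        ((2 ^ k : ℕ) : ℝ)) := by
      rw [hfi_def, hai_def]
      refine levelY (by omega) (Nat.zero_le _) hFn hFK hFD hFS le_rfl (by omega) rfl htpos ?_ ?_
        (by rw [mul_zero]; exact Nat.zero_le _)
      · obtain ⟨D, hD, hDc⟩ := hex 0 (Nat.zero_le _)
        exact ⟨D, hD, by omega⟩
      · calc 2 = 2 ^ 1 := rfl
          _ ≤ 2 ^ k := Nat.pow_le_pow_right (by norm_num) (by omega)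
    have h2 : ((k : ℝ) + (0 : ℕ) + (1 : ℕ)) / ((2 ^ k : ℕ) : ℝ) ≤ 1 / 1000 := by
      push_cast
      rw [div_le_div_iff₀ (by positivity) (by norm_num)]
      nlinarith
    have h3 : f 0 ≤ a 0 * (57 / 100) := by
      refine h1.trans (mul_le_mul_of_nonneg_left ?_ (ha0 0))
      norm_num at h2 ⊢
      linarith
    have hratio : ∀ i, i < s → a (i + 1) ≤ 13 / 50 * a i := by
      intro i his
      have h4 : ((i : ℝ) + 1) * 2 ^ k * a (i + 1) ≤
          ((t : ℝ) + 10 * k * ((i : ℝ) + 1)) * a i := by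
        rw [hai_def, hai_def]; exact aa_upper (by omega) his
      have hi0 : (0 : ℝ) ≤ (i : ℝ) := Nat.cast_nonneg _
      have h5 : (t : ℝ) ≤ (1 / 4) * (((i : ℝ) + 1) * 2 ^ k) := by
        have : (0 : ℝ) ≤ (i : ℝ) * 2 ^ k := by positivity
        linarith
      have h6 : 10 * (k : ℝ) * ((i : ℝ) + 1) ≤ (1 / 1000) * (((i : ℝ) + 1) * 2 ^ k) := by
        have h7 : 10 * (k : ℝ) ≤ (1 / 1000) * 2 ^ k := by linarith
        nlinarith
      have h8 : (((i : ℝ) + 1) * 2 ^ k) * a (i + 1) ≤
          (((i : ℝ) + 1) * 2 ^ k) * (13 / 50 * a i) := by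
        calc (((i : ℝ) + 1) * 2 ^ k) * a (i + 1) ≤ _ := h4
          _ ≤ ((((i : ℝ) + 1) * 2 ^ k) * (13 / 50)) * a i := by
              refine mul_le_mul_of_nonneg_right ?_ (ha0 _)
              have : 0 ≤ ((i : ℝ) + 1) * 2 ^ k := by positivity
              linarith
          _ = _ := by ring
      exact le_of_mul_le_mul_left h8 (by positivity)
    have h4 : ∑ i ∈ range s, f (i + 1) ≤ a 0 * (2 / 5) := by
      rcases Nat.eq_zero_or_pos s with hs0 | hs0
      · rw [hs0]; simp only [range_zero, sum_empty]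
        exact mul_nonneg (ha0 0) (by norm_num)
      calc ∑ i ∈ range s, f (i + 1) ≤ ∑ i ∈ range s, a (1 + i) := by
            refine sum_le_sum (fun i hi => ?_)
            rw [mem_range] at hi
            rw [add_comm 1 i]
            exact hfa (i + 1) (by omega)
        _ ≤ a 1 * (1 / (1 - 13 / 50)) :=
            sum_geom_up ha0 (by norm_num) (by norm_num) 1 s
              (fun i hi => hratio (1 + i) (by omega))
        _ ≤ _ := by
            have := hratio 0 hs0
            norm_num at this ⊢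
            linarith [ha0 0]
    rw [sum_range_succ'] at hcov'
    have := haA' 0 (Nat.zero_le _)
    linarith [ha0 0]
  · -- large t
    have hmr0 : (60 : ℝ) + 1 ≤ m := by
      have : 60 + 1 ≤ m := by omega
      exact_mod_cast this
    have hkm' : (k : ℝ) + 1 ≤ m := by exact_mod_cast hkm1
    have h2kpos : (0 : ℝ) < 2 ^ k := by positivity
    have hKM0 : 3660 ≤ (k : ℝ) * m := by nlinarith
    have hXle : 1000000 * ((k : ℝ) * m) ≤ 2 ^ k := by
      nlinarith
    have hXle' : 1000000 * (k * m) ≤ 2 ^ k := by exact_mod_cast hXle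
    have hm2 : m ^ 2 ≤ 2 ^ k := by
      have h1 : (m : ℝ) ^ 2 ≤ 2 ^ k := by
        have h2 : (m : ℝ) ^ 2 ≤ ((k : ℝ) * m) ^ 2 := by
          rw [mul_pow]
          have h3 : (1 : ℝ) ≤ (k : ℝ) ^ 2 := by nlinarith
          exact le_mul_of_one_le_left (by positivity) h3
        linarith
      exact_mod_cast h1
    have hm1 : 1 ≤ m := by omega
    have hmk : 20 * k * (m + 1) ≤ 2 ^ k := by
      calc 20 * k * (m + 1) ≤ 20 * k * (m + m) := by gcongr
        _ = 40 * (k * m) := by ring
        _ ≤ 1000000 * (k * m) := Nat.mul_le_mul_right _ (by norm_num)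
        _ ≤ _ := hXle'
    set w := t / 2 ^ k with hw
    have hw1 : 2 ^ k * w ≤ t := Nat.mul_div_le _ _
    have hw2 : t < 2 ^ k * (w + 1) := Nat.lt_mul_div_succ _ (by positivity)
    set g := 2 ^ (k - 5) with hg
    have hg32 : 2 ^ k = 32 * g := by
      rw [hg, show (32 : ℕ) = 2 ^ 5 by norm_num, ← pow_add]
      congr 1; omega
    have hgbig : 32 ≤ g := by
      calc 32 = 2 ^ 5 := by norm_num
        _ ≤ 2 ^ (k - 5) := Nat.pow_le_pow_right (by norm_num) (by omega)
    have hgi : ∀ i, i ≤ 3 * w + 7 → g * i ≤ t := by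
      intro i hi
      have h1 : g * i ≤ g * (3 * w + 7) := Nat.mul_le_mul_left _ hi
      have h2 : g * (3 * w + 7) = 3 * (g * w) + 7 * g := by ring
      have h3 : 2 ^ k * w = 32 * (g * w) := by rw [hg32]; ring
      rcases Nat.eq_zero_or_pos w with hw0 | hw0
      · have h4 : g * w = 0 := by rw [hw0, mul_zero]
        omega
      · have h4 : g * 1 ≤ g * w := Nat.mul_le_mul_left _ hw0
        omega
    set J := min (3 * w + 7) s with hJ
    have hJs : J ≤ s := min_le_right _ _
    have hJw : J ≤ 3 * w + 7 := min_le_left _ _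
    set R0 := k / 4 with hR0
    have hR01 : 4 * R0 ≤ k := by omega
    have hR02 : k ≤ 4 * R0 + 3 := by omega
    have hgpos : (0 : ℝ) < g := by
      have : 0 < g := by omega
      exact_mod_cast this
    have hg32' : 32 * (g : ℝ) = 2 ^ k := by exact_mod_cast hg32.symm
    set ε : ℝ := ((k : ℝ) + (3 * w + 7) + (R0 + 1)) / g with hε
    have hε0 : 0 ≤ ε := by positivity
    set θ : ℝ := (4 * (k : ℝ) ^ 2 * m + k + 1) / g with hθ
    have hθ0 : 0 ≤ θ := by positivity
    -- the level bounds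
    have hεi : ∀ i r : ℕ, i ≤ J → r ≤ R0 + 1 → ((k : ℝ) + i + r) / g ≤ ε := by
      intro i r hi hr
      rw [hε]
      refine div_le_div_of_nonneg_right ?_ hgpos.le
      have h1 : (i : ℝ) ≤ 3 * w + 7 := by
        have : i ≤ 3 * w + 7 := hi.trans hJw
        exact_mod_cast this
      have h2 : (r : ℝ) ≤ R0 + 1 := by exact_mod_cast hr
      linarith
    have hkt : 4 * (k * m) + k ≤ t := by
      have h1 : k ≤ k * m := Nat.le_mul_of_pos_right _ (by omega)
      omega
    have hα : ∀ i ≤ J, (∃ D ∈ F, i + (R0 + 1) ≤ (D ∩ Ico (k * (s - i)) n).card) →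
        f i ≤ a i * ((9 / 8) * (1 / 2) ^ (R0 + 1) + ε) := by
      intro i hi hD
      have his : i ≤ s := hi.trans hJs
      have h1 := levelY (g := g) (r := R0 + 1) (by omega) his hFn hFK hFD hFS (by omega)
        (by omega) rfl (by omega) hD (by omega) (hgi i (hi.trans hJw))
      rw [hfi_def, hai_def]
      refine h1.trans (mul_le_mul_of_nonneg_left ?_ (Nat.cast_nonneg _))
      have := hεi i (R0 + 1) hi le_rfl
      linarith
    have hβ : ∀ i ≤ J, f i ≤ a i * (9 / 16 + ε) := by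
      intro i hi
      have his : i ≤ s := hi.trans hJs
      obtain ⟨D, hD, hDc⟩ := hex i his
      have h1 := levelY (g := g) (r := 1) (by omega) his hFn hFK hFD hFS le_rfl
        (by omega) rfl htpos ⟨D, hD, hDc⟩ (by omega) (hgi i (hi.trans hJw))
      rw [hfi_def, hai_def]
      refine h1.trans (mul_le_mul_of_nonneg_left ?_ (Nat.cast_nonneg _))
      have := hεi i 1 hi (by omega)
      norm_num at this ⊢
      linarith
    set q : ℝ := 2 * (3 / 4) ^ k with hq
    have hq0 : 0 ≤ q := by positivity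
    have hq1 : q < 1 := by
      have h1 : ((3 : ℝ) / 4) ^ k ≤ (3 / 4) ^ 60 :=
        pow_le_pow_of_le_one (by norm_num) (by norm_num) (by omega)
      have h3 : (2 : ℝ) * (3 / 4) ^ 60 < 1 := by norm_num
      linarith
    have hγ : ∀ i i0 : ℕ, i < i0 → i0 ≤ J →
        (∀ D ∈ F, (D ∩ Ico (k * (s - i0)) n).card ≤ i0 + R0) →
        f i ≤ a i * ((11 / 10) * 2 ^ R0 * q ^ (i0 - i)) := by
      intro i i0 hii hi0 hQ
      rw [hfi_def, hai_def]
      have h1 : i0 ≤ 3 * w + 7 := hi0.trans hJw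
      exact levelZ hii (hi0.trans hJs) hFn rfl hgbig (hgi i (by omega)) (by omega) hQ
    have hπ : ∀ i i1 : ℕ, i + k ≤ i1 → i1 ≤ J → i1 ≤ i + 4 * (k * m) →
        θ * a i1 < f i1 → f i ≤ a i * ((9 / 8) * (1 / 2) ^ k + ((k : ℝ) + 1) / g) := by
      intro i i1 hii hi1 hdist hbig1
      have hg1 := hgi i1 (hi1.trans hJw)
      have hrich := rich_exists (i := i) (g := g) hk (by omega) (hi1.trans hJs) hFn rfl (by omega)
        hg1 (by
          rw [← hai_def, ← hfi_def]
          refine lt_of_le_of_lt ?_ hbig1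
          rw [mul_comm]
          refine mul_le_mul_of_nonneg_right ?_ (ha0 _)
          rw [hθ]
          refine div_le_div_of_nonneg_right ?_ hgpos.le
          have h1 : (i1 : ℝ) - i ≤ 4 * (k * m) := by
            have : (i1 : ℝ) ≤ i + 4 * (k * m) := by exact_mod_cast hdist
            linarith
          have h2 : (k : ℝ) * ((i1 : ℝ) - i) ≤ k * (4 * (k * m)) :=
            mul_le_mul_of_nonneg_left h1 (by linarith)
          linarith)
      rw [hfi_def, hai_def]
      have h3 : g * i ≤ g * i1 := Nat.mul_le_mul_left _ (by omega)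
      exact pair_bound hk (by omega) (hi1.trans hJs) hFn hFK hFD hFS rfl le_rfl (by omega)
        (by omega) (by omega) (h3.trans hg1) hrich
    -- the sums
    have hsumS := sum_aa (A := (A : ℝ)) (show 60 ≤ k by omega) hm1 htm hmk
      (fun i hi => by rw [← hai_def]; exact haA' i hi)
    have htail := tail_aa (A := (A : ℝ)) (show 60 ≤ k by omega) hw2
      (fun i hi => by rw [← hai_def]; exact haA' i hi)
    set v := min w s with hv
    have hlow := window_low (A := (A : ℝ)) (J := J) hk (by omega) htm hm2 hw1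
      (min_le_left w s) (min_le_right w s) (fun i hi => by rw [← hai_def]; exact haA' i hi)
    have hhigh := window_high (A := (A : ℝ)) (J := J) hk (by omega) htm hm2 hw1 hw2 hJs hJw
      (fun i hi => by rw [← hai_def]; exact haA' i hi)
    simp only [← hai_def] at hsumS htail hlow hhigh
    rw [← hv] at hlow
    have hsplit : ∑ i ∈ range (s + 1), f i ≤ ∑ i ∈ range (J + 1), f i +
        ∑ i ∈ Ico (3 * w + 8) (s + 1), a i := by
      rcases Nat.lt_or_ge s (3 * w + 8) with h | h
      · have e1 : J = s := by omega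
        rw [e1, Ico_eq_empty (by omega), sum_empty, add_zero]
      · have e1 : J + 1 = 3 * w + 8 := by omega
        rw [e1, ← sum_range_add_sum_Ico f (show 3 * w + 8 ≤ s + 1 by omega)]
        refine add_le_add le_rfl (sum_le_sum (fun i hi => ?_))
        rw [mem_Ico] at hi
        exact hfa i (by omega)
    set W := (range (J + 1)).filter (fun i => ¬ i + 2 * (k * m) < v ∧ ¬ w + 2 * (k * m) < i)
      with hW
    have hWmem : ∀ i, i ∈ W ↔ i ≤ J ∧ v ≤ i + 2 * (k * m) ∧ i ≤ w + 2 * (k * m) := by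
      intro i
      rw [hW, mem_filter, mem_range]
      omega
    have hsplit2 : ∑ i ∈ range (J + 1), f i ≤ ∑ i ∈ W, f i + (A / 1000 + A / 1000) := by
      have e1 : ∑ i ∈ range (J + 1), f i =
          ∑ i ∈ (range (J + 1)).filter (fun i => i + 2 * (k * m) < v), f i +
          (∑ i ∈ (range (J + 1)).filter (fun i => w + 2 * (k * m) < i), f i +
          ∑ i ∈ W, f i) := by
        rw [← sum_filter_add_sum_filter_not (range (J + 1)) (fun i => i + 2 * (k * m) < v)]
        congr 1
        rw [← sum_filter_add_sum_filter_not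
          ((range (J + 1)).filter (fun i => ¬ i + 2 * (k * m) < v))
          (fun i => w + 2 * (k * m) < i), filter_filter, filter_filter]
        congr 1
        refine sum_congr ?_ (fun _ _ => rfl)
        ext i
        simp only [mem_filter, mem_range]
        constructor
        · rintro ⟨h, _, h2⟩; exact ⟨h, h2⟩
        · rintro ⟨h, h2⟩; exact ⟨h, by omega, h2⟩
      have e2 : ∑ i ∈ (range (J + 1)).filter (fun i => i + 2 * (k * m) < v), f i ≤ A / 1000 := by
        refine le_trans (sum_le_sum (fun i hi => ?_)) hlow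
        have := mem_range.mp (mem_filter.mp hi).1
        exact hfa i (by omega)
      have e3 : ∑ i ∈ (range (J + 1)).filter (fun i => w + 2 * (k * m) < i), f i ≤ A / 1000 := by
        refine le_trans (sum_le_sum (fun i hi => ?_)) hhigh
        have := mem_range.mp (mem_filter.mp hi).1
        exact hfa i (by omega)
      rw [e1]
      linarith
    have hsumJ : ∑ i ∈ W, a i ≤ 5 * (m + 1) * A := by
      refine le_trans ?_ hsumS
      refine sum_le_sum_of_subset_of_nonneg ?_ (fun i _ _ => ha0 i)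
      intro i hi
      have := (hWmem i).mp hi
      rw [mem_range]; omega
    -- the distinguished levels
    set L := W.filter (fun i => θ * a i < f i) with hL
    have hLmem : ∀ i, i ∈ L ↔ i ∈ W ∧ θ * a i < f i := fun i => mem_filter
    set LQ := L.filter (fun i => ∀ D ∈ F, (D ∩ Ico (k * (s - i)) n).card ≤ i + R0) with hLQ
    have hLQmem : ∀ i, i ∈ LQ ↔ i ∈ L ∧
        ∀ D ∈ F, (D ∩ Ico (k * (s - i)) n).card ≤ i + R0 := fun i => mem_filter
    set i1 : ℕ := L.sup id with hi1
    set i0 : ℕ := LQ.sup id with hi0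
    have hi1le : ∀ i ∈ L, i ≤ i1 := fun i hi => le_sup (f := id) hi
    have hi0le : ∀ i ∈ LQ, i ≤ i0 := fun i hi => le_sup (f := id) hi
    have hi1mem : L.Nonempty → i1 ∈ L := by
      intro h
      obtain ⟨x, hx, hx'⟩ := exists_mem_eq_sup L h id
      rw [hi1, hx']; exact hx
    have hi0mem : LQ.Nonempty → i0 ∈ LQ := by
      intro h
      obtain ⟨x, hx, hx'⟩ := exists_mem_eq_sup LQ h id
      rw [hi0, hx']; exact hx
    have hi0J : i0 ≤ J := by
      rcases LQ.eq_empty_or_nonempty with h | h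
      · rw [hi0, h, sup_empty]; exact Nat.zero_le _
      · exact ((hWmem i0).mp ((hLmem i0).mp ((hLQmem i0).mp (hi0mem h)).1).1).1
    set ρ : ℝ := θ + (9 / 8) * (1 / 2) ^ k + ((k : ℝ) + 1) / g with hρ
    have hρ0 : 0 ≤ ρ := by positivity
    set δ : ℝ := (9 / 8) * (1 / 2) ^ (R0 + 1) + ε with hδ
    have hδ0 : 0 ≤ δ := by positivity
    have hpt : ∀ i ∈ W, f i ≤ ρ * a i + (if i = i0 then (9 / 16 + ε) * A else 0) +
        (if i < i0 then (11 / 10) * 2 ^ R0 * q ^ (i0 - i) * A else 0) +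
        (if i ≤ i1 ∧ i1 < i + k then δ * A else 0) := by
      intro i hiW
      have hiW' := (hWmem i).mp hiW
      have haAi := haA' i (by omega)
      have hρa : 0 ≤ ρ * a i := mul_nonneg hρ0 (ha0 i)
      have n1 : 0 ≤ (if i = i0 then (9 / 16 + ε) * (A : ℝ) else 0) := by
        split_ifs
        · positivity
        · exact le_rfl
      have n2 : 0 ≤ (if i < i0 then (11 / 10) * 2 ^ R0 * q ^ (i0 - i) * (A : ℝ) else 0) := by
        split_ifs
        · positivity
        · exact le_rfl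
      have n3 : 0 ≤ (if i ≤ i1 ∧ i1 < i + k then δ * (A : ℝ) else 0) := by
        split_ifs
        · positivity
        · exact le_rfl
      have hθρ : θ * a i ≤ ρ * a i := by
        refine mul_le_mul_of_nonneg_right ?_ (ha0 i)
        have h1 : 0 ≤ (9 / 8 : ℝ) * (1 / 2) ^ k := by positivity
        have h2 : 0 ≤ ((k : ℝ) + 1) / g := by positivity
        linarith
      by_cases hiL : i ∈ L
      swap
      · have h1 : ¬ θ * a i < f i := fun h => hiL ((hLmem i).mpr ⟨hiW, h⟩)
        linarith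
      have hii1 := hi1le i hiL
      have hi1L := hi1mem ⟨i, hiL⟩
      by_cases hiQ : i ∈ LQ
      · have hii0 := hi0le i hiQ
        have hi0LQ := hi0mem ⟨i, hiQ⟩
        rcases lt_or_eq_of_le hii0 with h | h
        · have h1 := hγ i i0 h hi0J ((hLQmem i0).mp hi0LQ).2
          have h2 : a i * ((11 / 10) * 2 ^ R0 * q ^ (i0 - i)) ≤
              (11 / 10) * 2 ^ R0 * q ^ (i0 - i) * A := by
            rw [mul_comm]
            exact mul_le_mul_of_nonneg_left haAi (by positivity)
          rw [if_pos h] at n2 ⊢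
          linarith
        · have h1 := hβ i hiW'.1
          have h2 : a i * (9 / 16 + ε) ≤ (9 / 16 + ε) * A := by
            rw [mul_comm]
            exact mul_le_mul_of_nonneg_left haAi (by positivity)
          rw [if_pos h] at n1 ⊢
          linarith
      · have hnQ : ¬ ∀ D ∈ F, (D ∩ Ico (k * (s - i)) n).card ≤ i + R0 :=
          fun hcon => hiQ ((hLQmem i).mpr ⟨hiL, hcon⟩)
        push Not at hnQ
        obtain ⟨D, hD, hDc⟩ := hnQ
        rcases Nat.lt_or_ge i1 (i + k) with hnear | hfar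
        · have h1 := hα i hiW'.1 ⟨D, hD, by omega⟩
          have h2 : a i * δ ≤ δ * A := by
            rw [mul_comm]
            exact mul_le_mul_of_nonneg_left haAi hδ0
          have e3 : (if i ≤ i1 ∧ i1 < i + k then δ * (A : ℝ) else 0) = δ * A :=
            if_pos ⟨hii1, hnear⟩
          rw [e3] at n3 ⊢
          linarith
        · have hi1W := (hWmem i1).mp ((hLmem i1).mp hi1L).1
          have h1 := hπ i i1 hfar hi1W.1 (by omega) ((hLmem i1).mp hi1L).2
          have h2 : a i * ((9 / 8) * (1 / 2) ^ k + ((k : ℝ) + 1) / g) ≤ ρ * a i := by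
            rw [mul_comm]
            refine mul_le_mul_of_nonneg_right ?_ (ha0 i)
            linarith
          linarith
    have hmain : ∑ i ∈ W, f i ≤ ρ * (5 * ((m : ℝ) + 1)) * A +
        (9 / 16 + ε) * A + (11 / 10) * 2 ^ R0 * (q * (1 / (1 - q))) * A + k * δ * A := by
      have h1 := sum_le_sum hpt
      rw [sum_add_distrib, sum_add_distrib, sum_add_distrib, ← mul_sum] at h1
      have h2 : ∑ i ∈ W, (if i = i0 then (9 / 16 + ε) * (A : ℝ) else 0) ≤ (9 / 16 + ε) * A := by
        rw [sum_ite_eq' W i0]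
        split_ifs
        · exact le_rfl
        · positivity
      have h3 : ∑ i ∈ W, (if i < i0 then (11 / 10) * 2 ^ R0 * q ^ (i0 - i) * (A : ℝ) else 0) ≤
          (11 / 10) * 2 ^ R0 * (q * (1 / (1 - q))) * A := by
        rw [← sum_filter]
        have h4 : W.filter (fun i => i < i0) ⊆ range i0 := by
          intro i hi
          rw [mem_range]
          exact (mem_filter.mp hi).2
        have h5 : ∑ i ∈ W.filter (fun i => i < i0), (11 / 10) * 2 ^ R0 * q ^ (i0 - i) * (A : ℝ) ≤
            ∑ i ∈ range i0, (11 / 10) * 2 ^ R0 * q ^ (i0 - i) * (A : ℝ) :=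
          sum_le_sum_of_subset_of_nonneg h4 (fun i _ _ => by positivity)
        have h6 : ∑ i ∈ range i0, (11 / 10) * 2 ^ R0 * q ^ (i0 - i) * (A : ℝ) =
            (11 / 10) * 2 ^ R0 * (q * ∑ i ∈ range i0, q ^ i) * A := by
          rw [← sum_range_reflect, mul_sum, mul_sum, sum_mul]
          refine sum_congr rfl (fun i hi => ?_)
          rw [mem_range] at hi
          rw [show i0 - (i0 - 1 - i) = i + 1 by omega, pow_succ]
          ring
        refine h5.trans ?_
        rw [h6]
        gcongr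
        exact geom_le hq0 hq1 _
      have h4 : ∑ i ∈ W, (if i ≤ i1 ∧ i1 < i + k then δ * (A : ℝ) else 0) ≤ k * δ * A := by
        rw [← sum_filter, sum_const, nsmul_eq_mul, mul_assoc]
        refine mul_le_mul_of_nonneg_right ?_ (by positivity)
        have h5 : W.filter (fun i => i ≤ i1 ∧ i1 < i + k) ⊆ Ico (i1 + 1 - k) (i1 + 1) := by
          intro i hi
          have := (mem_filter.mp hi).2
          rw [mem_Ico]; omega
        have h6 := card_le_card h5
        rw [Nat.card_Ico] at h6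
        have h7 : (W.filter (fun i => i ≤ i1 ∧ i1 < i + k)).card ≤ k := by omega
        exact_mod_cast h7
      have h5 : ρ * ∑ i ∈ W, a i ≤ ρ * (5 * ((m : ℝ) + 1)) * A := by
        calc ρ * ∑ i ∈ W, a i ≤ ρ * (5 * (m + 1) * A) := mul_le_mul_of_nonneg_left hsumJ hρ0
          _ = _ := by ring
      linarith
    have hwm' : (w : ℝ) ≤ (m : ℝ) ^ 2 := by exact_mod_cast hwm
    have hX' : ((k : ℝ) * m) ^ 2 ≤ 1728 / 100000 * (g : ℝ) := by
      rw [← hg32'] at hX
      linarith
    have hnum := numeric2 (R0 := R0) hk hR01 hR02 hkm' hX' hg32' hwm'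
    rw [← hθ, ← hε, ← hδ, ← hρ, ← hq] at hnum
    have hfin : (ρ * (5 * ((m : ℝ) + 1)) * A +
        (9 / 16 + ε) * A + (11 / 10) * 2 ^ R0 * (q * (1 / (1 - q))) * A + k * δ * A) +
        (A / 1000 + A / 1000) + A / 100 ≤ A := by
      have h1 : (ρ * (5 * ((m : ℝ) + 1)) + (9 / 16 + ε) +
          (11 / 10) * 2 ^ R0 * (q * (1 / (1 - q))) + k * δ + 1 / 100 + 2 / 1000) * A ≤ 1 * A :=
        mul_le_mul_of_nonneg_right hnum hA0
      linarith
    have hlast : ∑ i ∈ range (s + 1), f i ≤ (ρ * (5 * ((m : ℝ) + 1)) * A +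
        (9 / 16 + ε) * A + (11 / 10) * 2 ^ R0 * (q * (1 / (1 - q))) * A + k * δ * A) +
        (A / 1000 + A / 1000) + A / 100 :=
      hsplit.trans (add_le_add (hsplit2.trans (add_le_add hmain le_rfl)) htail)
    exact hcov'.trans (hlast.trans hfin)

end Pool.Agent.H93.EF
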