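import Pool.Agent.H79.EF.Defs

set_option autoImplicit false

open Finset

namespace Pool.Agent.H79.EF

open Pool.Agent.H93.EF (cw Nb)
open Pool.Agent.H90.EF (Ok EN TT Bd)

theorem Nb_nat (t j : ℕ) : Nb t (j : ℤ) = ∑ i ∈ range (j + 1), (t.choose i : ℝ) := by
  unfold Nb
  have : ((j : ℤ) + 1).toNat = j + 1 := by omega
  rw [this]

theorem Nb_neg (t : ℕ) {j : ℤ} (hj : j < 0) : Nb t j = 0 := by
  unfold Nb
  have : (j + 1).toNat = 0 := by omega
  rw [this, sum_range_zero]

theorem Nb_nonneg (t : ℕ) (j : ℤ) : 0 ≤ Nb t j := by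
  unfold Nb
  positivity

theorem TT_Nb (t : ℕ) : TT (Nb t) = Nb (t + 1) := by
  funext j
  change Nb t j + Nb t (j - 1) = Nb (t + 1) j
  rcases lt_or_ge j 0 with h | h
  · rw [Nb_neg t h, Nb_neg t (by omega), Nb_neg (t + 1) h, add_zero]
  · obtain ⟨m, rfl⟩ := Int.eq_ofNat_of_zero_le h
    cases m with
    | zero =>
      have e : ((Int.ofNat 0 : ℤ) : ℤ) = ((0 : ℕ) : ℤ) := rfl
      have h1 : Nb t (((0 : ℕ) : ℤ) - 1) = 0 := Nb_neg t (by norm_num)
      change Nb t ((0 : ℕ) : ℤ) + Nb t (((0 : ℕ) : ℤ) - 1) = Nb (t + 1) ((0 : ℕ) : ℤ)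
      rw [h1, Nb_nat, Nb_nat]
      simp
    | succ m =>
      have e2 : (((m + 1 : ℕ) : ℤ) - 1) = ((m : ℕ) : ℤ) := by push_cast; ring
      change Nb t ((m + 1 : ℕ) : ℤ) + Nb t (((m + 1 : ℕ) : ℤ) - 1) = Nb (t + 1) ((m + 1 : ℕ) : ℤ)
      rw [e2, Nb_nat, Nb_nat, Nb_nat, sum_range_succ' _ (m + 1), sum_range_succ' _ (m + 1)]
      have h1 : ∀ i, ((t + 1).choose (i + 1) : ℝ) = t.choose i + t.choose (i + 1) := by
        intro i
        rw [Nat.choose_succ_succ]
        push_cast
        ring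
      rw [sum_congr rfl (fun i _ => h1 i), sum_add_distrib]
      simp
      ring

theorem lc_TT {N : ℤ → ℝ} (h : LC N) : LC (TT N) := by
  have hnn : ∀ j, 0 ≤ N j := fun j => by
    rcases lt_or_ge j 0 with h1 | h1
    · rw [h.neg j h1]
    · exact (h.pos j h1).le
  refine ⟨?_, ?_, ?_, ?_⟩
  · intro j hj
    change N j + N (j - 1) = 0
    rw [h.neg j hj, h.neg (j - 1) (by omega), add_zero]
  · intro j hj
    change 0 < N j + N (j - 1)
    have := h.pos j hj
    have := hnn (j - 1)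
    linarith
  · intro a b hab
    change N a + N (a - 1) ≤ N b + N (b - 1)
    exact add_le_add (h.mono hab) (h.mono (by omega))
  · intro j
    change (N (j - 1) + N (j - 1 - 1)) * (N (j + 1) + N (j + 1 - 1)) ≤ (N j + N (j - 1)) ^ 2
    have e1 : j - 1 - 1 = j - 2 := by ring
    have e2 : j + 1 - 1 = j := by ring
    rw [e1, e2]
    rcases lt_or_ge (j - 2) 0 with h1 | h1
    · rw [h.neg (j - 2) h1]
      have h2 := h.lc j
      have h3 := hnn j
      have h4 := hnn (j - 1)
      nlinarith [mul_nonneg h3 h4]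
    · have h2 := h.lc j
      have h3 := h.lc (j - 1)
      rw [show j - 1 - 1 = j - 2 by ring, show j - 1 + 1 = j by ring] at h3
      have pa := h.pos (j - 2) h1
      have pb := h.pos (j - 1) (by omega)
      have pc := h.pos j (by omega)
      have pd := h.pos (j + 1) (by omega)
      have h4 : N (j - 2) * N (j + 1) ≤ N (j - 1) * N j := by
        have h5 : (N (j - 2) * N j) * (N (j - 1) * N (j + 1)) ≤ (N (j - 1) ^ 2) * (N j ^ 2) :=
          mul_le_mul h3 h2 (by positivity) (by positivity)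
        have h6 : (N (j - 2) * N (j + 1)) * (N (j - 1) * N j) ≤
            (N (j - 1) * N j) * (N (j - 1) * N j) := by nlinarith
        exact le_of_mul_le_mul_right h6 (by positivity)
      nlinarith

theorem lc_Nb (t : ℕ) : LC (Nb t) := by
  induction t with
  | zero =>
    have h0 : ∀ j : ℤ, 0 ≤ j → Nb 0 j = 1 := by
      intro j hj
      obtain ⟨m, rfl⟩ := Int.eq_ofNat_of_zero_le hj
      rw [Nb_nat, sum_range_succ']
      simp
    refine ⟨fun j hj => Nb_neg 0 hj, fun j hj => by rw [h0 j hj]; norm_num, ?_, ?_⟩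
    · intro a b hab
      rcases lt_or_ge a 0 with h | h
      · rw [Nb_neg 0 h]; exact Nb_nonneg 0 b
      · rw [h0 a h, h0 b (h.trans hab)]
    · intro j
      rcases lt_or_ge (j - 1) 0 with h | h
      · rw [Nb_neg 0 h, zero_mul]; positivity
      · rw [h0 _ h, h0 j (by omega), h0 (j + 1) (by omega)]; norm_num
  | succ t ih =>
    rw [← TT_Nb]
    exact lc_TT ih

/-- the ratios `N_n(p-1)/N_n(p)` decrease with `n` -/
theorem ratio_anti {n m : ℕ} (h : n ≤ m) (p : ℤ) :
    Nb m (p - 1) * Nb n p ≤ Nb n (p - 1) * Nb m p := by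
  induction m, h using Nat.le_induction with
  | base => exact (mul_comm _ _).le.trans (mul_comm _ _).le |>.trans (by rw [mul_comm])
  | succ m hm ih =>
    rcases lt_or_ge p 0 with hp | hp
    · rw [Nb_neg n hp, Nb_neg (m + 1) hp, mul_zero, mul_zero]
    · have hL := lc_Nb m
      have hLn := lc_Nb n
      have pm := hL.pos p hp
      have pn := hLn.pos p hp
      have h1 := hL.lc (p - 1)
      rw [show p - 1 - 1 = p - 2 by ring, show p - 1 + 1 = p by ring] at h1
      have e1 : Nb (m + 1) (p - 1) = Nb m (p - 1) + Nb m (p - 2) := by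
        rw [← TT_Nb]
        change Nb m (p - 1) + Nb m (p - 1 - 1) = _
        rw [show p - 1 - 1 = p - 2 by ring]
      have e2 : Nb (m + 1) p = Nb m p + Nb m (p - 1) := by
        rw [← TT_Nb]
        rfl
      rw [e1, e2]
      have hq := Nb_nonneg m (p - 1)
      have hqn := Nb_nonneg n (p - 1)
      -- multiply by `Nb m p > 0`
      have h2 : (Nb m (p - 1) + Nb m (p - 2)) * Nb m p ≤ Nb m (p - 1) * (Nb m p + Nb m (p - 1)) := by
        nlinarith
      have h3 : ((Nb m (p - 1) + Nb m (p - 2)) * Nb n p) * Nb m p ≤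
          (Nb n (p - 1) * (Nb m p + Nb m (p - 1))) * Nb m p := by
        calc ((Nb m (p - 1) + Nb m (p - 2)) * Nb n p) * Nb m p
            = ((Nb m (p - 1) + Nb m (p - 2)) * Nb m p) * Nb n p := by ring
          _ ≤ (Nb m (p - 1) * (Nb m p + Nb m (p - 1))) * Nb n p :=
              mul_le_mul_of_nonneg_right h2 pn.le
          _ = (Nb m (p - 1) * Nb n p) * (Nb m p + Nb m (p - 1)) := by ring
          _ ≤ (Nb n (p - 1) * Nb m p) * (Nb m p + Nb m (p - 1)) :=
              mul_le_mul_of_nonneg_right ih (by positivity)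
          _ = _ := by ring
      exact le_of_mul_le_mul_right h3 pm

theorem LC.nonneg {N : ℤ → ℝ} (h : LC N) (j : ℤ) : 0 ≤ N j := by
  rcases lt_or_ge j 0 with h1 | h1
  · rw [h.neg j h1]
  · exact (h.pos j h1).le

/-- exponential majorant at `i` with a ratio between the two ratios at `i` -/
theorem LC.le_exp' {N : ℤ → ℝ} (h : LC N) {i : ℤ} (hi : 0 ≤ i) {x : ℝ} (hx : 0 < x)
    (h1 : N (i - 1) ≤ x * N i) (h2 : x * N (i + 1) ≤ N i) (j : ℤ) :
    N j ≤ N i * x ^ (-(j - i)) := by
  -- above `i`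
  have hup : ∀ m : ℕ, x * N (i + m + 1) ≤ N (i + m) := by
    intro m
    induction m with
    | zero => simpa using h2
    | succ m ih =>
      have p0 := h.pos (i + m) (by omega)
      have p1 := h.pos (i + m + 1) (by omega)
      have h3 := h.lc (i + m + 1)
      rw [show i + (m : ℤ) + 1 - 1 = i + m by ring] at h3
      have e : i + ((m + 1 : ℕ) : ℤ) = i + m + 1 := by push_cast; ring
      rw [e]
      have h4 : (x * N (i + m + 1 + 1)) * N (i + m) ≤ N (i + m + 1) * N (i + m) := by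
        calc (x * N (i + m + 1 + 1)) * N (i + m) = x * (N (i + m) * N (i + m + 1 + 1)) := by ring
          _ ≤ x * N (i + m + 1) ^ 2 := mul_le_mul_of_nonneg_left h3 hx.le
          _ = (x * N (i + m + 1)) * N (i + m + 1) := by ring
          _ ≤ N (i + m) * N (i + m + 1) := mul_le_mul_of_nonneg_right ih p1.le
          _ = _ := by ring
      exact le_of_mul_le_mul_right h4 p0
  have hupp : ∀ m : ℕ, N (i + m) ≤ N i * x ^ (-(m : ℤ)) := by
    intro m
    induction m with
    | zero => simp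
    | succ m ih =>
      have h3 := hup m
      have e : i + ((m + 1 : ℕ) : ℤ) = i + m + 1 := by push_cast; ring
      have e2 : (-(((m + 1 : ℕ) : ℤ))) = -(m : ℤ) - 1 := by push_cast; ring
      rw [e, e2, zpow_sub_one₀ hx.ne', ← mul_assoc, ← div_eq_mul_inv, le_div_iff₀ hx]
      calc N (i + m + 1) * x = x * N (i + m + 1) := by ring
        _ ≤ N (i + m) := h3
        _ ≤ _ := ih
  -- below `i`
  have hdn : ∀ m : ℕ, N (i - m - 1) ≤ x * N (i - m) := by
    intro m
    induction m with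
    | zero => simpa using h1
    | succ m ih =>
      have e : i - ((m + 1 : ℕ) : ℤ) = i - m - 1 := by push_cast; ring
      rw [e]
      rcases lt_or_ge (i - m - 1) 0 with h5 | h5
      · rw [h.neg _ (by omega : i - (m : ℤ) - 1 - 1 < 0)]
        exact mul_nonneg hx.le (h.nonneg _)
      · have p0 := h.pos (i - m) (by omega)
        have p1 := h.pos (i - m - 1) h5
        have h3 := h.lc (i - m - 1)
        rw [show i - (m : ℤ) - 1 + 1 = i - m by ring] at h3
        have h4 : N (i - m - 1 - 1) * N (i - m) ≤ (x * N (i - m - 1)) * N (i - m) := by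
          calc N (i - m - 1 - 1) * N (i - m) ≤ N (i - m - 1) ^ 2 := h3
            _ = N (i - m - 1) * N (i - m - 1) := by ring
            _ ≤ N (i - m - 1) * (x * N (i - m)) := mul_le_mul_of_nonneg_left ih p1.le
            _ = _ := by ring
        exact le_of_mul_le_mul_right h4 p0
  have hdnn : ∀ m : ℕ, N (i - m) ≤ N i * x ^ (m : ℤ) := by
    intro m
    induction m with
    | zero => simp
    | succ m ih =>
      have h3 := hdn m
      have e : i - ((m + 1 : ℕ) : ℤ) = i - m - 1 := by push_cast; ring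
      have e2 : (((m + 1 : ℕ) : ℤ)) = (m : ℤ) + 1 := by push_cast; ring
      rw [e, e2, zpow_add_one₀ hx.ne', ← mul_assoc]
      calc N (i - m - 1) ≤ x * N (i - m) := h3
        _ ≤ x * (N i * x ^ (m : ℤ)) := mul_le_mul_of_nonneg_left ih hx.le
        _ = _ := by ring
  rcases le_total i j with hij | hij
  · obtain ⟨m, hm⟩ := Int.eq_ofNat_of_zero_le (sub_nonneg.mpr hij)
    have e : j = i + m := by rw [← hm]; ring
    have e2 : j - i = m := hm
    rw [e2, e]
    exact hupp m
  · obtain ⟨m, hm⟩ := Int.eq_ofNat_of_zero_le (sub_nonneg.mpr hij)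
    have e : j = i - m := by rw [← hm]; ring
    have e2 : -(j - i) = m := by rw [neg_sub]; exact hm
    rw [e2, e]
    exact hdnn m

/-- exponential majorant through `i` and `i + 1` -/
theorem LC.le_exp {N : ℤ → ℝ} (h : LC N) {i : ℤ} (hi : 0 ≤ i) (j : ℤ) :
    N j ≤ N i * (N i / N (i + 1)) ^ (-(j - i)) := by
  have p0 := h.pos i hi
  have p1 := h.pos (i + 1) (by omega)
  refine h.le_exp' hi (div_pos p0 p1) ?_ ?_ j
  · rw [div_mul_eq_mul_div, le_div_iff₀ p1]
    have := h.lc i
    nlinarith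
  · rw [div_mul_cancel₀ _ p1.ne']

/-- balanced products are the largest -/
theorem prod_le_bal {k n σ : ℕ} (hk : 0 < k) (j : Fin k → ℤ) (hj : ∑ l, j l ≤ σ) :
    ∏ l, Nb n (j l) ≤ bal k n σ := by
  have hL := lc_Nb n
  set i := σ / k with hi
  have hi0 : (0 : ℤ) ≤ (i : ℤ) := Int.natCast_nonneg _
  have p0 := hL.pos i hi0
  have p1 := hL.pos ((i : ℤ) + 1) (by omega)
  set y := Nb n ((i : ℤ) + 1) / Nb n (i : ℤ) with hy
  have hy1 : 1 ≤ y := by
    rw [hy, le_div_iff₀ p0, one_mul]
    exact hL.mono (by omega)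
  have hy0 : 0 < y := lt_of_lt_of_le one_pos hy1
  have h1 : ∀ l, Nb n (j l) ≤ Nb n (i : ℤ) * y ^ (j l - i) := by
    intro l
    have h2 := hL.le_exp hi0 (j l)
    have h3 : Nb n (i : ℤ) / Nb n ((i : ℤ) + 1) = y⁻¹ := by rw [hy, inv_div]
    rwa [h3, inv_zpow, ← zpow_neg, neg_neg] at h2
  calc ∏ l, Nb n (j l) ≤ ∏ l, (Nb n (i : ℤ) * y ^ (j l - i)) :=
        prod_le_prod (fun l _ => Nb_nonneg n _) (fun l _ => h1 l)
    _ = Nb n (i : ℤ) ^ k * y ^ (∑ l, (j l - i)) := by
        rw [prod_mul_distrib, prod_const, card_univ, Fintype.card_fin]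
        congr 1
        have : ∀ s : Finset (Fin k), ∏ l ∈ s, y ^ (j l - i) = y ^ (∑ l ∈ s, (j l - i)) := by
          intro s
          induction s using Finset.induction_on with
          | empty => simp
          | insert a s ha ih => rw [prod_insert ha, sum_insert ha, ih, zpow_add₀ hy0.ne']
        exact this univ
    _ ≤ Nb n (i : ℤ) ^ k * y ^ ((σ % k : ℕ) : ℤ) := by
        refine mul_le_mul_of_nonneg_left ?_ (by positivity)
        refine zpow_le_zpow_right₀ hy1 ?_
        rw [sum_sub_distrib, sum_const, card_univ, Fintype.card_fin, nsmul_eq_mul]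
        have h2 := Nat.div_add_mod σ k
        have h3 : (σ : ℤ) = k * (i : ℤ) + ((σ % k : ℕ) : ℤ) := by
          rw [hi]
          exact_mod_cast h2.symm
        linarith
    _ = bal k n σ := by
        unfold bal
        rw [← hi, zpow_natCast, hy, div_pow]
        have h2 : σ % k < k := Nat.mod_lt _ hk
        have h3 : Nb n (i : ℤ) ^ k = Nb n (i : ℤ) ^ (k - σ % k) * Nb n (i : ℤ) ^ (σ % k) := by
          rw [← pow_add]
          congr 1
          omega
        have h4 : Nb n (i : ℤ) ^ (σ % k) ≠ 0 := (pow_pos p0 _).ne'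
        rw [h3]
        field_simp

/-- the termwise comparison behind `key_ratio` -/
theorem choose_cmp {m k i : ℕ} (hk : 2 ≤ k) (hm : (k - 1) * i ≤ m + 1) : ∀ d j, j + d = i →
    (m.choose j : ℝ) * ((m + (k - 1)).choose (i + 1)) ≤
      ((m + (k - 1)).choose (j + 1)) * (m.choose i) := by
  intro d
  induction d with
  | zero =>
    intro j hj
    have : j = i := by omega
    subst this
    rw [mul_comm]
  | succ d ih =>
    intro j hj
    have h1 := ih (j + 1) (by omega)
    obtain ⟨q, rfl⟩ : ∃ q, k = q + 2 := ⟨k - 2, by omega⟩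
    have hji : j + 1 ≤ i := by omega
    have hjm : j + (q + 1) * (j + 1) ≤ m + j + 1 := by
      have : (q + 1) * (j + 1) ≤ (q + 1) * i := Nat.mul_le_mul_left _ hji
      have hm' : (q + 1) * i ≤ m + 1 := hm
      omega
    have hmj : j ≤ m := by
      have : (q + 1) * (j + 1) ≤ m + 1 := by omega
      nlinarith
    have e1 : m + (q + 2 - 1) = m + q + 1 := by omega
    rw [e1] at h1 ⊢
    -- the two recurrences
    have c1 : (m.choose (j + 1) : ℝ) * (j + 1) = m.choose j * ((m : ℝ) - j) := by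
      have := Nat.choose_succ_right_eq m j
      have h2 : ((m.choose (j + 1) * (j + 1) : ℕ) : ℝ) = ((m.choose j * (m - j) : ℕ) : ℝ) := by
        rw [this]
      push_cast [Nat.cast_sub hmj] at h2
      exact h2
    have c2 : ((m + q + 1).choose (j + 2) : ℝ) * (j + 2) =
        (m + q + 1).choose (j + 1) * ((m : ℝ) + q - j) := by
      have := Nat.choose_succ_right_eq (m + q + 1) (j + 1)
      have h2 : (((m + q + 1).choose (j + 2) * (j + 2) : ℕ) : ℝ) =
          (((m + q + 1).choose (j + 1) * (m + q + 1 - (j + 1)) : ℕ) : ℝ) := by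
        rw [← this]
      have h3 : m + q + 1 - (j + 1) = m + q - j := by omega
      rw [h3] at h2
      push_cast [Nat.cast_sub (show j ≤ m + q by omega)] at h2
      linarith
    have hposmj : (q : ℝ) * (j + 1) ≤ (m : ℝ) - j := by
      have : q * (j + 1) + j ≤ m := by
        have h2 : (q + 1) * (j + 1) ≤ m + 1 := by omega
        nlinarith
      have h3 : ((q * (j + 1) + j : ℕ) : ℝ) ≤ m := by exact_mod_cast this
      push_cast at h3
      linarith
    rcases Nat.lt_or_ge j m with hjm2 | hjm2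
    · -- `m - j > 0`
      have hpos : (0 : ℝ) < (m : ℝ) - j := by
        have : (j : ℝ) < m := by exact_mod_cast hjm2
        linarith
      have hj1 : (0 : ℝ) < (j : ℝ) + 1 := by positivity
      have hj2 : (0 : ℝ) < (j : ℝ) + 2 := by positivity
      set A : ℝ := (m.choose j : ℝ) with hA
      set B : ℝ := ((m + q + 1).choose (i + 1) : ℝ) with hB
      set C : ℝ := ((m + q + 1).choose (j + 1) : ℝ) with hC
      set D : ℝ := (m.choose i : ℝ) with hD
      have hC0 : 0 ≤ C := Nat.cast_nonneg _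
      have hD0 : 0 ≤ D := Nat.cast_nonneg _
      have h2 : (A * B) * (((m : ℝ) - j) * (j + 2)) ≤ (C * D) * (((m : ℝ) - j) * (j + 2)) := by
        calc (A * B) * (((m : ℝ) - j) * (j + 2))
            = (m.choose (j + 1) * B) * ((j + 1) * (j + 2)) := by
              linear_combination (-B * ((j : ℝ) + 2)) * c1
          _ ≤ ((m + q + 1).choose (j + 1 + 1) * D) * ((j + 1) * (j + 2)) :=
              mul_le_mul_of_nonneg_right h1 (by positivity)
          _ = (C * D) * (((m : ℝ) + q - j) * (j + 1)) := by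
              linear_combination (D * ((j : ℝ) + 1)) * c2
          _ ≤ (C * D) * (((m : ℝ) - j) * (j + 2)) := by
              refine mul_le_mul_of_nonneg_left ?_ (by positivity)
              nlinarith
      exact le_of_mul_le_mul_right h2 (by positivity)
    · -- `j = m`: then `q = 0`
      have hjm3 : j = m := le_antisymm hmj hjm2
      have hq0 : q = 0 := by
        have h3 : (q + 1) * (j + 1) ≤ m + 1 := by omega
        nlinarith [hjm3]
      subst hq0
      subst hjm3
      have hi1 : i + 1 > j + 0 + 1 := by omega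
      rw [Nat.choose_eq_zero_of_lt hi1]
      push_cast
      rw [mul_zero]
      positivity

/-- the ratio at `(m + k - 1, i + 1)` is at least the ratio at `(m, i)` -/
theorem key_ratio {m k i : ℕ} (hk : 2 ≤ k) (hm : (k - 1) * i ≤ m + 1) :
    Nb m ((i : ℤ) - 1) * Nb (m + (k - 1)) ((i : ℤ) + 1) ≤ Nb (m + (k - 1)) i * Nb m i := by
  set M := m + (k - 1) with hM
  have e1 : Nb M ((i : ℤ) + 1) = Nb M i + (M.choose (i + 1) : ℝ) := by
    have : ((i : ℤ) + 1) = ((i + 1 : ℕ) : ℤ) := by push_cast; ring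
    rw [this, Nb_nat, Nb_nat, sum_range_succ]
  have e0 : Nb m ((i : ℤ) - 1) = ∑ j ∈ range i, (m.choose j : ℝ) := by
    unfold Nb
    have : ((i : ℤ) - 1 + 1).toNat = i := by omega
    rw [this]
  have e2 : Nb m i = Nb m ((i : ℤ) - 1) + (m.choose i : ℝ) := by
    rw [e0, Nb_nat, sum_range_succ]
  have h1 : Nb m ((i : ℤ) - 1) * (M.choose (i + 1) : ℝ) ≤ Nb M i * (m.choose i : ℝ) := by
    rw [e0, Nb_nat, sum_range_succ', sum_mul, add_mul, sum_mul]
    have h2 : ∑ j ∈ range i, (m.choose j : ℝ) * (M.choose (i + 1) : ℝ) ≤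
        ∑ j ∈ range i, (M.choose (j + 1) : ℝ) * (m.choose i : ℝ) := by
      refine sum_le_sum (fun j hj => ?_)
      rw [mem_range] at hj
      exact choose_cmp hk hm (i - j) j (by omega)
    have h3 : (0 : ℝ) ≤ (M.choose 0 : ℝ) * (m.choose i : ℝ) := by positivity
    linarith
  rw [e1, e2]
  nlinarith [Nb_nonneg m ((i : ℤ) - 1), Nb_nonneg M (i : ℤ)]

theorem Nb_succ (n : ℕ) (p : ℤ) : Nb (n + 1) p = Nb n p + Nb n (p - 1) := by
  rw [← TT_Nb]
  rfl

/-- the intermediate levels -/
theorem mid_le {k m i ρ : ℕ} (hk : 2 ≤ k) (hρ : ρ ≤ k) (hm : (k - 1) * i ≤ m + 1) :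
    Nb (m + ρ) i ^ (k - ρ) * Nb (m + ρ) ((i : ℤ) + 1) ^ ρ ≤
      Nb m i ^ (k - ρ) * Nb (m + k) ((i : ℤ) + 1) ^ ρ := by
  have pm := (lc_Nb m).pos i (Int.natCast_nonneg _)
  set g : ℝ := 1 + Nb m ((i : ℤ) - 1) / Nb m i with hg
  have hg0 : 0 < g := by
    rw [hg]
    have := div_nonneg (Nb_nonneg m ((i : ℤ) - 1)) pm.le
    linarith
  have hgm : g * Nb m i = Nb m i + Nb m ((i : ℤ) - 1) := by
    rw [hg, add_mul, one_mul, div_mul_cancel₀ _ pm.ne']
  -- growth at `i`
  have hY : ∀ a : ℕ, Nb (m + a) i ≤ g ^ a * Nb m i := by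
    intro a
    induction a with
    | zero => simp
    | succ a ih =>
      have h1 := ratio_anti (Nat.le_add_right m a) (i : ℤ)
      have h2 : Nb (m + (a + 1)) (i : ℤ) ≤ g * Nb (m + a) i := by
        rw [← add_assoc, Nb_succ]
        have h3 : (Nb (m + a) i + Nb (m + a) ((i : ℤ) - 1)) * Nb m i ≤
            (g * Nb (m + a) i) * Nb m i := by
          calc (Nb (m + a) i + Nb (m + a) ((i : ℤ) - 1)) * Nb m i
              = Nb (m + a) i * Nb m i + Nb (m + a) ((i : ℤ) - 1) * Nb m i := by ring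
            _ ≤ Nb (m + a) i * Nb m i + Nb m ((i : ℤ) - 1) * Nb (m + a) i := by linarith
            _ = (g * Nb m i) * Nb (m + a) i := by rw [hgm]; ring
            _ = _ := by ring
        exact le_of_mul_le_mul_right h3 pm
      calc Nb (m + (a + 1)) (i : ℤ) ≤ g * Nb (m + a) i := h2
        _ ≤ g * (g ^ a * Nb m i) := mul_le_mul_of_nonneg_left ih hg0.le
        _ = _ := by rw [pow_succ]; ring
  -- growth at `i + 1`
  have hX1 : ∀ a : ℕ, a ≤ k - 1 → g * Nb (m + a) ((i : ℤ) + 1) ≤ Nb (m + (a + 1)) ((i : ℤ) + 1) := by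
    intro a ha
    have pa := (lc_Nb (m + a)).pos ((i : ℤ) + 1) (by positivity)
    have pk := (lc_Nb (m + (k - 1))).pos ((i : ℤ) + 1) (by positivity)
    have h1 := ratio_anti (show m + a ≤ m + (k - 1) by omega) ((i : ℤ) + 1)
    rw [show (i : ℤ) + 1 - 1 = i by ring] at h1
    have h2 := key_ratio hk hm
    -- `Nb m (i-1) * Nb (m+a) (i+1) ≤ Nb (m+a) i * Nb m i`
    have h3 : Nb m ((i : ℤ) - 1) * Nb (m + a) ((i : ℤ) + 1) ≤ Nb (m + a) i * Nb m i := by
      have h4 : (Nb m ((i : ℤ) - 1) * Nb (m + a) ((i : ℤ) + 1)) * Nb (m + (k - 1)) ((i : ℤ) + 1) ≤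
          (Nb (m + a) i * Nb m i) * Nb (m + (k - 1)) ((i : ℤ) + 1) := by
        calc (Nb m ((i : ℤ) - 1) * Nb (m + a) ((i : ℤ) + 1)) * Nb (m + (k - 1)) ((i : ℤ) + 1)
            = (Nb m ((i : ℤ) - 1) * Nb (m + (k - 1)) ((i : ℤ) + 1)) * Nb (m + a) ((i : ℤ) + 1) := by
              ring
          _ ≤ (Nb (m + (k - 1)) i * Nb m i) * Nb (m + a) ((i : ℤ) + 1) :=
              mul_le_mul_of_nonneg_right h2 pa.le
          _ = (Nb (m + (k - 1)) i * Nb (m + a) ((i : ℤ) + 1)) * Nb m i := by ring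
          _ ≤ (Nb (m + a) i * Nb (m + (k - 1)) ((i : ℤ) + 1)) * Nb m i :=
              mul_le_mul_of_nonneg_right h1 pm.le
          _ = _ := by ring
      exact le_of_mul_le_mul_right h4 pk
    rw [← add_assoc, Nb_succ, show (i : ℤ) + 1 - 1 = i by ring]
    have h5 : (g * Nb (m + a) ((i : ℤ) + 1)) * Nb m i ≤
        (Nb (m + a) ((i : ℤ) + 1) + Nb (m + a) i) * Nb m i := by
      calc (g * Nb (m + a) ((i : ℤ) + 1)) * Nb m i = (g * Nb m i) * Nb (m + a) ((i : ℤ) + 1) := by
            ring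
        _ = Nb m i * Nb (m + a) ((i : ℤ) + 1) + Nb m ((i : ℤ) - 1) * Nb (m + a) ((i : ℤ) + 1) := by
            rw [hgm]; ring
        _ ≤ Nb m i * Nb (m + a) ((i : ℤ) + 1) + Nb (m + a) i * Nb m i := by linarith
        _ = _ := by ring
    exact le_of_mul_le_mul_right h5 pm
  have hX : ∀ b : ℕ, ρ + b ≤ k → g ^ b * Nb (m + ρ) ((i : ℤ) + 1) ≤ Nb (m + (ρ + b)) ((i : ℤ) + 1) := by
    intro b
    induction b with
    | zero => intro _; simp
    | succ b ih =>
      intro hb
      have h1 := ih (by omega)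
      have h2 := hX1 (ρ + b) (by omega)
      calc g ^ (b + 1) * Nb (m + ρ) ((i : ℤ) + 1) = g * (g ^ b * Nb (m + ρ) ((i : ℤ) + 1)) := by
            rw [pow_succ]; ring
        _ ≤ g * Nb (m + (ρ + b)) ((i : ℤ) + 1) := mul_le_mul_of_nonneg_left h1 hg0.le
        _ ≤ _ := h2
  have h1 := hY ρ
  have h2 := hX (k - ρ) (by omega)
  rw [show ρ + (k - ρ) = k by omega] at h2
  calc Nb (m + ρ) i ^ (k - ρ) * Nb (m + ρ) ((i : ℤ) + 1) ^ ρ
      ≤ (g ^ ρ * Nb m i) ^ (k - ρ) * Nb (m + ρ) ((i : ℤ) + 1) ^ ρ :=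
        mul_le_mul_of_nonneg_right (pow_le_pow_left₀ (Nb_nonneg _ _) h1 _)
          (pow_nonneg (Nb_nonneg _ _) _)
    _ = Nb m i ^ (k - ρ) * (g ^ (k - ρ) * Nb (m + ρ) ((i : ℤ) + 1)) ^ ρ := by
        rw [mul_pow, mul_pow, ← pow_mul, ← pow_mul, mul_comm ρ (k - ρ)]
        ring
    _ ≤ Nb m i ^ (k - ρ) * Nb (m + k) ((i : ℤ) + 1) ^ ρ :=
        mul_le_mul_of_nonneg_left (pow_le_pow_left₀
          (mul_nonneg (pow_nonneg hg0.le _) (Nb_nonneg _ _)) h2 _) (by positivity)

/-- (ii) -/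
theorem bal_le {k t s σ : ℕ} (hk : 2 ≤ k) (hσ : σ ≤ k * s) {M : ℝ}
    (hM : ∀ i ≤ s, Nb (t + k * i) i ^ k ≤ 2 ^ (k * (k * i)) * M) :
    bal k (t + σ) σ ≤ 2 ^ (k * σ) * M := by
  have hk0 : 0 < k := by omega
  have hM0 : 0 ≤ M := by
    have h := hM 0 (Nat.zero_le _)
    simp only [mul_zero, pow_zero, one_mul] at h
    exact (pow_nonneg (Nb_nonneg _ _) _).trans h
  set i := σ / k with hi
  set ρ := σ % k with hρ
  have hσe : k * i + ρ = σ := Nat.div_add_mod σ k
  have hρk : ρ < k := Nat.mod_lt _ hk0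
  unfold bal
  rw [← hi, ← hρ]
  have e1 : t + σ = (t + k * i) + ρ := by omega
  rw [e1]
  have hcond : (k - 1) * i ≤ t + k * i + 1 := by
    have : (k - 1) * i ≤ k * i := Nat.mul_le_mul_right _ (by omega)
    omega
  have h1 := mid_le (k := k) (m := t + k * i) (i := i) (ρ := ρ) hk hρk.le hcond
  refine h1.trans ?_
  have his : i ≤ s := by
    rw [hi]
    exact Nat.div_le_of_le_mul hσ
  have hA := hM i his
  rcases Nat.eq_zero_or_pos ρ with h0 | h0
  · rw [h0, pow_zero, mul_one, Nat.sub_zero]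
    have : σ = k * i := by omega
    rw [this]
    exact hA
  · have his' : i + 1 ≤ s := by
      by_contra hcon
      have h2 : s ≤ i := by omega
      have h3 : k * s ≤ k * i := Nat.mul_le_mul_left _ h2
      omega
    have hB := hM (i + 1) his'
    have e2 : t + k * (i + 1) = t + k * i + k := by ring
    have e3 : (((i + 1 : ℕ) : ℤ)) = (i : ℤ) + 1 := by push_cast; ring
    rw [e2, e3] at hB
    set Y := Nb (t + k * i) (i : ℤ) with hY
    set X := Nb (t + k * i + k) ((i : ℤ) + 1) with hX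
    have hY0 : 0 ≤ Y := Nb_nonneg _ _
    have hX0 : 0 ≤ X := Nb_nonneg _ _
    have h2 : (Y ^ (k - ρ) * X ^ ρ) ^ k ≤ (2 ^ (k * σ) * M) ^ k := by
      calc (Y ^ (k - ρ) * X ^ ρ) ^ k = (Y ^ k) ^ (k - ρ) * (X ^ k) ^ ρ := by
            rw [mul_pow, ← pow_mul, ← pow_mul, ← pow_mul, ← pow_mul, mul_comm (k - ρ) k,
              mul_comm ρ k]
        _ ≤ (2 ^ (k * (k * i)) * M) ^ (k - ρ) * (2 ^ (k * (k * (i + 1))) * M) ^ ρ :=
            mul_le_mul (pow_le_pow_left₀ (pow_nonneg hY0 _) hA _)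
              (pow_le_pow_left₀ (pow_nonneg hX0 _) hB _) (pow_nonneg (pow_nonneg hX0 _) _)
              (pow_nonneg (mul_nonneg (by positivity) hM0) _)
        _ = (2 ^ (k * σ) * M) ^ k := by
            rw [mul_pow, mul_pow, mul_pow, ← pow_mul, ← pow_mul, ← pow_mul]
            have h5 : M ^ k = M ^ (k - ρ) * M ^ ρ := by
              rw [← pow_add]; congr 1; omega
            have h6 : (2 : ℝ) ^ (k * σ * k) =
                2 ^ (k * (k * i) * (k - ρ)) * 2 ^ (k * (k * (i + 1)) * ρ) := by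
              rw [← pow_add]
              congr 1
              obtain ⟨r, hr⟩ : ∃ r, k = ρ + r := ⟨k - ρ, by omega⟩
              have h7 : k - ρ = r := by omega
              rw [h7, ← hσe]
              have h8 : k * (k * i + ρ) * k = k * k * (k * i + ρ) := by ring
              rw [h8]
              have h9 : k * (k * i) * r + k * (k * (i + 1)) * ρ = k * k * (i * (ρ + r) + ρ) := by
                ring
              rw [h9, ← hr, mul_comm k i]
            rw [h5, h6]
            ring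
    exact le_of_pow_le_pow_left₀ hk0.ne' (by positivity) h2

end Pool.Agent.H79.EF
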