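import Mathlib

set_option autoImplicit false

open Finset

namespace Pool.Agent.H93.EF

/-- Every `k` members of `F` (repetitions allowed) have union of size at most `d`. -/
def KU (k d : ℕ) (F : Finset (Finset ℕ)) : Prop :=
  ∀ f : Fin k → Finset ℕ, (∀ j, f j ∈ F) → (univ.biUnion f).card ≤ d

theorem KU.mono {k d : ℕ} {F F' : Finset (Finset ℕ)} (h : KU k d F) (hF : F' ⊆ F) : KU k d F' :=
  fun f hf => h f (fun j => hF (hf j))

/-- down-closed -/
def Down (F : Finset (Finset ℕ)) : Prop := ∀ D ∈ F, ∀ E, E ⊆ D → E ∈ F

/-- closed under replacing an element by a smaller one -/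
def Shifted (F : Finset (Finset ℕ)) : Prop :=
  ∀ D ∈ F, ∀ i j, i < j → j ∈ D → i ∉ D → insert i (D.erase j) ∈ F

/-- the total size -/
def tot (F : Finset (Finset ℕ)) : ℕ := ∑ D ∈ F, D.card

/-- the total position -/
def pos (F : Finset (Finset ℕ)) : ℕ := ∑ D ∈ F, ∑ x ∈ D, x

section Shift

variable (i j : ℕ)

/-- replace `j` by `i` in `D` when possible -/
def sw (D : Finset ℕ) : Finset ℕ := if j ∈ D ∧ i ∉ D then insert i (D.erase j) else D

/-- the action of the shift on the members of `F` -/
def act (F : Finset (Finset ℕ)) (D : Finset ℕ) : Finset ℕ := if sw i j D ∈ F then D else sw i j D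

/-- the shifted family -/
def shift (F : Finset (Finset ℕ)) : Finset (Finset ℕ) := F.image (act i j F)

variable {i j}

theorem sw_of {D : Finset ℕ} (h1 : j ∈ D) (h2 : i ∉ D) : sw i j D = insert i (D.erase j) := by
  simp [sw, h1, h2]

theorem act_cases (F : Finset (Finset ℕ)) {D : Finset ℕ} (hD : D ∈ F) :
    act i j F D = D ∨ (act i j F D = insert i (D.erase j) ∧ j ∈ D ∧ i ∉ D ∧
      insert i (D.erase j) ∉ F) := by
  unfold act
  by_cases h : sw i j D ∈ F
  · left; simp [h]
  · right
    by_cases h2 : j ∈ D ∧ i ∉ D
    · rw [if_neg h, sw_of h2.1 h2.2]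
      rw [sw_of h2.1 h2.2] at h
      exact ⟨rfl, h2.1, h2.2, h⟩
    · exfalso
      apply h
      rw [sw, if_neg h2]
      exact hD

theorem act_injOn (hij : i ≠ j) (F : Finset (Finset ℕ)) : Set.InjOn (act i j F) F := by
  intro D hD E hE h
  rcases act_cases (i := i) (j := j) F (D := D) hD with h1 | ⟨h1, hj1, hi1, hn1⟩ <;>
  rcases act_cases (i := i) (j := j) F (D := E) hE with h2 | ⟨h2, hj2, hi2, hn2⟩
  · rw [h1, h2] at h; exact h
  · exfalso; apply hn2; rw [← h2, ← h, h1]; exact hD
  · exfalso; apply hn1; rw [← h1, h, h2]; exact hE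
  · rw [h1, h2] at h
    ext x
    by_cases hx : x = j
    · subst hx; simp [hj1, hj2]
    · by_cases hx2 : x = i
      · subst hx2; simp [hi1, hi2]
      · have := congrArg (fun S => x ∈ S) h
        simpa [hx, hx2] using this

theorem card_shift (hij : i ≠ j) (F : Finset (Finset ℕ)) : (shift i j F).card = F.card :=
  Finset.card_image_of_injOn (act_injOn hij F)

theorem card_act (F : Finset (Finset ℕ)) {D : Finset ℕ} (hD : D ∈ F) :
    (act i j F D).card = D.card := by
  rcases act_cases (i := i) (j := j) F hD with h | ⟨h, hj, hi, _⟩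
  · rw [h]
  · rw [h, card_insert_of_notMem (by simp [hi]), card_erase_of_mem hj]
    have : 0 < D.card := card_pos.mpr ⟨j, hj⟩
    omega

theorem tot_shift (hij : i ≠ j) (F : Finset (Finset ℕ)) : tot (shift i j F) = tot F := by
  unfold tot shift
  rw [sum_image (act_injOn hij F)]
  exact sum_congr rfl (fun D hD => card_act F hD)

theorem sum_act_le (hij : i < j) (F : Finset (Finset ℕ)) {D : Finset ℕ} (hD : D ∈ F) :
    ∑ x ∈ act i j F D, x ≤ ∑ x ∈ D, x := by
  rcases act_cases (i := i) (j := j) F hD with h | ⟨h, hj, hi, _⟩
  · rw [h]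
  · rw [h, sum_insert (by simp [hi])]
    have := add_sum_erase D (fun x => x) hj
    omega

theorem sum_act_lt (hij : i < j) (F : Finset (Finset ℕ)) {D : Finset ℕ} (hj : j ∈ D) (hi : i ∉ D)
    (hn : insert i (D.erase j) ∉ F) :
    ∑ x ∈ act i j F D, x < ∑ x ∈ D, x := by
  have h : act i j F D = insert i (D.erase j) := by
    unfold act
    rw [sw_of hj hi, if_neg hn]
  rw [h, sum_insert (by simp [hi])]
  have := add_sum_erase D (fun x => x) hj
  omega

theorem pos_shift_lt (hij : i < j) (F : Finset (Finset ℕ)) {D : Finset ℕ} (hD : D ∈ F)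
    (hj : j ∈ D) (hi : i ∉ D) (hn : insert i (D.erase j) ∉ F) : pos (shift i j F) < pos F := by
  unfold pos shift
  rw [sum_image (act_injOn hij.ne F)]
  exact sum_lt_sum (fun E hE => sum_act_le hij F hE) ⟨D, hD, sum_act_lt hij F hj hi hn⟩

theorem shift_subset {n : ℕ} (hi : i < n) {F : Finset (Finset ℕ)} (hF : F ⊆ (range n).powerset) :
    shift i j F ⊆ (range n).powerset := by
  intro E hE
  unfold shift at hE
  rw [mem_image] at hE
  obtain ⟨D, hD, rfl⟩ := hE
  have hDn := mem_powerset.mp (hF hD)
  rw [mem_powerset]
  rcases act_cases (i := i) (j := j) F hD with h | ⟨h, _, _, _⟩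
  · rw [h]; exact hDn
  · rw [h]
    intro x hx
    rw [mem_insert] at hx
    rcases hx with rfl | hx
    · simpa using hi
    · exact hDn (mem_of_mem_erase hx)

/-- Shifting preserves the `k`-wise union condition. -/
theorem KU_shift (hij : i ≠ j) {k d : ℕ} {F : Finset (Finset ℕ)} (hF : KU k d F) :
    KU k d (shift i j F) := by
  intro g hg
  have hg' : ∀ l, ∃ D ∈ F, act i j F D = g l := by
    intro l
    have := hg l
    unfold shift at this
    rw [mem_image] at this
    exact this
  choose D hD hDg using hg'
  -- classification of the members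
  have hcl : ∀ l, g l = D l ∨ (g l = insert i ((D l).erase j) ∧ j ∈ D l ∧ i ∉ D l ∧
      insert i ((D l).erase j) ∉ F) := by
    intro l
    have := act_cases (i := i) (j := j) F (hD l)
    rw [hDg l] at this
    exact this
  by_cases hall : ∀ l, g l = D l
  · have : g = D := funext hall
    rw [this]
    exact hF D hD
  push Not at hall
  obtain ⟨a, ha⟩ := hall
  obtain ⟨ha1, ha2, ha3, ha4⟩ := (hcl a).resolve_left ha
  by_cases hj : j ∈ univ.biUnion g
  · -- some member contains `j`; it is unmoved
    rw [mem_biUnion] at hj
    obtain ⟨b, -, hb⟩ := hj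
    have hb1 : g b = D b := by
      rcases hcl b with h | ⟨h, h2, h3, h4⟩
      · exact h
      · exfalso
        rw [h] at hb
        simp [hij.symm] at hb
    have hab : a ≠ b := by
      rintro rfl
      exact ha hb1
    by_cases hib : i ∈ D b
    · -- `D` itself has a union containing that of `g`
      refine le_trans (card_le_card ?_) (hF D hD)
      intro x hx
      rw [mem_biUnion] at hx ⊢
      obtain ⟨l, -, hl⟩ := hx
      rcases hcl l with h | ⟨h, h2, h3, h4⟩
      · exact ⟨l, mem_univ _, by rw [← h]; exact hl⟩
      · rw [h, mem_insert] at hl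
        rcases hl with rfl | hl
        · exact ⟨b, mem_univ _, hib⟩
        · exact ⟨l, mem_univ _, mem_of_mem_erase hl⟩
    · -- replace `D b` by its swapped version, which lies in `F`
      have hjb : j ∈ D b := by rw [← hb1]; exact hb
      have hsw : insert i ((D b).erase j) ∈ F := by
        by_contra hcon
        have : act i j F (D b) = insert i ((D b).erase j) := by
          unfold act
          rw [sw_of hjb hib, if_neg hcon]
        rw [hDg b, hb1] at this
        apply hib
        rw [this]
        exact mem_insert_self _ _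
      have hD' : ∀ l, Function.update D b (insert i ((D b).erase j)) l ∈ F := by
        intro l
        by_cases hl : l = b
        · subst hl; rw [Function.update_self]; exact hsw
        · rw [Function.update_of_ne hl]; exact hD l
      refine le_trans (card_le_card ?_) (hF _ hD')
      intro x hx
      rw [mem_biUnion] at hx ⊢
      obtain ⟨l, -, hl⟩ := hx
      by_cases hxj : x = j
      · subst hxj
        exact ⟨a, mem_univ _, by rw [Function.update_of_ne hab]; exact ha2⟩
      by_cases hxi : x = i
      · subst hxi
        exact ⟨b, mem_univ _, by rw [Function.update_self]; exact mem_insert_self _ _⟩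
      by_cases hlb : l = b
      · subst hlb
        refine ⟨l, mem_univ _, ?_⟩
        rw [Function.update_self, mem_insert, mem_erase]
        right
        exact ⟨hxj, by rw [← hb1]; exact hl⟩
      · refine ⟨l, mem_univ _, ?_⟩
        rw [Function.update_of_ne hlb]
        rcases hcl l with h | ⟨h, h2, h3, h4⟩
        · rw [← h]; exact hl
        · rw [h, mem_insert] at hl
          rcases hl with rfl | hl
          · exact absurd rfl hxi
          · exact mem_of_mem_erase hl
  · -- no member contains `j`
    have hi : i ∈ univ.biUnion g := by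
      rw [mem_biUnion]
      exact ⟨a, mem_univ _, by rw [ha1]; exact mem_insert_self _ _⟩
    have hsub : insert j ((univ.biUnion g).erase i) ⊆ univ.biUnion D := by
      intro x hx
      rw [mem_insert] at hx
      rw [mem_biUnion]
      rcases hx with rfl | hx
      · exact ⟨a, mem_univ _, ha2⟩
      · rw [mem_erase, mem_biUnion] at hx
        obtain ⟨hxi, l, -, hl⟩ := hx
        rcases hcl l with h | ⟨h, h2, h3, h4⟩
        · exact ⟨l, mem_univ _, by rw [← h]; exact hl⟩
        · rw [h, mem_insert] at hl
          rcases hl with rfl | hl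
          · exact absurd rfl hxi
          · exact ⟨l, mem_univ _, mem_of_mem_erase hl⟩
    have hc : (insert j ((univ.biUnion g).erase i)).card = (univ.biUnion g).card := by
      rw [card_insert_of_notMem (by simp [hj]), card_erase_of_mem hi]
      have : 0 < (univ.biUnion g).card := card_pos.mpr ⟨i, hi⟩
      omega
    rw [← hc]
    exact le_trans (card_le_card hsub) (hF D hD)

end Shift

/-- The extremal number on the ground set `{0,...,n-1}`. -/
noncomputable def p (n k d : ℕ) : ℕ := by
  classical
  exact ((range n).powerset.powerset.filter (fun F => KU k d F)).sup card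

theorem card_le_p {n k d : ℕ} {F : Finset (Finset ℕ)} (hF : F ⊆ (range n).powerset)
    (hKU : KU k d F) : F.card ≤ p n k d := by
  classical
  unfold p
  exact le_sup (f := card) (by simp only [mem_filter, mem_powerset]; exact ⟨hF, hKU⟩)

/-- An optimal family that is down-closed, shifted, and of largest total size among all optimal
families. -/
theorem exists_opt (n k d : ℕ) : ∃ F : Finset (Finset ℕ), F ⊆ (range n).powerset ∧ KU k d F ∧
    F.card = p n k d ∧ Down F ∧ Shifted F ∧
    ∀ F' : Finset (Finset ℕ), F' ⊆ (range n).powerset → KU k d F' → F'.card = p n k d →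
      tot F' ≤ tot F := by
  classical
  set V := (range n).powerset.powerset.filter (fun F => KU k d F) with hV
  have hVmem : ∀ F, F ∈ V ↔ F ⊆ (range n).powerset ∧ KU k d F := by
    intro F; rw [hV, mem_filter, mem_powerset]
  have hp : p n k d = V.sup card := rfl
  -- the empty family when `k > 0`, in any case the sup is attained
  by_cases hVne : V.Nonempty
  swap
  · -- `k = 0` is impossible since the empty family is valid then (k = 0: union of nothing)
    exfalso
    apply hVne
    refine ⟨∅, (hVmem _).mpr ⟨empty_subset _, ?_⟩⟩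
    intro f hf
    have : IsEmpty (Fin k) := ⟨fun j => by simpa using hf j⟩
    simp
  obtain ⟨F0, hF0, hF0max⟩ := exists_max_image V card hVne
  have hcard0 : F0.card = p n k d := by
    rw [hp]
    exact le_antisymm (le_sup (f := card) hF0) (Finset.sup_le (fun F hF => hF0max F hF))
  set V1 := V.filter (fun F => F.card = p n k d) with hV1
  have hV1ne : V1.Nonempty := ⟨F0, by rw [hV1, mem_filter]; exact ⟨hF0, hcard0⟩⟩
  obtain ⟨F1, hF1, hF1max⟩ := exists_max_image V1 tot hV1ne
  set V2 := V1.filter (fun F => tot F = tot F1) with hV2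
  have hV2ne : V2.Nonempty := ⟨F1, by rw [hV2, mem_filter]; exact ⟨hF1, rfl⟩⟩
  obtain ⟨F, hF, hFmin⟩ := exists_min_image V2 pos hV2ne
  have hF2 := hF
  rw [hV2, mem_filter, hV1, mem_filter, hVmem] at hF2
  obtain ⟨⟨⟨hFn, hFK⟩, hFc⟩, hFt⟩ := hF2
  refine ⟨F, hFn, hFK, hFc, ?_, ?_, ?_⟩
  · -- down-closed
    intro D hD E hED
    by_contra hE
    have h1 : insert E F ⊆ (range n).powerset := by
      intro S hS
      rw [mem_insert] at hS
      rcases hS with rfl | hS
      · rw [mem_powerset]; exact hED.trans (mem_powerset.mp (hFn hD))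
      · exact hFn hS
    have h2 : KU k d (insert E F) := by
      intro f hf
      have hf' : ∀ l, (if f l = E then D else f l) ∈ F := by
        intro l
        by_cases h : f l = E
        · rw [if_pos h]; exact hD
        · rw [if_neg h]
          have := hf l
          rw [mem_insert] at this
          exact this.resolve_left h
      refine le_trans (card_le_card ?_) (hFK _ hf')
      intro x hx
      rw [mem_biUnion] at hx ⊢
      obtain ⟨l, -, hl⟩ := hx
      refine ⟨l, mem_univ _, ?_⟩
      by_cases h : f l = E
      · simp only [h, if_true]; rw [h] at hl; exact hED hl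
      · simp only [h, if_false]; exact hl
    have h3 := card_le_p h1 h2
    rw [card_insert_of_notMem hE, hFc] at h3
    omega
  · -- shifted
    intro D hD i j hij hj hi
    by_contra hcon
    have hin : i < n := by
      have := mem_powerset.mp (hFn hD) hj
      rw [mem_range] at this
      omega
    have hS : shift i j F ∈ V2 := by
      rw [hV2, mem_filter, hV1, mem_filter, hVmem]
      exact ⟨⟨⟨shift_subset hin hFn, KU_shift hij.ne hFK⟩, by rw [card_shift hij.ne, hFc]⟩,
        by rw [tot_shift hij.ne, hFt]⟩
    have h1 := hFmin _ hS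
    have h2 := pos_shift_lt hij F hD hj hi hcon
    omega
  · intro F' hF'n hF'K hF'c
    rw [hFt]
    exact hF1max F' (by rw [hV1, mem_filter, hVmem]; exact ⟨⟨hF'n, hF'K⟩, hF'c⟩)

end Pool.Agent.H93.EF
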