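import Mathlib
import Pool.Agent.H93.EF.Exp2

set_option autoImplicit false

open Finset

namespace Pool.Agent.H93.EF

theorem c_small : ∀ c : ℕ, 16 ≤ c → c * 2048 ≤ 2 ^ c := by
  intro c hc
  induction c, hc using Nat.le_induction with
  | base => norm_num
  | succ c hc ih =>
    have h : 2 ^ (c + 1) = 2 * 2 ^ c := by ring
    rw [h]
    linarith

/-- numerical inequality -/
theorem numeric {k c : ℕ} (hc : 16 ≤ c) (hkc : 3 * c + 12 ≤ k) (ε : ℝ)
    (hε : ε ≤ (3 * (2 ^ c) ^ 2 + 2 ^ c) / (128 * (2 ^ c) ^ 3)) :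
    ((9 / 8) * (1 / 2) ^ (c + 6) + ε) * (5 * ((2 : ℝ) ^ c + 1)) + (9 / 16 + ε) +
      (11 / 10) * 2 ^ (c + 5) * ((2 * (3 / 4) ^ k) * (1 / (1 - 2 * (3 / 4) ^ k))) + 1 / 100 ≤ 1 := by
  set x : ℝ := (1 / 2) ^ c with hx
  have hx0 : 0 < x := by positivity
  have hx1 : x ≤ 1 / 65536 := by
    calc x ≤ (1 / 2) ^ 16 := pow_le_pow_of_le_one (by norm_num) (by norm_num) hc
      _ = 1 / 65536 := by norm_num
  have h2c : (2 : ℝ) ^ c * x = 1 := by rw [hx, ← mul_pow]; norm_num
  have hε' : ε ≤ 3 / 128 * x + 1 / 128 * x ^ 2 := by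
    refine hε.trans (le_of_eq ?_)
    have hz : (2 : ℝ) ^ c ≠ 0 := by positivity
    have hxz : x = 1 / 2 ^ c := by rw [hx, one_div, inv_pow, one_div]
    rw [hxz]
    field_simp
  -- first term
  have e1 : ((1 : ℝ) / 2) ^ (c + 6) = x / 64 := by
    rw [pow_add, ← hx]; norm_num; ring
  have h1 : ((9 / 8) * (1 / 2) ^ (c + 6) + ε) * (5 * ((2 : ℝ) ^ c + 1)) ≤ 21 / 100 := by
    rw [e1]
    calc ((9 / 8) * (x / 64) + ε) * (5 * ((2 : ℝ) ^ c + 1))
        ≤ ((9 / 8) * (x / 64) + (3 / 128 * x + 1 / 128 * x ^ 2)) * (5 * ((2 : ℝ) ^ c + 1)) := by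
          gcongr
      _ = (45 / 512 + 15 / 128 + 5 / 128 * x) * (2 ^ c * x + x) := by ring
      _ = (45 / 512 + 15 / 128 + 5 / 128 * x) * (1 + x) := by rw [h2c]
      _ ≤ (45 / 512 + 15 / 128 + 5 / 128 * (1 / 65536)) * (1 + 1 / 65536) := by gcongr
      _ ≤ 21 / 100 := by norm_num
  have h2 : ε ≤ 1 / 1000 := by
    refine hε'.trans ?_
    have : x ^ 2 ≤ (1 / 65536) ^ 2 := pow_le_pow_left₀ hx0.le hx1 2
    norm_num at this ⊢
    linarith
  -- third term
  have hq : (2 : ℝ) * (3 / 4) ^ k ≤ 1 / 1000 := by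
    have : ((3 : ℝ) / 4) ^ k ≤ (3 / 4) ^ 60 :=
      pow_le_pow_of_le_one (by norm_num) (by norm_num) (by omega)
    have h3 : (2 : ℝ) * (3 / 4) ^ 60 ≤ 1 / 1000 := by norm_num
    linarith
  have hq0 : (0 : ℝ) < 2 * (3 / 4) ^ k := by positivity
  have h3 : (11 / 10) * 2 ^ (c + 5) * ((2 * (3 / 4) ^ k) * (1 / (1 - 2 * (3 / 4) ^ k))) ≤
      (15 / 100 : ℝ) := by
    have h5 : (3 / 4 : ℝ) ^ k ≤ (3 / 4) ^ 12 * (27 / 64) ^ c := by
      calc (3 / 4 : ℝ) ^ k ≤ (3 / 4) ^ (12 + 3 * c) :=
            pow_le_pow_of_le_one (by norm_num) (by norm_num) (by omega)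
        _ = _ := by rw [pow_add, pow_mul (3 / 4 : ℝ) 3 c]; norm_num
    have h6 : (2 : ℝ) ^ c * (27 / 64) ^ c ≤ (27 / 32) ^ 16 := by
      rw [← mul_pow, show (2 * (27 / 64) : ℝ) = 27 / 32 by norm_num]
      exact pow_le_pow_of_le_one (by norm_num) (by norm_num) hc
    have h7 : 1 / (1 - 2 * (3 / 4 : ℝ) ^ k) ≤ 1000 / 999 := by
      rw [div_le_div_iff₀ (by linarith) (by norm_num)]
      linarith
    have h8 : (0 : ℝ) ≤ 1 / (1 - 2 * (3 / 4) ^ k) := one_div_nonneg.mpr (by linarith)
    calc (11 / 10) * 2 ^ (c + 5) * ((2 * (3 / 4) ^ k) * (1 / (1 - 2 * (3 / 4) ^ k)))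
        ≤ (11 / 10) * 2 ^ (c + 5) * ((2 * ((3 / 4) ^ 12 * (27 / 64) ^ c)) * (1000 / 999)) := by
          gcongr
      _ = (11 / 10) * 32 * 2 * (3 / 4) ^ 12 * (1000 / 999) * ((2 : ℝ) ^ c * (27 / 64) ^ c) := by
          rw [pow_add]; ring
      _ ≤ (11 / 10) * 32 * 2 * (3 / 4) ^ 12 * (1000 / 999) * (27 / 32) ^ 16 := by gcongr
      _ ≤ 15 / 100 := by norm_num
  linarith

/-- The main upper bound in the exponential range. -/
theorem p_exp {t k s : ℕ} (hk : 60 ≤ k) (ht : 2 ^ 28 * t ^ 3 ≤ 32 ^ k) :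
    p (k * s + t) k (k * s) ≤ conj (k * s + t) k (k * s) := by
  classical
  set n := k * s + t with hn
  obtain ⟨F, hFn, hFK, hFc, hFD, hFS, -⟩ := exists_opt n k (k * s)
  rw [← hFc]
  by_cases hne : F.Nonempty
  swap
  · rw [not_nonempty_iff_eq_empty] at hne
    rw [hne]; simp
  obtain ⟨D0, hD0⟩ := hne
  have h0 : ∅ ∈ F := hFD D0 hD0 ∅ (empty_subset _)
  set A := conj n k (k * s) with hA
  have haA : ∀ i ≤ s, aa t k s i ≤ A := by
    intro i hi
    have h1 := le_conj (n := n) (d := k * s) (i := i) (by omega) (Nat.mul_le_mul_left _ hi)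
    have e1 : k * s - k * i = k * (s - i) := (Nat.mul_sub _ _ _).symm
    have e2 : n - k * s + k * i = t + k * i := by omega
    rw [e1, e2] at h1
    exact h1
  have hks : ∀ i ≤ s, k * (s - i) + k * i = k * s := fun i hi => by
    rw [← Nat.mul_add, Nat.sub_add_cancel hi]
  -- trivial bound at each level
  have hfi : ∀ i ≤ s, (F.filter (fun D => (D ∩ Ico (k * (s - i)) n).card ≤ i)).card ≤
      aa t k s i := by
    intro i hi
    have h1 := card_tail_le n (k * (s - i)) i
    have e1 : n - k * (s - i) = t + k * i := by have := hks i hi; omega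
    rw [e1] at h1
    refine (card_le_card ?_).trans h1
    intro D hD
    rw [mem_filter] at hD ⊢
    exact ⟨hFn hD.1, hD.2⟩
  by_cases hex : ∃ i ≤ s, ∀ D ∈ F, (D ∩ Ico (k * (s - i)) n).card ≤ i
  · obtain ⟨i, hi, h⟩ := hex
    refine le_trans ?_ ((hfi i hi).trans (haA i hi))
    refine card_le_card (fun D hD => mem_filter.mpr ⟨hD, h D hD⟩)
  push Not at hex
  -- union bound over the levels
  have hcov : F.card ≤ ∑ i ∈ range (s + 1),
      (F.filter (fun D => (D ∩ Ico (k * (s - i)) n).card ≤ i)).card := by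
    have h1 : F ⊆ (range (s + 1)).biUnion (fun i =>
        F.filter (fun D => (D ∩ Ico (k * (s - i)) n).card ≤ i)) := by
      intro D hD
      obtain ⟨j, hj, hj'⟩ := hit (by omega) hFD hFS hFK h0 hD
      rw [mem_biUnion]
      refine ⟨s - j, mem_range.mpr (by omega), mem_filter.mpr ⟨hD, ?_⟩⟩
      have e1 : s - (s - j) = j := by omega
      rw [e1]
      have h2 : D ∩ Ico (k * j) n ⊆ D.filter (fun x => k * j ≤ x) := by
        intro x hx
        rw [mem_inter, mem_Ico] at hx
        rw [mem_filter]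
        exact ⟨hx.1, hx.2.1⟩
      have := card_le_card h2
      omega
    exact (card_le_card h1).trans card_biUnion_le
  have htpos : 1 ≤ t := by
    obtain ⟨D, hD, hDc⟩ := hex 0 (Nat.zero_le _)
    have h1 : (D ∩ Ico (k * (s - 0)) n).card ≤ (Ico (k * (s - 0)) n).card :=
      card_le_card inter_subset_right
    rw [Nat.card_Ico, Nat.sub_zero] at h1
    rw [Nat.sub_zero] at hDc
    omega
  set f : ℕ → ℝ := fun i =>
    ((F.filter (fun D => (D ∩ Ico (k * (s - i)) n).card ≤ i)).card : ℝ) with hf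
  set a : ℕ → ℝ := fun i => (aa t k s i : ℝ) with ha
  have ha0 : ∀ i, 0 ≤ a i := fun i => Nat.cast_nonneg _
  have hfa : ∀ i ≤ s, f i ≤ a i := fun i hi => by
    simp only [hf, ha]; exact_mod_cast hfi i hi
  have haA' : ∀ i ≤ s, a i ≤ (A : ℝ) := fun i hi => by
    simp only [ha]; exact_mod_cast haA i hi
  have hcov' : (F.card : ℝ) ≤ ∑ i ∈ range (s + 1), f i := by
    simp only [hf]; exact_mod_cast hcov
  have hA0 : (0 : ℝ) ≤ A := Nat.cast_nonneg _
  have hk' : (60 : ℝ) ≤ k := by exact_mod_cast hk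
  have hksm := k_small (show 60 ≤ k by omega)
  norm_num at hksm
  suffices hgoal : (F.card : ℝ) ≤ A by exact_mod_cast hgoal
  have hfi_def : ∀ i, f i =
    ((F.filter (fun D => (D ∩ Ico (k * (s - i)) n).card ≤ i)).card : ℝ) := fun i => rfl
  have hai_def : ∀ i, a i = (aa t k s i : ℝ) := fun i => rfl
  clear_value f a
  rcases Nat.lt_or_ge (4 * t) (2 ^ k) with hsmall | hbig
  · -- small t
    have hsmall' : 4 * (t : ℝ) < 2 ^ k := by exact_mod_cast hsmall
    have h1 : f 0 ≤ a 0 * ((9 / 8) * (1 / 2) ^ 1 + ((k : ℝ) + (0 : ℕ) + (1 : ℕ)) /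
        ((2 ^ k : ℕ) : ℝ)) := by
      rw [hfi_def, hai_def]
      refine levelY (by omega) (Nat.zero_le _) hFn hFK hFD hFS le_rfl (by omega) rfl htpos ?_ ?_
        (by rw [mul_zero]; exact Nat.zero_le _)
      · obtain ⟨D, hD, hDc⟩ := hex 0 (Nat.zero_le _)
        exact ⟨D, hD, by omega⟩
      · calc 2 = 2 ^ 1 := rfl
          _ ≤ 2 ^ k := Nat.pow_le_pow_right (by norm_num) (by omega)
    have h2 : ((k : ℝ) + (0 : ℕ) + (1 : ℕ)) / ((2 ^ k : ℕ) : ℝ) ≤ 1 / 1000 := by
      push_cast
      rw [div_le_div_iff₀ (by positivity) (by norm_num)]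
      nlinarith
    have h3 : f 0 ≤ a 0 * (57 / 100) := by
      refine h1.trans (mul_le_mul_of_nonneg_left ?_ (ha0 0))
      norm_num at h2 ⊢
      linarith
    have hratio : ∀ i, i < s → a (i + 1) ≤ 13 / 50 * a i := by
      intro i his
      have h4 : ((i : ℝ) + 1) * 2 ^ k * a (i + 1) ≤
          ((t : ℝ) + 10 * k * ((i : ℝ) + 1)) * a i := by
        rw [hai_def, hai_def]; exact aa_upper (by omega) his
      have hi0 : (0 : ℝ) ≤ (i : ℝ) := Nat.cast_nonneg _
      have h5 : (t : ℝ) ≤ (1 / 4) * (((i : ℝ) + 1) * 2 ^ k) := by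
        have : (0 : ℝ) ≤ (i : ℝ) * 2 ^ k := by positivity
        linarith
      have h6 : 10 * (k : ℝ) * ((i : ℝ) + 1) ≤ (1 / 1000) * (((i : ℝ) + 1) * 2 ^ k) := by
        have h7 : 10 * (k : ℝ) ≤ (1 / 1000) * 2 ^ k := by linarith
        nlinarith
      have h8 : (((i : ℝ) + 1) * 2 ^ k) * a (i + 1) ≤
          (((i : ℝ) + 1) * 2 ^ k) * (13 / 50 * a i) := by
        calc (((i : ℝ) + 1) * 2 ^ k) * a (i + 1) ≤ _ := h4
          _ ≤ ((((i : ℝ) + 1) * 2 ^ k) * (13 / 50)) * a i := by
              refine mul_le_mul_of_nonneg_right ?_ (ha0 _)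
              have : 0 ≤ ((i : ℝ) + 1) * 2 ^ k := by positivity
              linarith
          _ = _ := by ring
      exact le_of_mul_le_mul_left h8 (by positivity)
    have h4 : ∑ i ∈ range s, f (i + 1) ≤ a 0 * (2 / 5) := by
      rcases Nat.eq_zero_or_pos s with hs0 | hs0
      · rw [hs0]; simp only [range_zero, sum_empty]
        exact mul_nonneg (ha0 0) (by norm_num)
      calc ∑ i ∈ range s, f (i + 1) ≤ ∑ i ∈ range s, a (1 + i) := by
            refine sum_le_sum (fun i hi => ?_)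
            rw [mem_range] at hi
            rw [add_comm 1 i]
            exact hfa (i + 1) (by omega)
        _ ≤ a 1 * (1 / (1 - 13 / 50)) :=
            sum_geom_up ha0 (by norm_num) (by norm_num) 1 s
              (fun i hi => hratio (1 + i) (by omega))
        _ ≤ _ := by
            have := hratio 0 hs0
            norm_num at this ⊢
            linarith [ha0 0]
    rw [sum_range_succ'] at hcov'
    have := haA' 0 (Nat.zero_le _)
    linarith [ha0 0]
  · -- large t
    set c := (k - 12) / 3 with hc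
    have hc16 : 16 ≤ c := by omega
    have hkc : 3 * c + 12 ≤ k := by omega
    have hkc' : k ≤ 3 * c + 14 := by omega
    have hcs := c_small c hc16
    set m := 2 ^ c with hm
    have hm1 : 1 ≤ m := Nat.one_le_two_pow
    have htm : t ≤ m ^ 2 * 2 ^ k := by
      have h1 : 2 ^ 28 * t ^ 3 ≤ 2 ^ 28 * (m ^ 2 * 2 ^ k) ^ 3 := by
        calc 2 ^ 28 * t ^ 3 ≤ 32 ^ k := ht
          _ = 2 ^ (5 * k) := by rw [pow_mul]; norm_num
          _ ≤ 2 ^ (28 + 3 * (2 * c + k)) := Nat.pow_le_pow_right (by norm_num) (by omega)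
          _ = _ := by rw [hm]; ring
      have h2 : t ^ 3 ≤ (m ^ 2 * 2 ^ k) ^ 3 := Nat.le_of_mul_le_mul_left h1 (by positivity)
      exact (Nat.pow_le_pow_iff_left (by norm_num)).mp h2
    have h2k4 : 4096 * m ^ 3 ≤ 2 ^ k := by
      calc 4096 * m ^ 3 = 2 ^ (3 * c + 12) := by rw [hm, pow_add, pow_mul']; ring
        _ ≤ 2 ^ k := Nat.pow_le_pow_right (by norm_num) hkc
    have hmk : 20 * k * (m + 1) ≤ 2 ^ k := by
      calc 20 * k * (m + 1) ≤ 20 * (3 * c + 14) * (m + m) := by gcongr
        _ = (120 * c + 560) * m := by ring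
        _ ≤ (c * 2048) * m := Nat.mul_le_mul_right _ (by omega)
        _ ≤ m * m := Nat.mul_le_mul_right _ hcs
        _ = m ^ 2 := by ring
        _ ≤ m ^ 3 := Nat.pow_le_pow_right hm1 (by norm_num)
        _ ≤ 4096 * m ^ 3 := Nat.le_mul_of_pos_left _ (by norm_num)
        _ ≤ 2 ^ k := h2k4
    set w := t / 2 ^ k with hw
    have hw1 : 2 ^ k * w ≤ t := Nat.mul_div_le _ _
    have hw2 : t < 2 ^ k * (w + 1) := Nat.lt_mul_div_succ _ (by positivity)
    have hwm : w ≤ m ^ 2 := by
      have h1 : 2 ^ k * w ≤ 2 ^ k * m ^ 2 := by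
        calc 2 ^ k * w ≤ t := hw1
          _ ≤ m ^ 2 * 2 ^ k := htm
          _ = _ := by ring
      exact Nat.le_of_mul_le_mul_left h1 (by positivity)
    set g := 2 ^ (k - 5) with hg
    have hg32 : 2 ^ k = 32 * g := by
      rw [hg, show (32 : ℕ) = 2 ^ 5 by norm_num, ← pow_add]
      congr 1; omega
    have hgbig : 32 ≤ g := by
      calc 32 = 2 ^ 5 := by norm_num
        _ ≤ 2 ^ (k - 5) := Nat.pow_le_pow_right (by norm_num) (by omega)
    have hgi : ∀ i, i ≤ 3 * w + 7 → g * i ≤ t := by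
      intro i hi
      have h1 : g * i ≤ g * (3 * w + 7) := Nat.mul_le_mul_left _ hi
      have h2 : g * (3 * w + 7) = 3 * (g * w) + 7 * g := by ring
      have h3 : 2 ^ k * w = 32 * (g * w) := by rw [hg32]; ring
      rcases Nat.eq_zero_or_pos w with hw0 | hw0
      · have h4 : g * w = 0 := by rw [hw0, mul_zero]
        omega
      · have h4 : g * 1 ≤ g * w := Nat.mul_le_mul_left _ hw0
        omega
    set J := min (3 * w + 7) s with hJ
    set ε : ℝ := ((k : ℝ) + (3 * w + 7) + (c + 6)) / g with hε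
    have hgpos : (0 : ℝ) < g := by
      have : 0 < g := by omega
      exact_mod_cast this
    have hε0 : 0 ≤ ε := by positivity
    have hεb : ε ≤ (3 * (2 ^ c) ^ 2 + 2 ^ c) / (128 * (2 ^ c) ^ 3) := by
      have h1 : (k + (3 * w + 7) + (c + 6)) * (128 * m ^ 3) ≤ (3 * m ^ 2 + m) * g := by
        have h2 : k + (3 * w + 7) + (c + 6) ≤ 3 * m ^ 2 + m := by
          have h4 : k + 7 + c + 6 ≤ m := by omega
          omega
        have h5 : 128 * m ^ 3 ≤ g := by omega
        exact Nat.mul_le_mul h2 h5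
      have h2 : ((k : ℝ) + (3 * w + 7) + (c + 6)) * (128 * (m : ℝ) ^ 3) ≤
          (3 * (m : ℝ) ^ 2 + m) * g := by exact_mod_cast h1
      have hmr : (m : ℝ) = 2 ^ c := by rw [hm]; push_cast; ring
      rw [hε, ← hmr, div_le_div_iff₀ hgpos (by positivity)]
      exact h2
    -- the three level bounds
    have hεi : ∀ i r : ℕ, i ≤ J → r ≤ c + 6 → ((k : ℝ) + i + r) / g ≤ ε := by
      intro i r hi hr
      rw [hε]
      refine div_le_div_of_nonneg_right ?_ hgpos.le
      have h1 : (i : ℝ) ≤ 3 * w + 7 := by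
        have : i ≤ 3 * w + 7 := hi.trans (min_le_left _ _)
        exact_mod_cast this
      have h2 : (r : ℝ) ≤ c + 6 := by exact_mod_cast hr
      linarith
    have hkt : k ≤ t := by
      have h1 : k * 2 ^ 50 ≤ 2 ^ k := by exact_mod_cast k_small (show 60 ≤ k by omega)
      omega
    have hα : ∀ i ≤ J, (∃ D ∈ F, i + (c + 6) ≤ (D ∩ Ico (k * (s - i)) n).card) →
        f i ≤ a i * ((9 / 8) * (1 / 2) ^ (c + 6) + ε) := by
      intro i hi hD
      have his : i ≤ s := hi.trans (min_le_right _ _)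
      have h1 := levelY (g := g) (r := c + 6) (by omega) his hFn hFK hFD hFS (by omega)
        (by omega) rfl (by omega) hD (by omega) (hgi i (hi.trans (min_le_left _ _)))
      rw [hfi_def, hai_def]
      refine h1.trans (mul_le_mul_of_nonneg_left ?_ (Nat.cast_nonneg _))
      have := hεi i (c + 6) hi le_rfl
      linarith
    have hβ : ∀ i ≤ J, f i ≤ a i * (9 / 16 + ε) := by
      intro i hi
      have his : i ≤ s := hi.trans (min_le_right _ _)
      obtain ⟨D, hD, hDc⟩ := hex i his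
      have h1 := levelY (g := g) (r := 1) (by omega) his hFn hFK hFD hFS le_rfl
        (by omega) rfl htpos ⟨D, hD, hDc⟩ (by omega) (hgi i (hi.trans (min_le_left _ _)))
      rw [hfi_def, hai_def]
      refine h1.trans (mul_le_mul_of_nonneg_left ?_ (Nat.cast_nonneg _))
      have := hεi i 1 hi (by omega)
      norm_num at this ⊢
      linarith
    set q : ℝ := 2 * (3 / 4) ^ k with hq
    have hq0 : 0 ≤ q := by positivity
    have hq1 : q < 1 := by
      have h1 : ((3 : ℝ) / 4) ^ k ≤ (3 / 4) ^ 60 :=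
        pow_le_pow_of_le_one (by norm_num) (by norm_num) (by omega)
      have h3 : (2 : ℝ) * (3 / 4) ^ 60 < 1 := by norm_num
      linarith
    have hγ : ∀ i i0 : ℕ, i < i0 → i0 ≤ J →
        (∀ D ∈ F, (D ∩ Ico (k * (s - i0)) n).card ≤ i0 + (c + 5)) →
        f i ≤ a i * ((11 / 10) * 2 ^ (c + 5) * q ^ (i0 - i)) := by
      intro i i0 hii hi0 hQ
      rw [hfi_def, hai_def]
      have h1 : i0 ≤ 3 * w + 7 := hi0.trans (min_le_left _ _)
      exact levelZ hii (hi0.trans (min_le_right _ _)) hFn rfl hgbig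
        (hgi i (by omega)) (by omega) hQ
    -- splitting the sum
    have hsumS := sum_aa (A := (A : ℝ)) (show 60 ≤ k by omega) hm1 htm hmk
      (fun i hi => by rw [← hai_def]; exact haA' i hi)
    have htail := tail_aa (A := (A : ℝ)) (show 60 ≤ k by omega) hw2
      (fun i hi => by rw [← hai_def]; exact haA' i hi)
    simp only [← hai_def] at hsumS htail
    have hsplit : ∑ i ∈ range (s + 1), f i ≤ ∑ i ∈ range (J + 1), f i +
        ∑ i ∈ Ico (3 * w + 8) (s + 1), a i := by
      rcases Nat.lt_or_ge s (3 * w + 8) with h | h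
      · have e1 : J = s := by omega
        rw [e1, Ico_eq_empty (by omega), sum_empty, add_zero]
      · have e1 : J + 1 = 3 * w + 8 := by omega
        rw [e1, ← sum_range_add_sum_Ico f (show 3 * w + 8 ≤ s + 1 by omega)]
        refine add_le_add le_rfl (sum_le_sum (fun i hi => ?_))
        rw [mem_Ico] at hi
        exact hfa i (by omega)
    have hJs : J ≤ s := min_le_right _ _
    set δ : ℝ := (9 / 8) * (1 / 2) ^ (c + 6) + ε with hδ
    have hδ0 : 0 ≤ δ := by positivity
    have hsumJ : ∑ i ∈ range (J + 1), a i ≤ 5 * (m + 1) * A := by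
      refine le_trans ?_ hsumS
      exact sum_le_sum_of_subset_of_nonneg (range_subset_range.mpr (by omega))
        (fun i _ _ => ha0 i)
    have hmain : ∑ i ∈ range (J + 1), f i ≤ δ * (5 * ((2 : ℝ) ^ c + 1)) * A +
        (9 / 16 + ε) * A + (11 / 10) * 2 ^ (c + 5) * (q * (1 / (1 - q))) * A := by
      have hmr : (m : ℝ) = 2 ^ c := by rw [hm]; push_cast; ring
      rw [hmr] at hsumJ
      by_cases hQ : ∃ i ≤ J, ∀ D ∈ F, (D ∩ Ico (k * (s - i)) n).card ≤ i + (c + 5)
      · -- the largest such index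
        set QQ := (range (J + 1)).filter (fun i => ∀ D ∈ F,
          (D ∩ Ico (k * (s - i)) n).card ≤ i + (c + 5)) with hQQ
        have hQQne : QQ.Nonempty := by
          obtain ⟨i, hi, h⟩ := hQ
          exact ⟨i, mem_filter.mpr ⟨mem_range.mpr (by omega), h⟩⟩
        set i0 := QQ.max' hQQne with hi0
        have hi0mem := mem_filter.mp (QQ.max'_mem hQQne)
        have hi0J : i0 ≤ J := by
          have := mem_range.mp hi0mem.1
          omega
        have hpt : ∀ i ∈ range (J + 1), f i ≤ δ * a i + (if i = i0 then (9 / 16 + ε) * A else 0) +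
            (if i < i0 then (11 / 10) * 2 ^ (c + 5) * q ^ (i0 - i) * A else 0) := by
          intro i hi
          rw [mem_range] at hi
          have hiJ : i ≤ J := by omega
          have haAi := haA' i (by omega)
          have hδa : 0 ≤ δ * a i := mul_nonneg hδ0 (ha0 i)
          rcases lt_trichotomy i i0 with h | h | h
          · rw [if_neg (by omega), if_pos h]
            have h1 := hγ i i0 h hi0J hi0mem.2
            have h2 : a i * ((11 / 10) * 2 ^ (c + 5) * q ^ (i0 - i)) ≤
                (11 / 10) * 2 ^ (c + 5) * q ^ (i0 - i) * A := by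
              rw [mul_comm]
              exact mul_le_mul_of_nonneg_left haAi (by positivity)
            linarith
          · rw [if_pos h, if_neg (by omega)]
            have h1 := hβ i hiJ
            have h2 : a i * (9 / 16 + ε) ≤ (9 / 16 + ε) * A := by
              rw [mul_comm]
              exact mul_le_mul_of_nonneg_left haAi (by positivity)
            linarith
          · rw [if_neg (by omega), if_neg (by omega)]
            have hnQ : ¬ ∀ D ∈ F, (D ∩ Ico (k * (s - i)) n).card ≤ i + (c + 5) := by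
              intro hcon
              have : i ≤ i0 := QQ.le_max' i (mem_filter.mpr ⟨mem_range.mpr hi, hcon⟩)
              omega
            push Not at hnQ
            obtain ⟨D, hD, hDc⟩ := hnQ
            have h1 := hα i hiJ ⟨D, hD, by omega⟩
            linarith
        have h1 := sum_le_sum hpt
        rw [sum_add_distrib, sum_add_distrib, ← mul_sum] at h1
        have h2 : ∑ i ∈ range (J + 1), (if i = i0 then (9 / 16 + ε) * (A : ℝ) else 0) =
            (9 / 16 + ε) * A := by
          rw [sum_ite_eq' (range (J + 1)) i0]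
          rw [if_pos (mem_range.mpr (by omega))]
        have h3 : ∑ i ∈ range (J + 1),
            (if i < i0 then (11 / 10) * 2 ^ (c + 5) * q ^ (i0 - i) * (A : ℝ) else 0) ≤
            (11 / 10) * 2 ^ (c + 5) * (q * (1 / (1 - q))) * A := by
          rw [← sum_filter]
          have h4 : (range (J + 1)).filter (fun i => i < i0) = range i0 := by
            ext i
            rw [mem_filter, mem_range, mem_range]
            omega
          rw [h4]
          have h5 : ∑ i ∈ range i0, (11 / 10) * 2 ^ (c + 5) * q ^ (i0 - i) * (A : ℝ) =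
              (11 / 10) * 2 ^ (c + 5) * (q * ∑ i ∈ range i0, q ^ i) * A := by
            rw [← sum_range_reflect, mul_sum, mul_sum, sum_mul]
            refine sum_congr rfl (fun i hi => ?_)
            rw [mem_range] at hi
            rw [show i0 - (i0 - 1 - i) = i + 1 by omega, pow_succ]
            ring
          rw [h5]
          gcongr
          exact geom_le hq0 hq1 _
        rw [h2] at h1
        have h4 : δ * ∑ i ∈ range (J + 1), a i ≤ δ * (5 * ((2 : ℝ) ^ c + 1)) * A := by
          calc δ * ∑ i ∈ range (J + 1), a i ≤ δ * (5 * (2 ^ c + 1) * A) :=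
                mul_le_mul_of_nonneg_left hsumJ hδ0
            _ = _ := by ring
        linarith
      · push Not at hQ
        have h1 : ∑ i ∈ range (J + 1), f i ≤ δ * ∑ i ∈ range (J + 1), a i := by
          rw [mul_sum]
          refine sum_le_sum (fun i hi => ?_)
          rw [mem_range] at hi
          obtain ⟨D, hD, hDc⟩ := hQ i (by omega)
          have := hα i (by omega) ⟨D, hD, by omega⟩
          linarith
        have h4 : δ * ∑ i ∈ range (J + 1), a i ≤ δ * (5 * ((2 : ℝ) ^ c + 1)) * A := by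
          calc δ * ∑ i ∈ range (J + 1), a i ≤ δ * (5 * (2 ^ c + 1) * A) :=
                mul_le_mul_of_nonneg_left hsumJ hδ0
            _ = _ := by ring
        have h5 : 0 ≤ (9 / 16 + ε) * (A : ℝ) := by positivity
        have h6 : 0 ≤ (11 / 10) * 2 ^ (c + 5) * (q * (1 / (1 - q))) * (A : ℝ) := by
          have : 0 < 1 - q := by linarith
          positivity
        linarith
    have hnum := numeric hc16 hkc ε hεb
    rw [← hq, ← hδ] at hnum
    have hfin : δ * (5 * ((2 : ℝ) ^ c + 1)) * A +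
        (9 / 16 + ε) * A + (11 / 10) * 2 ^ (c + 5) * (q * (1 / (1 - q))) * A + A / 100 ≤ A := by
      have h1 : (δ * (5 * ((2 : ℝ) ^ c + 1)) + (9 / 16 + ε) +
          (11 / 10) * 2 ^ (c + 5) * (q * (1 / (1 - q))) + 1 / 100) * A ≤ 1 * A :=
        mul_le_mul_of_nonneg_right hnum hA0
      linarith
    exact hcov'.trans (hsplit.trans ((add_le_add hmain htail).trans hfin))

end Pool.Agent.H93.EF
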