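import Pool.Agent.H93.EF.Reduction

set_option autoImplicit false

open Finset

namespace Pool.Agent.H93.EF

theorem image_pred_injOn : Set.InjOn (fun D : Finset ℕ => D.image Nat.pred)
    {D : Finset ℕ | 0 ∉ D} := by
  intro D hD E hE h
  have h1 : ∀ {A : Finset ℕ}, 0 ∉ A → ∀ x, x ∈ A ↔ (x ≠ 0 ∧ x - 1 ∈ A.image Nat.pred) := by
    intro A hA x
    constructor
    · intro hx
      refine ⟨?_, ?_⟩
      · rintro rfl; exact hA hx
      · rw [mem_image]; exact ⟨x, hx, rfl⟩
    · rintro ⟨hx0, hx⟩
      rw [mem_image] at hx
      obtain ⟨y, hy, hyx⟩ := hx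
      have hy0 : y ≠ 0 := by rintro rfl; exact hA hy
      have : y = x := by
        simp only [Nat.pred_eq_sub_one] at hyx
        omega
      rw [← this]; exact hy
  have h' : D.image Nat.pred = E.image Nat.pred := h
  ext x
  rw [h1 hD x, h1 hE x, h']

theorem card_image_pred {D : Finset ℕ} (hD : 0 ∉ D) : (D.image Nat.pred).card = D.card := by
  refine card_image_of_injOn ?_
  intro x hx y hy h
  have hx0 : x ≠ 0 := by rintro rfl; exact hD hx
  have hy0 : y ≠ 0 := by rintro rfl; exact hD hy
  simp only [Nat.pred_eq_sub_one] at h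
  omega

/-- If the boundary at `0` is empty then the family is at most twice `p(n-1,k,d-1)`. -/
theorem card_le_of_bd_empty {n k d : ℕ} (hk : 0 < k) {F : Finset (Finset ℕ)}
    (hFn : F ⊆ (range (n + 1)).powerset) (hK : KU k (d + 1) F) (hD : Down F)
    (hbd : bd F = ∅) : F.card ≤ 2 * p n k d := by
  classical
  set F0 := F.filter (fun D => 0 ∉ D) with hF0
  set F1 := F.filter (fun D => ¬ (0 ∉ D)) with hF1
  have hins : ∀ D ∈ F0, insert 0 D ∈ F := by
    intro D hD'
    rw [hF0, mem_filter] at hD'
    by_contra hcon
    have : D ∈ bd F := mem_bd.mpr ⟨hD'.1, hD'.2, hcon⟩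
    rw [hbd] at this
    simp at this
  have hsum : F0.card + F1.card = F.card := card_filter_add_card_filter_not _
  have h10 : F1.card ≤ F0.card := by
    refine card_le_card_of_injOn (fun D => D.erase 0) ?_ ?_
    · intro D hD'
      have hD'' := mem_coe.mp hD'
      rw [hF1, mem_filter] at hD''
      rw [mem_coe, hF0, mem_filter]
      exact ⟨hD _ hD''.1 _ (erase_subset _ _), by simp⟩
    · intro D hD' E hE' h
      have hD'' := mem_coe.mp hD'
      have hE'' := mem_coe.mp hE'
      rw [hF1, mem_filter, not_not] at hD'' hE''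
      have h' : D.erase 0 = E.erase 0 := h
      rw [← insert_erase hD''.2, h', insert_erase hE''.2]
  have h0 : F0.card ≤ p n k d := by
    have hinj : Set.InjOn (fun D : Finset ℕ => D.image Nat.pred) F0 := by
      intro D hD' E hE' h
      have hD'' := mem_coe.mp hD'
      have hE'' := mem_coe.mp hE'
      rw [hF0, mem_filter] at hD'' hE''
      exact image_pred_injOn hD''.2 hE''.2 h
    rw [← card_image_of_injOn hinj]
    refine card_le_p ?_ ?_
    · intro E hE
      rw [mem_image] at hE
      obtain ⟨D, hD', rfl⟩ := hE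
      rw [hF0, mem_filter] at hD'
      rw [mem_powerset]
      intro y hy
      rw [mem_image] at hy
      obtain ⟨x, hx, rfl⟩ := hy
      have h1 := mem_powerset.mp (hFn hD'.1) hx
      have h2 : x ≠ 0 := by rintro rfl; exact hD'.2 hx
      rw [mem_range] at h1 ⊢
      simp only [Nat.pred_eq_sub_one]
      omega
    · intro f hf
      have hg : ∀ a, ∃ D, D ∈ F0 ∧ D.image Nat.pred = f a := by
        intro a
        have := hf a
        rw [mem_image] at this
        obtain ⟨D, hD', h⟩ := this
        exact ⟨D, hD', h⟩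
      choose g hg1 hg2 using hg
      have hun : univ.biUnion f = (univ.biUnion g).image Nat.pred := by
        ext x
        simp only [mem_biUnion, mem_image, mem_univ, true_and, ← hg2]
        constructor
        · rintro ⟨a, y, hy, hyx⟩
          exact ⟨y, ⟨a, hy⟩, hyx⟩
        · rintro ⟨y, ⟨a, hy⟩, hyx⟩
          exact ⟨a, y, hy, hyx⟩
      have h00 : 0 ∉ univ.biUnion g := by
        rw [mem_biUnion]
        rintro ⟨a, -, ha⟩
        have := hg1 a
        rw [hF0, mem_filter] at this
        exact this.2 ha
      rw [hun, card_image_pred h00]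
      -- enlarge one member by `0`
      let a0 : Fin k := ⟨0, hk⟩
      have hmem : ∀ a, Function.update g a0 (insert 0 (g a0)) a ∈ F := by
        intro a
        by_cases ha : a = a0
        · subst ha; rw [Function.update_self]; exact hins _ (hg1 _)
        · rw [Function.update_of_ne ha]
          have := hg1 a
          rw [hF0, mem_filter] at this
          exact this.1
      have h1 := hK _ hmem
      have h2 : insert 0 (univ.biUnion g) ⊆
          univ.biUnion (Function.update g a0 (insert 0 (g a0))) := by
        intro x hx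
        rw [mem_insert] at hx
        rw [mem_biUnion]
        rcases hx with rfl | hx
        · exact ⟨a0, mem_univ _, by rw [Function.update_self]; exact mem_insert_self _ _⟩
        · rw [mem_biUnion] at hx
          obtain ⟨b, -, hb⟩ := hx
          refine ⟨b, mem_univ _, ?_⟩
          by_cases hba : b = a0
          · subst hba; rw [Function.update_self]; exact mem_insert_of_mem hb
          · rw [Function.update_of_ne hba]; exact hb
      have h3 := card_le_card h2
      rw [card_insert_of_notMem h00] at h3
      omega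
  omega

theorem exists_card_eq_p (n k d : ℕ) : ∃ F : Finset (Finset ℕ), F ⊆ (range n).powerset ∧
    KU k d F ∧ F.card = p n k d := by
  obtain ⟨F, h1, h2, h3, -⟩ := exists_opt n k d
  exact ⟨F, h1, h2, h3⟩

theorem image_succ_injective : Function.Injective (fun D : Finset ℕ => D.image Nat.succ) :=
  Finset.image_injective Nat.succ_injective

/-- The trivial lower bound `2 p(n,k,d) ≤ p(n+1,k,d+1)`. -/
theorem two_mul_p_le (n k d : ℕ) : 2 * p n k d ≤ p (n + 1) k (d + 1) := by
  classical
  obtain ⟨F, hFn, hFK, hFc⟩ := exists_card_eq_p n k d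
  set A := F.image (fun D : Finset ℕ => D.image Nat.succ) with hA
  have h0A : ∀ D ∈ A, 0 ∉ D := by
    intro D hD h
    rw [hA, mem_image] at hD
    obtain ⟨E, _, rfl⟩ := hD
    rw [mem_image] at h
    obtain ⟨x, _, hx⟩ := h
    exact Nat.succ_ne_zero x hx
  set B := A.image (insert 0 : Finset ℕ → Finset ℕ) with hB
  have hcA : A.card = F.card := card_image_of_injective _ image_succ_injective
  have hcB : B.card = A.card := by
    refine card_image_of_injOn ?_
    intro D hD E hE h
    have h' : insert 0 D = insert 0 E := h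
    rw [← erase_insert (h0A D hD), h', erase_insert (h0A E hE)]
  have hdis : Disjoint A B := by
    rw [disjoint_left]
    intro D h1 h2
    rw [hB, mem_image] at h2
    obtain ⟨E, _, rfl⟩ := h2
    exact h0A _ h1 (mem_insert_self _ _)
  have hAn : ∀ D ∈ A, D ⊆ range (n + 1) := by
    intro D hD
    rw [hA, mem_image] at hD
    obtain ⟨E, hE, rfl⟩ := hD
    intro x hx
    rw [mem_image] at hx
    obtain ⟨y, hy, rfl⟩ := hx
    have := mem_powerset.mp (hFn hE) hy
    rw [mem_range] at this ⊢
    omega
  have hsub : A ∪ B ⊆ (range (n + 1)).powerset := by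
    intro D hD
    rw [mem_union] at hD
    rw [mem_powerset]
    rcases hD with h | h
    · exact hAn D h
    · rw [hB, mem_image] at h
      obtain ⟨E, hE, rfl⟩ := h
      intro x hx
      rw [mem_insert] at hx
      rcases hx with rfl | hx
      · simp
      · exact hAn E hE hx
  have hKU : KU k (d + 1) (A ∪ B) := by
    intro f hf
    have hg : ∀ a, ∃ E ∈ F, f a ⊆ insert 0 (E.image Nat.succ) := by
      intro a
      have := hf a
      rw [mem_union] at this
      rcases this with h | h
      · rw [hA, mem_image] at h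
        obtain ⟨E, hE, h⟩ := h
        exact ⟨E, hE, by rw [← h]; exact subset_insert _ _⟩
      · rw [hB, mem_image] at h
        obtain ⟨D, h, hD⟩ := h
        rw [hA, mem_image] at h
        obtain ⟨E, hE, h⟩ := h
        exact ⟨E, hE, by rw [← hD, ← h]⟩
    choose g hg1 hg2 using hg
    have h1 : univ.biUnion f ⊆ insert 0 ((univ.biUnion g).image Nat.succ) := by
      intro x hx
      rw [mem_biUnion] at hx
      obtain ⟨a, -, ha⟩ := hx
      have := hg2 a ha
      rw [mem_insert, mem_image] at this
      rw [mem_insert, mem_image]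
      rcases this with h | ⟨y, hy, h⟩
      · exact Or.inl h
      · exact Or.inr ⟨y, by rw [mem_biUnion]; exact ⟨a, mem_univ _, hy⟩, h⟩
    have h2 := card_le_card h1
    have h3 := card_insert_le 0 ((univ.biUnion g).image Nat.succ)
    have h4 : ((univ.biUnion g).image Nat.succ).card = (univ.biUnion g).card :=
      card_image_of_injective _ Nat.succ_injective
    have h5 := hFK g hg1
    omega
  have := card_le_p hsub hKU
  rw [card_union_of_disjoint hdis, hcB, hcA, hFc] at this
  omega

/-- **Reduction.** `p(n+1,k,d+1) = 2 p(n,k,d)` unless `k ∣ d+1` and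
`C(n,k-1) ≤ 2 C(n-(d+1)/k,k-1)`. -/
theorem p_succ {n k d : ℕ} (hk : 0 < k)
    (h : ¬ k ∣ d + 1 ∨ 2 * (n - (d + 1) / k).choose (k - 1) < n.choose (k - 1)) :
    p (n + 1) k (d + 1) = 2 * p n k d := by
  refine le_antisymm ?_ (two_mul_p_le n k d)
  obtain ⟨F, hFn, hFK, hFc, hFD, hFS, htot⟩ := exists_opt (n + 1) k (d + 1)
  have hcen := bd_central (Nat.succ_pos n) hFn hFK hFc hFS htot
  have hbd : bd F = ∅ := by
    by_cases hdvd : k ∣ d + 1
    · have h' := h.resolve_left (not_not.mpr hdvd)
      exact bd_empty_of_choose (s := (d + 1) / k) (Nat.succ_pos n) hk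
        (Nat.mul_div_cancel' hdvd) hFn hFK hFc hFS htot (by simpa using h')
    · by_contra hne
      obtain ⟨D, hD⟩ := nonempty_iff_ne_empty.mpr hne
      exact hdvd ⟨_, (hcen D hD).symm⟩
  rw [← hFc]
  exact card_le_of_bd_empty hk hFn hFK hFD hbd

/-- Iterated form: if `d = k s + r` with `r < k` then `p(n,k,d) = 2^r p(n-r,k,ks)`. -/
theorem p_add {k : ℕ} (hk : 0 < k) (s : ℕ) : ∀ (r : ℕ), r < k → ∀ n : ℕ,
    p (n + r) k (k * s + r) = 2 ^ r * p n k (k * s) := by
  intro r
  induction r with
  | zero => intro _ n; simp
  | succ r ih =>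
    intro hr n
    have h1 : ¬ k ∣ k * s + r + 1 := by
      rw [add_assoc, Nat.dvd_add_right (Dvd.intro s rfl)]
      intro hdvd
      have := Nat.le_of_dvd (Nat.succ_pos r) hdvd
      omega
    have h2 := p_succ (n := n + r) hk (Or.inl h1)
    rw [← add_assoc, ← add_assoc, h2, ih (by omega) n]
    ring

end Pool.Agent.H93.EF
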