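import Mathlib
import Pool.Agent.H93.EF.Halving
import Pool.Agent.H93.EF.Bridge

set_option autoImplicit false

open Finset

namespace Pool.Agent.H93.EF

/-- Passing from multiples of `k` to general `d`. -/
theorem conj_add {k : ℕ} (hk : 0 < k) (m s r : ℕ) :
    2 ^ r * conj m k (k * s) ≤ conj (m + r) k (k * s + r) := by
  have hle : ∀ i, i ≤ s → 2 ^ r * (2 ^ (k * s - k * i) *
      ∑ j ∈ Finset.range (i + 1), (m - k * s + k * i).choose j) ≤
        conj (m + r) k (k * s + r) := by
    intro i hi
    have hki : k * i ≤ k * s := Nat.mul_le_mul_left _ hi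
    have h := le_conj (n := m + r) (d := k * s + r) hk (le_trans hki (Nat.le_add_right _ _))
    have e1 : k * s + r - k * i = r + (k * s - k * i) := by omega
    have e2 : m + r - (k * s + r) + k * i = m - k * s + k * i := by omega
    rw [e1, e2, pow_add, mul_assoc] at h
    exact h
  obtain ⟨i, hi, hieq⟩ := exists_mem_eq_sup (Finset.range (k * s / k + 1)) ⟨0, by simp⟩
    (fun i => 2 ^ (k * s - k * i) * ∑ j ∈ Finset.range (i + 1), (m - k * s + k * i).choose j)
  unfold conj at hle ⊢
  rw [hieq]
  rw [Nat.mul_div_cancel_left s hk, mem_range] at hi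
  exact hle i (by omega)

/-- The conjecture for `(m, k, ks)` implies it for `(m + r, k, ks + r)`, `r < k`. -/
theorem le_conj_of_mul {k : ℕ} (hk : 0 < k) {m s r : ℕ} (hr : r < k)
    (h : p m k (k * s) ≤ conj m k (k * s)) :
    p (m + r) k (k * s + r) ≤ conj (m + r) k (k * s + r) := by
  rw [p_add hk s r hr m]
  exact (Nat.mul_le_mul_left _ h).trans (conj_add hk m s r)

end Pool.Agent.H93.EF
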