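import Pool.Agent.H69.EF.Cover
import Pool.Agent.H93.EF.General

set_option autoImplicit false

open Finset

namespace Pool.Agent.H93.EF

/-- The cover function: `cw W D = max_{x ≤ W} Σ_{x ≤ u < W} (1 - #{l : u ∈ D l})`, by recursion on
the number `W` of coordinates. -/
def cw {k : ℕ} : ℕ → (Fin k → Finset ℕ) → ℤ
  | 0, _ => 0
  | W + 1, D => max 0 (1 - ((univ.filter (fun l => W ∈ D l)).card : ℤ) + cw W D)

/-- `Nb t j = Σ_{i ≤ j} C(t,i)` for an integer `j` (it is `0` for negative `j`). -/
def Nb (t : ℕ) (j : ℤ) : ℝ := ∑ i ∈ range (j + 1).toNat, (t.choose i : ℝ)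

theorem cw_nonneg {k : ℕ} (W : ℕ) (D : Fin k → Finset ℕ) : 0 ≤ cw W D := by
  cases W with
  | zero => exact le_refl _
  | succ W => exact le_max_left _ _

/-- every suffix sum is at most the cover function -/
theorem sum_le_cw {k : ℕ} (D : Fin k → Finset ℕ) : ∀ (W x : ℕ), x ≤ W →
    ∑ u ∈ Ico x W, (1 - ((univ.filter (fun l => u ∈ D l)).card : ℤ)) ≤ cw W D := by
  intro W
  induction W with
  | zero =>
    intro x hx
    have : x = 0 := by omega
    subst this
    simp [cw]
  | succ W ih =>
    intro x hx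
    rcases Nat.lt_or_ge W x with h | h
    · rw [Ico_eq_empty (by omega), sum_empty]
      exact cw_nonneg _ _
    · rw [sum_Ico_succ_top h]
      have h1 := ih x h
      have h2 := le_max_right 0 (1 - ((univ.filter (fun l => W ∈ D l)).card : ℤ) + cw W D)
      change _ ≤ max 0 (1 - ((univ.filter (fun l => W ∈ D l)).card : ℤ) + cw W D)
      linarith

theorem suf_split {W x : ℕ} (hx : x ≤ W) (D : Finset ℕ) :
    Pool.Agent.H69.EF.suf x D = ((D ∩ range W).filter (fun b => x ≤ b)).card +
      (D \ range W).card := by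
  unfold Pool.Agent.H69.EF.suf
  rw [← card_union_of_disjoint]
  · congr 1
    ext y
    simp only [mem_filter, mem_union, mem_inter, mem_sdiff, mem_range]
    constructor
    · rintro ⟨h1, h2⟩
      by_cases h : y < W
      · exact Or.inl ⟨⟨h1, h⟩, h2⟩
      · exact Or.inr ⟨h1, h⟩
    · rintro (⟨⟨h1, _⟩, h2⟩ | ⟨h1, h2⟩)
      · exact ⟨h1, h2⟩
      · exact ⟨h1, by omega⟩
  · rw [disjoint_left]
    intro y h1 h2
    rw [mem_filter, mem_inter] at h1
    rw [mem_sdiff] at h2
    exact h2.2 h1.1.2

theorem sum_card_filter_eq {k W x : ℕ} (e : Fin k → Finset ℕ) (he : ∀ l, e l ⊆ range W) :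
    ∑ l, (((e l).filter (fun b => x ≤ b)).card : ℤ) =
      ∑ u ∈ Ico x W, ((univ.filter (fun l => u ∈ e l)).card : ℤ) := by
  have h1 : ∀ l, (((e l).filter (fun b => x ≤ b)).card : ℤ) =
      ∑ u ∈ Ico x W, (if u ∈ e l then (1 : ℤ) else 0) := by
    intro l
    rw [sum_ite, sum_const_zero, add_zero, sum_const, nsmul_eq_mul, mul_one]
    congr 2
    ext y
    simp only [mem_filter, mem_Ico]
    constructor
    · rintro ⟨h1, h2⟩
      exact ⟨⟨h2, mem_range.mp (he l h1)⟩, h1⟩
    · rintro ⟨⟨h1, _⟩, h2⟩
      exact ⟨h2, h1⟩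
  rw [sum_congr rfl (fun l _ => h1 l), sum_comm]
  refine sum_congr rfl (fun u _ => ?_)
  rw [sum_ite, sum_const_zero, add_zero, sum_const, nsmul_eq_mul, mul_one]

/-- **Thresholds.** The extremal number for `d = k s` is bounded by a sum of binomial partial sums
over the cube, with thresholds satisfying the cover condition. -/
theorem exists_thresholds {n k s : ℕ} (hk : 0 < k) :
    ∃ J : Finset ℕ → ℤ,
      (∀ e : Fin k → Finset ℕ, (∀ l, e l ⊆ range (k * s)) → ∑ l, J (e l) ≤ cw (k * s) e) ∧
      (p n k (k * s) : ℝ) ≤ ∑ e ∈ (range (k * s)).powerset, Nb (n - k * s) (J e) := by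
  classical
  obtain ⟨F, hFn, hFK, hFc, hD, hS, -⟩ := exists_opt n k (k * s)
  set W := k * s with hW
  let sec : Finset ℕ → Finset (Finset ℕ) := fun e => F.filter (fun D => D ∩ range W = e)
  let J : Finset ℕ → ℤ := fun e =>
    if (sec e).Nonempty then (((sec e).sup (fun D => (D \ range W).card) : ℕ) : ℤ)
    else -((k * (n + 1) : ℕ) : ℤ)
  have hJn : ∀ e, J e ≤ n := by
    intro e
    simp only [J]
    split_ifs with h
    · norm_cast
      refine Finset.sup_le (fun D hD' => ?_)
      have h1 := mem_powerset.mp (hFn (mem_filter.mp hD').1)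
      calc (D \ range W).card ≤ D.card := card_le_card sdiff_subset
        _ ≤ (range n).card := card_le_card h1
        _ = n := card_range n
    · push_cast
      have : (0 : ℤ) ≤ (k : ℤ) * ((n : ℤ) + 1) := by positivity
      have h2 : (0 : ℤ) ≤ n := Nat.cast_nonneg _
      linarith
  refine ⟨J, ?_, ?_⟩
  · intro e he
    by_cases hall : ∀ l, (sec (e l)).Nonempty
    · have hex : ∀ l, ∃ D ∈ sec (e l), (sec (e l)).sup (fun D => (D \ range W).card) =
          (D \ range W).card := fun l =>
        exists_mem_eq_sup (sec (e l)) (hall l) (fun D => (D \ range W).card)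
      choose D hD1 hD2 using hex
      have hDF : ∀ l, D l ∈ F := fun l => (mem_filter.mp (hD1 l)).1
      have hDe : ∀ l, D l ∩ range W = e l := fun l => (mem_filter.mp (hD1 l)).2
      have hJl : ∀ l, J (e l) = ((D l \ range W).card : ℤ) := by
        intro l
        simp only [J]
        rw [if_pos (hall l), hD2 l]
      obtain ⟨x, hx, hsum⟩ := Pool.Agent.H69.EF.touch hD hS hFK D hDF
      have h1 : ∑ l, (Pool.Agent.H69.EF.suf x (D l) : ℤ) =
          ∑ u ∈ Ico x W, ((univ.filter (fun l => u ∈ e l)).card : ℤ) + ∑ l, J (e l) := by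
        rw [← sum_card_filter_eq e he, ← sum_add_distrib]
        refine sum_congr rfl (fun l _ => ?_)
        rw [suf_split hx, hDe l, hJl l]
        push_cast
        rfl
      have h2 := sum_le_cw e W x hx
      rw [sum_sub_distrib, sum_const, Nat.card_Ico, nsmul_eq_mul, mul_one] at h2
      have h3 : (x : ℤ) + ∑ l, (Pool.Agent.H69.EF.suf x (D l) : ℤ) ≤ W := by exact_mod_cast hsum
      rw [h1] at h3
      push_cast [Nat.cast_sub hx] at h2
      linarith
    · push Not at hall
      obtain ⟨l0, hl0⟩ := hall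
      have h1 : J (e l0) = -((k * (n + 1) : ℕ) : ℤ) := by
        simp only [J]
        rw [if_neg (by rw [hl0]; exact not_nonempty_empty)]
      rw [← add_sum_erase univ (fun l => J (e l)) (mem_univ l0)]
      have h2 : ∑ l ∈ univ.erase l0, J (e l) ≤ ∑ l ∈ (univ : Finset (Fin k)).erase l0, (n : ℤ) :=
        sum_le_sum (fun l _ => hJn (e l))
      rw [sum_const, card_erase_of_mem (mem_univ l0), card_univ, Fintype.card_fin,
        nsmul_eq_mul] at h2
      have h3 := cw_nonneg W e
      rw [h1]
      push_cast at h2 ⊢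
      have h4 : ((k - 1 : ℕ) : ℤ) ≤ k := by norm_cast; omega
      have h5 : (0 : ℤ) ≤ n := Nat.cast_nonneg _
      have h6 : ((k - 1 : ℕ) : ℤ) * n ≤ k * n := mul_le_mul_of_nonneg_right h4 h5
      have h7 : (0 : ℤ) ≤ k := Nat.cast_nonneg _
      nlinarith
  · rw [← hFc]
    have hmap : ∀ D ∈ F, D ∩ range W ∈ (range W).powerset := fun D _ =>
      mem_powerset.mpr inter_subset_right
    rw [card_eq_sum_card_fiberwise hmap]
    push_cast
    refine sum_le_sum (fun e _ => ?_)
    change (((sec e).card : ℕ) : ℝ) ≤ _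
    by_cases hne : (sec e).Nonempty
    · set m := (sec e).sup (fun D => (D \ range W).card) with hm
      have hJe : J e = (m : ℤ) := by
        simp only [J]
        rw [if_pos hne]
      have hcard : (sec e).card ≤ ∑ j ∈ range (m + 1), (n - W).choose j := by
        have h1 := card_powerset_filter_card_le (Ico W n) m
        rw [Nat.card_Ico] at h1
        rw [← h1]
        refine card_le_card_of_injOn (fun D => D \ range W) ?_ ?_
        · intro D hD'
          have hD' := mem_coe.mp hD'
          have hDF := (mem_filter.mp hD').1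
          rw [mem_coe, mem_filter, mem_powerset]
          constructor
          · intro y hy
            rw [mem_sdiff, mem_range] at hy
            have := mem_range.mp (mem_powerset.mp (hFn hDF) hy.1)
            rw [mem_Ico]
            omega
          · exact le_sup (f := fun D => (D \ range W).card) hD'
        · intro D hD' E hE h
          have hD' := (mem_filter.mp (mem_coe.mp hD')).2
          have hE := (mem_filter.mp (mem_coe.mp hE)).2
          have h' : D \ range W = E \ range W := h
          rw [← sdiff_union_inter D (range W), ← sdiff_union_inter E (range W), h', hD', hE]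
      have h2 : Nb (n - W) (J e) = ((∑ j ∈ range (m + 1), (n - W).choose j : ℕ) : ℝ) := by
        unfold Nb
        rw [hJe]
        have : ((m : ℤ) + 1).toNat = m + 1 := by omega
        rw [this]
        push_cast
        rfl
      rw [h2]
      exact_mod_cast hcard
    · rw [not_nonempty_iff_eq_empty] at hne
      rw [hne, card_empty]
      unfold Nb
      push_cast
      positivity

/-- the conjectured value bounds each of the terms -/
theorem term_le_conj {k s t i : ℕ} (hk : 0 < k) (hi : i ≤ s) :
    (2 : ℝ) ^ (k * (s - i)) * Nb (t + k * i) i ≤ (conj (k * s + t) k (k * s) : ℝ) := by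
  have h1 := le_conj (n := k * s + t) (k := k) (d := k * s) (i := i) hk
    (Nat.mul_le_mul_left _ hi)
  have e1 : k * s - k * i = k * (s - i) := (Nat.mul_sub k s i).symm
  have e2 : k * s + t - k * s + k * i = t + k * i := by omega
  rw [e1, e2] at h1
  have h2 : Nb (t + k * i) i = ((∑ j ∈ range (i + 1), (t + k * i).choose j : ℕ) : ℝ) := by
    unfold Nb
    have : ((i : ℤ) + 1).toNat = i + 1 := by omega
    rw [this]
    push_cast
    rfl
  rw [h2]
  exact_mod_cast h1

/-- **Reduction of the upper bound for `d = k s` to an inequality on the cube.** -/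
theorem p_le_conj_of_cube {k s t : ℕ} (hk : 0 < k)
    (H : ∀ J : Finset ℕ → ℤ,
      (∀ e : Fin k → Finset ℕ, (∀ l, e l ⊆ range (k * s)) → ∑ l, J (e l) ≤ cw (k * s) e) →
      ∃ i ≤ s, ∑ e ∈ (range (k * s)).powerset, Nb t (J e) ≤
        2 ^ (k * (s - i)) * Nb (t + k * i) i) :
    p (k * s + t) k (k * s) ≤ conj (k * s + t) k (k * s) := by
  obtain ⟨J, hJ, hp⟩ := exists_thresholds (n := k * s + t) (s := s) hk
  obtain ⟨i, hi, h⟩ := H J hJ
  have e : k * s + t - k * s = t := by omega
  rw [e] at hp
  have h1 := term_le_conj (t := t) hk hi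
  have h2 := hp.trans (h.trans h1)
  exact_mod_cast h2

/-- The conjecture for all `d` follows from the case `k ∣ d`. -/
theorem p_le_conj_of_mul {k : ℕ} (hk : 0 < k)
    (H : ∀ t s, p (k * s + t) k (k * s) ≤ conj (k * s + t) k (k * s)) {n d : ℕ} (hdn : d ≤ n) :
    p n k d ≤ conj n k d := by
  have h1 := Nat.div_add_mod d k
  have h2 := Nat.mod_lt d hk
  have h3 := le_conj_of_mul hk (m := k * (d / k) + (n - d)) (s := d / k) h2 (H (n - d) (d / k))
  have e1 : k * (d / k) + (n - d) + d % k = n := by omega
  rw [e1, h1] at h3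
  exact h3

/-- The frozen statement for a given `k` from the inequality on the cube. -/
theorem isGreatest_of_cube {k : ℕ} (hk : 0 < k)
    (H : ∀ (t s : ℕ) (J : Finset ℕ → ℤ),
      (∀ e : Fin k → Finset ℕ, (∀ l, e l ⊆ range (k * s)) → ∑ l, J (e l) ≤ cw (k * s) e) →
      ∃ i ≤ s, ∑ e ∈ (range (k * s)).powerset, Nb t (J e) ≤
        2 ^ (k * (s - i)) * Nb (t + k * i) i) {n d : ℕ} (hdn : d ≤ n) :
    IsGreatest {m : ℕ | ∃ A : Finset (Finset (Fin n)),
      (∀ f : Fin k → Finset (Fin n), (∀ j, f j ∈ A) →
        (Finset.univ.biUnion f).card ≤ d) ∧ A.card = m}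
      ((Finset.range (d / k + 1)).sup
        (fun i => 2 ^ (d - k * i) *
          ∑ j ∈ Finset.range (i + 1), (n - d + k * i).choose j)) :=
  isGreatest_conj hdn (p_le_conj_of_mul hk (fun t s => p_le_conj_of_cube hk (H t s)) hdn)

end Pool.Agent.H93.EF
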