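import Pool.Agent.H93.EF.Basic

set_option autoImplicit false

open Finset

namespace Pool.Agent.H93.EF

/-- The boundary at the element `0`: members `D` with `0 ∉ D` and `D ∪ {0} ∉ F`. -/
def bd (F : Finset (Finset ℕ)) : Finset (Finset ℕ) := F.filter (fun D => 0 ∉ D ∧ insert 0 D ∉ F)

theorem mem_bd {F : Finset (Finset ℕ)} {D : Finset ℕ} :
    D ∈ bd F ↔ D ∈ F ∧ 0 ∉ D ∧ insert 0 D ∉ F := by
  unfold bd; rw [mem_filter]

/-- Tight tuples consist of pairwise disjoint boundary members. -/
theorem tight {k d : ℕ} {F : Finset (Finset ℕ)} (hK : KU k d F) (hS : Shifted F)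
    {Y : Fin k → Finset ℕ} (hY : ∀ a, Y a ∈ F) (h0 : ∀ a, 0 ∉ Y a)
    (hd : (univ.biUnion Y).card = d) :
    (∀ a, Y a ∈ bd F) ∧ (∀ a b, a ≠ b → Disjoint (Y a) (Y b)) ∧ ∑ a, (Y a).card = d := by
  have h00 : 0 ∉ univ.biUnion Y := by
    rw [mem_biUnion]
    rintro ⟨a, -, ha⟩
    exact h0 a ha
  -- general principle: no tuple from `F` has a union containing `0` and `⋃ Y`
  have key : ∀ Z : Fin k → Finset ℕ, (∀ a, Z a ∈ F) → insert 0 (univ.biUnion Y) ⊆ univ.biUnion Z →
      False := by
    intro Z hZ hsub
    have h1 := card_le_card hsub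
    rw [card_insert_of_notMem h00, hd] at h1
    have h2 := hK Z hZ
    omega
  have hbd : ∀ a, Y a ∈ bd F := by
    intro a
    rw [mem_bd]
    refine ⟨hY a, h0 a, fun hin => ?_⟩
    refine key (Function.update Y a (insert 0 (Y a))) ?_ ?_
    · intro b
      by_cases hb : b = a
      · subst hb; rw [Function.update_self]; exact hin
      · rw [Function.update_of_ne hb]; exact hY b
    · intro x hx
      rw [mem_insert] at hx
      rw [mem_biUnion]
      rcases hx with rfl | hx
      · exact ⟨a, mem_univ _, by rw [Function.update_self]; exact mem_insert_self _ _⟩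
      · rw [mem_biUnion] at hx
        obtain ⟨b, -, hb⟩ := hx
        refine ⟨b, mem_univ _, ?_⟩
        by_cases hba : b = a
        · subst hba; rw [Function.update_self]; exact mem_insert_of_mem hb
        · rw [Function.update_of_ne hba]; exact hb
  have hdis : ∀ a b, a ≠ b → Disjoint (Y a) (Y b) := by
    intro a b hab
    rw [disjoint_left]
    intro x hxa hxb
    have hx0 : x ≠ 0 := by rintro rfl; exact h0 a hxa
    have hsw : insert 0 ((Y a).erase x) ∈ F := hS _ (hY a) 0 x (Nat.pos_of_ne_zero hx0) hxa (h0 a)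
    refine key (Function.update Y a (insert 0 ((Y a).erase x))) ?_ ?_
    · intro c
      by_cases hc : c = a
      · subst hc; rw [Function.update_self]; exact hsw
      · rw [Function.update_of_ne hc]; exact hY c
    · intro y hy
      rw [mem_insert] at hy
      rw [mem_biUnion]
      rcases hy with rfl | hy
      · exact ⟨a, mem_univ _, by rw [Function.update_self]; exact mem_insert_self _ _⟩
      · rw [mem_biUnion] at hy
        obtain ⟨c, -, hc⟩ := hy
        by_cases hyx : y = x
        · subst hyx
          exact ⟨b, mem_univ _, by rw [Function.update_of_ne hab.symm]; exact hxb⟩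
        · refine ⟨c, mem_univ _, ?_⟩
          by_cases hca : c = a
          · subst hca; rw [Function.update_self]
            exact mem_insert_of_mem (mem_erase.mpr ⟨hyx, hc⟩)
          · rw [Function.update_of_ne hca]; exact hc
  refine ⟨hbd, hdis, ?_⟩
  rw [← hd, card_biUnion]
  intro a _ b _ hab
  exact hdis a b hab

/-- The modification of a family at the element `0`. -/
def modify (F G1 G2 : Finset (Finset ℕ)) : Finset (Finset ℕ) := (F \ G2) ∪ G1.image (insert 0)

theorem KU_modify {k d : ℕ} {F G1 G2 : Finset (Finset ℕ)} (hK : KU k d F) (hS : Shifted F)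
    (hG1 : G1 ⊆ bd F) (hdisj : Disjoint G1 G2)
    (hG : ∀ Y : Fin k → Finset ℕ, (∀ a, Y a ∈ bd F) → (∀ a b, a ≠ b → Disjoint (Y a) (Y b)) →
      ∑ a, (Y a).card = d → (∃ a, Y a ∈ G1) → ∃ b, Y b ∈ G2) :
    KU k d (modify F G1 G2) := by
  intro X hX
  have hcl : ∀ a, (X a ∈ F ∧ X a ∉ G2) ∨ ∃ D ∈ G1, X a = insert 0 D := by
    intro a
    have := hX a
    unfold modify at this
    rw [mem_union, mem_sdiff, mem_image] at this
    rcases this with h | ⟨D, hD, h⟩
    · exact Or.inl h
    · exact Or.inr ⟨D, hD, h.symm⟩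
  have hY : ∀ a, ∃ Y : Finset ℕ, Y ∈ F ∧ Y ∉ G2 ∧ X a ⊆ insert 0 Y ∧
      ((X a = Y) ∨ (Y ∈ G1)) ∧ Y ⊆ X a := by
    intro a
    rcases hcl a with ⟨h1, h2⟩ | ⟨D, hD, h⟩
    · exact ⟨X a, h1, h2, subset_insert _ _, Or.inl rfl, Subset.refl _⟩
    · refine ⟨D, (mem_bd.mp (hG1 hD)).1, fun h2 => ?_, by rw [h], Or.inr hD, ?_⟩
      · exact (disjoint_left.mp hdisj) hD h2
      · rw [h]; exact subset_insert _ _
  choose Y hYF hYG hXY hYor hYX using hY
  by_contra hcon
  push Not at hcon
  have hsub : univ.biUnion X ⊆ insert 0 (univ.biUnion Y) := by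
    intro x hx
    rw [mem_biUnion] at hx
    obtain ⟨a, -, ha⟩ := hx
    have := hXY a ha
    rw [mem_insert] at this ⊢
    rcases this with h | h
    · exact Or.inl h
    · right; rw [mem_biUnion]; exact ⟨a, mem_univ _, h⟩
  have h1 := card_le_card hsub
  have h2 := card_insert_le 0 (univ.biUnion Y)
  have h3 := hK Y hYF
  have hcard : (univ.biUnion Y).card = d := by omega
  have h0 : ∀ a, 0 ∉ Y a := by
    intro a ha
    have h00 : 0 ∈ univ.biUnion Y := by rw [mem_biUnion]; exact ⟨a, mem_univ _, ha⟩
    rw [insert_eq_of_mem h00] at h1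
    omega
  obtain ⟨ht1, ht2, ht3⟩ := tight hK hS hYF h0 hcard
  have hex : ∃ a, Y a ∈ G1 := by
    by_contra hno
    push Not at hno
    have : X = Y := funext (fun a => (hYor a).resolve_right (hno a))
    rw [this] at hcon
    omega
  obtain ⟨b, hb⟩ := hG Y ht1 ht2 ht3 hex
  exact hYG b hb

theorem insert_zero_injOn {F G1 : Finset (Finset ℕ)} (hG1 : G1 ⊆ bd F) :
    Set.InjOn (insert 0 : Finset ℕ → Finset ℕ) G1 := by
  intro D hD E hE h
  have hD0 := (mem_bd.mp (hG1 hD)).2.1
  have hE0 := (mem_bd.mp (hG1 hE)).2.1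
  have h' : insert 0 D = insert 0 E := h
  rw [← erase_insert hD0, h', erase_insert hE0]

theorem disjoint_modify {F G1 G2 : Finset (Finset ℕ)} (hG1 : G1 ⊆ bd F) :
    Disjoint (F \ G2) (G1.image (insert 0)) := by
  rw [disjoint_left]
  intro D hD hD2
  rw [mem_image] at hD2
  obtain ⟨E, hE, rfl⟩ := hD2
  exact (mem_bd.mp (hG1 hE)).2.2 (mem_sdiff.mp hD).1

theorem card_modify {F G1 G2 : Finset (Finset ℕ)} (hG1 : G1 ⊆ bd F) (hG2 : G2 ⊆ bd F) :
    (modify F G1 G2).card + G2.card = F.card + G1.card := by
  unfold modify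
  rw [card_union_of_disjoint (disjoint_modify hG1), card_image_of_injOn (insert_zero_injOn hG1)]
  have hG2F : G2 ⊆ F := fun D hD => (mem_bd.mp (hG2 hD)).1
  have := card_sdiff_add_card_eq_card hG2F
  omega

theorem tot_modify {F G1 G2 : Finset (Finset ℕ)} (hG1 : G1 ⊆ bd F) (hG2 : G2 ⊆ bd F) :
    tot (modify F G1 G2) + tot G2 = tot F + tot G1 + G1.card := by
  unfold modify tot
  rw [sum_union (disjoint_modify hG1), sum_image (insert_zero_injOn hG1)]
  have hG2F : G2 ⊆ F := fun D hD => (mem_bd.mp (hG2 hD)).1
  have h1 := sum_sdiff hG2F (f := fun D : Finset ℕ => D.card)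
  have h2 : ∑ D ∈ G1, (insert 0 D).card = ∑ D ∈ G1, D.card + G1.card := by
    rw [card_eq_sum_ones, ← sum_add_distrib]
    refine sum_congr rfl (fun D hD => ?_)
    rw [card_insert_of_notMem (mem_bd.mp (hG1 hD)).2.1]
  omega

theorem modify_subset {n : ℕ} (hn : 0 < n) {F G1 G2 : Finset (Finset ℕ)}
    (hF : F ⊆ (range n).powerset) (hG1 : G1 ⊆ bd F) : modify F G1 G2 ⊆ (range n).powerset := by
  intro D hD
  unfold modify at hD
  rw [mem_union, mem_sdiff, mem_image] at hD
  rcases hD with h | ⟨E, hE, rfl⟩
  · exact hF h.1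
  · have := mem_powerset.mp (hF (mem_bd.mp (hG1 hE)).1)
    rw [mem_powerset]
    intro x hx
    rw [mem_insert] at hx
    rcases hx with rfl | hx
    · simpa using hn
    · exact this hx

/-- In a suitable optimal family every boundary member has size exactly `d / k`. -/
theorem bd_central {n k d : ℕ} (hn : 0 < n) {F : Finset (Finset ℕ)}
    (hFn : F ⊆ (range n).powerset) (hK : KU k d F) (hc : F.card = p n k d) (hS : Shifted F)
    (htot : ∀ F' : Finset (Finset ℕ), F' ⊆ (range n).powerset → KU k d F' → F'.card = p n k d →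
      tot F' ≤ tot F) : ∀ D ∈ bd F, k * D.card = d := by
  classical
  set Gg := (bd F).filter (fun D => d < k * D.card) with hGg
  set Gl := (bd F).filter (fun D => k * D.card < d) with hGl
  have hGgs : Gg ⊆ bd F := filter_subset _ _
  have hGls : Gl ⊆ bd F := filter_subset _ _
  have hdis : Disjoint Gg Gl := by
    rw [disjoint_left]
    intro D h1 h2
    rw [hGg, mem_filter] at h1
    rw [hGl, mem_filter] at h2
    omega
  have hK1 : KU k d (modify F Gg Gl) := by
    refine KU_modify hK hS hGgs hdis ?_
    intro Y hY _ hsum ⟨a, ha⟩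
    by_contra hno
    push Not at hno
    rw [hGg, mem_filter] at ha
    have h1 : ∀ b ∈ (univ : Finset (Fin k)), d ≤ k * (Y b).card := by
      intro b _
      by_contra h
      exact hno b (by rw [hGl, mem_filter]; exact ⟨hY b, by omega⟩)
    have h2 : ∑ _b : Fin k, d < ∑ b : Fin k, k * (Y b).card :=
      sum_lt_sum h1 ⟨a, mem_univ _, ha.2⟩
    rw [← mul_sum, hsum] at h2
    simp at h2
  have hK2 : KU k d (modify F Gl Gg) := by
    refine KU_modify hK hS hGls hdis.symm ?_
    intro Y hY _ hsum ⟨a, ha⟩
    by_contra hno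
    push Not at hno
    rw [hGl, mem_filter] at ha
    have h1 : ∀ b ∈ (univ : Finset (Fin k)), k * (Y b).card ≤ d := by
      intro b _
      by_contra h
      exact hno b (by rw [hGg, mem_filter]; exact ⟨hY b, by omega⟩)
    have h2 : ∑ b : Fin k, k * (Y b).card < ∑ _b : Fin k, d :=
      sum_lt_sum h1 ⟨a, mem_univ _, ha.2⟩
    rw [← mul_sum, hsum] at h2
    simp at h2
  have hc1 := card_modify hGgs hGls
  have hc2 := card_modify hGls hGgs
  have hp1 := card_le_p (modify_subset hn hFn hGgs) hK1
  have hp2 := card_le_p (modify_subset hn hFn hGls) hK2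
  have heq : Gg.card = Gl.card := by omega
  have ht := htot _ (modify_subset hn hFn hGgs) hK1 (by omega)
  have ht1 := tot_modify hGgs hGls
  -- compare the totals
  have h3 : tot Gg + Gg.card ≤ tot Gl := by omega
  have h4 : k * tot Gl ≤ Gl.card * d := by
    unfold tot
    rw [mul_sum, ← smul_eq_mul, ← sum_const]
    refine sum_le_sum (fun D hD => ?_)
    rw [hGl, mem_filter] at hD
    exact hD.2.le
  have h5 : Gg.card * d ≤ k * tot Gg := by
    unfold tot
    rw [mul_sum, ← smul_eq_mul, ← sum_const]
    refine sum_le_sum (fun D hD => ?_)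
    rw [hGg, mem_filter] at hD
    exact hD.2.le
  have h6 : k * Gg.card = 0 := by
    have : k * (tot Gg + Gg.card) ≤ k * tot Gl := Nat.mul_le_mul_left _ h3
    rw [heq] at h5
    have h7 : k * (tot Gg + Gg.card) = k * tot Gg + k * Gg.card := by ring
    omega
  intro D hD
  by_contra hne
  rcases lt_or_gt_of_ne hne with h | h
  · have hDl : D ∈ Gl := by rw [hGl, mem_filter]; exact ⟨hD, h⟩
    have : 0 < Gl.card := card_pos.mpr ⟨D, hDl⟩
    rcases Nat.mul_eq_zero.mp h6 with hk | hg
    · -- k = 0: the only member of the boundary condition forces a contradiction via `hK`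
      subst hk
      -- with `k = 0` every family is valid, so `F` is everything and has empty boundary
      have hall : KU 0 d (insert (insert 0 D) F) := by
        intro f _
        simp
      have hsub : insert (insert 0 D) F ⊆ (range n).powerset := by
        intro S hS'
        rw [mem_insert] at hS'
        rcases hS' with rfl | hS'
        · rw [mem_powerset]
          intro x hx
          rw [mem_insert] at hx
          rcases hx with rfl | hx
          · simpa using hn
          · exact mem_powerset.mp (hFn (mem_bd.mp hD).1) hx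
        · exact hFn hS'
      have := card_le_p hsub hall
      rw [card_insert_of_notMem (mem_bd.mp hD).2.2] at this
      omega
    · omega
  · have hDg : D ∈ Gg := by rw [hGg, mem_filter]; exact ⟨hD, h⟩
    have : 0 < Gg.card := card_pos.mpr ⟨D, hDg⟩
    rcases Nat.mul_eq_zero.mp h6 with hk | hg
    · subst hk; omega
    · omega

/-- The pushing step: for `k ∣ d` the boundary is empty as soon as
`2 * C(n-1-d/k, k-1) < C(n-1, k-1)`. -/
theorem bd_empty_of_choose {n k d s : ℕ} (hn : 0 < n) (hk : 0 < k) (hd : k * s = d)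
    {F : Finset (Finset ℕ)}
    (hFn : F ⊆ (range n).powerset) (hK : KU k d F) (hc : F.card = p n k d) (hS : Shifted F)
    (htot : ∀ F' : Finset (Finset ℕ), F' ⊆ (range n).powerset → KU k d F' → F'.card = p n k d →
      tot F' ≤ tot F)
    (hch : 2 * (n - 1 - s).choose (k - 1) < (n - 1).choose (k - 1)) : bd F = ∅ := by
  classical
  have hcen := bd_central hn hFn hK hc hS htot
  have hcard : ∀ D ∈ bd F, D.card = s := by
    intro D hD
    have := hcen D hD
    rw [← hd] at this
    exact Nat.eq_of_mul_eq_mul_left hk this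
  have hsubI : ∀ D ∈ bd F, D ⊆ Ico 1 n := by
    intro D hD x hx
    have h1 := mem_powerset.mp (hFn (mem_bd.mp hD).1) hx
    rw [mem_range] at h1
    rw [mem_Ico]
    refine ⟨?_, h1⟩
    rcases Nat.eq_zero_or_pos x with h | h
    · subst h; exact absurd hx (mem_bd.mp hD).2.1
    · exact h
  -- for each `J` of size `k - 1` at most half of the boundary meets `J`
  have hJ : ∀ J ∈ (Ico 1 n).powersetCard (k - 1),
      2 * ((bd F).filter (fun D => ¬ Disjoint D J)).card ≤ (bd F).card := by
    intro J hJ
    set G1 := (bd F).filter (fun D => ¬ Disjoint D J) with hG1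
    set G2 := (bd F).filter (fun D => Disjoint D J) with hG2
    have hG1s : G1 ⊆ bd F := filter_subset _ _
    have hG2s : G2 ⊆ bd F := filter_subset _ _
    have hdis : Disjoint G1 G2 := by
      rw [disjoint_left]
      intro D h1 h2
      rw [hG1, mem_filter] at h1
      rw [hG2, mem_filter] at h2
      exact h1.2 h2.2
    have hsum : G1.card + G2.card = (bd F).card := by
      rw [hG1, hG2, add_comm]
      exact card_filter_add_card_filter_not _
    have hK1 : KU k d (modify F G1 G2) := by
      refine KU_modify hK hS hG1s hdis ?_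
      intro Y hY hYd _ _
      by_contra hno
      push Not at hno
      have h1 : ∀ b, ∃ x, x ∈ Y b ∧ x ∈ J := by
        intro b
        have h2 : ¬ Disjoint (Y b) J := by
          intro h
          exact hno b (by rw [hG2, mem_filter]; exact ⟨hY b, h⟩)
        rw [not_disjoint_iff] at h2
        exact h2
      choose x hx1 hx2 using h1
      have hinj : Function.Injective x := by
        intro a b hab
        by_contra hne
        have h2 := hYd a b hne
        rw [disjoint_left] at h2
        exact h2 (hx1 a) (by rw [hab]; exact hx1 b)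
      have h3 : (univ.image x).card ≤ J.card :=
        card_le_card (fun y hy => by
          rw [mem_image] at hy
          obtain ⟨b, _, rfl⟩ := hy
          exact hx2 b)
      rw [card_image_of_injective _ hinj, card_univ, Fintype.card_fin,
        (mem_powersetCard.mp hJ).2] at h3
      omega
    have hp := card_le_p (modify_subset hn hFn hG1s) hK1
    have hcm := card_modify hG1s hG2s
    omega
  -- double counting
  by_contra hne
  have hpos : 0 < (bd F).card := card_pos.mpr (nonempty_iff_ne_empty.mpr hne)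
  have hdc : ∑ J ∈ (Ico 1 n).powersetCard (k - 1), ((bd F).filter (fun D => ¬ Disjoint D J)).card
      = ∑ D ∈ bd F, (((Ico 1 n).powersetCard (k - 1)).filter (fun J => ¬ Disjoint D J)).card := by
    simp only [card_filter]
    exact sum_comm
  have hcountD : ∀ D ∈ bd F,
      (((Ico 1 n).powersetCard (k - 1)).filter (fun J => ¬ Disjoint D J)).card +
        (n - 1 - s).choose (k - 1) = (n - 1).choose (k - 1) := by
    intro D hD
    have h1 : (((Ico 1 n).powersetCard (k - 1)).filter (fun J => Disjoint D J)) =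
        (Ico 1 n \ D).powersetCard (k - 1) := by
      ext J
      rw [mem_filter, mem_powersetCard, mem_powersetCard, subset_sdiff]
      constructor
      · rintro ⟨⟨h1, h2⟩, h3⟩
        exact ⟨⟨h1, h3.symm⟩, h2⟩
      · rintro ⟨⟨h1, h3⟩, h2⟩
        exact ⟨⟨h1, h2⟩, h3.symm⟩
    have h2 : (((Ico 1 n).powersetCard (k - 1)).filter (fun J => Disjoint D J)).card =
        (n - 1 - s).choose (k - 1) := by
      rw [h1, card_powersetCard, card_sdiff_of_subset (hsubI D hD), Nat.card_Ico, hcard D hD]
    have h3 := card_filter_add_card_filter_not (s := (Ico 1 n).powersetCard (k - 1))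
      (fun J => Disjoint D J)
    rw [card_powersetCard, Nat.card_Ico, h2] at h3
    omega
  have hsum1 : 2 * ∑ J ∈ (Ico 1 n).powersetCard (k - 1),
      ((bd F).filter (fun D => ¬ Disjoint D J)).card ≤ (n - 1).choose (k - 1) * (bd F).card := by
    rw [mul_sum]
    refine le_trans (sum_le_sum hJ) ?_
    rw [sum_const, card_powersetCard, Nat.card_Ico, smul_eq_mul]
  rw [hdc] at hsum1
  have hsum2 : ∑ D ∈ bd F, ((((Ico 1 n).powersetCard (k - 1)).filter
      (fun J => ¬ Disjoint D J)).card + (n - 1 - s).choose (k - 1)) =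
      (bd F).card * (n - 1).choose (k - 1) := by
    rw [sum_congr rfl hcountD, sum_const, smul_eq_mul]
  rw [sum_add_distrib, sum_const, smul_eq_mul] at hsum2
  have h7 : (bd F).card * (2 * (n - 1 - s).choose (k - 1)) <
      (bd F).card * (n - 1).choose (k - 1) := Nat.mul_lt_mul_of_pos_left hch hpos
  nlinarith

end Pool.Agent.H93.EF
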